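import Mathlib
import Pool.Agent.H556R4.Dob

/-!
# Branches of Markov chains: integrating out a chain of coordinates, contraction
-/

namespace Pool.Agent.Q295.YM

open MeasureTheory Function
open Pool.Agent.H556R4.Dob

set_option linter.unusedSectionVars false

/-- measurable functions bounded above and below by positive constants -/
structure PB {α : Type} [MeasurableSpace α] (f : α → ℝ) : Prop where
  meas : Measurable f
  lb : ∃ a, 0 < a ∧ ∀ x, a ≤ f x
  ub : ∃ b, ∀ x, f x ≤ b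

lemma PB.pos {α : Type} [MeasurableSpace α] {f : α → ℝ} (h : PB f) (x : α) : 0 < f x := by
  obtain ⟨a, ha, h⟩ := h.lb
  exact ha.trans_le (h x)

lemma PB.bm {α : Type} [MeasurableSpace α] {f : α → ℝ} (h : PB f) : BM f := by
  obtain ⟨b, hb⟩ := h.ub
  exact ⟨h.meas, b, fun x => by rw [abs_of_pos (h.pos x)]; exact hb x⟩

lemma PB.mul {α : Type} [MeasurableSpace α] {f g : α → ℝ} (hf : PB f) (hg : PB g) :
    PB fun x => f x * g x := by
  obtain ⟨a, ha, h1⟩ := hf.lb
  obtain ⟨b, hb, h2⟩ := hg.lb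
  obtain ⟨c, h3⟩ := hf.ub
  obtain ⟨d, h4⟩ := hg.ub
  refine ⟨hf.meas.mul hg.meas, ⟨a * b, by positivity, fun x => ?_⟩, ⟨c * d, fun x => ?_⟩⟩
  · exact mul_le_mul (h1 x) (h2 x) hb.le (hf.pos x).le
  · exact mul_le_mul (h3 x) (h4 x) (hg.pos x).le ((hf.pos x).le.trans (h3 x))

lemma PB.comp {α β : Type} [MeasurableSpace α] [MeasurableSpace β] {f : α → ℝ} (hf : PB f)
    {g : β → α} (hg : Measurable g) : PB fun b => f (g b) := by
  obtain ⟨a, ha, h1⟩ := hf.lb
  obtain ⟨c, h3⟩ := hf.ub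
  exact ⟨hf.meas.comp hg, ⟨a, ha, fun b => h1 _⟩, ⟨c, fun b => h3 _⟩⟩

lemma PB.one {α : Type} [MeasurableSpace α] : PB (fun _ : α => (1 : ℝ)) :=
  ⟨measurable_const, ⟨1, one_pos, fun _ => le_rfl⟩, ⟨1, fun _ => le_rfl⟩⟩

lemma PB.exp {α : Type} [MeasurableSpace α] {f : α → ℝ} (hf : BM f) :
    PB fun x => Real.exp (f x) := by
  obtain ⟨c, hc⟩ := hf.bdd
  exact ⟨hf.meas.exp, ⟨Real.exp (-c), Real.exp_pos _, fun x =>
    Real.exp_le_exp.2 (neg_le_of_abs_le (hc x))⟩, ⟨Real.exp c, fun x =>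
    Real.exp_le_exp.2 (le_of_abs_le (hc x))⟩⟩

lemma PB.prod {α κ : Type} [MeasurableSpace α] (s : Finset κ) {f : κ → α → ℝ}
    (hf : ∀ i ∈ s, PB (f i)) : PB fun x => ∏ i ∈ s, f i x := by
  classical
  induction s using Finset.induction_on with
  | empty => simpa using PB.one
  | insert i s hi ih =>
    have h1 : PB fun x => f i x * ∏ j ∈ s, f j x :=
      (hf i (Finset.mem_insert_self _ _)).mul
        (ih fun j hj => hf j (Finset.mem_insert_of_mem hj))
    have h2 : (fun x => ∏ j ∈ insert i s, f j x) = fun x => f i x * ∏ j ∈ s, f j x := by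
      funext x
      rw [Finset.prod_insert hi]
    rw [h2]
    exact h1

lemma PB.integral_pos {α : Type} [MeasurableSpace α] {f : α → ℝ} (hf : PB f) (ν : Measure α)
    [IsProbabilityMeasure ν] : 0 < ∫ x, f x ∂ν := by
  obtain ⟨a, ha, h⟩ := hf.lb
  exact integral_pos_of_lb ν hf.bm ha h

/-- integrating out one variable -/
lemma PB.integral {α β : Type} [MeasurableSpace α] [MeasurableSpace β] (ν : Measure β)
    [IsProbabilityMeasure ν] {f : α × β → ℝ} (hf : PB f) : PB fun x => ∫ y, f (x, y) ∂ν := by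
  obtain ⟨a, ha, h1⟩ := hf.lb
  obtain ⟨c, h3⟩ := hf.ub
  have hb : ∀ x, BM fun y => f (x, y) := fun x => hf.bm.comp measurable_prodMk_left
  refine ⟨?_, ⟨a, ha, fun x => ?_⟩, ⟨c, fun x => ?_⟩⟩
  · exact (hf.meas.stronglyMeasurable.integral_prod_right (f := fun x y => f (x, y))).measurable
  · have := integral_mono (μ := ν) (integrable_const a) ((hb x).integrable ν) fun y => h1 (x, y)
    simpa using this
  · have := integral_mono (μ := ν) ((hb x).integrable ν) (integrable_const c) fun y => h3 (x, y)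
    simpa using this

lemma BM.integral' {α β : Type} [MeasurableSpace α] [MeasurableSpace β] (ν : Measure β)
    [IsProbabilityMeasure ν] {f : α × β → ℝ} (hf : BM f) : BM fun x => ∫ y, f (x, y) ∂ν := by
  obtain ⟨c, h3⟩ := hf.bdd
  refine ⟨?_, c, fun x => ?_⟩
  · exact (hf.meas.stronglyMeasurable.integral_prod_right (f := fun x y => f (x, y))).measurable
  · have := norm_integral_le_of_norm_le_const (μ := ν) (f := fun y => f (x, y)) (C := c)
      (Filter.Eventually.of_forall fun y => h3 (x, y))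
    simpa using this

lemma BM.add' {α : Type} [MeasurableSpace α] {f g : α → ℝ} (hf : BM f) (hg : BM g) :
    BM fun a => f a + g a := by
  obtain ⟨c, hc⟩ := hf.bdd
  obtain ⟨d, hd⟩ := hg.bdd
  exact ⟨hf.meas.add hg.meas, c + d, fun a => (abs_add_le _ _).trans (add_le_add (hc a) (hd a))⟩

lemma BM.sub' {α : Type} [MeasurableSpace α] {f g : α → ℝ} (hf : BM f) (hg : BM g) :
    BM fun a => f a - g a := by
  obtain ⟨c, hc⟩ := hf.bdd
  obtain ⟨d, hd⟩ := hg.bdd
  exact ⟨hf.meas.sub hg.meas, c + d, fun a => (abs_sub _ _).trans (add_le_add (hc a) (hd a))⟩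

lemma BM.const {α : Type} [MeasurableSpace α] (c : ℝ) : BM fun _ : α => c :=
  ⟨measurable_const, |c|, fun _ => le_rfl⟩

lemma PB.div_bm {α : Type} [MeasurableSpace α] {f g : α → ℝ} (hf : BM f) (hg : PB g) :
    BM fun a => f a / g a := by
  obtain ⟨c, hc⟩ := hf.bdd
  obtain ⟨a, ha, h1⟩ := hg.lb
  refine ⟨hf.meas.div hg.meas, |c| / a, fun x => ?_⟩
  rw [abs_div, abs_of_pos (hg.pos x)]
  exact div_le_div₀ (abs_nonneg _) ((hc x).trans (le_abs_self _)) ha (h1 x)

variable {ι X : Type} [Fintype ι] [DecidableEq ι] [MeasurableSpace X]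
variable (σ : Measure X) [IsProbabilityMeasure σ]

/-- partition function of a chain with kernels `κ`, length `n`, final weight `h` -/
noncomputable def Zf (h : X → ℝ) : ℕ → (ℕ → X → X → ℝ) → X → ℝ
  | 0, _ => h
  | n + 1, κ => fun x => ∫ y, κ 0 x y * Zf h n (fun i => κ (i + 1)) y ∂σ

/-- expectation with respect to a chain along the coordinates `c` -/
noncomputable def Br (h : X → ℝ) :
    ℕ → (ℕ → ι) → (ℕ → X → X → ℝ) → ((ι → X) → ℝ) → (ι → X) → ℝ
  | 0, _, _, f => f
  | n + 1, c, κ, f => fun x =>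
    (∫ y, κ 0 (x (c 0)) y * Zf σ h n (fun i => κ (i + 1)) y *
      Br h n (fun i => c (i + 1)) (fun i => κ (i + 1)) f (update x (c 1) y) ∂σ) /
      Zf σ h (n + 1) κ (x (c 0))

variable {σ}

/-- admissible kernels -/
def Ker (κ : ℕ → X → X → ℝ) : Prop := ∀ i, PB fun p : X × X => κ i p.1 p.2

lemma Ker.shift {κ : ℕ → X → X → ℝ} (hκ : Ker κ) : Ker fun i => κ (i + 1) := fun i => hκ (i + 1)

lemma Zf_pb {h : X → ℝ} (hh : PB h) : ∀ (n : ℕ) (κ : ℕ → X → X → ℝ), Ker κ → PB (Zf σ h n κ)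
  | 0, _, _ => hh
  | n + 1, κ, hκ => by
    have h1 := Zf_pb hh n (fun i => κ (i + 1)) hκ.shift
    have h2 : PB fun p : X × X => κ 0 p.1 p.2 * Zf σ h n (fun i => κ (i + 1)) p.2 :=
      (hκ 0).mul (h1.comp measurable_snd)
    exact PB.integral σ h2

lemma Zf_bm {h : X → ℝ} (hh : BM h) : ∀ (n : ℕ) (κ : ℕ → X → X → ℝ), Ker κ → BM (Zf σ h n κ)
  | 0, _, _ => hh
  | n + 1, κ, hκ => by
    have h1 := Zf_bm hh n (fun i => κ (i + 1)) hκ.shift
    have h2 : BM fun p : X × X => κ 0 p.1 p.2 * Zf σ h n (fun i => κ (i + 1)) p.2 :=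
      (hκ 0).bm.mul (h1.comp measurable_snd)
    exact BM.integral' σ h2

lemma Br_bm {h : X → ℝ} (hh : PB h) : ∀ (n : ℕ) (c : ℕ → ι) (κ : ℕ → X → X → ℝ), Ker κ →
    ∀ f : (ι → X) → ℝ, BM f → BM (Br σ h n c κ f)
  | 0, _, _, _, _, hf => hf
  | n + 1, c, κ, hκ, f, hf => by
    have h1 := Br_bm hh n (fun i => c (i + 1)) (fun i => κ (i + 1)) hκ.shift f hf
    have h2 := Zf_pb (σ := σ) hh n (fun i => κ (i + 1)) hκ.shift
    have h3 := Zf_pb (σ := σ) hh (n + 1) κ hκ
    refine PB.div_bm (f := fun x : ι → X => ∫ y, κ 0 (x (c 0)) y *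
      Zf σ h n (fun i => κ (i + 1)) y *
      Br σ h n (fun i => c (i + 1)) (fun i => κ (i + 1)) f (update x (c 1) y) ∂σ) ?_
      (h3.comp (measurable_pi_apply (c 0)))
    refine BM.integral' σ (f := fun p : (ι → X) × X => κ 0 (p.1 (c 0)) p.2 *
      Zf σ h n (fun i => κ (i + 1)) p.2 *
      Br σ h n (fun i => c (i + 1)) (fun i => κ (i + 1)) f (update p.1 (c 1) p.2)) ?_
    refine BM.mul (BM.mul ?_ (h2.bm.comp measurable_snd)) (h1.comp (measurable_update_pair (c 1)))
    exact BM.comp (hκ 0).bm (g := fun p : (ι → X) × X => (p.1 (c 0), p.2))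
      (((measurable_pi_apply (c 0)).comp measurable_fst).prodMk measurable_snd)

/-- weight of a chain -/
noncomputable def W (h : X → ℝ) : ℕ → (ℕ → ι) → (ℕ → X → X → ℝ) → (ι → X) → ℝ
  | 0, c, _ => fun x => h (x (c 0))
  | n + 1, c, κ => fun x => κ 0 (x (c 0)) (x (c 1)) * W h n (fun i => c (i + 1)) (fun i => κ (i + 1)) x

lemma W_pb {h : X → ℝ} (hh : PB h) : ∀ (n : ℕ) (c : ℕ → ι) (κ : ℕ → X → X → ℝ), Ker κ →
    PB (W h n c κ)
  | 0, c, _, _ => hh.comp (measurable_pi_apply (c 0))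
  | n + 1, c, κ, hκ => by
    have h1 := W_pb hh n (fun i => c (i + 1)) (fun i => κ (i + 1)) hκ.shift
    refine PB.mul ?_ h1
    exact PB.comp (hκ 0) (g := fun x : ι → X => (x (c 0), x (c 1)))
      ((measurable_pi_apply (c 0)).prodMk (measurable_pi_apply (c 1)))

/-- **Elimination of a branch.** -/
lemma integral_Br {h : X → ℝ} (hh : PB h) : ∀ (n : ℕ) (c : ℕ → ι) (κ : ℕ → X → X → ℝ), Ker κ →
    (∀ i j, i ≤ n → j ≤ n → c i = c j → i = j) → ∀ f g : (ι → X) → ℝ, BM f → BM g →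
    (∀ i, 1 ≤ i → i ≤ n → ∀ x y, g (update x (c i) y) = g x) →
    ∫ U, f U * (g U * W h n c κ U) ∂(Pm σ : Measure (ι → X)) =
      ∫ U, Br σ h n c κ f U * (g U * Zf σ h n κ (U (c 0))) ∂(Pm σ : Measure (ι → X))
  | 0, _, _, _, _, _, _, _, _, _ => rfl
  | n + 1, c, κ, hκ, hc, f, g, hf, hg, hgc => by
    have h0 := integral_Br hh n (fun i => c (i + 1)) (fun i => κ (i + 1)) hκ.shift
      (fun i j hi hj hij => by
        have := hc (i + 1) (j + 1) (by omega) (by omega) hij
        omega) f (fun U => g U * κ 0 (U (c 0)) (U (c 1))) hf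
      (hg.mul (BM.comp (hκ 0).bm (g := fun x : ι → X => (x (c 0), x (c 1)))
        ((measurable_pi_apply (c 0)).prodMk (measurable_pi_apply (c 1)))))
      (fun i hi hin x y => by
        have e0 : c 0 ≠ c (i + 1) := fun hh' => by
          have := hc 0 (i + 1) (by omega) (by omega) hh'
          omega
        have e1 : c 1 ≠ c (i + 1) := fun hh' => by
          have := hc 1 (i + 1) (by omega) (by omega) hh'
          omega
        show g (update x (c (i + 1)) y) * κ 0 (update x (c (i + 1)) y (c 0))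
          (update x (c (i + 1)) y (c 1)) = _
        rw [hgc (i + 1) (by omega) (by omega), update_of_ne e0, update_of_ne e1])
    have e1 : ∫ U, f U * (g U * W h (n + 1) c κ U) ∂(Pm σ : Measure (ι → X)) =
        ∫ U, f U * ((fun U => g U * κ 0 (U (c 0)) (U (c 1))) U *
          W h n (fun i => c (i + 1)) (fun i => κ (i + 1)) U) ∂(Pm σ : Measure (ι → X)) := by
      refine integral_congr_ae (Filter.Eventually.of_forall fun U => ?_)
      show f U * (g U * (κ 0 (U (c 0)) (U (c 1)) * _)) = _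
      ring
    rw [e1, h0]
    have hB := Br_bm (σ := σ) hh n (fun i => c (i + 1)) (fun i => κ (i + 1)) hκ.shift f hf
    have hZ := Zf_pb (σ := σ) hh n (fun i => κ (i + 1)) hκ.shift
    have hbm : BM fun U : ι → X => Br σ h n (fun i => c (i + 1)) (fun i => κ (i + 1)) f U *
        ((fun U => g U * κ 0 (U (c 0)) (U (c 1))) U * Zf σ h n (fun i => κ (i + 1)) (U (c (0 + 1)))) := by
      refine hB.mul (BM.mul (hg.mul (BM.comp (hκ 0).bm (g := fun x : ι → X => (x (c 0), x (c 1)))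
        ((measurable_pi_apply (c 0)).prodMk (measurable_pi_apply (c 1)))))
        (hZ.bm.comp (measurable_pi_apply (c 1))))
    rw [integral_update σ (c 1) _ hbm]
    refine integral_congr_ae (Filter.Eventually.of_forall fun U => ?_)
    have e0 : c 0 ≠ c 1 := fun hh' => by
      have := hc 0 1 (by omega) (by omega) hh'
      omega
    have hZ' := Zf_pb (σ := σ) hh (n + 1) κ hκ
    show ∫ y, Br σ h n (fun i => c (i + 1)) (fun i => κ (i + 1)) f (update U (c 1) y) *
        ((g (update U (c 1) y) * κ 0 (update U (c 1) y (c 0)) (update U (c 1) y (c 1))) *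
          Zf σ h n (fun i => κ (i + 1)) (update U (c 1) y (c 1))) ∂σ = _
    have e2 : ∀ y, Br σ h n (fun i => c (i + 1)) (fun i => κ (i + 1)) f (update U (c 1) y) *
        ((g (update U (c 1) y) * κ 0 (update U (c 1) y (c 0)) (update U (c 1) y (c 1))) *
          Zf σ h n (fun i => κ (i + 1)) (update U (c 1) y (c 1))) = g U * (κ 0 (U (c 0)) y *
        Zf σ h n (fun i => κ (i + 1)) y *
        Br σ h n (fun i => c (i + 1)) (fun i => κ (i + 1)) f (update U (c 1) y)) := by
      intro y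
      rw [hgc 1 le_rfl (by omega), update_of_ne e0, update_self]
      ring
    simp only [e2]
    rw [integral_const_mul]
    show _ = (∫ y, κ 0 (U (c 0)) y * Zf σ h n (fun i => κ (i + 1)) y *
      Br σ h n (fun i => c (i + 1)) (fun i => κ (i + 1)) f (update U (c 1) y) ∂σ) /
      Zf σ h (n + 1) κ (U (c 0)) * (g U * Zf σ h (n + 1) κ (U (c 0)))
    have := (hZ'.pos (U (c 0))).ne'
    field_simp

end Pool.Agent.Q295.YM
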