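import Mathlib
import Pool.Agent.Q295.YM.Branch

/-!
# Oscillations of the expectation along a branch
-/

namespace Pool.Agent.Q295.YM

open MeasureTheory Function
open Pool.Agent.H556R4.Dob

set_option linter.unusedSectionVars false

variable {ι X : Type} [Fintype ι] [DecidableEq ι] [MeasurableSpace X]
variable {σ : Measure X} [IsProbabilityMeasure σ]

/-- oscillations in the coordinates -/
def OscH (f : (ι → X) → ℝ) (D : ι → ℝ) : Prop :=
  (∀ x, 0 ≤ D x) ∧ ∀ x V g, |f (update V x g) - f V| ≤ D x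

lemma OscH.tele {f : (ι → X) → ℝ} {D : ι → ℝ} (hD : OscH f D) : ∀ (S : Finset ι) (z x : ι → X),
    (∀ w, w ∉ S → z w = x w) → |f z - f x| ≤ ∑ w ∈ S, D w := by
  intro S
  induction S using Finset.induction_on with
  | empty =>
    intro z x h
    have : z = x := funext fun w => h w (Finset.notMem_empty w)
    simp [this]
  | insert a S ha ih =>
    intro z x h
    have h1 : |f z - f (update z a (x a))| ≤ D a := by
      have := hD.2 a (update z a (x a)) (z a)
      rwa [update_idem, update_eq_self] at this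
    have h2 := ih (update z a (x a)) x (fun w hw => by
      by_cases hwa : w = a
      · subst hwa; simp
      · rw [update_of_ne hwa]
        exact h w (by simp [hwa, hw]))
    rw [Finset.sum_insert ha]
    calc |f z - f x| = |(f z - f (update z a (x a))) + (f (update z a (x a)) - f x)| := by ring_nf
      _ ≤ _ := (abs_add_le _ _).trans (add_le_add h1 h2)

/-- monotonicity of the branch expectation -/
lemma Br_le {h : X → ℝ} (hh : PB h) : ∀ (n : ℕ) (c : ℕ → ι) (κ : ℕ → X → X → ℝ), Ker κ →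
    ∀ f f' : (ι → X) → ℝ, BM f → BM f' → ∀ (x : ι → X) (K : ℝ),
    (∀ z : ι → X, (∀ w, (∀ i, 1 ≤ i → i ≤ n → w ≠ c i) → z w = x w) → f z ≤ f' z + K) →
    Br σ h n c κ f x ≤ Br σ h n c κ f' x + K
  | 0, _, _, _, _, _, _, _, x, K, hK => hK x fun _ _ => rfl
  | n + 1, c, κ, hκ, f, f', hf, hf', x, K, hK => by
    have hZ := Zf_pb (σ := σ) hh n (fun i => κ (i + 1)) hκ.shift
    have hZ' := Zf_pb (σ := σ) hh (n + 1) κ hκ
    have hB := Br_bm (σ := σ) hh n (fun i => c (i + 1)) (fun i => κ (i + 1)) hκ.shift f hf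
    have hB' := Br_bm (σ := σ) hh n (fun i => c (i + 1)) (fun i => κ (i + 1)) hκ.shift f' hf'
    have hw : PB fun y => κ 0 (x (c 0)) y * Zf σ h n (fun i => κ (i + 1)) y :=
      PB.mul (PB.comp (hκ 0) (g := fun y : X => (x (c 0), y)) measurable_prodMk_left) hZ
    have ih : ∀ y, Br σ h n (fun i => c (i + 1)) (fun i => κ (i + 1)) f (update x (c 1) y) ≤
        Br σ h n (fun i => c (i + 1)) (fun i => κ (i + 1)) f' (update x (c 1) y) + K := by
      intro y
      refine Br_le hh n _ _ hκ.shift f f' hf hf' _ K fun z hz => hK z fun w hw => ?_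
      have h1 := hz w (fun i hi hin => hw (i + 1) (by omega) (by omega))
      rw [h1, update_of_ne (hw 1 le_rfl (by omega))]
    show (∫ y, κ 0 (x (c 0)) y * Zf σ h n (fun i => κ (i + 1)) y *
      Br σ h n (fun i => c (i + 1)) (fun i => κ (i + 1)) f (update x (c 1) y) ∂σ) /
      Zf σ h (n + 1) κ (x (c 0)) ≤ (∫ y, κ 0 (x (c 0)) y * Zf σ h n (fun i => κ (i + 1)) y *
      Br σ h n (fun i => c (i + 1)) (fun i => κ (i + 1)) f' (update x (c 1) y) ∂σ) /
      Zf σ h (n + 1) κ (x (c 0)) + K
    have hpos := hZ'.pos (x (c 0))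
    rw [div_add' _ _ _ hpos.ne']
    refine div_le_div_of_nonneg_right ?_ hpos.le
    have e1 : K * Zf σ h (n + 1) κ (x (c 0)) =
        ∫ y, K * (κ 0 (x (c 0)) y * Zf σ h n (fun i => κ (i + 1)) y) ∂σ := by
      rw [integral_const_mul]; rfl
    have i1 := (hw.bm.mul (hB.comp (measurable_update_right (c 1) x))).integrable σ
    have i2 := (hw.bm.mul (hB'.comp (measurable_update_right (c 1) x))).integrable σ
    have i3 := (hw.bm.integrable σ).const_mul K
    rw [e1, ← integral_add i2 i3]
    refine integral_mono i1 (i2.add i3) fun y => ?_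
    have := mul_le_mul_of_nonneg_left (ih y) (hw.pos y).le
    simp only [Pi.add_apply]
    linarith

lemma Br_abs {h : X → ℝ} (hh : PB h) (n : ℕ) (c : ℕ → ι) (κ : ℕ → X → X → ℝ) (hκ : Ker κ)
    (f f' : (ι → X) → ℝ) (hf : BM f) (hf' : BM f') (x : ι → X) (K : ℝ)
    (hK : ∀ z : ι → X, (∀ w, (∀ i, 1 ≤ i → i ≤ n → w ≠ c i) → z w = x w) → |f z - f' z| ≤ K) :
    |Br σ h n c κ f x - Br σ h n c κ f' x| ≤ K := by
  rw [abs_le]
  have h1 := Br_le (σ := σ) hh n c κ hκ f f' hf hf' x K fun z hz => by
    have := (abs_le.1 (hK z hz)).2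
    linarith
  have h2 := Br_le (σ := σ) hh n c κ hκ f' f hf' hf x K fun z hz => by
    have := (abs_le.1 (hK z hz)).1
    linarith
  constructor <;> linarith

/-- oscillation in a coordinate off the branch -/
lemma Br_osc_off {h : X → ℝ} (hh : PB h) : ∀ (n : ℕ) (c : ℕ → ι) (κ : ℕ → X → X → ℝ), Ker κ →
    ∀ f : (ι → X) → ℝ, BM f → ∀ (z : ι) (K : ℝ) (g : X), (∀ V, |f (update V z g) - f V| ≤ K) →
    (∀ i, i ≤ n → z ≠ c i) → ∀ x, |Br σ h n c κ f (update x z g) - Br σ h n c κ f x| ≤ K
  | 0, _, _, _, _, _, _, _, _, hK, _, x => hK x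
  | n + 1, c, κ, hκ, f, hf, z, K, g, hK, hz, x => by
    have hZ := Zf_pb (σ := σ) hh n (fun i => κ (i + 1)) hκ.shift
    have hZ' := Zf_pb (σ := σ) hh (n + 1) κ hκ
    have hB := Br_bm (σ := σ) hh n (fun i => c (i + 1)) (fun i => κ (i + 1)) hκ.shift f hf
    have hw : PB fun y => κ 0 (x (c 0)) y * Zf σ h n (fun i => κ (i + 1)) y :=
      PB.mul (PB.comp (hκ 0) (g := fun y : X => (x (c 0), y)) measurable_prodMk_left) hZ
    have ih : ∀ y, |Br σ h n (fun i => c (i + 1)) (fun i => κ (i + 1)) f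
          (update (update x z g) (c 1) y) -
        Br σ h n (fun i => c (i + 1)) (fun i => κ (i + 1)) f (update x (c 1) y)| ≤ K := by
      intro y
      rw [update_comm (hz 1 (by omega))]
      exact Br_osc_off hh n _ _ hκ.shift f hf z K g hK (fun i hi => hz (i + 1) (by omega)) _
    have e0 : update x z g (c 0) = x (c 0) := update_of_ne (hz 0 (by omega)).symm _ _
    show |(∫ y, κ 0 (update x z g (c 0)) y * Zf σ h n (fun i => κ (i + 1)) y *
      Br σ h n (fun i => c (i + 1)) (fun i => κ (i + 1)) f (update (update x z g) (c 1) y) ∂σ) /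
      Zf σ h (n + 1) κ (update x z g (c 0)) -
      (∫ y, κ 0 (x (c 0)) y * Zf σ h n (fun i => κ (i + 1)) y *
      Br σ h n (fun i => c (i + 1)) (fun i => κ (i + 1)) f (update x (c 1) y) ∂σ) /
      Zf σ h (n + 1) κ (x (c 0))| ≤ K
    rw [e0, ← sub_div, abs_div, abs_of_pos (hZ'.pos _), div_le_iff₀ (hZ'.pos _)]
    have i1 := (hw.bm.mul (hB.comp (measurable_update_right (c 1) (update x z g)))).integrable σ
    have i2 := (hw.bm.mul (hB.comp (measurable_update_right (c 1) x))).integrable σ
    rw [← integral_sub i1 i2]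
    refine abs_integral_le_integral_abs.trans ?_
    have e1 : K * Zf σ h (n + 1) κ (x (c 0)) =
        ∫ y, K * (κ 0 (x (c 0)) y * Zf σ h n (fun i => κ (i + 1)) y) ∂σ := by
      rw [integral_const_mul]; rfl
    rw [e1]
    refine integral_mono (i1.sub i2).abs ((hw.bm.integrable σ).const_mul K) fun y => ?_
    have e2 : κ 0 (x (c 0)) y * Zf σ h n (fun i => κ (i + 1)) y *
        Br σ h n (fun i => c (i + 1)) (fun i => κ (i + 1)) f (update (update x z g) (c 1) y) -
        κ 0 (x (c 0)) y * Zf σ h n (fun i => κ (i + 1)) y *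
        Br σ h n (fun i => c (i + 1)) (fun i => κ (i + 1)) f (update x (c 1) y) =
        (κ 0 (x (c 0)) y * Zf σ h n (fun i => κ (i + 1)) y) *
        (Br σ h n (fun i => c (i + 1)) (fun i => κ (i + 1)) f (update (update x z g) (c 1) y) -
        Br σ h n (fun i => c (i + 1)) (fun i => κ (i + 1)) f (update x (c 1) y)) := by ring
    simp only
    rw [e2, abs_mul, abs_of_pos (hw.pos y), mul_comm K]
    exact mul_le_mul_of_nonneg_left (ih y) (hw.pos y).le

/-- no dependence on the coordinates of the branch -/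
lemma Br_const {h : X → ℝ} : ∀ (n : ℕ) (c : ℕ → ι) (κ : ℕ → X → X → ℝ),
    (∀ i j, i ≤ n → j ≤ n → c i = c j → i = j) → ∀ (f : (ι → X) → ℝ) (i : ℕ), 1 ≤ i → i ≤ n →
    ∀ (x : ι → X) (g : X), Br σ h n c κ f (update x (c i) g) = Br σ h n c κ f x
  | 0, _, _, _, _, i, hi, hin, _, _ => by omega
  | n + 1, c, κ, hc, f, i, hi, hin, x, g => by
    have e0 : c 0 ≠ c i := fun hh' => by
      have := hc 0 i (by omega) (by omega) hh'
      omega
    have e1 : update x (c i) g (c 0) = x (c 0) := update_of_ne e0 _ _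
    have e2 : ∀ y, Br σ h n (fun i => c (i + 1)) (fun i => κ (i + 1)) f
        (update (update x (c i) g) (c 1) y) =
        Br σ h n (fun i => c (i + 1)) (fun i => κ (i + 1)) f (update x (c 1) y) := by
      intro y
      rcases Nat.lt_or_ge 1 i with h1 | h1
      · have hne : c 1 ≠ c i := fun hh' => by
          have := hc 1 i (by omega) (by omega) hh'
          omega
        rw [update_comm hne.symm]
        obtain ⟨j, rfl⟩ : ∃ j, i = j + 1 := ⟨i - 1, by omega⟩
        exact Br_const n (fun i => c (i + 1)) (fun i => κ (i + 1))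
          (fun a b ha hb hab => by
            have := hc (a + 1) (b + 1) (by omega) (by omega) hab
            omega) f j (by omega) (by omega) _ _
      · have : i = 1 := by omega
        subst this
        rw [update_idem]
    show (∫ y, κ 0 (update x (c i) g (c 0)) y * Zf σ h n (fun i => κ (i + 1)) y *
      Br σ h n (fun i => c (i + 1)) (fun i => κ (i + 1)) f (update (update x (c i) g) (c 1) y) ∂σ) /
      Zf σ h (n + 1) κ (update x (c i) g (c 0)) = _
    simp only [e1, e2]
    rfl

/-- functions of the last coordinate -/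
lemma Br_last {h : X → ℝ} (hh : PB h) (ψ : X → ℝ) : ∀ (n : ℕ) (c : ℕ → ι)
    (κ : ℕ → X → X → ℝ), Ker κ → ∀ x : ι → X,
    Br σ h n c κ (fun U => ψ (U (c n))) x =
      Zf σ (fun y => ψ y * h y) n κ (x (c 0)) / Zf σ h n κ (x (c 0))
  | 0, c, κ, _, x => by
    show ψ (x (c 0)) = ψ (x (c 0)) * h (x (c 0)) / h (x (c 0))
    rw [mul_div_cancel_right₀ _ (hh.pos _).ne']
  | n + 1, c, κ, hκ, x => by
    have hZ := Zf_pb (σ := σ) hh n (fun i => κ (i + 1)) hκ.shift
    show (∫ y, κ 0 (x (c 0)) y * Zf σ h n (fun i => κ (i + 1)) y *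
      Br σ h n (fun i => c (i + 1)) (fun i => κ (i + 1)) (fun U => ψ (U (c (n + 1))))
        (update x (c 1) y) ∂σ) / Zf σ h (n + 1) κ (x (c 0)) =
      (∫ y, κ 0 (x (c 0)) y * Zf σ (fun y => ψ y * h y) n (fun i => κ (i + 1)) y ∂σ) /
        Zf σ h (n + 1) κ (x (c 0))
    congr 1
    refine integral_congr_ae (Filter.Eventually.of_forall fun y => ?_)
    have := Br_last hh ψ n (fun i => c (i + 1)) (fun i => κ (i + 1)) hκ.shift (update x (c 1) y)
    simp only at this ⊢
    rw [this]
    have e : update x (c 1) y (c (0 + 1)) = y := update_self _ _ _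
    rw [e]
    have := (hZ.pos y).ne'
    field_simp

lemma Zf_comp (h : X → ℝ) (n : ℕ) : ∀ (m : ℕ) (κ : ℕ → X → X → ℝ),
    Zf σ h (n + m) κ = Zf σ (Zf σ h n fun i => κ (i + m)) m κ
  | 0, _ => rfl
  | m + 1, κ => by
    funext x
    show ∫ y, κ 0 x y * Zf σ h (n + m) (fun i => κ (i + 1)) y ∂σ = _
    rw [Zf_comp h n m (fun i => κ (i + 1))]
    rfl

lemma Br_comp (h : X → ℝ) (n : ℕ) : ∀ (m : ℕ) (c : ℕ → ι) (κ : ℕ → X → X → ℝ)
    (f : (ι → X) → ℝ), Br σ h (n + m) c κ f =
      Br σ (Zf σ h n fun i => κ (i + m)) m c κ (Br σ h n (fun i => c (i + m)) (fun i => κ (i + m)) f)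
  | 0, _, _, _ => rfl
  | m + 1, c, κ, f => by
    funext x
    show (∫ y, κ 0 (x (c 0)) y * Zf σ h (n + m) (fun i => κ (i + 1)) y *
      Br σ h (n + m) (fun i => c (i + 1)) (fun i => κ (i + 1)) f (update x (c 1) y) ∂σ) /
      Zf σ h ((n + m) + 1) κ (x (c 0)) = _
    rw [Br_comp h n m (fun i => c (i + 1)) (fun i => κ (i + 1)) f,
      Zf_comp h n m (fun i => κ (i + 1))]
    have := Zf_comp (σ := σ) h n (m + 1) κ
    rw [show (n + m) + 1 = n + (m + 1) from rfl, this]
    rfl

/-- `m` steps of the chain contract oscillations by the factor `lam` -/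
def Mix (σ : Measure X) (m : ℕ) (lam : ℝ) (κ : ℕ → X → X → ℝ) : Prop :=
  ∀ (h' ψ : X → ℝ), PB h' → BM ψ → ∀ D : ℝ, 0 ≤ D → (∀ y y', |ψ y - ψ y'| ≤ D) → ∀ a a',
    |Zf σ (fun y => ψ y * h' y) m κ a / Zf σ h' m κ a -
      Zf σ (fun y => ψ y * h' y) m κ a' / Zf σ h' m κ a'| ≤ lam * D

/-- **Contraction along a branch.** -/
lemma Br_contract {h : X → ℝ} (hh : PB h) {m : ℕ} (hm : 1 ≤ m) {lam : ℝ} (hlam : 0 ≤ lam)
    {b : ℕ → ℝ} (hb0 : ∀ i, i < m → 2 ≤ b i) (hbm : lam ≤ b m) (hb : ∀ i, lam * b i ≤ b (i + m))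
    (hbn : ∀ i, 0 ≤ b i) :
    ∀ (n : ℕ) (c : ℕ → ι) (κ : ℕ → X → X → ℝ), Ker κ → (∀ j, Mix σ m lam fun i => κ (i + j)) →
    (∀ i j, i ≤ n → j ≤ n → c i = c j → i = j) → ∀ (f : (ι → X) → ℝ) (D : ι → ℝ), BM f →
    OscH f D → ∀ (x : ι → X) (g : X), |Br σ h n c κ f (update x (c 0) g) - Br σ h n c κ f x| ≤
      D (c 0) + ∑ i ∈ Finset.range n, b (i + 1) * D (c (i + 1)) := by
  intro n
  induction n using Nat.strong_induction_on with
  | _ n ih =>
  intro c κ hκ hmix hc f D hf hD x g
  have hc0 : ∀ i, 1 ≤ i → i ≤ n → c 0 ≠ c i := fun i h1 h2 h3 => by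
    have := hc 0 i (by omega) (by omega) h3
    omega
  rcases Nat.lt_or_ge n m with hnm | hnm
  · -- short branch
    have key : ∀ z x' : ι → X, (∀ w, (∀ i, 1 ≤ i → i ≤ n → w ≠ c i) → z w = x' w) →
        |f z - f x'| ≤ ∑ i ∈ Finset.range n, D (c (i + 1)) := by
      intro z x' hz
      have h1 := hD.tele ((Finset.range n).image fun i => c (i + 1)) z x' (fun w hw => hz w (by
        intro i h1 h2 h3
        apply hw
        rw [Finset.mem_image]
        exact ⟨i - 1, by rw [Finset.mem_range]; omega, by rw [h3]; congr 1; omega⟩))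
      rwa [Finset.sum_image (fun a ha b hb hab => by
        simp only [Finset.coe_range, Set.mem_Iio] at ha hb
        have := hc (a + 1) (b + 1) (by omega) (by omega) hab
        omega)] at h1
    have h1 : ∀ x', |Br σ h n c κ f x' - f x'| ≤ ∑ i ∈ Finset.range n, D (c (i + 1)) := by
      intro x'
      have h2 := Br_abs (σ := σ) hh n c κ hκ f (fun _ => f x') hf (BM.const _) x' _ (key · x')
      have h3 : Br σ h n c κ (fun _ => f x') x' = f x' := by
        have := Br_last (σ := σ) hh (fun _ => f x') n c κ hκ x'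
        rw [this]
        have e : ∀ (n : ℕ) (κ : ℕ → X → X → ℝ) a, Zf σ (fun y => f x' * h y) n κ a =
            f x' * Zf σ h n κ a := by
          intro n
          induction n with
          | zero => intro κ a; rfl
          | succ n ih =>
            intro κ a
            show ∫ y, κ 0 a y * Zf σ (fun y => f x' * h y) n (fun i => κ (i + 1)) y ∂σ =
              f x' * ∫ y, κ 0 a y * Zf σ h n (fun i => κ (i + 1)) y ∂σ
            rw [← integral_const_mul]
            refine integral_congr_ae (Filter.Eventually.of_forall fun y => ?_)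
            simp only
            rw [ih]; ring
        rw [e, mul_div_cancel_right₀ _ ((Zf_pb (σ := σ) hh n κ hκ).pos _).ne']
      rwa [h3] at h2
    have h4 := h1 (update x (c 0) g)
    have h5 := h1 x
    have h6 := hD.2 (c 0) x g
    have h7 : ∑ i ∈ Finset.range n, D (c (i + 1)) + ∑ i ∈ Finset.range n, D (c (i + 1)) ≤
        ∑ i ∈ Finset.range n, b (i + 1) * D (c (i + 1)) := by
      rw [← Finset.sum_add_distrib]
      refine Finset.sum_le_sum fun i hi => ?_
      have h8 : 2 ≤ b (i + 1) := hb0 _ (by rw [Finset.mem_range] at hi; omega)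
      have h9 := mul_le_mul_of_nonneg_right h8 (hD.1 (c (i + 1)))
      linarith
    have e : Br σ h n c κ f (update x (c 0) g) - Br σ h n c κ f x =
      (Br σ h n c κ f (update x (c 0) g) - f (update x (c 0) g)) +
        ((f (update x (c 0) g) - f x) - (Br σ h n c κ f x - f x)) := by ring
    rw [e]
    refine (abs_add_le _ _).trans ?_
    have := abs_sub (f (update x (c 0) g) - f x) (Br σ h n c κ f x - f x)
    linarith
  · -- long branch
    obtain ⟨k, rfl⟩ : ∃ k, n = k + m := ⟨n - m, by omega⟩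
    obtain ⟨m', rfl⟩ : ∃ m', m = m' + 1 := ⟨m - 1, by omega⟩
    have hκm : Ker fun i => κ (i + (m' + 1)) := fun i => hκ _
    obtain ⟨fb, hfb⟩ : ∃ fb, fb = Br σ h k (fun i => c (i + (m' + 1)))
      (fun i => κ (i + (m' + 1))) f := ⟨_, rfl⟩
    have hfbm : BM fb := hfb ▸ Br_bm hh k _ _ hκm f hf
    obtain ⟨h', hh'⟩ : ∃ h', h' = Zf σ h k fun i => κ (i + (m' + 1)) := ⟨_, rfl⟩
    have hh'pb : PB h' := hh' ▸ Zf_pb hh k _ hκm
    obtain ⟨Dm, hDm⟩ : ∃ Dm, Dm = D (c (m' + 1)) +
      ∑ i ∈ Finset.range k, b (i + 1) * D (c (i + 1 + (m' + 1))) := ⟨_, rfl⟩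
    have hDm0 : 0 ≤ Dm := by
      rw [hDm]
      exact add_nonneg (hD.1 _) (Finset.sum_nonneg fun i _ => mul_nonneg (hbn _) (hD.1 _))
    have hck : ∀ i j, i ≤ k → j ≤ k → c (i + (m' + 1)) = c (j + (m' + 1)) → i = j :=
      fun i j hi hj hij => by
        have := hc _ _ (by omega) (by omega) hij
        omega
    -- oscillations of `fb`
    have hoff : ∀ w, (∀ i, m' + 1 ≤ i → i ≤ k + (m' + 1) → w ≠ c i) → ∀ V g',
        |fb (update V w g') - fb V| ≤ D w := by
      intro w hw V g'
      rw [hfb]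
      exact Br_osc_off hh k _ _ hκm f hf w (D w) g' (fun V => hD.2 w V g')
        (fun i hi => hw _ (by omega) (by omega)) V
    have hat : ∀ V g', |fb (update V (c (m' + 1)) g') - fb V| ≤ Dm := by
      intro V g'
      rw [hfb, hDm]
      have := ih k (by omega) (fun i => c (i + (m' + 1))) (fun i => κ (i + (m' + 1))) hκm
        (fun j => by
          have := hmix (j + (m' + 1))
          have e : (fun i => κ (i + (j + (m' + 1)))) = fun i => κ (i + j + (m' + 1)) := by
            funext i; rw [add_assoc]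
          rwa [e] at this) hck f D hf hD V g'
      simpa only [Nat.zero_add] using this
    have hD' : OscH fb fun w => if w = c (m' + 1) then Dm else D w := by
      refine ⟨fun w => ?_, fun w V g' => ?_⟩
      · dsimp only
        split_ifs
        · exact hDm0
        · exact hD.1 w
      · dsimp only
        split_ifs with h1
        · rw [h1]; exact hat V g'
        · by_cases h2 : ∃ i, m' + 1 ≤ i ∧ i ≤ k + (m' + 1) ∧ w = c i
          · obtain ⟨i, hi1, hi2, rfl⟩ := h2
            have hi3 : i ≠ m' + 1 := fun h => h1 (by rw [h])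
            obtain ⟨j, rfl⟩ : ∃ j, i = j + (m' + 1) := ⟨i - (m' + 1), by omega⟩
            rw [hfb]
            have := Br_const (σ := σ) (h := h) k (fun i => c (i + (m' + 1)))
              (fun i => κ (i + (m' + 1))) hck f j (by omega) (by omega) V g'
            rw [this, sub_self, abs_zero]
            exact hD.1 _
          · push Not at h2
            exact hoff w (fun i h3 h4 => h2 i h3 h4) V g'
    obtain ⟨ψ, hψ⟩ : ∃ ψ : X → ℝ, ψ = fun y => fb (update x (c (m' + 1)) y) := ⟨_, rfl⟩
    have hψb : BM ψ := hψ ▸ hfbm.comp (measurable_update_right (c (m' + 1)) x)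
    have hψo : ∀ y y', |ψ y - ψ y'| ≤ Dm := by
      intro y y'
      rw [hψ]
      have := hat (update x (c (m' + 1)) y') y
      rwa [update_idem] at this
    obtain ⟨S1, hS1⟩ : ∃ S1 : ℝ, S1 = ∑ i ∈ Finset.range m', D (c (i + 1)) := ⟨_, rfl⟩
    have hsum1 : ∑ w ∈ (Finset.range m').image (fun i => c (i + 1)),
        (if w = c (m' + 1) then Dm else D w) = S1 := by
      rw [hS1, Finset.sum_image (fun a ha b hb hab => by
        simp only [Finset.coe_range, Set.mem_Iio] at ha hb
        have := hc (a + 1) (b + 1) (by omega) (by omega) hab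
        omega)]
      refine Finset.sum_congr rfl fun i hi => ?_
      rw [Finset.mem_range] at hi
      rw [if_neg]
      intro h1
      have := hc (i + 1) (m' + 1) (by omega) (by omega) h1
      omega
    have hnot0 : c 0 ∉ (Finset.range m').image (fun i => c (i + 1)) := by
      rw [Finset.mem_image]
      rintro ⟨i, hi, h1⟩
      rw [Finset.mem_range] at hi
      exact hc0 (i + 1) (by omega) (by omega) h1.symm
    have k1 : ∀ z : ι → X, (∀ w, (∀ i, 1 ≤ i → i ≤ m' + 1 → w ≠ c i) → z w = x w) →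
        |fb z - ψ (z (c (m' + 1)))| ≤ S1 := by
      intro z hz
      rw [hψ, ← hsum1]
      refine hD'.tele _ z _ fun w hw => ?_
      by_cases hwm : w = c (m' + 1)
      · subst hwm; simp
      · rw [update_of_ne hwm]
        refine hz w fun i h1 h2 h3 => ?_
        rcases Nat.lt_or_ge i (m' + 1) with h4 | h4
        · apply hw
          rw [Finset.mem_image]
          exact ⟨i - 1, by rw [Finset.mem_range]; omega, by rw [h3]; congr 1; omega⟩
        · have : i = m' + 1 := by omega
          rw [this] at h3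
          exact hwm h3
    have k2 : ∀ z : ι → X, (∀ w, (∀ i, 1 ≤ i → i ≤ m' + 1 → w ≠ c i) →
        z w = update x (c 0) g w) → |fb z - ψ (z (c (m' + 1)))| ≤ D (c 0) + S1 := by
      intro z hz
      have e0 : D (c 0) + S1 = ∑ w ∈ insert (c 0) ((Finset.range m').image (fun i => c (i + 1))),
          (if w = c (m' + 1) then Dm else D w) := by
        rw [Finset.sum_insert hnot0, hsum1, if_neg (hc0 _ (by omega) (by omega))]
      rw [hψ, e0]
      refine hD'.tele _ z _ fun w hw => ?_
      rw [Finset.mem_insert, not_or] at hw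
      by_cases hwm : w = c (m' + 1)
      · subst hwm; simp
      · rw [update_of_ne hwm]
        have := hz w fun i h1 h2 h3 => by
          rcases Nat.lt_or_ge i (m' + 1) with h4 | h4
          · apply hw.2
            rw [Finset.mem_image]
            exact ⟨i - 1, by rw [Finset.mem_range]; omega, by rw [h3]; congr 1; omega⟩
          · have : i = m' + 1 := by omega
            rw [this] at h3
            exact hwm h3
        rw [this, update_of_ne hw.1]
    have hψU : BM fun U : ι → X => ψ (U (c (m' + 1))) := hψb.comp (measurable_pi_apply _)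
    have b1 := Br_abs (σ := σ) hh'pb (m' + 1) c κ hκ fb (fun U => ψ (U (c (m' + 1)))) hfbm hψU x
      S1 k1
    have b2 := Br_abs (σ := σ) hh'pb (m' + 1) c κ hκ fb (fun U => ψ (U (c (m' + 1)))) hfbm hψU
      (update x (c 0) g) (D (c 0) + S1) k2
    have b3 : |Br σ h' (m' + 1) c κ (fun U => ψ (U (c (m' + 1)))) (update x (c 0) g) -
        Br σ h' (m' + 1) c κ (fun U => ψ (U (c (m' + 1)))) x| ≤ lam * Dm := by
      rw [Br_last hh'pb ψ (m' + 1) c κ hκ, Br_last hh'pb ψ (m' + 1) c κ hκ]
      have := hmix 0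
      simp only [add_zero] at this
      exact this h' ψ hh'pb hψb Dm hDm0 hψo _ _
    rw [Br_comp h k (m' + 1) c κ f, ← hfb, ← hh']
    have e : Br σ h' (m' + 1) c κ fb (update x (c 0) g) - Br σ h' (m' + 1) c κ fb x =
        (Br σ h' (m' + 1) c κ fb (update x (c 0) g) -
          Br σ h' (m' + 1) c κ (fun U => ψ (U (c (m' + 1)))) (update x (c 0) g)) +
        ((Br σ h' (m' + 1) c κ (fun U => ψ (U (c (m' + 1)))) (update x (c 0) g) -
        Br σ h' (m' + 1) c κ (fun U => ψ (U (c (m' + 1)))) x) -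
        (Br σ h' (m' + 1) c κ fb x - Br σ h' (m' + 1) c κ (fun U => ψ (U (c (m' + 1)))) x)) := by
      ring
    rw [e]
    refine (abs_add_le _ _).trans ?_
    have b4 := abs_sub (Br σ h' (m' + 1) c κ (fun U => ψ (U (c (m' + 1)))) (update x (c 0) g) -
        Br σ h' (m' + 1) c κ (fun U => ψ (U (c (m' + 1)))) x)
        (Br σ h' (m' + 1) c κ fb x - Br σ h' (m' + 1) c κ (fun U => ψ (U (c (m' + 1)))) x)
    have b5 : S1 + S1 + lam * Dm ≤
        ∑ i ∈ Finset.range (k + (m' + 1)), b (i + 1) * D (c (i + 1)) := by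
      have e1 : ∑ i ∈ Finset.range (k + (m' + 1)), b (i + 1) * D (c (i + 1)) =
          ∑ i ∈ Finset.range m', b (i + 1) * D (c (i + 1)) + b (m' + 1) * D (c (m' + 1)) +
          ∑ i ∈ Finset.range k, b (i + (m' + 1) + 1) * D (c (i + (m' + 1) + 1)) := by
        rw [add_comm k (m' + 1), Finset.sum_range_add, Finset.sum_range_succ]
        congr 1
        refine Finset.sum_congr rfl fun i _ => ?_
        rw [add_comm (m' + 1) i]
      rw [e1]
      have e2 : S1 + S1 ≤ ∑ i ∈ Finset.range m', b (i + 1) * D (c (i + 1)) := by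
        rw [hS1, ← Finset.sum_add_distrib]
        refine Finset.sum_le_sum fun i hi => ?_
        have h8 : 2 ≤ b (i + 1) := hb0 _ (by rw [Finset.mem_range] at hi; omega)
        have h9 := mul_le_mul_of_nonneg_right h8 (hD.1 (c (i + 1)))
        linarith
      have e3 : lam * Dm ≤ b (m' + 1) * D (c (m' + 1)) +
          ∑ i ∈ Finset.range k, b (i + (m' + 1) + 1) * D (c (i + (m' + 1) + 1)) := by
        rw [hDm, mul_add, Finset.mul_sum]
        refine add_le_add (mul_le_mul_of_nonneg_right hbm (hD.1 _))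
          (Finset.sum_le_sum fun i _ => ?_)
        have h9 := mul_le_mul_of_nonneg_right (hb (i + 1)) (hD.1 (c (i + 1 + (m' + 1))))
        have e4 : i + (m' + 1) + 1 = i + 1 + (m' + 1) := by omega
        rw [e4]
        linarith
      linarith
    linarith

end Pool.Agent.Q295.YM
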