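import Mathlib
import Pool.Agent.Q295.YM.Branch2

/-!
# Contraction of `m` steps of a chain with bounded potentials
-/

namespace Pool.Agent.Q295.YM

open MeasureTheory Function
open Pool.Agent.H556R4.Dob

set_option linter.unusedSectionVars false

variable {X : Type} [MeasurableSpace X]
variable {σ : Measure X} [IsProbabilityMeasure σ]

lemma BM.sect {κ : ℕ → X → X → ℝ} (hκ : Ker κ) (i : ℕ) (x : X) : BM (κ i x) :=
  (PB.comp (hκ i) (g := fun y : X => (x, y)) measurable_prodMk_left).bm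

lemma Zf_lin (α β : ℝ) {g g' : X → ℝ} (hg : BM g) (hg' : BM g') : ∀ (n : ℕ)
    (κ : ℕ → X → X → ℝ), Ker κ → ∀ a, Zf σ (fun y => α * g y + β * g' y) n κ a =
      α * Zf σ g n κ a + β * Zf σ g' n κ a
  | 0, _, _, _ => rfl
  | n + 1, κ, hκ, a => by
    have h1 := Zf_bm (σ := σ) hg n (fun i => κ (i + 1)) hκ.shift
    have h2 := Zf_bm (σ := σ) hg' n (fun i => κ (i + 1)) hκ.shift
    show ∫ y, κ 0 a y * Zf σ (fun y => α * g y + β * g' y) n (fun i => κ (i + 1)) y ∂σ =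
      α * ∫ y, κ 0 a y * Zf σ g n (fun i => κ (i + 1)) y ∂σ +
        β * ∫ y, κ 0 a y * Zf σ g' n (fun i => κ (i + 1)) y ∂σ
    rw [← integral_const_mul, ← integral_const_mul, ← integral_add
      ((((BM.sect hκ 0 a).mul h1).integrable σ).const_mul α)
      ((((BM.sect hκ 0 a).mul h2).integrable σ).const_mul β)]
    refine integral_congr_ae (Filter.Eventually.of_forall fun y => ?_)
    simp only
    rw [Zf_lin α β hg hg' n _ hκ.shift]
    ring

lemma Zf_nonneg {g : X → ℝ} (hg : ∀ y, 0 ≤ g y) : ∀ (n : ℕ) (κ : ℕ → X → X → ℝ), Ker κ →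
    ∀ a, 0 ≤ Zf σ g n κ a
  | 0, _, _, a => hg a
  | n + 1, κ, hκ, a => integral_nonneg fun y => mul_nonneg ((hκ 0).pos (a, y)).le
      (Zf_nonneg hg n _ hκ.shift y)

/-- comparison of two chains -/
lemma Zf_le_Zf {g : X → ℝ} (hg0 : ∀ y, 0 ≤ g y) (hg : BM g) {K : ℝ} (hK : 0 ≤ K) : ∀ (n : ℕ)
    (κ κ' : ℕ → X → X → ℝ), Ker κ → Ker κ' → (∀ i x y, κ i x y ≤ K * κ' i x y) →
    ∀ a, Zf σ g n κ a ≤ K ^ n * Zf σ g n κ' a
  | 0, _, _, _, _, _, a => by simp [Zf]
  | n + 1, κ, κ', hκ, hκ', hle, a => by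
    have h1 := Zf_bm (σ := σ) hg n (fun i => κ (i + 1)) hκ.shift
    have h2 := Zf_bm (σ := σ) hg n (fun i => κ' (i + 1)) hκ'.shift
    show ∫ y, κ 0 a y * Zf σ g n (fun i => κ (i + 1)) y ∂σ ≤
      K ^ (n + 1) * ∫ y, κ' 0 a y * Zf σ g n (fun i => κ' (i + 1)) y ∂σ
    rw [← integral_const_mul]
    refine integral_mono (((BM.sect hκ 0 a).mul h1).integrable σ)
      ((((BM.sect hκ' 0 a).mul h2).integrable σ).const_mul _) fun y => ?_
    have ih := Zf_le_Zf hg0 hg hK n (fun i => κ (i + 1)) (fun i => κ' (i + 1)) hκ.shift hκ'.shift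
      (fun i => hle (i + 1)) y
    have h3 := Zf_nonneg (σ := σ) hg0 n (fun i => κ (i + 1)) hκ.shift y
    have h4 : 0 ≤ κ' 0 a y := ((hκ' 0).pos (a, y)).le
    simp only
    calc κ 0 a y * Zf σ g n (fun i => κ (i + 1)) y ≤
        (K * κ' 0 a y) * (K ^ n * Zf σ g n (fun i => κ' (i + 1)) y) :=
          mul_le_mul (hle 0 a y) ih h3 (mul_nonneg hK h4)
      _ = _ := by ring

/-- Uniform mixing of `m` steps of the kernel `k`. -/
def UM (σ : Measure X) (k : X → X → ℝ) (m : ℕ) : Prop :=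
  ∀ g : X → ℝ, BM g → (∀ y, 0 ≤ g y) → ∀ a,
    1 / 2 * ∫ y, g y ∂σ ≤ Zf σ g m (fun _ => k) a ∧ Zf σ g m (fun _ => k) a ≤ 3 / 2 * ∫ y, g y ∂σ

lemma Mix_of_UM {k : X → X → ℝ} (hk : PB fun p : X × X => k p.1 p.2) {m : ℕ}
    (hm : UM σ k m) {v : ℕ → X → ℝ} (hv : ∀ i, BM (v i)) {δ : ℝ} (hδ : ∀ i y, |v i y| ≤ δ) :
    Mix σ m (1 - Real.exp (-(2 * m * δ)) / 3) fun i x y => k x y * Real.exp (v i y) := by
  have hK : Ker fun _ : ℕ => k := fun _ => hk
  have hK' : Ker fun i x y => k x y * Real.exp (v i y) := fun i =>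
    hk.mul ((PB.exp (hv i)).comp measurable_snd)
  intro h' ψ hh' hψ D hD hosc a a'
  have hX : Nonempty X := nonempty_G σ
  obtain ⟨c, hc⟩ := exists_mid hosc
  obtain ⟨ψ', hψ'⟩ : ∃ ψ' : X → ℝ, ψ' = fun y => ψ y - c + D / 2 := ⟨_, rfl⟩
  have hψ'0 : ∀ y, 0 ≤ ψ' y := fun y => by
    rw [hψ']
    have := (abs_le.1 (hc y)).1
    simp only; linarith
  have hψ'1 : ∀ y, 0 ≤ D - ψ' y := fun y => by
    rw [hψ']
    have := (abs_le.1 (hc y)).2
    simp only; linarith
  have hψ'b : BM ψ' := by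
    rw [hψ']
    exact BM.add' (BM.sub' hψ (BM.const _)) (BM.const _)
  have e1 : ∀ b, Zf σ (fun y => ψ y * h' y) m (fun i x y => k x y * Real.exp (v i y)) b =
      Zf σ (fun y => ψ' y * h' y) m (fun i x y => k x y * Real.exp (v i y)) b +
      (c - D / 2) * Zf σ h' m (fun i x y => k x y * Real.exp (v i y)) b := by
    intro b
    have := Zf_lin (σ := σ) 1 (c - D / 2) (g := fun y => ψ' y * h' y) (hψ'b.mul hh'.bm) hh'.bm
      m _ hK' b
    rw [one_mul] at this
    rw [← this]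
    congr 1
    funext y
    rw [hψ']
    ring
  have hZ := Zf_pb (σ := σ) hh' m _ hK'
  have e2 : ∀ b, Zf σ (fun y => ψ y * h' y) m (fun i x y => k x y * Real.exp (v i y)) b /
      Zf σ h' m (fun i x y => k x y * Real.exp (v i y)) b =
      Zf σ (fun y => ψ' y * h' y) m (fun i x y => k x y * Real.exp (v i y)) b /
      Zf σ h' m (fun i x y => k x y * Real.exp (v i y)) b + (c - D / 2) := by
    intro b
    rw [e1, add_div, mul_div_cancel_right₀ _ (hZ.pos b).ne']
  rw [e2, e2, add_sub_add_right_eq_sub]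
  -- lower bounds
  have hup : ∀ i x y, k x y * Real.exp (v i y) ≤ Real.exp δ * k x y := fun i x y => by
    rw [mul_comm]
    exact mul_le_mul_of_nonneg_right (Real.exp_le_exp.2 (le_of_abs_le (hδ i y))) (hk.pos (x, y)).le
  have hlo : ∀ i x y, k x y ≤ Real.exp δ * (k x y * Real.exp (v i y)) := fun i x y => by
    have h1 : 1 ≤ Real.exp δ * Real.exp (v i y) := by
      rw [← Real.exp_add]
      exact Real.one_le_exp (by have := neg_le_of_abs_le (hδ i y); linarith)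
    have h2 := mul_le_mul_of_nonneg_left h1 (hk.pos (x, y)).le
    simp only at h2
    linarith
  have key : ∀ g : X → ℝ, BM g → (∀ y, 0 ≤ g y) → ∀ b,
      Real.exp (-(m * δ)) * (1 / 2 * ∫ y, g y ∂σ) ≤
        Zf σ g m (fun i x y => k x y * Real.exp (v i y)) b ∧
      Zf σ g m (fun i x y => k x y * Real.exp (v i y)) b ≤
        Real.exp (m * δ) * (3 / 2 * ∫ y, g y ∂σ) := by
    intro g hg hg0 b
    obtain ⟨h1, h2⟩ := hm g hg hg0 b
    have h3 := Zf_le_Zf (σ := σ) hg0 hg (Real.exp_pos δ).le m _ _ hK hK' hlo b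
    have h4 := Zf_le_Zf (σ := σ) hg0 hg (Real.exp_pos δ).le m _ _ hK' hK hup b
    rw [← Real.exp_nat_mul] at h3 h4
    constructor
    · rw [Real.exp_neg, inv_mul_le_iff₀ (Real.exp_pos _)]
      exact h1.trans h3
    · exact h4.trans (mul_le_mul_of_nonneg_left h2 (Real.exp_pos _).le)
  have hI : 0 < ∫ y, h' y ∂σ := hh'.integral_pos σ
  obtain ⟨M, hM⟩ : ∃ M, M = (∫ y, ψ' y * h' y ∂σ) / ∫ y, h' y ∂σ := ⟨_, rfl⟩
  obtain ⟨r, hr⟩ : ∃ r, r = Real.exp (-(2 * m * δ)) / 3 := ⟨_, rfl⟩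
  have hr0 : 0 < r := by rw [hr]; positivity
  have hrr : r * (Real.exp (m * δ) * (3 / 2)) = Real.exp (-(m * δ)) * (1 / 2) := by
    rw [hr]
    have : Real.exp (-(m * δ)) = Real.exp (-(2 * m * δ)) * Real.exp (m * δ) := by
      rw [← Real.exp_add]; ring_nf
    rw [this]; ring
  have q1 : ∀ b, r * M ≤ Zf σ (fun y => ψ' y * h' y) m (fun i x y => k x y * Real.exp (v i y)) b /
      Zf σ h' m (fun i x y => k x y * Real.exp (v i y)) b := by
    intro b
    rw [le_div_iff₀ (hZ.pos b)]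
    obtain ⟨h1, -⟩ := key (fun y => ψ' y * h' y) (hψ'b.mul hh'.bm)
      (fun y => mul_nonneg (hψ'0 y) (hh'.pos y).le) b
    obtain ⟨-, h2⟩ := key h' hh'.bm (fun y => (hh'.pos y).le) b
    refine le_trans ?_ h1
    have hM0 : 0 ≤ M := by
      rw [hM]
      exact div_nonneg (integral_nonneg fun y => mul_nonneg (hψ'0 y) (hh'.pos y).le) hI.le
    calc r * M * Zf σ h' m (fun i x y => k x y * Real.exp (v i y)) b ≤
        r * M * (Real.exp (m * δ) * (3 / 2 * ∫ y, h' y ∂σ)) :=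
          mul_le_mul_of_nonneg_left h2 (mul_nonneg hr0.le hM0)
      _ = (r * (Real.exp (m * δ) * (3 / 2))) * (M * ∫ y, h' y ∂σ) := by ring
      _ = _ := by
          rw [hrr, hM, div_mul_cancel₀ _ hI.ne']; ring
  have hDM : (∫ y, (D - ψ' y) * h' y ∂σ) / ∫ y, h' y ∂σ = D - M := by
    have e3 : ∫ y, (D - ψ' y) * h' y ∂σ = D * ∫ y, h' y ∂σ - ∫ y, ψ' y * h' y ∂σ := by
      rw [← integral_const_mul, ← integral_sub ((hh'.bm.integrable σ).const_mul D)
        ((hψ'b.mul hh'.bm).integrable σ)]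
      refine integral_congr_ae (Filter.Eventually.of_forall fun y => ?_)
      simp only; ring
    rw [e3, sub_div, mul_div_cancel_right₀ _ hI.ne', hM]
  have q2 : ∀ b, Zf σ (fun y => ψ' y * h' y) m (fun i x y => k x y * Real.exp (v i y)) b /
      Zf σ h' m (fun i x y => k x y * Real.exp (v i y)) b ≤ D - r * (D - M) := by
    intro b
    have e4 : Zf σ (fun y => (D - ψ' y) * h' y) m (fun i x y => k x y * Real.exp (v i y)) b =
        D * Zf σ h' m (fun i x y => k x y * Real.exp (v i y)) b -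
        Zf σ (fun y => ψ' y * h' y) m (fun i x y => k x y * Real.exp (v i y)) b := by
      have := Zf_lin (σ := σ) D (-1) hh'.bm (g' := fun y => ψ' y * h' y) (hψ'b.mul hh'.bm)
        m _ hK' b
      rw [show D * Zf σ h' m (fun i x y => k x y * Real.exp (v i y)) b -
        Zf σ (fun y => ψ' y * h' y) m (fun i x y => k x y * Real.exp (v i y)) b =
        D * Zf σ h' m (fun i x y => k x y * Real.exp (v i y)) b + (-1) *
        Zf σ (fun y => ψ' y * h' y) m (fun i x y => k x y * Real.exp (v i y)) b by ring, ← this]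
      congr 1
      funext y
      ring
    rw [div_le_iff₀ (hZ.pos b)]
    have hDψ : BM fun y => D - ψ' y := BM.sub' (BM.const _) hψ'b
    obtain ⟨h1, -⟩ := key (fun y => (D - ψ' y) * h' y) (hDψ.mul hh'.bm)
      (fun y => mul_nonneg (hψ'1 y) (hh'.pos y).le) b
    obtain ⟨-, h2⟩ := key h' hh'.bm (fun y => (hh'.pos y).le) b
    have hM1 : 0 ≤ D - M := by
      rw [← hDM]
      exact div_nonneg (integral_nonneg fun y => mul_nonneg (hψ'1 y) (hh'.pos y).le) hI.le
    have h3 : r * (D - M) * Zf σ h' m (fun i x y => k x y * Real.exp (v i y)) b ≤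
        Zf σ (fun y => (D - ψ' y) * h' y) m (fun i x y => k x y * Real.exp (v i y)) b := by
      refine le_trans ?_ h1
      calc r * (D - M) * Zf σ h' m (fun i x y => k x y * Real.exp (v i y)) b ≤
          r * (D - M) * (Real.exp (m * δ) * (3 / 2 * ∫ y, h' y ∂σ)) :=
            mul_le_mul_of_nonneg_left h2 (mul_nonneg hr0.le hM1)
        _ = (r * (Real.exp (m * δ) * (3 / 2))) * ((D - M) * ∫ y, h' y ∂σ) := by ring
        _ = _ := by
            rw [hrr, ← hDM, div_mul_cancel₀ _ hI.ne']; ring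
    rw [e4] at h3
    linarith
  rw [← hr, abs_le]
  have a1 := q1 a
  have a2 := q2 a
  have a3 := q1 a'
  have a4 := q2 a'
  constructor <;> linarith

end Pool.Agent.Q295.YM
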