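import Mathlib
import Pool.Agent.Q295.YM.Mixing

/-!
# A column: a chain with potentials on the times `0, …, T`
-/

namespace Pool.Agent.Q295.YM

open MeasureTheory Function
open Pool.Agent.H556R4.Dob

set_option linter.unusedSectionVars false

section general

variable {ι X : Type} [Fintype ι] [DecidableEq ι] [MeasurableSpace X]
variable {σ : Measure X} [IsProbabilityMeasure σ]

lemma Zf_const_mul (a : ℝ) (h : X → ℝ) : ∀ (n : ℕ) (κ : ℕ → X → X → ℝ) (b : X),
    Zf σ (fun y => a * h y) n κ b = a * Zf σ h n κ b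
  | 0, _, _ => rfl
  | n + 1, κ, b => by
    show ∫ y, κ 0 b y * Zf σ (fun y => a * h y) n (fun i => κ (i + 1)) y ∂σ =
      a * ∫ y, κ 0 b y * Zf σ h n (fun i => κ (i + 1)) y ∂σ
    rw [← integral_const_mul]
    refine integral_congr_ae (Filter.Eventually.of_forall fun y => ?_)
    simp only
    rw [Zf_const_mul a h n]; ring

lemma Br_fun_const {h : X → ℝ} (hh : PB h) (n : ℕ) (c : ℕ → ι) (κ : ℕ → X → X → ℝ) (hκ : Ker κ)
    (a : ℝ) (x : ι → X) : Br σ h n c κ (fun _ => a) x = a := by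
  rw [Br_last (σ := σ) hh (fun _ => a) n c κ hκ x, Zf_const_mul,
    mul_div_cancel_right₀ _ ((Zf_pb (σ := σ) hh n κ hκ).pos _).ne']

lemma W_eq (n : ℕ) : ∀ (c : ℕ → ι) (κ : ℕ → X → X → ℝ) (x : ι → X),
    W (fun _ => 1) n c κ x = ∏ i ∈ Finset.range n, κ i (x (c i)) (x (c (i + 1))) := by
  induction n with
  | zero => intro c κ x; simp [W]
  | succ n ih =>
    intro c κ x
    rw [Finset.prod_range_succ']
    show κ 0 (x (c 0)) (x (c 1)) * W (fun _ => 1) n (fun i => c (i + 1)) (fun i => κ (i + 1)) x = _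
    rw [ih, mul_comm]

/-- change of an average under a small change of the weight -/
lemma tilt {Ω : Type} [MeasurableSpace Ω] (P : Measure Ω) [IsProbabilityMeasure P]
    {Φ w ρ : Ω → ℝ} (hΦ : BM Φ) (hw : PB w) (hρ : PB ρ) {B δ : ℝ} (hB : 0 ≤ B) (hδ : 0 ≤ δ)
    (hΦB : ∀ a b, |Φ a - Φ b| ≤ B)
    (hρ1 : ∀ a, Real.exp (-δ) ≤ ρ a) (hρ2 : ∀ a, ρ a ≤ Real.exp δ) :
    |(∫ a, Φ a * (ρ a * w a) ∂P) / (∫ a, ρ a * w a ∂P) -
      (∫ a, Φ a * w a ∂P) / (∫ a, w a ∂P)| ≤ B * (Real.exp (2 * δ) - 1) := by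
  have hΩ : Nonempty Ω := nonempty_G P
  have hwI := hw.integral_pos P
  have hρw := hρ.mul hw
  have hρI := hρw.integral_pos P
  obtain ⟨c, hc⟩ := exists_mid hΦB
  obtain ⟨E, hE⟩ : ∃ E, E = (∫ a, ρ a * w a ∂P) / ∫ a, w a ∂P := ⟨_, rfl⟩
  have hEpos : 0 < E := by rw [hE]; exact div_pos hρI hwI
  have hE1 : Real.exp (-δ) ≤ E := by
    rw [hE, le_div_iff₀ hwI, ← integral_const_mul]
    exact integral_mono ((hw.bm.integrable P).const_mul _) (hρw.bm.integrable P)
      fun a => mul_le_mul_of_nonneg_right (hρ1 a) (hw.pos a).le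
  have hE2 : E ≤ Real.exp δ := by
    rw [hE, div_le_iff₀ hwI, ← integral_const_mul]
    exact integral_mono (hρw.bm.integrable P) ((hw.bm.integrable P).const_mul _)
      fun a => mul_le_mul_of_nonneg_right (hρ2 a) (hw.pos a).le
  have e : (∫ a, Φ a * (ρ a * w a) ∂P) / (∫ a, ρ a * w a ∂P) -
      (∫ a, Φ a * w a ∂P) / (∫ a, w a ∂P) =
      (∫ a, (Φ a - c) * (ρ a / E - 1) * w a ∂P) / ∫ a, w a ∂P := by
    have i1 : Integrable (fun a => Φ a * (ρ a * w a)) P := (hΦ.mul hρw.bm).integrable P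
    have i2 : Integrable (fun a => Φ a * w a) P := (hΦ.mul hw.bm).integrable P
    have i3 := hρw.bm.integrable P
    have i4 := hw.bm.integrable P
    have e1 : ∫ a, (Φ a - c) * (ρ a / E - 1) * w a ∂P =
        (1 / E) * (∫ a, Φ a * (ρ a * w a) ∂P) - (∫ a, Φ a * w a ∂P) -
          ((c / E) * (∫ a, ρ a * w a ∂P) - c * ∫ a, w a ∂P) := by
      have a1 : Integrable (fun a => (1 / E) * (Φ a * (ρ a * w a))) P := i1.const_mul _
      have a3 : Integrable (fun a => (c / E) * (ρ a * w a)) P := i3.const_mul _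
      have a4 : Integrable (fun a => c * w a) P := i4.const_mul _
      have a5 : Integrable (fun a => (1 / E) * (Φ a * (ρ a * w a)) - Φ a * w a) P := a1.sub i2
      have a6 : Integrable (fun a => (c / E) * (ρ a * w a) - c * w a) P := a3.sub a4
      rw [← integral_const_mul, ← integral_const_mul, ← integral_const_mul,
        ← integral_sub a1 i2, ← integral_sub a3 a4, ← integral_sub a5 a6]
      refine integral_congr_ae (Filter.Eventually.of_forall fun a => ?_)
      simp only
      ring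
    rw [e1, hE]
    have h1 := hwI.ne'
    have h2 := hρI.ne'
    field_simp
    ring
  rw [e, abs_div, abs_of_pos hwI, div_le_iff₀ hwI, ← integral_const_mul]
  have hb : BM fun a => (Φ a - c) * (ρ a / E - 1) * w a := by
    refine BM.mul (BM.mul (BM.sub' hΦ (BM.const _)) (BM.sub' ?_ (BM.const _))) hw.bm
    have := hρ.bm.mul (BM.const (α := Ω) E⁻¹)
    simpa only [div_eq_mul_inv] using this
  refine abs_integral_le_integral_abs.trans (integral_mono (hb.integrable P).abs
    ((hw.bm.integrable P).const_mul _) fun a => ?_)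
  simp only
  rw [abs_mul, abs_of_pos (hw.pos a), abs_mul]
  refine mul_le_mul_of_nonneg_right ?_ (hw.pos a).le
  have h1 : |Φ a - c| ≤ B := (hc a).trans (by linarith)
  have h2 : |ρ a / E - 1| ≤ Real.exp (2 * δ) - 1 := by
    have h3 : ρ a / E ≤ Real.exp (2 * δ) := by
      rw [div_le_iff₀ hEpos]
      calc ρ a ≤ Real.exp δ := hρ2 a
        _ = Real.exp (2 * δ) * Real.exp (-δ) := by rw [← Real.exp_add]; ring_nf
        _ ≤ _ := mul_le_mul_of_nonneg_left hE1 (Real.exp_pos _).le
    have h4 : Real.exp (-(2 * δ)) ≤ ρ a / E := by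
      rw [le_div_iff₀ hEpos]
      calc Real.exp (-(2 * δ)) * E ≤ Real.exp (-(2 * δ)) * Real.exp δ :=
            mul_le_mul_of_nonneg_left hE2 (Real.exp_pos _).le
        _ = Real.exp (-δ) := by rw [← Real.exp_add]; ring_nf
        _ ≤ _ := hρ1 a
    have h5 : 1 - Real.exp (-(2 * δ)) ≤ Real.exp (2 * δ) - 1 := by
      have h6 := Real.add_one_le_exp (2 * δ)
      have h7 := Real.add_one_le_exp (-(2 * δ))
      have h8 := Real.exp_pos (2 * δ)
      have h9 := Real.exp_pos (-(2 * δ))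
      have h10 : Real.exp (2 * δ) * Real.exp (-(2 * δ)) = 1 := by rw [← Real.exp_add]; simp
      nlinarith [sq_nonneg (Real.exp (2 * δ) - 1)]
    rw [abs_le]
    constructor <;> linarith
  exact mul_le_mul h1 h2 (abs_nonneg _) hB

end general

/-- the coordinate of the time `i` -/
def cc (T i : ℕ) : Fin (T + 1) := ⟨min i T, by omega⟩

lemma cc_val {T i : ℕ} (h : i ≤ T) : (cc T i : ℕ) = i := by simp [cc, h]

lemma cc_inj {T i j : ℕ} (hi : i ≤ T) (hj : j ≤ T) (h : cc T i = cc T j) : i = j := by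
  have := congrArg Fin.val h
  rwa [cc_val hi, cc_val hj] at this

lemma cc_eq {T : ℕ} (w : Fin (T + 1)) : w = cc T w := by
  ext
  rw [cc_val (by omega)]

variable {X : Type} [MeasurableSpace X]
variable {σ : Measure X} [IsProbabilityMeasure σ]
variable {T : ℕ} {k : X → X → ℝ} {v : ℕ → X → ℝ}

/-- weight of a column -/
noncomputable def colW (T : ℕ) (k : X → X → ℝ) (v : ℕ → X → ℝ) (x : Fin (T + 1) → X) : ℝ :=
  (∏ i ∈ Finset.range T, k (x (cc T i)) (x (cc T (i + 1)))) *
    ∏ i ∈ Finset.range (T + 1), Real.exp (v i (x (cc T i)))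

/-- kernels to the right of `t` -/
noncomputable def kr (k : X → X → ℝ) (v : ℕ → X → ℝ) (t : ℕ) : ℕ → X → X → ℝ :=
  fun i a b => k a b * Real.exp (v (t + (i + 1)) b)

/-- kernels to the left of `t` -/
noncomputable def kl (k : X → X → ℝ) (v : ℕ → X → ℝ) (t : ℕ) : ℕ → X → X → ℝ :=
  fun i a b => k a b * Real.exp (v (t - (i + 1)) b)

/-- coordinates to the right of `t` -/
def cr (T t : ℕ) : ℕ → Fin (T + 1) := fun i => cc T (t + i)

/-- coordinates to the left of `t` -/
def cl (T t : ℕ) : ℕ → Fin (T + 1) := fun i => cc T (t - i)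

lemma Ker_kr (hk : PB fun p : X × X => k p.1 p.2) (hv : ∀ i, BM (v i)) (t : ℕ) :
    Ker (kr k v t) := fun i => hk.mul ((PB.exp (hv _)).comp measurable_snd)

lemma Ker_kl (hk : PB fun p : X × X => k p.1 p.2) (hv : ∀ i, BM (v i)) (t : ℕ) :
    Ker (kl k v t) := fun i => hk.mul ((PB.exp (hv _)).comp measurable_snd)

lemma colW_pb (hk : PB fun p : X × X => k p.1 p.2) (hv : ∀ i, BM (v i)) : PB (colW T k v) := by
  refine PB.mul (PB.prod _ fun i _ => ?_) (PB.prod _ fun i _ => ?_)
  · exact PB.comp hk (g := fun x : Fin (T + 1) → X => (x (cc T i), x (cc T (i + 1))))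
      ((measurable_pi_apply _).prodMk (measurable_pi_apply _))
  · exact (PB.exp (hv i)).comp (measurable_pi_apply _)

lemma colW_split (hks : ∀ a b, k a b = k b a) {t : ℕ} (ht : t ≤ T) (x : Fin (T + 1) → X) :
    colW T k v x = Real.exp (v t (x (cc T t))) * W (fun _ => 1) (T - t) (cr T t) (kr k v t) x *
      W (fun _ => 1) t (cl T t) (kl k v t) x := by
  rw [W_eq, W_eq, colW]
  have e1 : ∏ i ∈ Finset.range T, k (x (cc T i)) (x (cc T (i + 1))) =
      (∏ i ∈ Finset.range t, k (x (cc T (t - i))) (x (cc T (t - (i + 1))))) *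
      ∏ i ∈ Finset.range (T - t), k (x (cc T (t + i))) (x (cc T (t + (i + 1)))) := by
    have h0 := Finset.prod_range_add (fun i => k (x (cc T i)) (x (cc T (i + 1)))) t (T - t)
    rw [show t + (T - t) = T by omega] at h0
    rw [h0]
    congr 1
    · rw [← Finset.prod_range_reflect]
      refine Finset.prod_congr rfl fun i hi => ?_
      rw [Finset.mem_range] at hi
      rw [hks, show t - 1 - i + 1 = t - i by omega, show t - 1 - i = t - (i + 1) by omega]
  have e2 : ∏ i ∈ Finset.range (T + 1), Real.exp (v i (x (cc T i))) =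
      (∏ i ∈ Finset.range t, Real.exp (v (t - (i + 1)) (x (cc T (t - (i + 1)))))) *
      (Real.exp (v t (x (cc T t))) *
      ∏ i ∈ Finset.range (T - t), Real.exp (v (t + (i + 1)) (x (cc T (t + (i + 1)))))) := by
    have h0 := Finset.prod_range_add (fun i => Real.exp (v i (x (cc T i)))) t ((T - t) + 1)
    rw [show t + ((T - t) + 1) = T + 1 by omega] at h0
    rw [h0, Finset.prod_range_succ']
    congr 1
    · rw [← Finset.prod_range_reflect]
      refine Finset.prod_congr rfl fun i hi => ?_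
      rw [Finset.mem_range] at hi
      have : t - 1 - i = t - (i + 1) := by omega
      rw [this]
    · rw [mul_comm]
      rfl
  rw [e1, e2]
  simp only [cr, cl, kr, kl, Finset.prod_mul_distrib]
  ring

end Pool.Agent.Q295.YM
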