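import Mathlib
import Pool.Agent.Q295.YM.Column

/-!
# Covariances in a column
-/

namespace Pool.Agent.Q295.YM

open MeasureTheory Function
open Pool.Agent.H556R4.Dob

set_option linter.unusedSectionVars false
set_option linter.unusedVariables false

/-- decay rates compatible with a contraction by `lam` in `m` steps -/
structure Rate (m : ℕ) (lam : ℝ) (b : ℕ → ℝ) : Prop where
  m1 : 1 ≤ m
  lam0 : 0 ≤ lam
  b0 : ∀ i, i < m → 2 ≤ b i
  bm : lam ≤ b m
  bs : ∀ i, lam * b i ≤ b (i + m)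
  bn : ∀ i, 0 ≤ b i

section general

variable {ι X : Type} [Fintype ι] [DecidableEq ι] [MeasurableSpace X]
variable {σ : Measure X} [IsProbabilityMeasure σ]

lemma OscH.congr {f : (ι → X) → ℝ} {D D' : ι → ℝ} (h : OscH f D) (e : ∀ w, D' w = D w) :
    OscH f D' := by
  have : D' = D := funext e
  rw [this]; exact h

open Classical in
lemma OscH_Br {h : X → ℝ} (hh : PB h) {m : ℕ} {lam : ℝ} {b : ℕ → ℝ} (hb : Rate m lam b)
    (n : ℕ) (c : ℕ → ι) (κ : ℕ → X → X → ℝ) (hκ : Ker κ)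
    (hmix : ∀ j, Mix σ m lam fun i => κ (i + j))
    (hc : ∀ i j, i ≤ n → j ≤ n → c i = c j → i = j) (f : (ι → X) → ℝ) (D : ι → ℝ) (hf : BM f)
    (hD : OscH f D) : OscH (Br σ h n c κ f) fun w =>
      if w = c 0 then D (c 0) + ∑ i ∈ Finset.range n, b (i + 1) * D (c (i + 1))
      else if ∃ i, 1 ≤ i ∧ i ≤ n ∧ w = c i then 0 else D w := by
  refine ⟨fun w => ?_, fun w V g => ?_⟩
  · dsimp only
    split_ifs
    · exact add_nonneg (hD.1 _) (Finset.sum_nonneg fun i _ => mul_nonneg (hb.bn _) (hD.1 _))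
    · exact le_rfl
    · exact hD.1 w
  · dsimp only
    split_ifs with h1 h2
    · rw [h1]
      exact Br_contract hh hb.m1 hb.lam0 hb.b0 hb.bm hb.bs hb.bn n c κ hκ hmix hc f D hf hD V g
    · obtain ⟨i, hi1, hi2, rfl⟩ := h2
      rw [Br_const n c κ hc f i hi1 hi2, sub_self, abs_zero]
    · push Not at h2
      refine Br_osc_off hh n c κ hκ f hf w (D w) g (fun V => hD.2 w V g) (fun i hi => ?_) V
      rcases Nat.eq_zero_or_pos i with h3 | h3
      · rw [h3]; exact h1
      · exact h2 i h3 hi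

end general

variable {X : Type} [MeasurableSpace X]
variable {σ : Measure X} [IsProbabilityMeasure σ]
variable {T : ℕ} {k : X → X → ℝ} {v : ℕ → X → ℝ}

/-- assumptions on a column -/
structure ColA (σ : Measure X) [IsProbabilityMeasure σ] (k : X → X → ℝ) (v : ℕ → X → ℝ) (m : ℕ)
    (δ : ℝ) (b : ℕ → ℝ) : Prop where
  k_pb : PB fun p : X × X => k p.1 p.2
  k_symm : ∀ a b, k a b = k b a
  um : UM σ k m
  v_bm : ∀ i, BM (v i)
  v_le : ∀ i y, |v i y| ≤ δ
  rate : Rate m (1 - Real.exp (-(2 * m * δ)) / 3) b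

variable {m : ℕ} {δ : ℝ} {b : ℕ → ℝ}

lemma ColA.mixr (hA : ColA σ k v m δ b) (t j : ℕ) :
    Mix σ m (1 - Real.exp (-(2 * m * δ)) / 3) fun i => kr k v t (i + j) :=
  Mix_of_UM hA.k_pb hA.um (v := fun i => v (t + (i + j + 1))) (fun i => hA.v_bm _)
    (fun i y => hA.v_le _ y)

lemma ColA.mixl (hA : ColA σ k v m δ b) (t j : ℕ) :
    Mix σ m (1 - Real.exp (-(2 * m * δ)) / 3) fun i => kl k v t (i + j) :=
  Mix_of_UM hA.k_pb hA.um (v := fun i => v (t - (i + j + 1))) (fun i => hA.v_bm _)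
    (fun i y => hA.v_le _ y)

lemma cr_inj {t : ℕ} (ht : t ≤ T) (i j : ℕ) (hi : i ≤ T - t) (hj : j ≤ T - t)
    (h : cr T t i = cr T t j) : i = j := by
  have := cc_inj (by omega) (by omega) h
  omega

lemma cl_inj {t : ℕ} (ht : t ≤ T) (i j : ℕ) (hi : i ≤ t) (hj : j ≤ t)
    (h : cl T t i = cl T t j) : i = j := by
  have := cc_inj (by omega) (by omega) h
  omega

/-- right branch -/
noncomputable def Rr (σ : Measure X) (T t : ℕ) (k : X → X → ℝ) (v : ℕ → X → ℝ)
    (f : (Fin (T + 1) → X) → ℝ) : (Fin (T + 1) → X) → ℝ :=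
  Br σ (fun _ => 1) (T - t) (cr T t) (kr k v t) f

/-- left branch -/
noncomputable def Rl (σ : Measure X) (T t : ℕ) (k : X → X → ℝ) (v : ℕ → X → ℝ)
    (f : (Fin (T + 1) → X) → ℝ) : (Fin (T + 1) → X) → ℝ :=
  Br σ (fun _ => 1) t (cl T t) (kl k v t) f

lemma OscH_Rr (hA : ColA σ k v m δ b) {t : ℕ} (ht : t ≤ T) {f : (Fin (T + 1) → X) → ℝ}
    {D : Fin (T + 1) → ℝ} (hf : BM f) (hD : OscH f D) : OscH (Rr σ T t k v f) fun w =>
      if (w : ℕ) = t then D (cc T t) + ∑ i ∈ Finset.range (T - t), b (i + 1) * D (cc T (t + (i + 1)))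
      else if t < (w : ℕ) then 0 else D w := by
  classical
  have h := OscH_Br (σ := σ) PB.one hA.rate (T - t) (cr T t) (kr k v t) (Ker_kr hA.k_pb hA.v_bm t)
    (hA.mixr t) (cr_inj ht) f D hf hD
  refine OscH.congr (f := Rr σ T t k v f) h fun w => ?_
  have e0 : cr T t 0 = cc T t := rfl
  have h1 : (w : ℕ) = t ↔ w = cr T t 0 := by
    rw [e0]
    constructor
    · intro h; ext; rw [h, cc_val ht]
    · intro h; rw [h, cc_val ht]
  have h2 : t < (w : ℕ) ↔ ∃ i, 1 ≤ i ∧ i ≤ T - t ∧ w = cr T t i := by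
    constructor
    · intro h
      refine ⟨w - t, by omega, by omega, ?_⟩
      ext
      show (w : ℕ) = (cc T (t + (w - t)) : Fin (T + 1))
      rw [cc_val (by omega)]
      omega
    · rintro ⟨i, hi1, hi2, rfl⟩
      show t < ((cc T (t + i) : Fin (T + 1)) : ℕ)
      rw [cc_val (by omega)]
      omega
  simp only [h1, h2]
  rfl

lemma OscH_Rl (hA : ColA σ k v m δ b) {t : ℕ} (ht : t ≤ T) {f : (Fin (T + 1) → X) → ℝ}
    {D : Fin (T + 1) → ℝ} (hf : BM f) (hD : OscH f D) : OscH (Rl σ T t k v f) fun w =>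
      if (w : ℕ) = t then D (cc T t) + ∑ i ∈ Finset.range t, b (i + 1) * D (cc T (t - (i + 1)))
      else if (w : ℕ) < t then 0 else D w := by
  classical
  have h := OscH_Br (σ := σ) PB.one hA.rate t (cl T t) (kl k v t) (Ker_kl hA.k_pb hA.v_bm t)
    (hA.mixl t) (cl_inj ht) f D hf hD
  refine OscH.congr (f := Rl σ T t k v f) h fun w => ?_
  have e0 : cl T t 0 = cc T t := rfl
  have h1 : (w : ℕ) = t ↔ w = cl T t 0 := by
    rw [e0]
    constructor
    · intro h; ext; rw [h, cc_val ht]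
    · intro h; rw [h, cc_val ht]
  have h2 : (w : ℕ) < t ↔ ∃ i, 1 ≤ i ∧ i ≤ t ∧ w = cl T t i := by
    constructor
    · intro h
      refine ⟨t - w, by omega, by omega, ?_⟩
      ext
      show (w : ℕ) = (cc T (t - (t - w)) : Fin (T + 1))
      rw [cc_val (by omega)]
      omega
    · rintro ⟨i, hi1, hi2, rfl⟩
      show ((cc T (t - i) : Fin (T + 1)) : ℕ) < t
      rw [cc_val (by omega)]
      omega
  simp only [h1, h2]
  rfl

lemma W_bm_off {ι : Type} [Fintype ι] [DecidableEq ι] (n : ℕ) (c : ℕ → ι) (κ : ℕ → X → X → ℝ)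
    (z : ι) (hz : ∀ i, i ≤ n → c i ≠ z) (x : ι → X) (g : X) :
    W (fun _ => 1) n c κ (update x z g) = W (fun _ => 1) n c κ x := by
  rw [W_eq, W_eq]
  refine Finset.prod_congr rfl fun i hi => ?_
  rw [Finset.mem_range] at hi
  rw [update_of_ne (hz i (by omega)), update_of_ne (hz (i + 1) (by omega))]

/-- elimination of the left part -/
lemma elim_l (hA : ColA σ k v m δ b) {t : ℕ} (ht : t ≤ T) {f F : (Fin (T + 1) → X) → ℝ}
    (hf : BM f) (hF : BM F)
    (hFl : ∀ (w : Fin (T + 1)), (w : ℕ) < t → ∀ x g, F (update x w g) = F x) :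
    ∫ U, f U * (F U * colW T k v U) ∂(Pm σ : Measure (Fin (T + 1) → X)) =
      ∫ U, Rl σ T t k v f U * (F U * (Real.exp (v t (U (cc T t))) *
        W (fun _ => 1) (T - t) (cr T t) (kr k v t) U * Zf σ (fun _ => 1) t (kl k v t) (U (cc T t))))
        ∂(Pm σ : Measure (Fin (T + 1) → X)) := by
  have hWr := W_pb (h := fun _ : X => (1 : ℝ)) (ι := Fin (T + 1)) PB.one (T - t) (cr T t)
    (kr k v t) (Ker_kr hA.k_pb hA.v_bm t)
  have hg : BM fun U : Fin (T + 1) → X => F U * (Real.exp (v t (U (cc T t))) *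
      W (fun _ => 1) (T - t) (cr T t) (kr k v t) U) :=
    hF.mul ((PB.exp (hA.v_bm t)).bm.comp (measurable_pi_apply _) |>.mul hWr.bm)
  have h := integral_Br (σ := σ) (PB.one (α := X)) t (cl T t) (kl k v t)
    (Ker_kl hA.k_pb hA.v_bm t) (cl_inj ht) f _ hf hg (fun i hi1 hi2 x y => by
      have h1 : ((cl T t i : Fin (T + 1)) : ℕ) = t - i := cc_val (by omega)
      have h2 : cc T t ≠ cl T t i := fun h => by
        have := cc_inj (by omega) (by omega) h
        omega
      rw [hFl _ (by omega), update_of_ne h2, W_bm_off _ _ _ _ (fun j hj h3 => by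
        have := cc_inj (T := T) (i := t + j) (j := t - i) (by omega) (by omega) h3
        omega)])
  have e1 : ∫ U, f U * (F U * colW T k v U) ∂(Pm σ : Measure (Fin (T + 1) → X)) =
      ∫ U, f U * ((fun U : Fin (T + 1) → X => F U * (Real.exp (v t (U (cc T t))) *
        W (fun _ => 1) (T - t) (cr T t) (kr k v t) U)) U *
        W (fun _ => 1) t (cl T t) (kl k v t) U) ∂(Pm σ : Measure (Fin (T + 1) → X)) := by
    refine integral_congr_ae (Filter.Eventually.of_forall fun U => ?_)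
    simp only
    rw [colW_split hA.k_symm ht]
    ring
  rw [e1, h]
  refine integral_congr_ae (Filter.Eventually.of_forall fun U => ?_)
  have e0 : cl T t 0 = cc T t := rfl
  simp only [Rl, e0]
  ring

/-- elimination of the right part -/
lemma elim_r (hA : ColA σ k v m δ b) {t : ℕ} (ht : t ≤ T) {f F : (Fin (T + 1) → X) → ℝ}
    (hf : BM f) (hF : BM F)
    (hFr : ∀ (w : Fin (T + 1)), t < (w : ℕ) → ∀ x g, F (update x w g) = F x) :
    ∫ U, f U * (F U * W (fun _ => 1) (T - t) (cr T t) (kr k v t) U)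
        ∂(Pm σ : Measure (Fin (T + 1) → X)) =
      ∫ U, Rr σ T t k v f U * (F U * Zf σ (fun _ => 1) (T - t) (kr k v t) (U (cc T t)))
        ∂(Pm σ : Measure (Fin (T + 1) → X)) := by
  have h := integral_Br (σ := σ) (PB.one (α := X)) (T - t) (cr T t) (kr k v t)
    (Ker_kr hA.k_pb hA.v_bm t) (cr_inj ht) f F hf hF (fun i hi1 hi2 x y => by
      have h1 : ((cr T t i : Fin (T + 1)) : ℕ) = t + i := cc_val (by omega)
      exact hFr _ (by omega) x y)
  rw [h]
  rfl

/-- total oscillation -/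
lemma OscH.total {ι : Type} [Fintype ι] [DecidableEq ι] {f : (ι → X) → ℝ} {D : ι → ℝ}
    (hD : OscH f D) (U U' : ι → X) : |f U - f U'| ≤ ∑ w, D w :=
  hD.tele Finset.univ U U' fun w hw => absurd (Finset.mem_univ w) hw

/-- **Tilt of a column by a function of one time.** -/
theorem col_tilt (hA : ColA σ k v m δ b) {t : ℕ} (ht : t ≤ T) {f : (Fin (T + 1) → X) → ℝ}
    {D : Fin (T + 1) → ℝ} (hf : BM f) (hD : OscH f D) {ρ : X → ℝ} (hρ : PB ρ) {ε : ℝ}
    (hε : 0 ≤ ε) (hρ1 : ∀ a, Real.exp (-ε) ≤ ρ a) (hρ2 : ∀ a, ρ a ≤ Real.exp ε) :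
    |(∫ U, f U * (ρ (U (cc T t)) * colW T k v U) ∂(Pm σ : Measure (Fin (T + 1) → X))) /
        (∫ U, ρ (U (cc T t)) * colW T k v U ∂(Pm σ : Measure (Fin (T + 1) → X))) -
      (∫ U, f U * colW T k v U ∂(Pm σ : Measure (Fin (T + 1) → X))) /
        (∫ U, colW T k v U ∂(Pm σ : Measure (Fin (T + 1) → X)))| ≤
      (D (cc T t) + ∑ i ∈ Finset.range (T - t), b (i + 1) * D (cc T (t + (i + 1))) +
        ∑ i ∈ Finset.range t, b (i + 1) * D (cc T (t - (i + 1)))) * (Real.exp (2 * ε) - 1) := by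
  obtain ⟨B, hB⟩ : ∃ B, B = D (cc T t) + ∑ i ∈ Finset.range (T - t),
      b (i + 1) * D (cc T (t + (i + 1))) +
      ∑ i ∈ Finset.range t, b (i + 1) * D (cc T (t - (i + 1))) := ⟨_, rfl⟩
  rw [← hB]
  have hB0 : 0 ≤ B := by
    rw [hB]
    refine add_nonneg (add_nonneg (hD.1 _) (Finset.sum_nonneg fun i _ =>
      mul_nonneg (hA.rate.bn _) (hD.1 _))) (Finset.sum_nonneg fun i _ =>
      mul_nonneg (hA.rate.bn _) (hD.1 _))
  have hZl := Zf_pb (σ := σ) (PB.one (α := X)) t (kl k v t) (Ker_kl hA.k_pb hA.v_bm t)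
  have hZr := Zf_pb (σ := σ) (PB.one (α := X)) (T - t) (kr k v t) (Ker_kr hA.k_pb hA.v_bm t)
  obtain ⟨w, hw⟩ : ∃ w : X → ℝ, w = fun y => Real.exp (v t y) *
    Zf σ (fun _ => 1) (T - t) (kr k v t) y * Zf σ (fun _ => 1) t (kl k v t) y := ⟨_, rfl⟩
  have hwpb : PB w := by rw [hw]; exact ((PB.exp (hA.v_bm t)).mul hZr).mul hZl
  -- the function after elimination
  have hfl : ∀ {f : (Fin (T + 1) → X) → ℝ}, BM f → BM (Rl σ T t k v f) := fun hf =>
    Br_bm PB.one _ _ _ (Ker_kl hA.k_pb hA.v_bm t) _ hf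
  have hfr : ∀ {f : (Fin (T + 1) → X) → ℝ}, BM f → BM (Rr σ T t k v f) := fun hf =>
    Br_bm PB.one _ _ _ (Ker_kr hA.k_pb hA.v_bm t) _ hf
  have key : ∀ (f : (Fin (T + 1) → X) → ℝ), BM f → ∀ ρ : X → ℝ, BM ρ →
      ∫ U, f U * (ρ (U (cc T t)) * colW T k v U) ∂(Pm σ : Measure (Fin (T + 1) → X)) =
      ∫ U, Rr σ T t k v (Rl σ T t k v f) U * (ρ (U (cc T t)) * w (U (cc T t)))
        ∂(Pm σ : Measure (Fin (T + 1) → X)) := by
    intro f hf ρ hρ
    have h1 := elim_l (σ := σ) hA ht hf (F := fun U => ρ (U (cc T t)))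
      (hρ.comp (measurable_pi_apply _)) (fun w hw x g => by
        rw [update_of_ne]
        intro h
        rw [← h, cc_val ht] at hw
        exact lt_irrefl _ hw)
    rw [h1]
    have h2 := elim_r (σ := σ) hA ht (hfl hf) (F := fun U => ρ (U (cc T t)) *
      (Real.exp (v t (U (cc T t))) * Zf σ (fun _ => 1) t (kl k v t) (U (cc T t))))
      ((hρ.mul ((PB.exp (hA.v_bm t)).bm.mul hZl.bm)).comp (measurable_pi_apply (cc T t)))
      (fun w hw x g => by
        rw [update_of_ne]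
        intro h
        rw [← h, cc_val ht] at hw
        exact lt_irrefl _ hw)
    have e1 : ∀ U : Fin (T + 1) → X, Rl σ T t k v f U * (ρ (U (cc T t)) *
        (Real.exp (v t (U (cc T t))) * W (fun _ => 1) (T - t) (cr T t) (kr k v t) U *
          Zf σ (fun _ => 1) t (kl k v t) (U (cc T t)))) =
        Rl σ T t k v f U * ((ρ (U (cc T t)) * (Real.exp (v t (U (cc T t))) *
          Zf σ (fun _ => 1) t (kl k v t) (U (cc T t)))) *
          W (fun _ => 1) (T - t) (cr T t) (kr k v t) U) := fun U => by ring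
    simp only [e1]
    rw [h2]
    refine integral_congr_ae (Filter.Eventually.of_forall fun U => ?_)
    simp only [hw]
    ring
  have hone : Rr σ T t k v (Rl σ T t k v fun _ => 1) = fun _ => 1 := by
    have h1 : Rl σ T t k v (fun _ : Fin (T + 1) → X => (1 : ℝ)) = fun _ => 1 :=
      funext fun x => Br_fun_const PB.one _ _ _ (Ker_kl hA.k_pb hA.v_bm t) 1 x
    rw [h1]
    exact funext fun x => Br_fun_const PB.one _ _ _ (Ker_kr hA.k_pb hA.v_bm t) 1 x
  have k1 := key f hf ρ hρ.bm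
  have k2 := key (fun _ => 1) (BM.const 1) ρ hρ.bm
  have k3 := key f hf (fun _ => 1) (BM.const 1)
  have k4 := key (fun _ => 1) (BM.const 1) (fun _ => 1) (BM.const 1)
  rw [hone] at k2 k4
  simp only [one_mul] at k2 k3 k4
  rw [k1, k2, k3, k4]
  have hosc1 := OscH_Rl hA ht hf hD
  have hosc2 := OscH_Rr hA ht (hfl hf) hosc1
  have hosc : ∀ U U', |Rr σ T t k v (Rl σ T t k v f) U - Rr σ T t k v (Rl σ T t k v f) U'| ≤ B := by
    intro U U'
    refine (hosc2.total U U').trans (le_of_eq ?_)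
    rw [Finset.sum_eq_single (cc T t)]
    · rw [if_pos (cc_val ht), if_pos (cc_val ht), hB]
      have e : ∑ x ∈ Finset.range (T - t), b (x + 1) * (if ((cc T (t + (x + 1)) : Fin (T + 1)) : ℕ) = t
          then D (cc T t) + ∑ i ∈ Finset.range t, b (i + 1) * D (cc T (t - (i + 1)))
          else if ((cc T (t + (x + 1)) : Fin (T + 1)) : ℕ) < t then 0 else D (cc T (t + (x + 1)))) =
          ∑ x ∈ Finset.range (T - t), b (x + 1) * D (cc T (t + (x + 1))) := by
        refine Finset.sum_congr rfl fun x hx => ?_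
        rw [Finset.mem_range] at hx
        rw [cc_val (by omega), if_neg (by omega), if_neg (by omega)]
      rw [e]
      ring
    · intro w _ hw
      have h1 : (w : ℕ) ≠ t := fun h => hw (by ext; rw [h, cc_val ht])
      rw [if_neg h1]
      split_ifs with h2 h3
      · rfl
      · rfl
      · omega
    · intro h; exact absurd (Finset.mem_univ _) h
  exact tilt (Pm σ : Measure (Fin (T + 1) → X)) (hfr (hfl hf))
    (hwpb.comp (measurable_pi_apply (cc T t))) (hρ.comp (measurable_pi_apply (cc T t))) hB0 hε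
    hosc (fun a => hρ1 _) (fun a => hρ2 _)

/-- **Tilt of a column by a function of the times from `t` on.** -/
theorem col_tilt_far (hA : ColA σ k v m δ b) {t : ℕ} (ht : t ≤ T) {f : (Fin (T + 1) → X) → ℝ}
    {D : Fin (T + 1) → ℝ} (hf : BM f) (hD : OscH f D) {F : (Fin (T + 1) → X) → ℝ} (hF : PB F)
    (hFl : ∀ (w : Fin (T + 1)), (w : ℕ) < t → ∀ x g, F (update x w g) = F x) :
    |(∫ U, f U * (F U * colW T k v U) ∂(Pm σ : Measure (Fin (T + 1) → X))) /
        (∫ U, F U * colW T k v U ∂(Pm σ : Measure (Fin (T + 1) → X))) -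
      (∫ U, f U * colW T k v U ∂(Pm σ : Measure (Fin (T + 1) → X))) /
        (∫ U, colW T k v U ∂(Pm σ : Measure (Fin (T + 1) → X)))| ≤
      ∑ i ∈ Finset.range t, b (i + 1) * D (cc T (t - (i + 1))) +
        ∑ w : Fin (T + 1), if t ≤ (w : ℕ) then D w else 0 := by
  have hZl := Zf_pb (σ := σ) (PB.one (α := X)) t (kl k v t) (Ker_kl hA.k_pb hA.v_bm t)
  have hWr := W_pb (h := fun _ : X => (1 : ℝ)) (ι := Fin (T + 1)) PB.one (T - t) (cr T t)
    (kr k v t) (Ker_kr hA.k_pb hA.v_bm t)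
  obtain ⟨w, hw⟩ : ∃ w : (Fin (T + 1) → X) → ℝ, w = fun U => Real.exp (v t (U (cc T t))) *
        W (fun _ => 1) (T - t) (cr T t) (kr k v t) U *
        Zf σ (fun _ => 1) t (kl k v t) (U (cc T t)) := ⟨_, rfl⟩
  have hwpb : PB w := by
    rw [hw]
    exact (((PB.exp (hA.v_bm t)).comp (measurable_pi_apply _)).mul hWr).mul
      (hZl.comp (measurable_pi_apply _))
  have hone : Rl σ T t k v (fun _ : Fin (T + 1) → X => (1 : ℝ)) = fun _ => 1 :=
      funext fun x => Br_fun_const PB.one _ _ _ (Ker_kl hA.k_pb hA.v_bm t) 1 x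
  have hfl : BM (Rl σ T t k v f) := Br_bm PB.one _ _ _ (Ker_kl hA.k_pb hA.v_bm t) _ hf
  have k1 := elim_l (σ := σ) hA ht hf hF.bm hFl
  have k2 := elim_l (σ := σ) hA ht (BM.const 1) hF.bm hFl
  have k3 := elim_l (σ := σ) hA ht hf (BM.const 1) (fun _ _ _ _ => rfl)
  have k4 := elim_l (σ := σ) hA ht (BM.const 1) (BM.const 1) (fun _ _ _ _ => rfl)
  rw [hone] at k2 k4
  simp only [one_mul] at k2 k3 k4
  rw [k1, k2, k3, k4]
  have hosc := OscH_Rl hA ht hf hD
  have hF' := hF.mul hwpb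
  have h := average_diff (Pm σ : Measure (Fin (T + 1) → X)) (Pm σ : Measure (Fin (T + 1) → X))
    hfl hF'.bm hfl hwpb.bm (fun a => hF'.pos a) (fun a => hwpb.pos a) (hF'.integral_pos _)
    (hwpb.integral_pos _) (fun a b => hosc.total a b)
  rw [hw] at h
  refine h.trans (le_of_eq ?_)
  have e1 : ∀ w : Fin (T + 1), (if (w : ℕ) = t then D (cc T t) +
      ∑ i ∈ Finset.range t, b (i + 1) * D (cc T (t - (i + 1)))
      else if (w : ℕ) < t then 0 else D w) =
      (if w = cc T t then ∑ i ∈ Finset.range t, b (i + 1) * D (cc T (t - (i + 1))) else 0) +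
        if t ≤ (w : ℕ) then D w else 0 := by
    intro w
    by_cases h1 : (w : ℕ) = t
    · have h2 : w = cc T t := by ext; rw [h1, cc_val ht]
      rw [if_pos h1, if_pos h2, if_pos (by omega), ← h2]
      ring
    · have h2 : w ≠ cc T t := fun h => h1 (by rw [h, cc_val ht])
      rw [if_neg h1, if_neg h2, zero_add]
      split_ifs with h3 h4 h5
      · omega
      · rfl
      · rfl
      · omega
  simp only [e1]
  rw [Finset.sum_add_distrib, Finset.sum_ite_eq' Finset.univ (cc T t)]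
  simp

end Pool.Agent.Q295.YM
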