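import Mathlib
import Pool.Agent.Q295.YM.Branch

/-!
# Dobrushin comparison of two Gibbs measures
-/

namespace Pool.Agent.Q295.YM

open MeasureTheory Function
open Pool.Agent.H556R4.Dob

set_option linter.unusedSectionVars false

variable {ι G : Type} [Fintype ι] [DecidableEq ι] [MeasurableSpace G]
variable (μ : Measure G) [IsProbabilityMeasure μ]

/-- expectation with the density `H` -/
noncomputable def E1 (H f : (ι → G) → ℝ) : ℝ :=
  (∫ U, f U * H U ∂(Pm μ : Measure (ι → G))) / ∫ U, H U ∂(Pm μ : Measure (ι → G))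

lemma merge_univ (U v : ι → G) : merge Finset.univ U v = U := by
  funext i; simp [merge]

variable {μ}

lemma Dens_of_PB {H : (ι → G) → ℝ} (h : PB H) : Dens H := ⟨h.meas, h.lb, h.ub⟩

lemma integral_cond {H : (ι → G) → ℝ} (hH : Dens H) (x : ι) {f : (ι → G) → ℝ} (hf : BM f) :
    ∫ U, cond μ H x f U * H U ∂(Pm μ : Measure (ι → G)) =
      ∫ U, f U * H U ∂(Pm μ : Measure (ι → G)) := by
  have hX : Nonempty G := nonempty_G μ
  obtain ⟨g⟩ := hX
  have := I_cond μ hH (Finset.mem_univ x) (fun _ => g) hf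
  simpa only [I, merge_univ] using this

lemma E1_cond {H : (ι → G) → ℝ} (hH : Dens H) (x : ι) {f : (ι → G) → ℝ} (hf : BM f) :
    E1 μ H (cond μ H x f) = E1 μ H f := by
  rw [E1, E1, integral_cond hH x hf]

lemma E1_le {H : (ι → G) → ℝ} (hH : Dens H) {f f' : (ι → G) → ℝ} (hf : BM f) (hf' : BM f')
    {K : ℝ} (hK : ∀ U, |f U - f' U| ≤ K) : |E1 μ H f - E1 μ H f'| ≤ K := by
  have hpos : 0 < ∫ U, H U ∂(Pm μ : Measure (ι → G)) := by
    obtain ⟨m, hm, h⟩ := hH.lb
    exact integral_pos_of_lb _ hH.bm hm h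
  rw [E1, E1, ← sub_div, abs_div, abs_of_pos hpos, div_le_iff₀ hpos,
    ← integral_sub ((hf.mul hH.bm).integrable _) ((hf'.mul hH.bm).integrable _),
    ← integral_const_mul]
  refine abs_integral_le_integral_abs.trans ?_
  have i1 : Integrable (fun U => f U * H U - f' U * H U) (Pm μ : Measure (ι → G)) :=
    ((hf.mul hH.bm).integrable _).sub ((hf'.mul hH.bm).integrable _)
  refine integral_mono i1.abs ((hH.bm.integrable _).const_mul K) fun U => ?_
  simp only
  rw [← sub_mul, abs_mul, abs_of_pos (hH.pos U)]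
  exact mul_le_mul_of_nonneg_right (hK U) (hH.pos U).le

variable (μ)

/-- `a` is an estimate for the pair of densities `H`, `H'` -/
def P2 (d : G → G → ℝ) (H H' : (ι → G) → ℝ) (a : ι → ℝ) : Prop :=
  ∀ f D, BM f → Osc d f D → |E1 μ H f - E1 μ H' f| ≤ ∑ y, a y * D y

/-- distance of the conditional laws of the coordinate `x` -/
def LawDiff (d : G → G → ℝ) (H H' : (ι → G) → ℝ) (x : ι) (b : ℝ) : Prop :=
  ∀ (V : ι → G) (L : ℝ) (φ : G → ℝ), BM φ → 0 ≤ L → (∀ g g', |φ g - φ g'| ≤ L * d g g') →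
    |∫ g, φ g * dens μ H x V g ∂μ - ∫ g, φ g * dens μ H' x V g ∂μ| ≤ L * b

variable {μ} {d : G → G → ℝ} {H H' : (ι → G) → ℝ}

lemma P2.mono {a a' : ι → ℝ} (h : P2 μ d H H' a) (haa : ∀ y, a y ≤ a' y) : P2 μ d H H' a' := by
  intro f D hf hD
  refine (h f D hf hD).trans (Finset.sum_le_sum fun y _ => ?_)
  exact mul_le_mul_of_nonneg_right (haa y) (hD.1 y)

lemma P2.update (hH : Dens H) (hH' : Dens H') {a : ι → ℝ} (h : P2 μ d H H' a)
    {x : ι} (C : ι → ℝ) (hC0 : ∀ y, 0 ≤ C y)
    (hC : ∀ y, y ≠ x → Infl μ d H x y (C y)) (hd : ∀ g g', 0 ≤ d g g') {b : ℝ}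
    (hb : LawDiff μ d H H' x b) :
    P2 μ d H H' (Function.update a x (∑ y ∈ Finset.univ.erase x, C y * a y + b)) := by
  intro f D hf hD
  have h1 := h (cond μ H x f) _ (cond_bm μ hH x hf) (osc_cond μ hH hf hD x C hC0 hC hd)
  have h2 : |E1 μ H' (cond μ H x f) - E1 μ H' (cond μ H' x f)| ≤ D x * b := by
    refine E1_le hH' (cond_bm μ hH x hf) (cond_bm μ hH' x hf) fun U => ?_
    refine hb U (D x) (fun g => f (Function.update U x g)) (hf.comp (measurable_update_right x U))
      (hD.1 x) fun g g' => ?_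
    have := hD.2 x (Function.update U x g') g
    rwa [update_idem, update_self] at this
  rw [E1_cond hH x hf] at h1
  rw [E1_cond hH' x hf] at h2
  have h3 : |E1 μ H f - E1 μ H' f| ≤ |E1 μ H f - E1 μ H' (cond μ H x f)| +
      |E1 μ H' (cond μ H x f) - E1 μ H' f| := abs_sub_le _ _ _
  refine (h3.trans (add_le_add h1 h2)).trans (le_of_eq ?_)
  rw [← Finset.add_sum_erase Finset.univ (fun y => a y * (if y = x then 0 else D y + C y * D x))
    (Finset.mem_univ x), ← Finset.add_sum_erase Finset.univ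
    (fun y => Function.update a x (∑ y ∈ Finset.univ.erase x, C y * a y + b) y * D y)
    (Finset.mem_univ x)]
  have e1 : ∑ y ∈ Finset.univ.erase x, a y * (if y = x then 0 else D y + C y * D x) =
      ∑ y ∈ Finset.univ.erase x, a y * D y + (∑ y ∈ Finset.univ.erase x, C y * a y) * D x := by
    rw [Finset.sum_mul, ← Finset.sum_add_distrib]
    refine Finset.sum_congr rfl fun y hy => ?_
    rw [if_neg (Finset.ne_of_mem_erase hy)]
    ring
  have e2 : ∑ y ∈ Finset.univ.erase x,
      Function.update a x (∑ y ∈ Finset.univ.erase x, C y * a y + b) y * D y =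
      ∑ y ∈ Finset.univ.erase x, a y * D y := by
    refine Finset.sum_congr rfl fun y hy => ?_
    rw [update_of_ne (Finset.ne_of_mem_erase hy)]
  rw [e1, e2, update_self, if_pos rfl]
  ring

lemma P2.base (hH : Dens H) (hH' : Dens H') {a : ι → ℝ} (ha : ∀ y, 0 ≤ a y)
    {δ : ℝ} (hd : Cost d δ) : P2 μ d H H' (fun y => a y + δ) := by
  intro f D hf hD
  have p1 : 0 < ∫ U, H U ∂(Pm μ : Measure (ι → G)) := by
    obtain ⟨m, hm, h⟩ := hH.lb
    exact integral_pos_of_lb _ hH.bm hm h
  have p2 : 0 < ∫ U, H' U ∂(Pm μ : Measure (ι → G)) := by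
    obtain ⟨m, hm, h⟩ := hH'.lb
    exact integral_pos_of_lb _ hH'.bm hm h
  refine average_diff (Pm μ) (Pm μ) hf hH.bm hf hH'.bm (fun U => hH.pos _) (fun U => hH'.pos _)
    p1 p2 fun U U' => ?_
  have h := telescope hD U' U Finset.univ
  rw [merge_univ] at h
  refine h.trans (Finset.sum_le_sum fun y _ => ?_)
  rw [mul_comm]
  refine mul_le_mul_of_nonneg_right ?_ (hD.1 y)
  have := hd.le (U y) (U' y)
  have := ha y
  linarith

variable {C : ι → ι → ℝ} {b : ι → ℝ}

lemma P2.sweep (hH : Dens H) (hH' : Dens H') {a : ι → ℝ}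
    (hC : ∀ x, ∀ y, y ≠ x → Infl μ d H x y (C x y)) (hd : ∀ g g', 0 ≤ d g g')
    (hC0 : ∀ x y, 0 ≤ C x y) (hb : ∀ x, LawDiff μ d H H' x (b x)) {ρ : ℝ} (hρ1 : ρ ≤ 1)
    (hs : ∀ x, ∑ y ∈ Finset.univ.erase x, C x y * a y + b x ≤ a x)
    (hr : ∀ x, ∑ y ∈ Finset.univ.erase x, C x y ≤ ρ)
    {t : ℝ} (ht : 0 ≤ t) (h : P2 μ d H H' (fun y => a y + t)) :
    P2 μ d H H' (fun y => a y + t * ρ) := by
  have key : ∀ T : Finset ι, P2 μ d H H' (fun y => a y + if y ∈ T then t * ρ else t) := by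
    intro T
    induction T using Finset.induction_on with
    | empty => simpa using h
    | insert x T hx ih =>
      have h1 := ih.update hH hH' (x := x) (C x) (hC0 x) (hC x) hd (hb x)
      refine h1.mono fun y => ?_
      by_cases hy : y = x
      · subst hy
        rw [Function.update_self]
        simp only [Finset.mem_insert, true_or, if_true]
        have e : ∑ z ∈ Finset.univ.erase y, C y z * (a z + if z ∈ T then t * ρ else t)
            ≤ ∑ z ∈ Finset.univ.erase y, C y z * a z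
              + (∑ z ∈ Finset.univ.erase y, C y z) * t := by
          rw [Finset.sum_mul, ← Finset.sum_add_distrib]
          refine Finset.sum_le_sum fun z _ => ?_
          rw [mul_add]
          refine add_le_add le_rfl ?_
          split_ifs
          · exact mul_le_mul_of_nonneg_left (mul_le_of_le_one_right ht hρ1) (hC0 _ _)
          · exact le_rfl
        have h2 := mul_le_mul_of_nonneg_right (hr y) ht
        have h3 := hs y
        linarith
      · rw [Function.update_of_ne hy]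
        simp [hy]
  have := key Finset.univ
  refine this.mono fun y => ?_
  simp

/-- **Dobrushin comparison of two Gibbs measures.** -/
theorem comparison2 (hH : Dens H) (hH' : Dens H') {a : ι → ℝ} (ha : ∀ y, 0 ≤ a y)
    {δ : ℝ} (hδ : 0 ≤ δ) (hd : Cost d δ)
    (hC : ∀ x, ∀ y, y ≠ x → Infl μ d H x y (C x y))
    (hC0 : ∀ x y, 0 ≤ C x y) (hb : ∀ x, LawDiff μ d H H' x (b x))
    {ρ : ℝ} (hρ0 : 0 ≤ ρ) (hρ1 : ρ < 1)
    (hs : ∀ x, ∑ y ∈ Finset.univ.erase x, C x y * a y + b x ≤ a x)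
    (hr : ∀ x, ∑ y ∈ Finset.univ.erase x, C x y ≤ ρ) : P2 μ d H H' a := by
  have key : ∀ n : ℕ, P2 μ d H H' (fun y => a y + δ * ρ ^ n) := by
    intro n
    induction n with
    | zero => simpa using P2.base hH hH' ha hd
    | succ n ih =>
      have := ih.sweep hH hH' hC hd.nonneg hC0 hb hρ1.le hs hr (mul_nonneg hδ (pow_nonneg hρ0 n))
      simpa [pow_succ, mul_assoc] using this
  intro f D hf hD
  have hlim : Filter.Tendsto (fun n : ℕ => ∑ y, (a y + δ * ρ ^ n) * D y)
      Filter.atTop (nhds (∑ y, (a y + δ * 0) * D y)) := by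
    refine tendsto_finsetSum _ fun y _ => ?_
    exact Filter.Tendsto.mul_const _ (Filter.Tendsto.const_add _
      ((tendsto_pow_atTop_nhds_zero_of_lt_one hρ0 hρ1).const_mul δ))
  have := ge_of_tendsto' hlim fun n => key n f D hf hD
  simpa using this

end Pool.Agent.Q295.YM
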