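import Mathlib
import Pool.Agent.Q295.YM.Column2
import Pool.Agent.Q295.YM.Comp2

/-!
# Systems of columns with a weak coupling of the columns
-/

namespace Pool.Agent.Q295.YM

open MeasureTheory Function
open Pool.Agent.H556R4.Dob

set_option linter.unusedSectionVars false
set_option linter.unusedVariables false

/-- a system of columns -/
structure Sys (X E P : Type) where
  T : ℕ
  k : X → X → ℝ
  u : P → (E → X) → ℝ
  supp : P → Finset E

variable {X E P : Type} [MeasurableSpace X] [Fintype E] [DecidableEq E] [Fintype P]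
variable {σ : Measure X} [IsProbabilityMeasure σ]

namespace Sys

variable (S : Sys X E P)

/-- weight of the free column -/
noncomputable def ck (x : Fin (S.T + 1) → X) : ℝ :=
  ∏ i ∈ Finset.range S.T, S.k (x (cc S.T i)) (x (cc S.T (i + 1)))

/-- the configuration at the time `i` -/
def sl (i : ℕ) (V : E → Fin (S.T + 1) → X) : E → X := fun e => V e (cc S.T i)

/-- the weight of a configuration -/
noncomputable def H (V : E → Fin (S.T + 1) → X) : ℝ :=
  (∏ e, S.ck (V e)) * Real.exp (∑ i ∈ Finset.range (S.T + 1), ∑ p, S.u p (S.sl i V))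

/-- the potentials which act on the column `e` -/
noncomputable def v (e : E) (V : E → Fin (S.T + 1) → X) (i : ℕ) (y : X) : ℝ :=
  ∑ p, if e ∈ S.supp p then S.u p (update (S.sl i V) e y) else 0

/-- the number of interactions of two columns -/
def nb (e y : E) : ℕ := (Finset.univ.filter fun p => e ∈ S.supp p ∧ y ∈ S.supp p).card

/-- regularity assumptions -/
structure Reg (S : Sys X E P) (κ : ℝ) : Prop where
  k_pb : PB fun p : X × X => S.k p.1 p.2
  k_symm : ∀ a b, S.k a b = S.k b a
  u_bm : ∀ p, BM (S.u p)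
  u_le : ∀ p V, |S.u p V| ≤ κ
  u_supp : ∀ p e V g, e ∉ S.supp p → S.u p (update V e g) = S.u p V

variable {S} {κ : ℝ}

lemma sl_update (i : ℕ) (V : E → Fin (S.T + 1) → X) (e : E) (x : Fin (S.T + 1) → X) :
    S.sl i (update V e x) = update (S.sl i V) e (x (cc S.T i)) := by
  funext e'
  by_cases h : e' = e
  · subst h; simp [sl]
  · simp [sl, h]

/-- the conditional law of a column -/
lemma H_update (hR : S.Reg κ) (V : E → Fin (S.T + 1) → X) (e : E) :
    ∃ K, 0 < K ∧ ∀ x, S.H (update V e x) = K * colW S.T S.k (S.v e V) x := by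
  have hck : ∀ x, 0 < S.ck x := fun x => Finset.prod_pos fun i _ => hR.k_pb.pos (_, _)
  refine ⟨(∏ e' ∈ Finset.univ.erase e, S.ck (V e')) * Real.exp (∑ i ∈ Finset.range (S.T + 1),
    ∑ p, if e ∈ S.supp p then 0 else S.u p (S.sl i V)), by
      exact mul_pos (Finset.prod_pos fun e' _ => hck _) (Real.exp_pos _), fun x => ?_⟩
  rw [H, ← Finset.mul_prod_erase _ _ (Finset.mem_univ e), update_self]
  have e1 : ∏ e' ∈ Finset.univ.erase e, S.ck (update V e x e') =
      ∏ e' ∈ Finset.univ.erase e, S.ck (V e') := by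
    refine Finset.prod_congr rfl fun e' he' => ?_
    rw [update_of_ne (Finset.ne_of_mem_erase he')]
  have e2 : ∑ i ∈ Finset.range (S.T + 1), ∑ p, S.u p (S.sl i (update V e x)) =
      (∑ i ∈ Finset.range (S.T + 1), ∑ p, if e ∈ S.supp p then 0 else S.u p (S.sl i V)) +
      ∑ i ∈ Finset.range (S.T + 1), S.v e V i (x (cc S.T i)) := by
    rw [← Finset.sum_add_distrib]
    refine Finset.sum_congr rfl fun i _ => ?_
    rw [v, ← Finset.sum_add_distrib]
    refine Finset.sum_congr rfl fun p _ => ?_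
    rw [sl_update]
    split_ifs with h
    · rw [zero_add]
    · rw [hR.u_supp p e _ _ h, add_zero]
  rw [e1, e2, Real.exp_add, colW, Real.exp_sum (Finset.range (S.T + 1))
    (fun i => S.v e V i (x (cc S.T i))), ck]
  ring

lemma v_bm (hR : S.Reg κ) (e : E) (V : E → Fin (S.T + 1) → X) (i : ℕ) : BM (S.v e V i) := by
  have h : ∀ s : Finset P, BM fun y => ∑ p ∈ s, if e ∈ S.supp p then
      S.u p (update (S.sl i V) e y) else 0 := by
    classical
    intro s
    induction s using Finset.induction_on with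
    | empty => simpa using BM.const (0 : ℝ)
    | insert p s hp ih =>
      have e1 : (fun y => ∑ p ∈ insert p s, if e ∈ S.supp p then
          S.u p (update (S.sl i V) e y) else 0) = fun y => (if e ∈ S.supp p then
          S.u p (update (S.sl i V) e y) else 0) + ∑ p ∈ s, if e ∈ S.supp p then
          S.u p (update (S.sl i V) e y) else 0 := by
        funext y; rw [Finset.sum_insert hp]
      rw [e1]
      refine BM.add' ?_ ih
      by_cases he : e ∈ S.supp p
      · simp only [he, if_true]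
        exact (hR.u_bm p).comp (measurable_update_right e _)
      · simp only [he, if_false]
        exact BM.const 0
  exact h Finset.univ

lemma v_le (hR : S.Reg κ) {δ : ℝ}
    (hδ : ∀ e : E, ((Finset.univ.filter fun p => e ∈ S.supp p).card : ℝ) * κ ≤ δ) (e : E)
    (V : E → Fin (S.T + 1) → X) (i : ℕ) (y : X) : |S.v e V i y| ≤ δ := by
  refine le_trans ?_ (hδ e)
  rw [v, ← Finset.sum_filter]
  refine (Finset.abs_sum_le_sum_abs _ _).trans ?_
  refine (Finset.sum_le_sum fun p _ => hR.u_le p _).trans ?_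
  simp

/-- assumptions for the comparison -/
structure Good (σ : Measure X) [IsProbabilityMeasure σ] (S : Sys X E P) (κ δ : ℝ) (m : ℕ)
    (b : ℕ → ℝ) : Prop where
  reg : S.Reg κ
  um : UM σ S.k m
  le : ∀ e : E, ((Finset.univ.filter fun p => e ∈ S.supp p).card : ℝ) * κ ≤ δ
  rate : Rate m (1 - Real.exp (-(2 * m * δ)) / 3) b

variable {δ : ℝ} {m : ℕ} {b : ℕ → ℝ}

lemma Good.colA (hG : S.Good σ κ δ m b) (e : E) (V : E → Fin (S.T + 1) → X) :
    ColA σ S.k (S.v e V) m δ b :=
  ⟨hG.reg.k_pb, hG.reg.k_symm, hG.um, v_bm hG.reg e V, v_le hG.reg hG.le e V, hG.rate⟩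

lemma integral_dens_eq (hR : S.Reg κ) (V : E → Fin (S.T + 1) → X) (e : E)
    (φ : (Fin (S.T + 1) → X) → ℝ) :
    ∫ x, φ x * dens (Pm σ) S.H e V x ∂(Pm σ : Measure (Fin (S.T + 1) → X)) =
      (∫ x, φ x * colW S.T S.k (S.v e V) x ∂(Pm σ : Measure (Fin (S.T + 1) → X))) /
        ∫ x, colW S.T S.k (S.v e V) x ∂(Pm σ : Measure (Fin (S.T + 1) → X)) := by
  obtain ⟨K, hK, h⟩ := H_update hR V e
  have e1 : ∀ x, φ x * dens (Pm σ) S.H e V x = φ x * colW S.T S.k (S.v e V) x /
      ∫ x, colW S.T S.k (S.v e V) x ∂(Pm σ : Measure (Fin (S.T + 1) → X)) := by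
    intro x
    rw [dens, h]
    simp only [h]
    rw [integral_const_mul, mul_div_mul_left _ _ hK.ne', mul_div_assoc]
  simp only [e1]
  rw [integral_div]

lemma ck_pb (hR : S.Reg κ) : PB S.ck :=
  PB.prod _ fun i _ => PB.comp hR.k_pb
    (g := fun x : Fin (S.T + 1) → X => (x (cc S.T i), x (cc S.T (i + 1))))
    ((measurable_pi_apply _).prodMk (measurable_pi_apply _))

lemma H_pb (hR : S.Reg κ) : PB S.H := by
  refine PB.mul (PB.prod _ fun e _ => (ck_pb hR).comp (measurable_pi_apply e)) (PB.exp ?_)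
  have h1 : ∀ i, Measurable fun V : E → Fin (S.T + 1) → X => S.sl i V := fun i =>
    measurable_pi_lambda _ fun e => (measurable_pi_apply (cc S.T i)).comp (measurable_pi_apply e)
  refine ⟨Finset.measurable_sum _ fun i _ => Finset.measurable_sum _ fun p _ =>
    (hR.u_bm p).meas.comp (h1 i), (S.T + 1) * ((Fintype.card P) * κ), fun V => ?_⟩
  refine (Finset.abs_sum_le_sum_abs _ _).trans ?_
  have h2 : ∀ i ∈ Finset.range (S.T + 1), |∑ p, S.u p (S.sl i V)| ≤ (Fintype.card P) * κ := by
    intro i _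
    refine (Finset.abs_sum_le_sum_abs _ _).trans ?_
    refine (Finset.sum_le_sum fun p _ => hR.u_le p _).trans ?_
    simp
  refine (Finset.sum_le_sum h2).trans ?_
  simp

open Classical in
/-- the cost -/
noncomputable def cost (T : ℕ) (wt : ℕ → ℝ) (x y : Fin (T + 1) → X) : ℝ :=
  ∑ w, if x w = y w then 0 else wt w

lemma cost_Cost (T : ℕ) {wt : ℕ → ℝ} (hwt : ∀ i, 0 ≤ wt i) :
    Cost (cost (X := X) T wt) (∑ w : Fin (T + 1), wt w) := by
  refine ⟨fun x y => Finset.sum_nonneg fun w _ => ?_, fun x y => Finset.sum_le_sum fun w _ => ?_,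
    fun x => ?_⟩
  · split_ifs
    · exact le_rfl
    · exact hwt _
  · split_ifs
    · exact hwt _
    · exact le_rfl
  · simp [cost]

lemma OscH_of_cost {T : ℕ} {wt : ℕ → ℝ} (hwt : ∀ i, 0 ≤ wt i) {φ : (Fin (T + 1) → X) → ℝ} {L : ℝ}
    (hL : 0 ≤ L) (h : ∀ g g', |φ g - φ g'| ≤ L * cost T wt g g') :
    OscH φ fun w => L * wt w := by
  refine ⟨fun w => mul_nonneg hL (hwt _), fun w V g => (h _ _).trans ?_⟩
  refine mul_le_mul_of_nonneg_left ?_ hL
  rw [cost, Finset.sum_eq_single w]
  · split_ifs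
    · exact hwt _
    · exact le_rfl
  · intro w' _ hw'
    rw [update_of_ne hw', if_pos rfl]
  · intro h; exact absurd (Finset.mem_univ _) h

/-- **Influence of the column `y` on the column `e`.** -/
lemma infl (hG : S.Good σ κ δ m b) (hκ : 0 ≤ κ) {wt : ℕ → ℝ} (hwt : ∀ i, 0 ≤ wt i) {A : ℝ}
    (hA0 : 0 ≤ A)
    (hA : ∀ t, t ≤ S.T → wt t + ∑ i ∈ Finset.range (S.T - t), b (i + 1) * wt (t + (i + 1)) +
      ∑ i ∈ Finset.range t, b (i + 1) * wt (t - (i + 1)) ≤ A * wt t) {e y : E} (hey : y ≠ e) :
    Infl (Pm σ) (cost S.T wt) S.H e y (A * (Real.exp (4 * κ * S.nb e y) - 1)) := by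
  intro V z L φ hφ hL hLip
  have hosc := OscH_of_cost hwt hL hLip
  obtain ⟨Θ, hΘ⟩ : ∃ Θ : (Fin (S.T + 1) → X) → ℝ, Θ = fun z =>
    ∫ x, φ x * dens (Pm σ) S.H e (update V y z) x ∂(Pm σ : Measure (Fin (S.T + 1) → X)) := ⟨_, rfl⟩
  have hexp : 0 ≤ Real.exp (4 * κ * S.nb e y) - 1 := by
    rw [sub_nonneg]
    exact Real.one_le_exp (by positivity)
  -- change of one time
  have key : OscH Θ fun w => L * (A * (Real.exp (4 * κ * S.nb e y) - 1)) * wt w := by
    refine ⟨fun w => mul_nonneg (mul_nonneg hL (mul_nonneg hA0 hexp)) (hwt _), fun w z a => ?_⟩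
    rw [hΘ]
    simp only
    obtain ⟨t, ht, rfl⟩ : ∃ t, t ≤ S.T ∧ w = cc S.T t := ⟨w, by omega, cc_eq w⟩
    obtain ⟨r, hr⟩ : ∃ r : X → ℝ, r = fun y' =>
      S.v e (update V y (update z (cc S.T t) a)) t y' - S.v e (update V y z) t y' := ⟨_, rfl⟩
    have hrb : BM r := by
      rw [hr]
      exact BM.sub' (v_bm hG.reg _ _ _) (v_bm hG.reg _ _ _)
    have hrle : ∀ y', |r y'| ≤ 2 * κ * S.nb e y := by
      intro y'
      rw [hr]
      simp only [v]
      rw [← Finset.sum_sub_distrib]
      have h1 : ∀ p : P, |(if e ∈ S.supp p then S.u p (update (S.sl t (update V y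
          (update z (cc S.T t) a))) e y') else 0) - (if e ∈ S.supp p then
          S.u p (update (S.sl t (update V y z)) e y') else 0)| ≤
          if e ∈ S.supp p ∧ y ∈ S.supp p then 2 * κ else 0 := by
        intro p
        by_cases he : e ∈ S.supp p
        · simp only [he, if_true, true_and]
          by_cases hy : y ∈ S.supp p
          · simp only [hy, if_true]
            refine (abs_sub _ _).trans ?_
            have := hG.reg.u_le p (update (S.sl t (update V y (update z (cc S.T t) a))) e y')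
            have := hG.reg.u_le p (update (S.sl t (update V y z)) e y')
            linarith
          · simp only [hy, if_false]
            rw [sl_update, sl_update, update_comm hey, update_comm hey,
              hG.reg.u_supp p y _ _ hy, hG.reg.u_supp p y _ _ hy, sub_self, abs_zero]
        · simp [he]
      refine (Finset.abs_sum_le_sum_abs _ _).trans ((Finset.sum_le_sum fun p _ => h1 p).trans ?_)
      rw [← Finset.sum_filter, Finset.sum_const, nsmul_eq_mul, nb]
      exact le_of_eq (by ring)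
    have hW : ∀ x, colW S.T S.k (S.v e (update V y (update z (cc S.T t) a))) x =
        Real.exp (r (x (cc S.T t))) * colW S.T S.k (S.v e (update V y z)) x := by
      intro x
      rw [colW, colW]
      have h1 : ∏ i ∈ Finset.range (S.T + 1), Real.exp (S.v e (update V y
            (update z (cc S.T t) a)) i (x (cc S.T i))) =
          Real.exp (r (x (cc S.T t))) * ∏ i ∈ Finset.range (S.T + 1),
            Real.exp (S.v e (update V y z) i (x (cc S.T i))) := by
        have ht' : t ∈ Finset.range (S.T + 1) := by rw [Finset.mem_range]; omega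
        rw [← Finset.mul_prod_erase _ _ ht', ← Finset.mul_prod_erase _ _ ht', ← mul_assoc,
          ← Real.exp_add]
        congr 1
        · congr 1
          rw [hr]; ring
        · refine Finset.prod_congr rfl fun i hi => ?_
          have hi1 := Finset.ne_of_mem_erase hi
          have hi2 := Finset.mem_range.1 (Finset.mem_of_mem_erase hi)
          congr 1
          simp only [v]
          refine Finset.sum_congr rfl fun p _ => ?_
          have : cc S.T i ≠ cc S.T t := fun h => hi1 (cc_inj (by omega) ht h)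
          rw [sl_update, sl_update, update_of_ne this]
      rw [h1]; ring
    rw [integral_dens_eq hG.reg, integral_dens_eq hG.reg]
    simp only [hW]
    have h2 := col_tilt (hG.colA e (update V y z)) ht hφ hosc (PB.exp hrb)
      (ε := 2 * κ * S.nb e y) (by positivity)
      (fun a => Real.exp_le_exp.2 (neg_le_of_abs_le (hrle a)))
      (fun a => Real.exp_le_exp.2 (le_of_abs_le (hrle a)))
    refine h2.trans ?_
    have h3 : 2 * (2 * κ * (S.nb e y : ℝ)) = 4 * κ * S.nb e y := by ring
    rw [h3]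
    have h4 : L * wt (cc S.T t) + ∑ i ∈ Finset.range (S.T - t),
        b (i + 1) * (L * wt (cc S.T (t + (i + 1)))) + ∑ i ∈ Finset.range t,
        b (i + 1) * (L * wt (cc S.T (t - (i + 1)))) ≤ L * (A * wt t) := by
      refine le_trans (le_of_eq ?_) (mul_le_mul_of_nonneg_left (hA t ht) hL)
      rw [mul_add, mul_add, Finset.mul_sum, Finset.mul_sum, cc_val ht]
      congr 1
      · congr 1
        refine Finset.sum_congr rfl fun i hi => ?_
        rw [Finset.mem_range] at hi
        rw [cc_val (by omega)]; ring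
      · refine Finset.sum_congr rfl fun i hi => ?_
        rw [Finset.mem_range] at hi
        rw [cc_val (by omega)]; ring
    refine (mul_le_mul_of_nonneg_right h4 hexp).trans (le_of_eq ?_)
    rw [cc_val ht]
    ring
  classical
  have h5 := key.tele (Finset.univ.filter fun w => z w ≠ V y w) z (V y) (fun w hw => by
    simpa using hw)
  rw [hΘ] at h5
  simp only [update_eq_self] at h5
  refine h5.trans (le_of_eq ?_)
  rw [cost, Finset.mul_sum, Finset.sum_filter]
  refine Finset.sum_congr rfl fun w _ => ?_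
  by_cases h1 : z w = V y w
  · simp [h1]
  · simp [h1]

/-- **The effect of a distant factor on a column.** -/
lemma lawDiff (hG : S.Good σ κ δ m b) {wt : ℕ → ℝ} (hwt : ∀ i, 0 ≤ wt i)
    {F : (E → Fin (S.T + 1) → X) → ℝ} (hF : PB F) {t : ℕ} (ht : t ≤ S.T)
    (hFt : ∀ V e w, w < t → ∀ g, F (update V e (update (V e) (cc S.T w) g)) = F V)
    {B : ℝ} (hB : ∑ i ∈ Finset.range t, b (i + 1) * wt (t - (i + 1)) +
        ∑ w : Fin (S.T + 1), (if t ≤ (w : ℕ) then wt w else 0) ≤ B)
    (Y : Finset E) (hFY : ∀ V e x, e ∉ Y → F (update V e x) = F V) (e : E) :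
    LawDiff (Pm σ) (cost S.T wt) S.H (fun V => S.H V * F V) e (if e ∈ Y then B else 0) := by
  intro V L φ hφ hL hLip
  have hosc := OscH_of_cost hwt hL hLip
  obtain ⟨K, hK, hH⟩ := H_update hG.reg V e
  have hFe : PB fun x => F (update V e x) := hF.comp (measurable_update_right e V)
  have e1 : ∫ x, φ x * dens (Pm σ) (fun V => S.H V * F V) e V x
        ∂(Pm σ : Measure (Fin (S.T + 1) → X)) =
      (∫ x, φ x * (F (update V e x) * colW S.T S.k (S.v e V) x)
        ∂(Pm σ : Measure (Fin (S.T + 1) → X))) /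
        ∫ x, F (update V e x) * colW S.T S.k (S.v e V) x
          ∂(Pm σ : Measure (Fin (S.T + 1) → X)) := by
    have h1 : ∀ x, S.H (update V e x) * F (update V e x) =
        K * (F (update V e x) * colW S.T S.k (S.v e V) x) := fun x => by rw [hH]; ring
    have h2 : ∀ x, φ x * dens (Pm σ) (fun V => S.H V * F V) e V x =
        φ x * (F (update V e x) * colW S.T S.k (S.v e V) x) /
        ∫ x, F (update V e x) * colW S.T S.k (S.v e V) x
          ∂(Pm σ : Measure (Fin (S.T + 1) → X)) := by
      intro x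
      rw [dens]
      simp only [h1]
      rw [integral_const_mul, mul_div_mul_left _ _ hK.ne']
      ring
    simp only [h2]
    rw [integral_div]
  rw [e1, integral_dens_eq hG.reg, abs_sub_comm]
  by_cases he : e ∈ Y
  · rw [if_pos he]
    have h3 := col_tilt_far (hG.colA e V) ht hφ hosc hFe (fun w hw x g => by
      have h4 := hFt (update V e x) e w hw g
      rw [update_self, update_idem] at h4
      rwa [cc_eq w])
    refine h3.trans ?_
    refine le_trans (le_of_eq ?_) (mul_le_mul_of_nonneg_left hB hL)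
    rw [mul_add, Finset.mul_sum, Finset.mul_sum]
    congr 1
    · refine Finset.sum_congr rfl fun i hi => ?_
      rw [Finset.mem_range] at hi
      rw [cc_val (by omega)]; ring
    · refine Finset.sum_congr rfl fun w _ => ?_
      split_ifs <;> ring
  · rw [if_neg he]
    have h5 : ∀ x, F (update V e x) = F V := fun x => hFY V e x he
    simp only [h5]
    have h6 : ∀ x, φ x * (F V * colW S.T S.k (S.v e V) x) =
        F V * (φ x * colW S.T S.k (S.v e V) x) := fun x => by ring
    simp only [h6]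
    rw [integral_const_mul, integral_const_mul, mul_div_mul_left _ _ (hF.pos V).ne', sub_self,
      abs_zero, mul_zero]

/-- **Decay of covariances in a system of columns.** -/
theorem cov_le (hG : S.Good σ κ δ m b) (hκ : 0 ≤ κ) {wt : ℕ → ℝ} (hwt : ∀ i, 0 ≤ wt i) {A : ℝ}
    (hA0 : 0 ≤ A)
    (hA : ∀ t, t ≤ S.T → wt t + ∑ i ∈ Finset.range (S.T - t), b (i + 1) * wt (t + (i + 1)) +
      ∑ i ∈ Finset.range t, b (i + 1) * wt (t - (i + 1)) ≤ A * wt t)
    {F : (E → Fin (S.T + 1) → X) → ℝ} (hF : PB F) {t : ℕ} (ht : t ≤ S.T)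
    (hFt : ∀ V e w, w < t → ∀ g, F (update V e (update (V e) (cc S.T w) g)) = F V)
    {B : ℝ} (hB : ∑ i ∈ Finset.range t, b (i + 1) * wt (t - (i + 1)) +
        ∑ w : Fin (S.T + 1), (if t ≤ (w : ℕ) then wt w else 0) ≤ B)
    (Y : Finset E) (hFY : ∀ V e x, e ∉ Y → F (update V e x) = F V)
    {a : E → ℝ} (ha0 : ∀ e, 0 ≤ a e) {ρ : ℝ} (hρ0 : 0 ≤ ρ) (hρ1 : ρ < 1)
    (hs : ∀ e, ∑ y ∈ Finset.univ.erase e, (A * (Real.exp (4 * κ * S.nb e y) - 1)) * a y +
      (if e ∈ Y then B else 0) ≤ a e)
    (hr : ∀ e, ∑ y ∈ Finset.univ.erase e, (A * (Real.exp (4 * κ * S.nb e y) - 1)) ≤ ρ)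
    {f : (E → Fin (S.T + 1) → X) → ℝ} (hf : BM f) {D : E → ℝ}
    (hD : Osc (cost S.T wt) f D) :
    |E1 (Pm σ) S.H (fun V => f V * F V) - E1 (Pm σ) S.H f * E1 (Pm σ) S.H F| ≤
      E1 (Pm σ) S.H F * ∑ e, a e * D e := by
  have hH := H_pb hG.reg
  have hHF : PB fun V => S.H V * F V := hH.mul hF
  have h := comparison2 (μ := (Pm σ : Measure (Fin (S.T + 1) → X))) (d := cost S.T wt)
    (Dens_of_PB hH) (Dens_of_PB hHF) ha0 (δ := ∑ w : Fin (S.T + 1), wt w)
    (Finset.sum_nonneg fun w _ => hwt _) (cost_Cost S.T hwt)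
    (C := fun e y => A * (Real.exp (4 * κ * S.nb e y) - 1))
    (fun e y hey => infl hG hκ hwt hA0 hA hey)
    (fun e y => mul_nonneg hA0 (by
      rw [sub_nonneg]
      exact Real.one_le_exp (by positivity)))
    (b := fun e => if e ∈ Y then B else 0)
    (fun e => lawDiff hG hwt hF ht hFt hB Y hFY e) hρ0 hρ1 hs hr f D hf hD
  have hI := hH.integral_pos (Pm (Pm σ) : Measure (E → Fin (S.T + 1) → X))
  have hIF := hHF.integral_pos (Pm (Pm σ) : Measure (E → Fin (S.T + 1) → X))
  have hEF : 0 < E1 (Pm σ) S.H F := by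
    rw [E1]
    refine div_pos ?_ hI
    have : (fun U => F U * S.H U) = fun U => S.H U * F U := by funext U; ring
    rw [this]; exact hIF
  have e1 : E1 (Pm σ) S.H (fun V => f V * F V) - E1 (Pm σ) S.H f * E1 (Pm σ) S.H F =
      E1 (Pm σ) S.H F * (E1 (Pm σ) (fun V => S.H V * F V) f - E1 (Pm σ) S.H f) := by
    have e2 : E1 (Pm σ) S.H (fun V => f V * F V) =
        E1 (Pm σ) S.H F * E1 (Pm σ) (fun V => S.H V * F V) f := by
      rw [E1, E1, E1]
      have h1 : (fun U : E → Fin (S.T + 1) → X => f U * F U * S.H U) =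
          fun U => f U * (S.H U * F U) := by funext U; ring
      have h2 : (fun U : E → Fin (S.T + 1) → X => F U * S.H U) =
          fun U => S.H U * F U := by funext U; ring
      rw [h1, h2]
      field_simp
    rw [e2]; ring
  rw [e1, abs_mul, abs_of_pos hEF, abs_sub_comm]
  exact mul_le_mul_of_nonneg_left h hEF.le

end Sys

end Pool.Agent.Q295.YM
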