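import Mathlib
import Pool.Agent.Q295.YM.ColDob

/-!
# Explicit rates
-/

namespace Pool.Agent.Q295.YM

open MeasureTheory Function
open Pool.Agent.H556R4.Dob

set_option linter.unusedSectionVars false
set_option linter.unusedVariables false

/-- the basic rate -/
noncomputable def qq (m : ℕ) : ℝ := Real.exp (-(1 / (20 * m)))

lemma qq_pos (m : ℕ) : 0 < qq m := Real.exp_pos _

lemma qq_pow (m i : ℕ) : qq m ^ i = Real.exp (-(i / (20 * m))) := by
  unfold qq
  rw [← Real.exp_nat_mul]
  congr 1
  ring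

lemma qq_le_one (m : ℕ) : qq m ≤ 1 := by
  unfold qq
  rw [Real.exp_le_one_iff, neg_nonpos]
  positivity

/-- the rates -/
noncomputable def bb (m i : ℕ) : ℝ := 4 * qq m ^ (2 * i)

lemma rate_bb {m : ℕ} (hm : 1 ≤ m) {δ : ℝ} (hδ0 : 0 ≤ δ) (hδ : (m : ℝ) * δ ≤ 1 / 2) :
    Rate m (1 - Real.exp (-(2 * m * δ)) / 3) (bb m) := by
  have hm0 : (0 : ℝ) < m := by exact_mod_cast hm
  have h1 : Real.exp (-1) ≤ Real.exp (-(2 * m * δ)) := Real.exp_le_exp.2 (by linarith)
  have h2 := Real.exp_neg_one_gt_d9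
  have h3 : 1 - Real.exp (-(2 * m * δ)) / 3 ≤ 9 / 10 := by linarith
  have h4 : Real.exp (-(2 * m * δ)) ≤ 1 := by
    rw [Real.exp_le_one_iff]; nlinarith
  have h5 : (9 / 10 : ℝ) ≤ qq m ^ (2 * m) := by
    rw [qq_pow]
    have e1 : -(((2 * m : ℕ) : ℝ) / (20 * m)) = -(1 / 10) := by
      push_cast; field_simp; norm_num
    rw [e1]
    have := Real.add_one_le_exp (-(1 / 10 : ℝ))
    linarith
  have h6 : ∀ i, i ≤ m → (9 / 10 : ℝ) ≤ qq m ^ (2 * i) := fun i hi =>
    h5.trans (pow_le_pow_of_le_one (qq_pos m).le (qq_le_one m) (by omega))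
  have h7 : ∀ i, 0 < qq m ^ (2 * i) := fun i => pow_pos (qq_pos m) _
  refine ⟨hm, by linarith, fun i hi => ?_, ?_, fun i => ?_, fun i => ?_⟩
  · have := h6 i hi.le; unfold bb; linarith
  · have := h6 m le_rfl; unfold bb; linarith
  · unfold bb
    rw [mul_add, pow_add]
    have h8 := h6 m le_rfl
    have h9 := h7 i
    nlinarith
  · unfold bb; have := h7 i; linarith

/-- the geometric sum -/
lemma geo_le {m : ℕ} (hm : 1 ≤ m) (n : ℕ) : ∑ i ∈ Finset.range n, qq m ^ (i + 1) ≤ 20 * m := by
  have hm0 : (0 : ℝ) < m := by exact_mod_cast hm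
  have h1 : ∀ n : ℕ, (1 - qq m) * ∑ i ∈ Finset.range n, qq m ^ (i + 1) = qq m - qq m ^ (n + 1) := by
    intro n
    induction n with
    | zero => simp
    | succ n ih =>
      rw [Finset.sum_range_succ, mul_add, ih]
      ring
  have h2 := h1 n
  have h3 : 0 < qq m ^ (n + 1) := pow_pos (qq_pos m) _
  have h4 : qq m * (1 + 20 * m) ≤ 20 * m := by
    have h5 := Real.add_one_le_exp (1 / (20 * m) : ℝ)
    have h6 : qq m * Real.exp (1 / (20 * m)) = 1 := by
      unfold qq; rw [← Real.exp_add, neg_add_cancel, Real.exp_zero]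
    have h7 : qq m * (1 / (20 * m) + 1) ≤ 1 :=
      (mul_le_mul_of_nonneg_left h5 (qq_pos m).le).trans (le_of_eq h6)
    have h8 : qq m * (1 + 20 * m) = (qq m * (1 / (20 * m) + 1)) * (20 * m) := by
      field_simp
    rw [h8]
    nlinarith
  have h9 : 0 < 1 - qq m := by nlinarith [qq_pos m]
  by_contra hcon
  push Not at hcon
  have h10 := mul_lt_mul_of_pos_left hcon h9
  nlinarith

/-- the distance to a time interval -/
def dd (a h i : ℕ) : ℕ := (a - i) + (i - (a + h))

/-- the weights -/
noncomputable def ww (m a h i : ℕ) : ℝ := qq m ^ dd a h i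

lemma ww_nonneg (m a h i : ℕ) : 0 ≤ ww m a h i := (pow_pos (qq_pos m) _).le

lemma ww_shift (m a h i j k : ℕ) (hk : dd a h j ≤ dd a h i + k) :
    qq m ^ (2 * k) * ww m a h i ≤ qq m ^ k * ww m a h j := by
  unfold ww
  rw [← pow_add, ← pow_add]
  exact pow_le_pow_of_le_one (qq_pos m).le (qq_le_one m) (by omega)

lemma ww_A {m : ℕ} (hm : 1 ≤ m) (a h T t : ℕ) (ht : t ≤ T) :
    ww m a h t + ∑ i ∈ Finset.range (T - t), bb m (i + 1) * ww m a h (t + (i + 1)) +
      ∑ i ∈ Finset.range t, bb m (i + 1) * ww m a h (t - (i + 1)) ≤ 161 * m * ww m a h t := by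
  have hm1 : (1 : ℝ) ≤ m := by exact_mod_cast hm
  have h0 := ww_nonneg m a h t
  have h1 : ∀ n, (∀ i ∈ Finset.range n, True) → ∑ i ∈ Finset.range n, 4 * (qq m ^ (i + 1) * ww m a h t) ≤
      80 * m * ww m a h t := by
    intro n _
    rw [← Finset.mul_sum, ← Finset.sum_mul]
    have := mul_le_mul_of_nonneg_right (geo_le hm n) h0
    linarith
  have h2 : ∑ i ∈ Finset.range (T - t), bb m (i + 1) * ww m a h (t + (i + 1)) ≤
      ∑ i ∈ Finset.range (T - t), 4 * (qq m ^ (i + 1) * ww m a h t) := by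
    refine Finset.sum_le_sum fun i _ => ?_
    unfold bb
    have := ww_shift m a h (t + (i + 1)) t (i + 1) (by unfold dd; omega)
    linarith
  have h3 : ∑ i ∈ Finset.range t, bb m (i + 1) * ww m a h (t - (i + 1)) ≤
      ∑ i ∈ Finset.range t, 4 * (qq m ^ (i + 1) * ww m a h t) := by
    refine Finset.sum_le_sum fun i hi => ?_
    rw [Finset.mem_range] at hi
    unfold bb
    have := ww_shift m a h (t - (i + 1)) t (i + 1) (by unfold dd; omega)
    linarith
  have h4 := h1 (T - t) (fun _ _ => trivial)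
  have h5 := h1 t (fun _ _ => trivial)
  nlinarith

/-- sum over far times -/
lemma ww_far {m : ℕ} (hm : 1 ≤ m) (a h τ n : ℕ) :
    ∑ i ∈ Finset.range n, ww m a h (a + h + τ + i) ≤ (1 + 20 * m) * qq m ^ τ := by
  have h1 : ∀ i, ww m a h (a + h + τ + i) = qq m ^ τ * qq m ^ i := fun i => by
    unfold ww dd
    rw [← pow_add]; congr 1; omega
  simp only [h1]
  rw [← Finset.mul_sum]
  have h2 : ∑ i ∈ Finset.range n, qq m ^ i ≤ 1 + 20 * m := by
    cases n with
    | zero => simp; positivity
    | succ n =>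
      rw [Finset.sum_range_succ', pow_zero]
      have := geo_le hm n
      linarith
  have h3 := mul_le_mul_of_nonneg_left h2 (pow_pos (qq_pos m) τ).le
  linarith

lemma ww_B {m : ℕ} (hm : 1 ≤ m) (a h τ T t : ℕ) (ht : t ≤ T)
    (hc : (t = 0 ∧ τ = 0) ∨ t = a + h + τ) :
    ∑ i ∈ Finset.range t, bb m (i + 1) * ww m a h (t - (i + 1)) +
      ∑ w : Fin (T + 1), (if t ≤ (w : ℕ) then ww m a h w else 0) ≤
      (h + 1 + 100 * m) * qq m ^ τ := by
  have hm1 : (1 : ℝ) ≤ m := by exact_mod_cast hm
  have hq0 := (pow_pos (qq_pos m) τ).le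
  rw [Fin.sum_univ_eq_sum_range (fun w => if t ≤ w then ww m a h w else 0)]
  rcases hc with ⟨h1, h2⟩ | h1
  · subst h1; subst h2
    simp only [Finset.range_zero, Finset.sum_empty, zero_add, Nat.zero_le, if_true, pow_zero,
      mul_one]
    -- split in three parts
    have h3 : ∀ w ∈ Finset.range (T + 1), ww m a h w ≤
        (if w < a then qq m ^ (a - w) else 0) + (if w < a then 0 else if w ≤ a + h then 1 else 0) +
        (if a + h < w then qq m ^ (w - (a + h)) else 0) := by
      intro w _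
      unfold ww dd
      by_cases h4 : w < a
      · have e1 : a - w + (w - (a + h)) = a - w := by omega
        have e2 : ¬ a + h < w := by omega
        rw [e1, if_pos h4, if_pos h4, if_neg e2]; simp
      · by_cases h5 : a + h < w
        · have e1 : a - w + (w - (a + h)) = w - (a + h) := by omega
          rw [e1, if_neg h4, if_neg h4, if_pos h5]
          have : (0 : ℝ) ≤ if w ≤ a + h then 1 else 0 := by split_ifs <;> norm_num
          linarith
        · have e1 : a - w + (w - (a + h)) = 0 := by omega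
          rw [e1, if_neg h4, if_neg h4, if_neg h5, if_pos (by omega)]; simp
    refine (Finset.sum_le_sum h3).trans ?_
    rw [Finset.sum_add_distrib, Finset.sum_add_distrib]
    have h4 : ∑ w ∈ Finset.range (T + 1), (if w < a then qq m ^ (a - w) else 0) ≤ 20 * m := by
      calc ∑ w ∈ Finset.range (T + 1), (if w < a then qq m ^ (a - w) else 0)
          ≤ ∑ w ∈ Finset.range (max a (T + 1)), (if w < a then qq m ^ (a - w) else 0) := by
            refine Finset.sum_le_sum_of_subset_of_nonneg
              (Finset.range_mono (le_max_right _ _)) fun i _ _ => ?_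
            split_ifs
            · exact (pow_pos (qq_pos m) _).le
            · exact le_rfl
        _ = ∑ w ∈ Finset.range a, qq m ^ (a - w) := by
            rw [← Finset.sum_filter]
            refine Finset.sum_congr ?_ fun _ _ => rfl
            ext w
            simp only [Finset.mem_filter, Finset.mem_range]
            omega
        _ = ∑ w ∈ Finset.range a, qq m ^ (w + 1) := by
            rw [← Finset.sum_range_reflect]
            refine Finset.sum_congr rfl fun w hw => ?_
            rw [Finset.mem_range] at hw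
            congr 1; omega
        _ ≤ 20 * m := geo_le hm a
    have h5 : ∑ w ∈ Finset.range (T + 1), (if w < a then (0 : ℝ) else if w ≤ a + h then 1 else 0) ≤
        h + 1 := by
      calc _ ≤ ∑ w ∈ Finset.range (T + 1), (if w ∈ Finset.Icc a (a + h) then (1 : ℝ) else 0) := by
            refine Finset.sum_le_sum fun w _ => ?_
            by_cases h6 : w < a
            · rw [if_pos h6]; split_ifs <;> norm_num
            · by_cases h7 : w ≤ a + h
              · rw [if_neg h6, if_pos h7, if_pos (by rw [Finset.mem_Icc]; omega)]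
              · rw [if_neg h6, if_neg h7]; split_ifs <;> norm_num
        _ = ((Finset.range (T + 1) ∩ Finset.Icc a (a + h)).card : ℝ) := by
            rw [← Finset.sum_filter, Finset.sum_const, nsmul_eq_mul, mul_one,
              Finset.filter_mem_eq_inter]
        _ ≤ ((Finset.Icc a (a + h)).card : ℝ) := by
            exact_mod_cast Finset.card_le_card Finset.inter_subset_right
        _ = h + 1 := by
            rw [Nat.card_Icc]
            have : a + h + 1 - a = h + 1 := by omega
            rw [this]; push_cast; ring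
    have h6 : ∑ w ∈ Finset.range (T + 1), (if a + h < w then qq m ^ (w - (a + h)) else 0) ≤
        20 * m := by
      have e1 : ∑ w ∈ Finset.range (T + 1), (if a + h < w then qq m ^ (w - (a + h)) else 0) ≤
          ∑ w ∈ Finset.range (a + h + 1 + (T + 1)),
            (if a + h < w then qq m ^ (w - (a + h)) else 0) := by
        refine Finset.sum_le_sum_of_subset_of_nonneg
          (Finset.range_mono (by omega)) fun i _ _ => ?_
        split_ifs
        · exact (pow_pos (qq_pos m) _).le
        · exact le_rfl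
      refine e1.trans ?_
      rw [Finset.sum_range_add, Finset.sum_eq_zero, zero_add]
      · refine le_trans (le_of_eq ?_) (geo_le hm (T + 1))
        refine Finset.sum_congr rfl fun i _ => ?_
        rw [if_pos (by omega)]; congr 1; omega
      · intro i hi
        rw [Finset.mem_range] at hi
        rw [if_neg (by omega)]
    nlinarith
  · have h2 : ∑ i ∈ Finset.range t, bb m (i + 1) * ww m a h (t - (i + 1)) ≤ 80 * m * qq m ^ τ := by
      have e0 : ww m a h t = qq m ^ τ := by
        unfold ww dd; congr 1; omega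
      have h3 : ∑ i ∈ Finset.range t, bb m (i + 1) * ww m a h (t - (i + 1)) ≤
          ∑ i ∈ Finset.range t, 4 * (qq m ^ (i + 1) * ww m a h t) := by
        refine Finset.sum_le_sum fun i hi => ?_
        rw [Finset.mem_range] at hi
        unfold bb
        have := ww_shift m a h (t - (i + 1)) t (i + 1) (by unfold dd; omega)
        linarith
      refine h3.trans ?_
      rw [← Finset.mul_sum, ← Finset.sum_mul, e0]
      have := mul_le_mul_of_nonneg_right (geo_le hm t) hq0
      linarith
    have h4 : ∑ w ∈ Finset.range (T + 1), (if t ≤ w then ww m a h w else 0) ≤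
        (1 + 20 * m) * qq m ^ τ := by
      have e1 : T + 1 = t + (T + 1 - t) := by omega
      rw [e1, Finset.sum_range_add, Finset.sum_eq_zero, zero_add]
      · refine le_trans (le_of_eq ?_) (ww_far hm a h τ (T + 1 - t))
        refine Finset.sum_congr rfl fun i _ => ?_
        rw [if_pos (by omega), h1]
      · intro i hi
        rw [Finset.mem_range] at hi
        rw [if_neg (by omega)]
    have h5 : (0 : ℝ) ≤ h * qq m ^ τ := by positivity
    nlinarith

variable {X E P : Type} [MeasurableSpace X] [Fintype E] [DecidableEq E] [Fintype P]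
variable {σ : Measure X} [IsProbabilityMeasure σ]

namespace Sys

variable {S : Sys X E P} {κ : ℝ}

lemma sum_nb {q : ℕ} (hq : ∀ e : E, (Finset.univ.filter fun p => e ∈ S.supp p).card ≤ q)
    (h4 : ∀ p, (S.supp p).card ≤ 4) (e : E) : ∑ y, S.nb e y ≤ 4 * q := by
  have h1 : ∀ y, S.nb e y = ∑ p, if e ∈ S.supp p ∧ y ∈ S.supp p then 1 else 0 := fun y => by
    rw [nb, Finset.card_filter]
  simp only [h1]
  rw [Finset.sum_comm]
  have h2 : ∀ p, (∑ y, if e ∈ S.supp p ∧ y ∈ S.supp p then 1 else 0) ≤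
      if e ∈ S.supp p then 4 else 0 := by
    intro p
    by_cases he : e ∈ S.supp p
    · simp only [he, true_and, if_true]
      rw [← Finset.card_filter, Finset.filter_mem_eq_inter, Finset.univ_inter]
      exact h4 p
    · simp [he]
  refine (Finset.sum_le_sum fun p _ => h2 p).trans ?_
  rw [← Finset.sum_filter, Finset.sum_const, smul_eq_mul, mul_comm]
  exact Nat.mul_le_mul_left 4 (hq e)

lemma nb_le {q : ℕ} (hq : ∀ e : E, (Finset.univ.filter fun p => e ∈ S.supp p).card ≤ q)
    (e y : E) : S.nb e y ≤ q := by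
  refine le_trans ?_ (hq e)
  rw [nb]
  refine Finset.card_le_card fun p hp => ?_
  rw [Finset.mem_filter] at hp ⊢
  exact ⟨hp.1, hp.2.1⟩

/-- the assumptions on a system with a weak interaction of the columns -/
structure Weak (σ : Measure X) [IsProbabilityMeasure σ] (S : Sys X E P) (κ : ℝ) (m q : ℕ) :
    Prop where
  reg : S.Reg κ
  um : UM σ S.k m
  κ0 : 0 ≤ κ
  m1 : 1 ≤ m
  hq : ∀ e : E, (Finset.univ.filter fun p => e ∈ S.supp p).card ≤ q
  h4 : ∀ p, (S.supp p).card ≤ 4
  small : 32000 * q * m * κ ≤ 1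

variable {m q : ℕ}

lemma Weak.good (hW : S.Weak σ κ m q) : S.Good σ κ (q * κ) m (bb m) := by
  have hm0 : (0 : ℝ) < m := by exact_mod_cast hW.m1
  have hκ := hW.κ0
  have hs := hW.small
  have h0 : 0 ≤ (q : ℝ) * m * κ := by positivity
  refine ⟨hW.reg, hW.um, fun e => ?_, rate_bb hW.m1 (by positivity) (by nlinarith)⟩
  exact mul_le_mul_of_nonneg_right (by exact_mod_cast hW.hq e) hκ

/-- the influences -/
noncomputable def ci (S : Sys X E P) (κ : ℝ) (m : ℕ) (e y : E) : ℝ :=
  (161 * m) * (Real.exp (4 * κ * S.nb e y) - 1)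

lemma Weak.ci_nonneg (hW : S.Weak σ κ m q) (e y : E) : 0 ≤ S.ci κ m e y := by
  have hκ := hW.κ0
  unfold ci
  refine mul_nonneg (by positivity) ?_
  rw [sub_nonneg]
  exact Real.one_le_exp (by positivity)

lemma Weak.ci_le (hW : S.Weak σ κ m q) (e y : E) : S.ci κ m e y ≤ 1288 * m * κ * S.nb e y := by
  have hm1 : (1 : ℝ) ≤ m := by exact_mod_cast hW.m1
  have hκ := hW.κ0
  have hs := hW.small
  have h1 : (S.nb e y : ℝ) ≤ q := by exact_mod_cast nb_le hW.hq e y
  have hq0 : (0 : ℝ) ≤ q := Nat.cast_nonneg q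
  have hn0 : (0 : ℝ) ≤ S.nb e y := Nat.cast_nonneg _
  have h2 : (0 : ℝ) ≤ q * κ := by positivity
  have h3 : 4 * κ * S.nb e y ≤ 1 := by
    have h4 : κ * S.nb e y ≤ κ * q := mul_le_mul_of_nonneg_left h1 hκ
    nlinarith
  have h5 : 0 ≤ 4 * κ * (S.nb e y : ℝ) := by positivity
  have h6 := Real.abs_exp_sub_one_le (x := 4 * κ * (S.nb e y : ℝ)) (by rwa [abs_of_nonneg h5])
  rw [abs_of_nonneg h5] at h6
  have h7 := (le_abs_self _).trans h6
  unfold ci
  have h8 : (0 : ℝ) ≤ 161 * m := by positivity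
  have h9 := mul_le_mul_of_nonneg_left h7 h8
  linarith

lemma Weak.sum_ci (hW : S.Weak σ κ m q) (e : E) {g : E → ℝ} {M : ℝ} (hM : 0 ≤ M)
    (hg : ∀ y, (∃ p, e ∈ S.supp p ∧ y ∈ S.supp p) → g y ≤ M) (hg0 : ∀ y, 0 ≤ g y) :
    ∑ y ∈ Finset.univ.erase e, S.ci κ m e y * g y ≤ M / 6 := by
  have hm1 : (1 : ℝ) ≤ m := by exact_mod_cast hW.m1
  have hκ := hW.κ0
  have hs := hW.small
  have h1 : ∀ y, S.ci κ m e y * g y ≤ 1288 * m * κ * S.nb e y * M := by
    intro y
    by_cases h : ∃ p, e ∈ S.supp p ∧ y ∈ S.supp p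
    · refine (mul_le_mul_of_nonneg_right (hW.ci_le e y) (hg0 y)).trans ?_
      exact mul_le_mul_of_nonneg_left (hg y h) (by positivity)
    · have h2 : S.nb e y = 0 := by
        rw [nb, Finset.card_eq_zero, Finset.filter_eq_empty_iff]
        push Not at h
        intro p _ hp
        exact h p hp.1 hp.2
      unfold ci
      rw [h2]
      simp
  have h3 : ∑ y ∈ Finset.univ.erase e, S.ci κ m e y * g y ≤
      ∑ y, 1288 * m * κ * S.nb e y * M := by
    refine (Finset.sum_le_sum fun y _ => h1 y).trans ?_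
    exact Finset.sum_le_sum_of_subset_of_nonneg (Finset.subset_univ _) fun y _ _ => by positivity
  refine h3.trans ?_
  rw [← Finset.sum_mul, ← Finset.mul_sum]
  have h4 : (∑ y, (S.nb e y : ℝ)) ≤ 4 * q := by
    have := sum_nb hW.hq hW.h4 e
    exact_mod_cast this
  have h5 : 1288 * m * κ * ∑ y, (S.nb e y : ℝ) ≤ 1288 * m * κ * (4 * q) :=
    mul_le_mul_of_nonneg_left h4 (by positivity)
  have h6 : 1288 * (m : ℝ) * κ * (4 * q) ≤ 1 / 6 := by nlinarith
  have h7 := mul_le_mul_of_nonneg_right (h5.trans h6) hM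
  linarith

/-- **Change of the weight in a distant set.** -/
theorem Weak.change (hW : S.Weak σ κ m q) {a h τ t : ℕ} (ht : t ≤ S.T)
    (hc : (t = 0 ∧ τ = 0) ∨ t = a + h + τ)
    {F : (E → Fin (S.T + 1) → X) → ℝ} (hF : PB F)
    (Y : Finset E)
    (hFd : ∀ V V' : E → Fin (S.T + 1) → X, (∀ e ∈ Y, ∀ w : Fin (S.T + 1), t ≤ (w : ℕ) →
      V e w = V' e w) → F V = F V')
    {g : E → ℝ} (hg0 : ∀ e, 0 ≤ g e) (hgY : ∀ e ∈ Y, 1 ≤ g e)
    (hgn : ∀ e y, (∃ p, e ∈ S.supp p ∧ y ∈ S.supp p) → g y ≤ 3 * g e)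
    {f : (E → Fin (S.T + 1) → X) → ℝ} (hf : BM f) (hf1 : ∀ V, |f V| ≤ 1) (A' : Finset E)
    (hfd : ∀ V V' : E → Fin (S.T + 1) → X, (∀ e ∈ A', ∀ w : Fin (S.T + 1), a ≤ (w : ℕ) →
      (w : ℕ) ≤ a + h → V e w = V' e w) → f V = f V') :
    |E1 (Pm σ) S.H f - E1 (Pm σ) (fun V => S.H V * F V) f| ≤
      4 * ((h + 1 + 100 * m) * qq m ^ τ) * ∑ e ∈ A', g e := by
  have hG := hW.good
  have hκ := hW.κ0
  have hm1 : (1 : ℝ) ≤ m := by exact_mod_cast hW.m1
  have hH := H_pb hG.reg
  have hHF : PB fun V => S.H V * F V := hH.mul hF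
  obtain ⟨B, hB⟩ : ∃ B : ℝ, B = (h + 1 + 100 * m) * qq m ^ τ := ⟨_, rfl⟩
  have hB0 : 0 ≤ B := by
    rw [hB]; exact mul_nonneg (by positivity) (pow_pos (qq_pos m) _).le
  have hAm : (0 : ℝ) ≤ 161 * m := by positivity
  have hwt := ww_nonneg m a h
  have h := comparison2 (μ := (Pm σ : Measure (Fin (S.T + 1) → X))) (d := cost S.T (ww m a h))
    (Dens_of_PB hH) (Dens_of_PB hHF) (a := fun e => 2 * B * g e)
    (fun e => mul_nonneg (by positivity) (hg0 e)) (δ := ∑ w : Fin (S.T + 1), ww m a h w)
    (Finset.sum_nonneg fun w _ => hwt _) (cost_Cost S.T hwt)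
    (C := fun e y => S.ci κ m e y)
    (fun e y hey => infl hG hκ hwt hAm (fun t ht => ww_A hW.m1 a h S.T t ht) hey)
    (fun e y => hW.ci_nonneg e y)
    (b := fun e => if e ∈ Y then B else 0)
    (fun e => lawDiff hG hwt hF ht (fun V e w hw g => by
      refine hFd _ _ fun e' _ w' hw' => ?_
      by_cases h1 : e' = e
      · subst h1
        rw [update_self, update_of_ne]
        intro h2
        rw [h2, cc_val (by omega)] at hw'
        omega
      · rw [update_of_ne h1])
      (by rw [hB]; exact ww_B hW.m1 a h τ S.T t ht hc) Y (fun V e x he => by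
        refine hFd _ _ fun e' he' w' hw' => ?_
        rw [update_of_ne]
        rintro rfl
        exact he he') e) (ρ := 1 / 2) (by norm_num) (by norm_num)
    (fun e => ?_) (fun e => ?_) f (fun e => if e ∈ A' then 2 else 0) hf ⟨fun e => ?_, fun e V x => ?_⟩
  · refine h.trans (le_of_eq ?_)
    have e1 : ∀ e, 2 * B * g e * (if e ∈ A' then (2 : ℝ) else 0) =
        if e ∈ A' then 4 * B * g e else 0 := fun e => by split_ifs <;> ring
    simp only [e1]
    rw [← Finset.sum_filter, Finset.filter_mem_eq_inter, Finset.univ_inter, Finset.mul_sum, hB]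
  · have h1 := hW.sum_ci e (g := fun y => 2 * B * g y) (M := 3 * (2 * B * g e))
      (by have := hg0 e; positivity) (fun y hy => by
        have := hgn e y hy
        have h2 : (0 : ℝ) ≤ 2 * B := by positivity
        nlinarith [mul_le_mul_of_nonneg_left this h2]) (fun y => by have := hg0 y; positivity)
    have h2 : (if e ∈ Y then B else 0) ≤ B * g e := by
      split_ifs with h3
      · have := hgY e h3; nlinarith
      · exact mul_nonneg hB0 (hg0 e)
    linarith
  · have h1 := hW.sum_ci e (g := fun _ => 1) (M := 1) zero_le_one (fun _ _ => le_rfl)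
      (fun _ => zero_le_one)
    simp only [mul_one] at h1
    refine h1.trans (by norm_num)
  · dsimp only; split_ifs <;> norm_num
  · dsimp only
    by_cases he : e ∈ A'
    · by_cases h1 : ∀ w : Fin (S.T + 1), a ≤ (w : ℕ) → (w : ℕ) ≤ a + h → x w = V e w
      · have h2 : f (update V e x) = f V := hfd _ _ fun e' _ w h3 h4 => by
          by_cases h5 : e' = e
          · subst h5; rw [update_self]; exact h1 w h3 h4
          · rw [update_of_ne h5]
        rw [h2, sub_self, abs_zero]
        refine mul_nonneg (by split_ifs; norm_num) ((cost_Cost S.T hwt).nonneg _ _)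
      · push Not at h1
        obtain ⟨w, h2, h3, h4⟩ := h1
        have h5 : 1 ≤ cost S.T (ww m a h) x (V e) := by
          classical
          unfold cost
          have h6 : (1 : ℝ) = if x w = V e w then 0 else ww m a h w := by
            rw [if_neg h4]
            unfold ww dd
            have : a - (w : ℕ) + ((w : ℕ) - (a + h)) = 0 := by omega
            rw [this, pow_zero]
          rw [h6]
          exact Finset.single_le_sum (f := fun w => if x w = V e w then 0 else ww m a h w)
            (fun w _ => by split_ifs; exact le_rfl; exact hwt _) (Finset.mem_univ w)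
        rw [if_pos he]
        have h6 := abs_sub (f (update V e x)) (f V)
        have h7 := hf1 (update V e x)
        have h8 := hf1 V
        linarith
    · have h2 : f (update V e x) = f V := hfd _ _ fun e' he' w h3 h4 => by
        rw [update_of_ne]
        rintro rfl
        exact he he'
      rw [h2, sub_self, abs_zero, if_neg he, zero_mul]

/-- **Decay of covariances.** -/
theorem Weak.decay (hW : S.Weak σ κ m q) {a h τ : ℕ} (t : ℕ)
    (hc : (t = 0 ∧ τ = 0) ∨ t = a + h + τ)
    {F : (E → Fin (S.T + 1) → X) → ℝ} (hF : BM F) (hF1 : ∀ V, |F V| ≤ 1)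
    (Y : Finset E)
    (hFd : ∀ V V' : E → Fin (S.T + 1) → X, (∀ e ∈ Y, ∀ w : Fin (S.T + 1), t ≤ (w : ℕ) →
      V e w = V' e w) → F V = F V')
    {g : E → ℝ} (hg0 : ∀ e, 0 ≤ g e) (hgY : ∀ e ∈ Y, 1 ≤ g e)
    (hgn : ∀ e y, (∃ p, e ∈ S.supp p ∧ y ∈ S.supp p) → g y ≤ 3 * g e)
    {f : (E → Fin (S.T + 1) → X) → ℝ} (hf : BM f) (hf1 : ∀ V, |f V| ≤ 1) (A' : Finset E)
    (hfd : ∀ V V' : E → Fin (S.T + 1) → X, (∀ e ∈ A', ∀ w : Fin (S.T + 1), a ≤ (w : ℕ) →
      (w : ℕ) ≤ a + h → V e w = V' e w) → f V = f V') :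
    |E1 (Pm σ) S.H (fun V => f V * F V) - E1 (Pm σ) S.H f * E1 (Pm σ) S.H F| ≤
      12 * ((h + 1 + 100 * m) * qq m ^ τ) * ∑ e ∈ A', g e := by
  have hH := H_pb hW.reg
  have hI := hH.integral_pos (Pm (Pm σ) : Measure (E → Fin (S.T + 1) → X))
  have hR0 : 0 ≤ 12 * (((h : ℝ) + 1 + 100 * m) * qq m ^ τ) * ∑ e ∈ A', g e :=
    mul_nonneg (mul_nonneg (by norm_num) (mul_nonneg (by positivity) (pow_pos (qq_pos m) _).le))
      (Finset.sum_nonneg fun e _ => hg0 e)
  by_cases ht : t ≤ S.T
  swap
  · -- the function `F` is constant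
    obtain ⟨c, hcc⟩ : ∃ c, ∀ V, F V = c := by
      have hX : Nonempty (E → Fin (S.T + 1) → X) := by
        by_contra hne
        rw [not_nonempty_iff] at hne
        rw [integral_of_isEmpty] at hI
        exact lt_irrefl _ hI
      obtain ⟨V0⟩ := hX
      refine ⟨F V0, fun V => hFd _ _ fun e _ w hw => ?_⟩
      have := w.2
      omega
    have e1 : E1 (Pm σ) S.H (fun V => f V * F V) - E1 (Pm σ) S.H f * E1 (Pm σ) S.H F = 0 := by
      unfold E1
      simp only [hcc]
      have e2 : ∀ U : E → Fin (S.T + 1) → X, f U * c * S.H U = c * (f U * S.H U) := fun U => by ring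
      simp only [e2]
      rw [integral_const_mul, integral_const_mul]
      field_simp
      ring
    rw [e1, abs_zero]
    exact hR0
  -- positive factor
  obtain ⟨F', hF'⟩ : ∃ F' : (E → Fin (S.T + 1) → X) → ℝ, F' = fun V => 2 + F V := ⟨_, rfl⟩
  have hF'b : PB F' := by
    rw [hF']
    refine ⟨measurable_const.add hF.meas, ⟨1, one_pos, fun V => ?_⟩, ⟨3, fun V => ?_⟩⟩
    · have := neg_le_of_abs_le (hF1 V); linarith
    · have := le_of_abs_le (hF1 V); linarith
  have h1 := hW.change ht hc hF'b Y (fun V V' hV => by rw [hF']; simp only; rw [hFd V V' hV]) hg0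
    hgY hgn hf hf1 A' hfd
  have hIF := (hH.mul hF'b).integral_pos (Pm (Pm σ) : Measure (E → Fin (S.T + 1) → X))
  have hHi : Integrable S.H (Pm (Pm σ) : Measure (E → Fin (S.T + 1) → X)) := hH.bm.integrable _
  have hfHi : Integrable (fun V => f V * S.H V) (Pm (Pm σ) : Measure (E → Fin (S.T + 1) → X)) :=
    (hf.mul hH.bm).integrable _
  have hFHi : Integrable (fun V => F V * S.H V) (Pm (Pm σ) : Measure (E → Fin (S.T + 1) → X)) :=
    (hF.mul hH.bm).integrable _
  have hfFHi : Integrable (fun V => f V * F V * S.H V)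
      (Pm (Pm σ) : Measure (E → Fin (S.T + 1) → X)) := ((hf.mul hF).mul hH.bm).integrable _
  have e0 : E1 (Pm σ) S.H F' = 2 + E1 (Pm σ) S.H F := by
    unfold E1
    rw [hF']
    have : ∀ U, (2 + F U) * S.H U = 2 * S.H U + F U * S.H U := fun U => by ring
    simp only [this]
    rw [integral_add (hHi.const_mul 2) hFHi, integral_const_mul]
    field_simp
  have e1 : E1 (Pm σ) S.H (fun V => f V * F V) - E1 (Pm σ) S.H f * E1 (Pm σ) S.H F =
      E1 (Pm σ) S.H F' * (E1 (Pm σ) (fun V => S.H V * F' V) f - E1 (Pm σ) S.H f) := by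
    have e2 : E1 (Pm σ) S.H F' * E1 (Pm σ) (fun V => S.H V * F' V) f =
        2 * E1 (Pm σ) S.H f + E1 (Pm σ) S.H (fun V => f V * F V) := by
      unfold E1
      have h2 : (fun U : E → Fin (S.T + 1) → X => F' U * S.H U) =
          fun U => S.H U * F' U := by funext U; ring
      rw [h2]
      have h3 : ∀ U : E → Fin (S.T + 1) → X, f U * (S.H U * F' U) =
          2 * (f U * S.H U) + f U * F U * S.H U := fun U => by rw [hF']; ring
      simp only [h3]
      rw [integral_add (hfHi.const_mul 2) hfFHi, integral_const_mul]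
      field_simp
    rw [mul_sub, e2, e0]; ring
  have h5 : |E1 (Pm σ) S.H F'| ≤ 3 := by
    have h6 : |E1 (Pm σ) S.H F| ≤ 1 := by
      unfold E1
      rw [abs_div, abs_of_pos hI, div_le_one hI]
      refine (abs_integral_le_integral_abs).trans ?_
      refine integral_mono hFHi.abs hHi fun U => ?_
      rw [abs_mul, abs_of_pos (hH.pos U)]
      have := hF1 U
      have := hH.pos U
      nlinarith
    rw [e0, abs_le]
    rw [abs_le] at h6
    constructor <;> linarith
  rw [e1, abs_mul, abs_sub_comm]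
  refine (mul_le_mul h5 h1 (abs_nonneg _) (by norm_num)).trans (le_of_eq ?_)
  ring

end Sys

end Pool.Agent.Q295.YM
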