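import Mathlib
import Pool.Agent.Q295.YM.Comp2

/-!
# Product measures: resampling, uniqueness, changes of variables
-/

namespace Pool.Agent.Q295.YM

open MeasureTheory Function
open Pool.Agent.H556R4.Dob

set_option linter.unusedSectionVars false
set_option linter.unusedVariables false

section entries

variable {X E W : Type} [DecidableEq E] [DecidableEq W]

/-- change of one entry -/
def up (V : E → W → X) (e : E) (w : W) (g : X) : E → W → X := update V e (update (V e) w g)

lemma up_same (V : E → W → X) (e : E) (w : W) (g g' : X) : up (up V e w g) e w g' = up V e w g' := by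
  unfold up; simp

lemma up_apply (V : E → W → X) (e : E) (w : W) (g : X) (e' : E) (w' : W) :
    up V e w g e' w' = if e' = e ∧ w' = w then g else V e' w' := by
  unfold up
  by_cases h : e' = e
  · subst h
    by_cases h' : w' = w
    · subst h'; simp
    · simp [h']
  · simp [h]

lemma up_comm (V : E → W → X) {e e' : E} {w w' : W} (h : ¬ (e' = e ∧ w' = w)) (g g' : X) :
    up (up V e w g) e' w' g' = up (up V e' w' g') e w g := by
  funext a b
  simp only [up_apply]
  by_cases h1 : a = e' ∧ b = w'
  · by_cases h2 : a = e ∧ b = w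
    · exact absurd ⟨h1.1.symm.trans h2.1, h1.2.symm.trans h2.2⟩ h
    · simp [h1, h2, h]
  · simp [h1]

end entries

variable {ι X : Type} [MeasurableSpace X]

/-- the infinite product -/
noncomputable abbrev Pinf (ι : Type) (μ : Measure X) [IsProbabilityMeasure μ] : Measure (ι → X) :=
  Measure.infinitePi fun _ : ι => μ

variable (μ : Measure X) [IsProbabilityMeasure μ]

lemma meas_upd [DecidableEq ι] (x : ι) : Measurable fun p : (ι → X) × X => update p.1 x p.2 := by
  refine measurable_pi_lambda _ fun i => ?_
  by_cases h : i = x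
  · subst h; simpa using measurable_snd
  · simp only [update_of_ne h]
    exact (measurable_pi_apply i).comp measurable_fst

/-- resampling one coordinate preserves the product measure -/
lemma inf_update [DecidableEq ι] (x : ι) :
    MeasurePreserving (fun p : (ι → X) × X => update p.1 x p.2) ((Pinf ι μ).prod μ)
      (Pinf ι μ) := by
  refine ⟨meas_upd x, Measure.eq_infinitePi _ fun s t ht => ?_⟩
  rw [Measure.map_apply (meas_upd x) (MeasurableSet.pi s.countable_toSet fun i _ => ht i)]
  by_cases hx : x ∈ s
  · have h : (fun p : (ι → X) × X => update p.1 x p.2) ⁻¹' (Set.pi s t) =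
        (Set.pi (s.erase x : Finset ι) t) ×ˢ (t x) := by
      ext p
      simp only [Set.mem_preimage, Set.mem_pi, Set.mem_prod]
      constructor
      · intro hp
        refine ⟨fun i hi => ?_, by simpa using hp x hx⟩
        have hi' := Finset.mem_erase.1 (Finset.mem_coe.1 hi)
        have := hp i (Finset.mem_coe.2 hi'.2)
        rwa [update_of_ne hi'.1] at this
      · rintro ⟨h1, h2⟩ i hi
        by_cases hi' : i = x
        · subst hi'; simpa using h2
        · rw [update_of_ne hi']
          exact h1 i (Finset.mem_coe.2 (Finset.mem_erase.2 ⟨hi', Finset.mem_coe.1 hi⟩))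
    rw [h, Measure.prod_prod, Measure.infinitePi_pi _ (fun i _ => ht i),
      Finset.prod_erase_mul _ _ hx]
  · have h : (fun p : (ι → X) × X => update p.1 x p.2) ⁻¹' (Set.pi s t) =
        (Set.pi s t) ×ˢ (Set.univ : Set X) := by
      ext p
      simp only [Set.mem_preimage, Set.mem_pi, Set.mem_prod, Set.mem_univ, and_true]
      refine forall₂_congr fun i hi => ?_
      rw [update_of_ne]
      rintro rfl
      exact hx (Finset.mem_coe.1 hi)
    rw [h, Measure.prod_prod, Measure.infinitePi_pi _ (fun i _ => ht i), measure_univ, mul_one]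

lemma inf_resample [DecidableEq ι] (x : ι) {φ : (ι → X) → ℝ} (hφ : BM φ) :
    ∫ U, φ U ∂(Pinf ι μ) = ∫ U, ∫ g, φ (update U x g) ∂μ ∂(Pinf ι μ) := by
  have h := inf_update μ x (ι := ι)
  conv_lhs => rw [← h.map_eq]
  rw [integral_map h.measurable.aemeasurable hφ.meas.aestronglyMeasurable]
  exact integral_prod _ ((hφ.comp h.measurable).integrable _)

/-- permutations of the coordinates and coordinatewise changes of variables -/
lemma inf_map (τ : ι ≃ ι) {s : ι → X → X} (hs : ∀ l, MeasurePreserving (s l) μ μ) :
    MeasurePreserving (fun (U : ι → X) l => s l (U (τ l))) (Pinf ι μ) (Pinf ι μ) := by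
  classical
  have hm : Measurable fun (U : ι → X) l => s l (U (τ l)) :=
    measurable_pi_lambda _ fun l => (hs l).measurable.comp (measurable_pi_apply (τ l))
  refine ⟨hm, Measure.eq_infinitePi _ fun S t ht => ?_⟩
  rw [Measure.map_apply hm (MeasurableSet.pi S.countable_toSet fun i _ => ht i)]
  have h : (fun (U : ι → X) l => s l (U (τ l))) ⁻¹' (Set.pi S t) =
      Set.pi (S.map τ.toEmbedding : Finset ι) (fun k => s (τ.symm k) ⁻¹' t (τ.symm k)) := by
    ext U
    simp only [Set.mem_preimage, Set.mem_pi, Finset.mem_coe, Finset.mem_map]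
    constructor
    · rintro hU k ⟨l, hl, rfl⟩
      have := hU l hl
      simpa using this
    · intro hU l hl
      have := hU (τ l) ⟨l, hl, rfl⟩
      simpa using this
  rw [h, Measure.infinitePi_pi _ (fun k _ => (hs _).measurable (ht _)), Finset.prod_map]
  refine Finset.prod_congr rfl fun l _ => ?_
  simp only [Equiv.coe_toEmbedding, Equiv.symm_apply_apply]
  exact (hs l).measure_preimage (ht l).nullMeasurableSet

section columns

variable {E W : Type} [Fintype E] [DecidableEq E] [Fintype W] [DecidableEq W]

lemma meas_up (e : E) (w : W) : Measurable fun p : (E → W → X) × X => up p.1 e w p.2 := by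
  refine measurable_pi_lambda _ fun a => measurable_pi_lambda _ fun b => ?_
  simp only [up_apply]
  by_cases h : a = e ∧ b = w
  · simp only [h, and_self, if_true]; exact measurable_snd
  · simp only [h, if_false]
    exact (measurable_pi_apply b).comp ((measurable_pi_apply a).comp measurable_fst)

/-- averaging over one entry -/
noncomputable def av (e : E) (w : W) (φ : (E → W → X) → ℝ) (V : E → W → X) : ℝ :=
  ∫ g, φ (up V e w g) ∂μ

lemma av_bm (e : E) (w : W) {φ : (E → W → X) → ℝ} (hφ : BM φ) : BM (av μ e w φ) :=
  BM.integral' μ (f := fun p : (E → W → X) × X => φ (up p.1 e w p.2)) (hφ.comp (meas_up e w))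

/-- invariance under resampling -/
def Rs (μ : Measure X) [IsProbabilityMeasure μ] (lam : Measure (E → W → X)) : Prop :=
  ∀ e w φ, BM φ → ∫ V, av μ e w φ V ∂lam = ∫ V, φ V ∂lam

open Classical in
/-- mixtures -/
noncomputable def mx (s : Finset (E × W)) (V V0 : E → W → X) : E → W → X :=
  fun e w => if (e, w) ∈ s then V e w else V0 e w

/-- two probability measures which are invariant under resampling are equal -/
theorem Rs_unique {l1 l2 : Measure (E → W → X)} [IsProbabilityMeasure l1] [IsProbabilityMeasure l2]
    (h1 : Rs μ l1) (h2 : Rs μ l2) {φ : (E → W → X) → ℝ} (hφ : BM φ) :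
    ∫ V, φ V ∂l1 = ∫ V, φ V ∂l2 := by
  classical
  have key : ∀ s : Finset (E × W), ∃ ψ : (E → W → X) → ℝ, BM ψ ∧
      ∫ V, φ V ∂l1 = ∫ V, ψ V ∂l1 ∧ ∫ V, φ V ∂l2 = ∫ V, ψ V ∂l2 ∧
      ∀ p ∈ s, ∀ V g, ψ (up V p.1 p.2 g) = ψ V := by
    intro s
    induction s using Finset.induction_on with
    | empty => exact ⟨φ, hφ, rfl, rfl, fun p hp => absurd hp (Finset.notMem_empty p)⟩
    | insert q s hq ih =>
      obtain ⟨ψ, hψ, a1, a2, a3⟩ := ih
      refine ⟨av μ q.1 q.2 ψ, av_bm μ _ _ hψ, a1.trans (h1 _ _ _ hψ).symm,
        a2.trans (h2 _ _ _ hψ).symm, fun p hp V g => ?_⟩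
      unfold av
      by_cases hpq : p = q
      · subst hpq
        simp only [up_same]
      · have hp' : p ∈ s := by
          rcases Finset.mem_insert.1 hp with h | h
          · exact absurd h hpq
          · exact h
        have h3 : ¬ (q.1 = p.1 ∧ q.2 = p.2) := fun h => hpq (Prod.ext h.1.symm h.2.symm)
        have h4 : ∀ g', up (up V p.1 p.2 g) q.1 q.2 g' = up (up V q.1 q.2 g') p.1 p.2 g := fun g' =>
          up_comm V h3 g g'
        simp only [h4]
        refine integral_congr_ae (Filter.Eventually.of_forall fun g' => ?_)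
        exact a3 p hp' _ _
  obtain ⟨ψ, hψ, a1, a2, a3⟩ := key Finset.univ
  obtain ⟨V0⟩ := nonempty_of_isProbabilityMeasure l1
  have h3 : ∀ V, ∀ s : Finset (E × W), ψ (mx s V V0) = ψ V0 := by
    intro V s
    induction s using Finset.induction_on with
    | empty => congr 1
    | insert q s hq ih =>
      have : mx (insert q s) V V0 = up (mx s V V0) q.1 q.2 (V q.1 q.2) := by
        funext a b
        rw [up_apply]
        unfold mx
        by_cases h : a = q.1 ∧ b = q.2
        · rw [if_pos h, if_pos]
          · rw [h.1, h.2]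
          · rw [h.1, h.2]; exact Finset.mem_insert_self _ _
        · rw [if_neg h]
          have h5 : (a, b) ≠ q := fun h6 => h ⟨by rw [← h6], by rw [← h6]⟩
          simp only [Finset.mem_insert, h5, false_or]
      rw [this, a3 q (Finset.mem_univ _), ih]
  have h4 : ∀ V, ψ V = ψ V0 := by
    intro V
    have := h3 V Finset.univ
    have e1 : mx Finset.univ V V0 = V := by
      funext a b; unfold mx; simp
    rwa [e1] at this
  rw [a1, a2]
  simp only [h4]
  simp

/-- the product measure is invariant under resampling -/
lemma Rs_Pm : Rs μ (Pm (Pm μ) : Measure (E → W → X)) := by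
  intro e w φ hφ
  have h1 : BM (av μ e w φ) := av_bm μ e w hφ
  rw [integral_update (Pm μ) e _ h1, integral_update (Pm μ) e _ hφ]
  refine integral_congr_ae (Filter.Eventually.of_forall fun V => ?_)
  have h2 := integral_update μ w (fun y : W → X => φ (update V e y))
    (hφ.comp (measurable_update_right e V))
  simp only
  rw [h2]
  refine integral_congr_ae (Filter.Eventually.of_forall fun y => ?_)
  unfold av up
  simp only [update_idem, update_self]

end columns

end Pool.Agent.Q295.YM
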