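import Mathlib
import Pool.Agent.Q295.YM.Prod
import Pool.Agent.Q295.YM.Rates

/-!
# The lattice, gauge transformations, the temporal gauge
-/

namespace Pool.Agent.Q295.YM

open MeasureTheory Function
open Pool.Agent.H556R4.Dob

set_option linter.unusedSectionVars false
set_option linter.unusedVariables false

/-- sites: (time, position) -/
abbrev Site (D : ℕ) : Type := ℤ × (Fin D → ℤ)

/-- links: (site, direction), `none` is the time direction -/
abbrev Lnk (D : ℕ) : Type := Site D × Option (Fin D)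

variable {D : ℕ}

/-- the end point of a link -/
def tip (x : Site D) : Option (Fin D) → Site D
  | none => (x.1 + 1, x.2)
  | some j => (x.1, x.2 + Pi.single j 1)

lemma tip_none (x : Site D) : tip x none = (x.1 + 1, x.2) := rfl

lemma tip_some (x : Site D) (j : Fin D) : tip x (some j) = (x.1, x.2 + Pi.single j 1) := rfl

lemma tip_comm (x : Site D) (i j : Option (Fin D)) : tip (tip x i) j = tip (tip x j) i := by
  cases i <;> cases j <;> simp only [tip, Prod.mk.injEq, true_and, and_true]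
  rw [add_right_comm]

/-- the spatial links in `Λ` -/
def EL (Λ : Finset (Fin D → ℤ)) : Finset ((Fin D → ℤ) × Fin D) :=
  (Λ ×ˢ Finset.univ).filter fun e => e.1 + Pi.single e.2 1 ∈ Λ

/-- the spatial plaquettes in `Λ` -/
def PL (Λ : Finset (Fin D → ℤ)) : Finset ((Fin D → ℤ) × Fin D × Fin D) :=
  (Λ ×ˢ Finset.univ ×ˢ Finset.univ).filter fun p => p.2.1 < p.2.2 ∧
    p.1 + Pi.single p.2.1 1 ∈ Λ ∧ p.1 + Pi.single p.2.2 1 ∈ Λ ∧
    p.1 + Pi.single p.2.1 1 + Pi.single p.2.2 1 ∈ Λ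

lemma mem_EL {Λ : Finset (Fin D → ℤ)} {e : (Fin D → ℤ) × Fin D} :
    e ∈ EL Λ ↔ e.1 ∈ Λ ∧ e.1 + Pi.single e.2 1 ∈ Λ := by
  unfold EL; simp

lemma mem_PL {Λ : Finset (Fin D → ℤ)} {p : (Fin D → ℤ) × Fin D × Fin D} :
    p ∈ PL Λ ↔ p.1 ∈ Λ ∧ p.2.1 < p.2.2 ∧ p.1 + Pi.single p.2.1 1 ∈ Λ ∧
      p.1 + Pi.single p.2.2 1 ∈ Λ ∧ p.1 + Pi.single p.2.1 1 + Pi.single p.2.2 1 ∈ Λ := by
  unfold PL; simp

/-- links in the region `[a, b] × Λ` -/
def InR (a b : ℤ) (Λ : Finset (Fin D → ℤ)) (l : Lnk D) : Prop :=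
  ((a ≤ l.1.1 ∧ l.1.1 ≤ b) ∧ l.1.2 ∈ Λ) ∧ (a ≤ (tip l.1 l.2).1 ∧ (tip l.1 l.2).1 ≤ b) ∧
    (tip l.1 l.2).2 ∈ Λ

section grp

variable {G : Type} [Group G]

/-- gauge transformation -/
def gtr (γ : Site D → G) (U : Lnk D → G) : Lnk D → G := fun b => γ b.1 * U b * (γ (tip b.1 b.2))⁻¹

/-- plaquette variable -/
def plq (U : Lnk D → G) (x : Site D) (i j : Option (Fin D)) : G :=
  U (x, i) * U (tip x i, j) * (U (tip x j, i))⁻¹ * (U (x, j))⁻¹

lemma plq_gtr (γ : Site D → G) (U : Lnk D → G) (x : Site D) (i j : Option (Fin D)) :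
    plq (gtr γ U) x i j = γ x * plq U x i j * (γ x)⁻¹ := by
  unfold plq gtr
  simp only
  rw [tip_comm x j i]
  group

/-- the gauge function -/
def gam (a : ℤ) (U : Lnk D → G) (x : Site D) : G :=
  ((List.range (x.1 - a).toNat).map fun s : ℕ => U ((a + s, x.2), none)).prod

lemma gam_succ {a : ℤ} (U : Lnk D → G) (x : Site D) (hx : a ≤ x.1) :
    gam a U (tip x none) = gam a U x * U (x, none) := by
  unfold gam
  have h1 : ((tip x none).1 - a).toNat = (x.1 - a).toNat + 1 := by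
    rw [tip_none]; simp only; omega
  rw [h1, List.range_succ, List.map_append, List.prod_append]
  simp only [tip_none, List.map_cons, List.map_nil, List.prod_cons, List.prod_nil, mul_one]
  congr 2
  have h3 : a + (((x.1 - a).toNat : ℕ) : ℤ) = x.1 := by omega
  rw [h3]

/-- the gauge fixed configuration -/
def gfx (a : ℤ) (U : Lnk D → G) : Lnk D → G := gtr (gam a U) U

lemma gfx_time {a : ℤ} (U : Lnk D → G) (x : Site D) (hx : a ≤ x.1) : gfx a U (x, none) = 1 := by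
  unfold gfx gtr
  simp only
  rw [gam_succ U x hx, mul_inv_cancel]

lemma gam_upd (a : ℤ) (U : Lnk D → G) (x : Site D) (j : Fin D) (g : G) :
    gam a (update U (x, some j) g) = gam a U := by
  funext z
  unfold gam
  congr 1
  refine List.map_congr_left fun s _ => ?_
  rw [update_of_ne (by simp)]

/-- extension of a configuration of the columns -/
noncomputable def ext (Λ : Finset (Fin D → ℤ)) (s : EL Λ → G) (e : (Fin D → ℤ) × Fin D) : G :=
  if h : e ∈ EL Λ then s ⟨e, h⟩ else 1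

/-- the configuration in the temporal gauge -/
noncomputable def emb (a : ℤ) (T : ℕ) (Λ : Finset (Fin D → ℤ)) (V : EL Λ → Fin (T + 1) → G) :
    Lnk D → G
  | (_, none) => 1
  | (x, some j) => ext Λ (fun e => V e (cc T (x.1 - a).toNat)) (x.2, j)

lemma emb_none (a : ℤ) (T : ℕ) (Λ : Finset (Fin D → ℤ)) (V : EL Λ → Fin (T + 1) → G)
    (x : Site D) : emb a T Λ V (x, none) = 1 := rfl

lemma emb_some (a : ℤ) (T : ℕ) (Λ : Finset (Fin D → ℤ)) (V : EL Λ → Fin (T + 1) → G)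
    (x : Site D) (j : Fin D) : emb a T Λ V (x, some j) =
      ext Λ (fun e => V e (cc T (x.1 - a).toNat)) (x.2, j) := rfl

lemma ext_mem {Λ : Finset (Fin D → ℤ)} (s : EL Λ → G) {e : (Fin D → ℤ) × Fin D}
    (h : e ∈ EL Λ) : ext Λ s e = s ⟨e, h⟩ := dif_pos h

/-- the columns of a configuration -/
def Psi (a : ℤ) (T : ℕ) (Λ : Finset (Fin D → ℤ)) (U : Lnk D → G) : EL Λ → Fin (T + 1) → G :=
  fun e w => gfx a U ((a + ((w : ℕ) : ℤ), e.1.1), some e.1.2)

lemma Psi_upd (a : ℤ) (T : ℕ) (Λ : Finset (Fin D → ℤ)) (U : Lnk D → G) (e : EL Λ)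
    (w : Fin (T + 1)) (g : G) :
    Psi a T Λ (update U ((a + ((w : ℕ) : ℤ), e.1.1), some e.1.2) g) = up (Psi a T Λ U) e w
      (gam a U (a + ((w : ℕ) : ℤ), e.1.1) * g *
        (gam a U (tip (a + ((w : ℕ) : ℤ), e.1.1) (some e.1.2)))⁻¹) := by
  funext e' w'
  rw [up_apply]
  unfold Psi gfx gtr
  simp only [gam_upd]
  by_cases h : e' = e ∧ w' = w
  · obtain ⟨rfl, rfl⟩ := h
    simp
  · rw [if_neg h, update_of_ne]
    intro h1
    apply h
    simp only [Prod.mk.injEq, add_right_inj, Nat.cast_inj, Option.some.injEq] at h1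
    exact ⟨Subtype.ext (Prod.ext h1.1.2 h1.2), Fin.ext h1.1.1⟩

lemma emb_Psi {a b : ℤ} {Λ : Finset (Fin D → ℤ)} (U : Lnk D → G) (l : Lnk D) (hl : InR a b Λ l) :
    gfx a U l = emb a (b - a).toNat Λ (Psi a (b - a).toNat Λ U) l := by
  obtain ⟨x, i⟩ := l
  obtain ⟨⟨⟨h1, h2⟩, h3⟩, ⟨h4, h5⟩, h6⟩ := hl
  simp only at h1 h2 h3 h4 h5 h6
  cases i with
  | none => rw [gfx_time U x h1]; rfl
  | some j =>
    have h7 : (x.2, j) ∈ EL Λ := mem_EL.2 ⟨h3, h6⟩
    rw [emb_some, ext_mem _ h7]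
    unfold Psi
    rw [cc_val (by omega)]
    congr 2
    have : a + (((x.1 - a).toNat : ℕ) : ℤ) = x.1 := by omega
    rw [this]

/-- dependence on the links of a region -/
def DepR (a b : ℤ) (Λ : Finset (Fin D → ℤ)) (Φ : (Lnk D → G) → ℝ) : Prop :=
  ∀ U U' : Lnk D → G, (∀ l, InR a b Λ l → U l = U' l) → Φ U = Φ U'

/-- gauge invariance -/
def GInv (Φ : (Lnk D → G) → ℝ) : Prop := ∀ γ U, Φ (gtr γ U) = Φ U

/-- the action in the region `[a, b] × Λ` -/
noncomputable def act (χ : G → ℝ) (βe βm : ℝ) (a b : ℤ) (Λ : Finset (Fin D → ℤ))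
    (U : Lnk D → G) : ℝ :=
  βe * ∑ t ∈ Finset.Ico a b, ∑ e ∈ EL Λ, χ (plq U (t, e.1) none (some e.2)) +
    βm * ∑ t ∈ Finset.Icc a b, ∑ p ∈ PL Λ, χ (plq U (t, p.1) (some p.2.1) (some p.2.2))

/-- class functions -/
structure Cf [TopologicalSpace G] (χ : G → ℝ) (M : ℝ) : Prop where
  cont : Continuous χ
  conj : ∀ g h, χ (h * g * h⁻¹) = χ g
  inv : ∀ g, χ g⁻¹ = χ g
  bdd : ∀ g, |χ g| ≤ M

end grp

section top

variable {G : Type} [Group G] [TopologicalSpace G] [IsTopologicalGroup G]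
  [SecondCountableTopology G] [MeasurableSpace G] [BorelSpace G]
variable {χ : G → ℝ} {M : ℝ}

lemma act_gtr (hχ : Cf χ M) (βe βm : ℝ) (a b : ℤ) (Λ : Finset (Fin D → ℤ)) :
    GInv (act (G := G) χ βe βm a b Λ) := by
  intro γ U
  unfold act
  simp only [plq_gtr, hχ.conj]

lemma plq_dep {a b : ℤ} {Λ : Finset (Fin D → ℤ)} {U U' : Lnk D → G}
    (h : ∀ l, InR a b Λ l → U l = U' l) {x : Site D} {i j : Option (Fin D)}
    (h1 : (a ≤ x.1 ∧ x.1 ≤ b) ∧ x.2 ∈ Λ)
    (h2 : (a ≤ (tip x i).1 ∧ (tip x i).1 ≤ b) ∧ (tip x i).2 ∈ Λ)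
    (h3 : (a ≤ (tip x j).1 ∧ (tip x j).1 ≤ b) ∧ (tip x j).2 ∈ Λ)
    (h4 : (a ≤ (tip (tip x i) j).1 ∧ (tip (tip x i) j).1 ≤ b) ∧ (tip (tip x i) j).2 ∈ Λ) :
    plq U x i j = plq U' x i j := by
  unfold plq
  rw [h (x, i) ⟨h1, h2⟩, h (tip x i, j) ⟨h2, h4⟩, h (tip x j, i) ⟨h3, by rw [tip_comm]; exact h4⟩,
    h (x, j) ⟨h1, h3⟩]

lemma act_dep (βe βm : ℝ) (a b : ℤ) (Λ : Finset (Fin D → ℤ)) :
    DepR a b Λ (act (G := G) χ βe βm a b Λ) := by
  intro U U' h
  unfold act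
  congr 2
  · refine Finset.sum_congr rfl fun t ht => Finset.sum_congr rfl fun e he => ?_
    rw [Finset.mem_Ico] at ht
    rw [mem_EL] at he
    rw [plq_dep h]
    · exact ⟨⟨ht.1, ht.2.le⟩, he.1⟩
    · exact ⟨⟨by simp only [tip_none]; omega, by simp only [tip_none]; omega⟩, he.1⟩
    · exact ⟨⟨ht.1, ht.2.le⟩, he.2⟩
    · exact ⟨⟨by simp only [tip_none, tip_some]; omega, by simp only [tip_none, tip_some]; omega⟩,
        he.2⟩
  · refine Finset.sum_congr rfl fun t ht => Finset.sum_congr rfl fun p hp => ?_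
    rw [Finset.mem_Icc] at ht
    rw [mem_PL] at hp
    rw [plq_dep h]
    · exact ⟨ht, hp.1⟩
    · exact ⟨ht, hp.2.2.1⟩
    · exact ⟨ht, hp.2.2.2.1⟩
    · exact ⟨ht, hp.2.2.2.2⟩

lemma cont_plq (x : Site D) (i j : Option (Fin D)) :
    Continuous fun U : Lnk D → G => plq U x i j := by
  unfold plq
  have h : ∀ l : Lnk D, Continuous fun U : Lnk D → G => U l := fun l => continuous_apply l
  exact (((h _).mul (h _)).mul (h _).inv).mul (h _).inv

lemma cont_act (hχ : Cf χ M) (βe βm : ℝ) (a b : ℤ) (Λ : Finset (Fin D → ℤ)) :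
    Continuous (act (G := G) χ βe βm a b Λ) := by
  unfold act
  have h : ∀ (x : Site D) (i j : Option (Fin D)), Continuous fun U : Lnk D → G => χ (plq U x i j) :=
    fun x i j => hχ.cont.comp (cont_plq x i j)
  exact (continuous_const.mul (continuous_finsetSum _ fun t _ => continuous_finsetSum _
    fun e _ => h _ _ _)).add (continuous_const.mul (continuous_finsetSum _ fun t _ =>
    continuous_finsetSum _ fun e _ => h _ _ _))

lemma act_bm (hχ : Cf χ M) (βe βm : ℝ) (a b : ℤ) (Λ : Finset (Fin D → ℤ)) :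
    BM (act (G := G) χ βe βm a b Λ) := by
  refine ⟨(cont_act hχ βe βm a b Λ).measurable,
    |βe| * ∑ t ∈ Finset.Ico a b, ∑ e ∈ EL Λ, M + |βm| * ∑ t ∈ Finset.Icc a b, ∑ p ∈ PL Λ, M,
    fun U => ?_⟩
  unfold act
  refine (abs_add_le _ _).trans (add_le_add ?_ ?_)
  · rw [abs_mul]
    refine mul_le_mul_of_nonneg_left ?_ (abs_nonneg _)
    refine (Finset.abs_sum_le_sum_abs _ _).trans (Finset.sum_le_sum fun t _ => ?_)
    exact (Finset.abs_sum_le_sum_abs _ _).trans (Finset.sum_le_sum fun e _ => hχ.bdd _)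
  · rw [abs_mul]
    refine mul_le_mul_of_nonneg_left ?_ (abs_nonneg _)
    refine (Finset.abs_sum_le_sum_abs _ _).trans (Finset.sum_le_sum fun t _ => ?_)
    exact (Finset.abs_sum_le_sum_abs _ _).trans (Finset.sum_le_sum fun e _ => hχ.bdd _)

lemma cont_gam (a : ℤ) (x : Site D) : Continuous fun U : Lnk D → G => gam a U x := by
  unfold gam
  exact continuous_list_prod _ fun s _ => continuous_apply _

lemma cont_Psi (a : ℤ) (T : ℕ) (Λ : Finset (Fin D → ℤ)) : Continuous (Psi (G := G) a T Λ) := by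
  refine continuous_pi fun e => continuous_pi fun w => ?_
  unfold Psi gfx gtr
  exact ((cont_gam a _).mul (continuous_apply _)).mul (cont_gam a _).inv

lemma cont_ext (Λ : Finset (Fin D → ℤ)) (e : (Fin D → ℤ) × Fin D) :
    Continuous fun s : EL Λ → G => ext Λ s e := by
  unfold ext
  split_ifs
  · exact continuous_apply _
  · exact continuous_const

lemma cont_emb (a : ℤ) (T : ℕ) (Λ : Finset (Fin D → ℤ)) : Continuous (emb (G := G) a T Λ) := by
  refine continuous_pi fun l => ?_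
  obtain ⟨x, i⟩ := l
  cases i with
  | none => exact continuous_const
  | some j =>
    refine (cont_ext Λ (x.2, j)).comp (continuous_pi fun e => ?_)
    exact (continuous_apply _).comp (continuous_apply e)

variable {μ : Measure G} [IsProbabilityMeasure μ] [μ.IsMulLeftInvariant] [μ.IsMulRightInvariant]

/-- the law of the columns -/
lemma Rs_Psi (a : ℤ) (T : ℕ) (Λ : Finset (Fin D → ℤ)) :
    Rs μ ((Pinf (Lnk D) μ).map (Psi a T Λ)) := by
  intro e w φ hφ
  have hm : Measurable (Psi (G := G) a T Λ) := (cont_Psi a T Λ).measurable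
  rw [integral_map hm.aemeasurable (av_bm μ e w hφ).meas.aestronglyMeasurable,
    integral_map hm.aemeasurable hφ.meas.aestronglyMeasurable,
    inf_resample μ ((a + ((w : ℕ) : ℤ), e.1.1), some e.1.2) (hφ.comp hm)]
  refine integral_congr_ae (Filter.Eventually.of_forall fun U => ?_)
  simp only [Psi_upd]
  unfold av
  have h1 := integral_mul_left_eq_self (μ := μ) (fun g => φ (up (Psi a T Λ U) e w (g *
    (gam a U (tip (a + ((w : ℕ) : ℤ), e.1.1) (some e.1.2)))⁻¹)))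
    (gam a U (a + ((w : ℕ) : ℤ), e.1.1))
  have h2 := integral_mul_right_eq_self (μ := μ) (fun g => φ (up (Psi a T Λ U) e w g))
    (gam a U (tip (a + ((w : ℕ) : ℤ), e.1.1) (some e.1.2)))⁻¹
  rw [h1, h2]

/-- **The temporal gauge.** -/
theorem temporal {a b : ℤ} {Λ : Finset (Fin D → ℤ)} {Φ : (Lnk D → G) → ℝ} (hΦ : BM Φ)
    (hg : GInv Φ) (hd : DepR a b Λ Φ) :
    ∫ U, Φ U ∂(Pinf (Lnk D) μ) = ∫ V, Φ (emb a (b - a).toNat Λ V) ∂(Pm (Pm μ)) := by
  have hm : Measurable (Psi (G := G) a (b - a).toNat Λ) := (cont_Psi a _ Λ).measurable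
  have hm2 : Measurable (emb (G := G) a (b - a).toNat Λ) := (cont_emb a _ Λ).measurable
  have h1 : ∀ U, Φ U = Φ (emb a (b - a).toNat Λ (Psi a (b - a).toNat Λ U)) := by
    intro U
    rw [← hd _ _ fun l hl => emb_Psi U l hl]
    exact (hg _ _).symm
  have h2 : BM fun V => Φ (emb a (b - a).toNat Λ V) := hΦ.comp hm2
  have : IsProbabilityMeasure ((Pinf (Lnk D) μ).map (Psi a (b - a).toNat Λ)) :=
    Measure.isProbabilityMeasure_map hm.aemeasurable
  rw [← Rs_unique μ (Rs_Psi a (b - a).toNat Λ) (Rs_Pm μ) h2,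
    integral_map hm.aemeasurable h2.meas.aestronglyMeasurable]
  exact integral_congr_ae (Filter.Eventually.of_forall h1)

end top

end Pool.Agent.Q295.YM
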