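import Mathlib
import Pool.Agent.Q295.YM.Lat

/-!
# The gauge theory in a region as a system of columns
-/

namespace Pool.Agent.Q295.YM

open MeasureTheory Function
open Pool.Agent.H556R4.Dob

set_option linter.unusedSectionVars false
set_option linter.unusedVariables false

variable {D : ℕ}

/-- the four links of a spatial plaquette -/
def four (p : (Fin D → ℤ) × Fin D × Fin D) : Finset ((Fin D → ℤ) × Fin D) :=
  {(p.1, p.2.1), (p.1 + Pi.single p.2.1 1, p.2.2), (p.1 + Pi.single p.2.2 1, p.2.1), (p.1, p.2.2)}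

/-- the distance of the base points -/
def sdist (x y : Fin D → ℤ) : ℕ := Finset.univ.sup fun i => (x i - y i).natAbs

lemma sdist_le {x y : Fin D → ℤ} {r : ℕ} : sdist x y ≤ r ↔ ∀ i, (x i - y i).natAbs ≤ r := by
  unfold sdist; rw [Finset.sup_le_iff]; simp

lemma sdist_coord (x y : Fin D → ℤ) (i : Fin D) : (x i - y i).natAbs ≤ sdist x y :=
  sdist_le.1 le_rfl i

lemma sdist_self (x : Fin D → ℤ) : sdist x x = 0 := by
  have : sdist x x ≤ 0 := sdist_le.2 fun i => by simp
  omega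

lemma sdist_comm (x y : Fin D → ℤ) : sdist x y = sdist y x := by
  unfold sdist
  congr 1
  funext i
  omega

lemma sdist_tri (x y z : Fin D → ℤ) : sdist x z ≤ sdist x y + sdist y z := by
  refine sdist_le.2 fun i => ?_
  have h1 := sdist_coord x y i
  have h2 := sdist_coord y z i
  omega

lemma single_coord (j i : Fin D) : (Pi.single j (1 : ℤ) : Fin D → ℤ) i = if i = j then 1 else 0 := by
  rw [Pi.single_apply]

lemma four_base {p : (Fin D → ℤ) × Fin D × Fin D} {e : (Fin D → ℤ) × Fin D} (he : e ∈ four p)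
    (i : Fin D) : p.1 i ≤ e.1 i ∧ e.1 i ≤ p.1 i + 1 := by
  unfold four at he
  simp only [Finset.mem_insert, Finset.mem_singleton] at he
  rcases he with rfl | rfl | rfl | rfl <;>
    simp only [Pi.add_apply, single_coord] <;> (try split_ifs) <;> omega

lemma four_dist {p : (Fin D → ℤ) × Fin D × Fin D} {e y : (Fin D → ℤ) × Fin D} (he : e ∈ four p)
    (hy : y ∈ four p) : sdist e.1 y.1 ≤ 1 := by
  refine sdist_le.2 fun i => ?_
  have h1 := four_base he i
  have h2 := four_base hy i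
  omega

lemma four_EL {Λ : Finset (Fin D → ℤ)} {p : (Fin D → ℤ) × Fin D × Fin D} (hp : p ∈ PL Λ)
    {e : (Fin D → ℤ) × Fin D} (he : e ∈ four p) : e ∈ EL Λ := by
  rw [mem_PL] at hp
  obtain ⟨h1, h2, h3, h4, h5⟩ := hp
  unfold four at he
  simp only [Finset.mem_insert, Finset.mem_singleton] at he
  rcases he with rfl | rfl | rfl | rfl
  · exact mem_EL.2 ⟨h1, h3⟩
  · exact mem_EL.2 ⟨h3, h5⟩
  · refine mem_EL.2 ⟨h4, ?_⟩
    show p.1 + Pi.single p.2.2 1 + Pi.single p.2.1 1 ∈ Λ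
    rw [add_right_comm]; exact h5
  · exact mem_EL.2 ⟨h1, h4⟩

lemma four_card (p : (Fin D → ℤ) × Fin D × Fin D) : (four p).card ≤ 4 := Finset.card_le_four

open Classical in
/-- a link is in at most `4 D` plaquettes -/
lemma card_four (Λ : Finset (Fin D → ℤ)) (e : (Fin D → ℤ) × Fin D) :
    (Finset.univ.filter fun p : PL Λ => e ∈ four p.1).card ≤ 4 * D := by
  have h1 : (Finset.univ.filter fun p : PL Λ => e ∈ four p.1).card =
      ((Finset.univ.filter fun p : PL Λ => e ∈ four p.1).image Subtype.val).card := by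
    rw [Finset.card_image_of_injective _ Subtype.val_injective]
  rw [h1]
  have h2 : (Finset.univ.filter fun p : PL Λ => e ∈ four p.1).image Subtype.val ⊆
      (Finset.univ : Finset (Fin 4 × Fin D)).image fun c : Fin 4 × Fin D =>
        if c.1 = 0 then (e.1, e.2, c.2) else if c.1 = 1 then (e.1 - Pi.single c.2 1, c.2, e.2) else
        if c.1 = 2 then (e.1 - Pi.single c.2 1, e.2, c.2) else (e.1, c.2, e.2) := by
    intro p hp
    rw [Finset.mem_image] at hp
    obtain ⟨p', hp', rfl⟩ := hp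
    rw [Finset.mem_filter] at hp'
    obtain ⟨-, hp'⟩ := hp'
    obtain ⟨⟨x, i, j⟩, hx⟩ := p'
    unfold four at hp'
    simp only [Finset.mem_insert, Finset.mem_singleton] at hp'
    rw [Finset.mem_image]
    rcases hp' with rfl | rfl | rfl | rfl
    · exact ⟨(0, j), Finset.mem_univ _, by simp⟩
    · exact ⟨(1, i), Finset.mem_univ _, by simp⟩
    · exact ⟨(2, j), Finset.mem_univ _, by simp⟩
    · exact ⟨(3, i), Finset.mem_univ _, by simp⟩
  refine (Finset.card_le_card h2).trans (Finset.card_image_le.trans ?_)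
  simp

section grp

variable {G : Type} [Group G]

/-- the spatial plaquette variable -/
def sqv (s : (Fin D → ℤ) × Fin D → G) (p : (Fin D → ℤ) × Fin D × Fin D) : G :=
  s (p.1, p.2.1) * s (p.1 + Pi.single p.2.1 1, p.2.2) *
    (s (p.1 + Pi.single p.2.2 1, p.2.1))⁻¹ * (s (p.1, p.2.2))⁻¹

lemma sqv_congr {s s' : (Fin D → ℤ) × Fin D → G} {p : (Fin D → ℤ) × Fin D × Fin D}
    (h : ∀ e ∈ four p, s e = s' e) : sqv s p = sqv s' p := by
  unfold sqv
  rw [h (p.1, p.2.1) (by simp [four]), h (p.1 + Pi.single p.2.1 1, p.2.2) (by simp [four]),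
    h (p.1 + Pi.single p.2.2 1, p.2.1) (by simp [four]), h (p.1, p.2.2) (by simp [four])]

/-- the system of columns of the region -/
noncomputable def LS (χ : G → ℝ) (k : G → G → ℝ) (βm : ℝ) (T : ℕ) (Λ : Finset (Fin D → ℤ)) :
    Sys G (EL Λ) (PL Λ) where
  T := T
  k := k
  u := fun p s => βm * χ (sqv (ext Λ s) p.1)
  supp := fun p => Finset.univ.filter fun e => e.1 ∈ four p.1

variable {χ : G → ℝ} {k : G → G → ℝ} {βe βm M c : ℝ} {T : ℕ} {Λ : Finset (Fin D → ℤ)}

lemma plq_emb_space (a : ℤ) (V : EL Λ → Fin (T + 1) → G) (t : ℤ)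
    (p : (Fin D → ℤ) × Fin D × Fin D) :
    plq (emb a T Λ V) (t, p.1) (some p.2.1) (some p.2.2) =
      sqv (ext Λ fun e => V e (cc T (t - a).toNat)) p := rfl

lemma plq_emb_time (a : ℤ) (V : EL Λ → Fin (T + 1) → G) (t : ℤ) (e : (Fin D → ℤ) × Fin D) :
    plq (emb a T Λ V) (t, e.1) none (some e.2) =
      ext Λ (fun e => V e (cc T (t + 1 - a).toNat)) e *
        (ext Λ (fun e => V e (cc T (t - a).toNat)) e)⁻¹ := by
  unfold plq
  rw [emb_none, emb_some, emb_none, emb_some]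
  simp only [one_mul, inv_one, mul_one, tip_none]

lemma sum_Ico_int (a b : ℤ) (f : ℤ → ℝ) :
    ∑ t ∈ Finset.Ico a b, f t = ∑ i ∈ Finset.range (b - a).toNat, f (a + i) := by
  have : Finset.Ico a b = (Finset.range (b - a).toNat).map
      (Nat.castEmbedding.trans (addLeftEmbedding a)) := rfl
  rw [this, Finset.sum_map]
  rfl

lemma sum_Icc_int (a b : ℤ) (f : ℤ → ℝ) :
    ∑ t ∈ Finset.Icc a b, f t = ∑ i ∈ Finset.range (b + 1 - a).toNat, f (a + i) := by
  have : Finset.Icc a b = (Finset.range (b + 1 - a).toNat).map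
      (Nat.castEmbedding.trans (addLeftEmbedding a)) := rfl
  rw [this, Finset.sum_map]
  rfl

end grp

section top

variable {G : Type} [Group G] [TopologicalSpace G] [IsTopologicalGroup G]
  [SecondCountableTopology G] [MeasurableSpace G] [BorelSpace G]
variable {χ : G → ℝ} {k : G → G → ℝ} {βe βm M c : ℝ} {T : ℕ} {Λ : Finset (Fin D → ℤ)}

/-- the action in the temporal gauge -/
lemma act_emb (hχ : Cf χ M) {a b : ℤ} (hab : a ≤ b) (V : EL Λ → Fin ((b - a).toNat + 1) → G) :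
    act χ βe βm a b Λ (emb a (b - a).toNat Λ V) =
      βe * ∑ i ∈ Finset.range (b - a).toNat, ∑ e : EL Λ,
        χ ((V e (cc (b - a).toNat i))⁻¹ * V e (cc (b - a).toNat (i + 1))) +
      ∑ i ∈ Finset.range ((b - a).toNat + 1), ∑ p : PL Λ,
        (LS χ k βm (b - a).toNat Λ).u p ((LS χ k βm (b - a).toNat Λ).sl i V) := by
  unfold act
  rw [sum_Ico_int, sum_Icc_int]
  have hT : (b + 1 - a).toNat = (b - a).toNat + 1 := by omega
  rw [hT]
  congr 1
  · congr 1
    refine Finset.sum_congr rfl fun i _ => ?_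
    rw [← Finset.sum_coe_sort (EL Λ)]
    refine Finset.sum_congr rfl fun e _ => ?_
    rw [plq_emb_time, ext_mem _ e.2, ext_mem _ e.2]
    have h1 : (a + (i : ℤ) + 1 - a).toNat = i + 1 := by omega
    have h2 : (a + (i : ℤ) - a).toNat = i := by omega
    rw [h1, h2]
    have h3 := hχ.conj ((V e (cc (b - a).toNat i))⁻¹ * V e (cc (b - a).toNat (i + 1)))
      (V e (cc (b - a).toNat i))
    rw [← h3]
    congr 1
    group
  · rw [Finset.mul_sum]
    refine Finset.sum_congr rfl fun i _ => ?_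
    rw [Finset.mul_sum, ← Finset.sum_coe_sort (PL Λ)]
    refine Finset.sum_congr rfl fun p _ => ?_
    rw [plq_emb_space]
    have h2 : (a + (i : ℤ) - a).toNat = i := by omega
    rw [h2]
    rfl

/-- the weight in the temporal gauge -/
lemma H_emb (hχ : Cf χ M) (hk : ∀ x y, k x y = c * Real.exp (βe * χ (x⁻¹ * y))) {a b : ℤ}
    (hab : a ≤ b) (V : EL Λ → Fin ((b - a).toNat + 1) → G) :
    (LS χ k βm (b - a).toNat Λ).H V =
      (c ^ (b - a).toNat) ^ (Fintype.card (EL Λ)) *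
        Real.exp (act χ βe βm a b Λ (emb a (b - a).toNat Λ V)) := by
  rw [act_emb (k := k) hχ hab, Real.exp_add, ← mul_assoc]
  unfold Sys.H
  congr 1
  unfold Sys.ck
  have h1 : ∀ e : EL Λ, ∏ i ∈ Finset.range (LS χ k βm (b - a).toNat Λ).T,
      (LS χ k βm (b - a).toNat Λ).k (V e (cc (LS χ k βm (b - a).toNat Λ).T i))
        (V e (cc (LS χ k βm (b - a).toNat Λ).T (i + 1))) =
      c ^ (b - a).toNat * Real.exp (∑ i ∈ Finset.range (b - a).toNat,
        βe * χ ((V e (cc (b - a).toNat i))⁻¹ * V e (cc (b - a).toNat (i + 1)))) := by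
    intro e
    rw [Real.exp_sum]
    have e1 : ∏ i ∈ Finset.range (LS χ k βm (b - a).toNat Λ).T,
      (LS χ k βm (b - a).toNat Λ).k (V e (cc (LS χ k βm (b - a).toNat Λ).T i))
        (V e (cc (LS χ k βm (b - a).toNat Λ).T (i + 1))) =
        ∏ i ∈ Finset.range (b - a).toNat, (c *
          Real.exp (βe * χ ((V e (cc (b - a).toNat i))⁻¹ * V e (cc (b - a).toNat (i + 1))))) := by
      refine Finset.prod_congr rfl fun i _ => ?_
      exact hk _ _
    rw [e1, Finset.prod_mul_distrib, Finset.prod_const, Finset.card_range]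
  rw [Finset.prod_congr rfl fun e _ => h1 e, Finset.prod_mul_distrib, Finset.prod_const,
    Finset.card_univ, ← Real.exp_sum]
  congr 2
  rw [Finset.mul_sum, Finset.sum_comm]
  refine Finset.sum_congr rfl fun i _ => ?_
  rw [Finset.mul_sum]

lemma cont_sqv (p : (Fin D → ℤ) × Fin D × Fin D) :
    Continuous fun s : EL Λ → G => sqv (ext Λ s) p := by
  unfold sqv
  exact (((cont_ext Λ _).mul (cont_ext Λ _)).mul (cont_ext Λ _).inv).mul (cont_ext Λ _).inv

lemma LS_reg (hχ : Cf χ M) (hc : 0 < c) (hk : ∀ x y, k x y = c * Real.exp (βe * χ (x⁻¹ * y))) :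
    (LS χ k βm T Λ).Reg (|βm| * M) := by
  refine ⟨?_, fun x y => ?_, fun p => ?_, fun p V => ?_, fun p e V g he => ?_⟩
  · have h1 : (fun p : G × G => (LS χ k βm T Λ).k p.1 p.2) = fun p : G × G =>
        c * Real.exp (βe * χ (p.1⁻¹ * p.2)) := by funext p; exact hk _ _
    rw [h1]
    have h2 : Continuous fun p : G × G => χ (p.1⁻¹ * p.2) :=
      hχ.cont.comp (continuous_fst.inv.mul continuous_snd)
    refine PB.mul ⟨measurable_const, ⟨c, hc, fun _ => le_rfl⟩, ⟨c, fun _ => le_rfl⟩⟩ (PB.exp ?_)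
    refine ⟨(continuous_const.mul h2).measurable, |βe| * M, fun p => ?_⟩
    rw [abs_mul]
    exact mul_le_mul_of_nonneg_left (hχ.bdd _) (abs_nonneg _)
  · show k x y = k y x
    rw [hk, hk, ← hχ.inv (x⁻¹ * y)]
    congr 4
    group
  · refine ⟨(continuous_const.mul (hχ.cont.comp (cont_sqv p.1))).measurable, |βm| * M, fun V => ?_⟩
    show |βm * χ _| ≤ _
    rw [abs_mul]
    exact mul_le_mul_of_nonneg_left (hχ.bdd _) (abs_nonneg _)
  · show |βm * χ _| ≤ _
    rw [abs_mul]
    exact mul_le_mul_of_nonneg_left (hχ.bdd _) (abs_nonneg _)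
  · show βm * χ _ = βm * χ _
    congr 2
    refine sqv_congr fun e' he' => ?_
    unfold ext
    split_ifs with h
    · rw [update_of_ne]
      rintro h1
      apply he
      show e ∈ Finset.univ.filter fun e : EL Λ => e.1 ∈ four p.1
      rw [Finset.mem_filter, ← h1]
      exact ⟨Finset.mem_univ _, he'⟩
    · rfl

lemma mem_supp {p : PL Λ} {e : EL Λ} : e ∈ (LS χ k βm T Λ).supp p ↔ e.1 ∈ four p.1 := by
  show e ∈ Finset.univ.filter (fun e : EL Λ => e.1 ∈ four p.1) ↔ _
  rw [Finset.mem_filter]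
  simp

lemma LS_hq (e : EL Λ) :
    (Finset.univ.filter fun p => e ∈ (LS χ k βm T Λ).supp p).card ≤ 4 * D := by
  classical
  refine le_trans (le_of_eq ?_) (card_four Λ e.1)
  congr 1
  ext p
  simp only [Finset.mem_filter, Finset.mem_univ, true_and]
  exact mem_supp

lemma LS_h4 (p : PL Λ) : ((LS χ k βm T Λ).supp p).card ≤ 4 := by
  classical
  have h1 : ((LS χ k βm T Λ).supp p).card =
      (((LS χ k βm T Λ).supp p).image Subtype.val).card := by
    rw [Finset.card_image_of_injective _ Subtype.val_injective]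
  rw [h1]
  refine (Finset.card_le_card fun e he => ?_).trans (four_card p.1)
  rw [Finset.mem_image] at he
  obtain ⟨e', he', rfl⟩ := he
  exact mem_supp.1 he'

variable {μ : Measure G} [IsProbabilityMeasure μ]

/-- the assumptions on the parameters -/
structure Par (μ : Measure G) [IsProbabilityMeasure μ] (D : ℕ) (χ : G → ℝ) (k : G → G → ℝ)
    (βe βm M c : ℝ) (m : ℕ) : Prop where
  cf : Cf χ M
  c0 : 0 < c
  hk : ∀ x y, k x y = c * Real.exp (βe * χ (x⁻¹ * y))
  um : UM μ k m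
  m1 : 1 ≤ m
  small : 32000 * (4 * D) * m * (|βm| * M) ≤ 1

variable {m : ℕ}

lemma Cf.M0 [Nonempty G] (hχ : Cf χ M) : 0 ≤ M := (abs_nonneg _).trans (hχ.bdd (Classical.arbitrary G))

lemma Par.weak (hP : Par μ D χ k βe βm M c m) (T : ℕ) (Λ : Finset (Fin D → ℤ)) :
    (LS χ k βm T Λ).Weak μ (|βm| * M) m (4 * D) := by
  refine ⟨LS_reg hP.cf hP.c0 hP.hk, hP.um, ?_, hP.m1, LS_hq, LS_h4, ?_⟩
  · have := hP.cf.M0
    positivity
  · have := hP.small
    push_cast
    exact this

/-- the function `exp (- dist (e, Y))` -/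
noncomputable def gd (Y : Finset (EL Λ)) (e : EL Λ) : ℝ :=
  if h : Y.Nonempty then Real.exp (-((Y.inf' h fun y => sdist e.1.1 y.1.1 : ℕ) : ℝ)) else 0

lemma gd_nonneg (Y : Finset (EL Λ)) (e : EL Λ) : 0 ≤ gd Y e := by
  unfold gd; split_ifs
  · exact (Real.exp_pos _).le
  · exact le_rfl

lemma gd_mem {Y : Finset (EL Λ)} {e : EL Λ} (he : e ∈ Y) : 1 ≤ gd Y e := by
  have hY : Y.Nonempty := ⟨e, he⟩
  unfold gd
  rw [dif_pos hY]
  have h1 : (Y.inf' hY fun y => sdist e.1.1 y.1.1) ≤ 0 :=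
    (Finset.inf'_le _ he).trans (le_of_eq (sdist_self _))
  have h2 : (Y.inf' hY fun y => sdist e.1.1 y.1.1) = 0 := by omega
  rw [h2]; simp

lemma gd_nb (Y : Finset (EL Λ)) (e y : EL Λ)
    (h : ∃ p, e ∈ (LS χ k βm T Λ).supp p ∧ y ∈ (LS χ k βm T Λ).supp p) : gd Y y ≤ 3 * gd Y e := by
  obtain ⟨p, h1, h2⟩ := h
  rw [mem_supp] at h1 h2
  have h3 := four_dist h1 h2
  unfold gd
  by_cases hY : Y.Nonempty
  · rw [dif_pos hY, dif_pos hY]
    have h4 : (Y.inf' hY fun z => sdist e.1.1 z.1.1) ≤ (Y.inf' hY fun z => sdist y.1.1 z.1.1) + 1 := by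
      obtain ⟨z, hz, hz'⟩ := Finset.exists_mem_eq_inf' hY fun z => sdist y.1.1 z.1.1
      rw [hz']
      refine (Finset.inf'_le _ hz).trans ?_
      have := sdist_tri e.1.1 y.1.1 z.1.1
      omega
    have h5 : ((Y.inf' hY fun z => sdist e.1.1 z.1.1 : ℕ) : ℝ) ≤
        ((Y.inf' hY fun z => sdist y.1.1 z.1.1 : ℕ) : ℝ) + 1 := by exact_mod_cast h4
    have h6 : Real.exp (-((Y.inf' hY fun z => sdist y.1.1 z.1.1 : ℕ) : ℝ)) ≤
        Real.exp 1 * Real.exp (-((Y.inf' hY fun z => sdist e.1.1 z.1.1 : ℕ) : ℝ)) := by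
      rw [← Real.exp_add]
      exact Real.exp_le_exp.2 (by linarith)
    refine h6.trans (mul_le_mul_of_nonneg_right ?_ (Real.exp_pos _).le)
    have := Real.exp_one_lt_d9
    linarith
  · rw [dif_neg hY, dif_neg hY]; simp

lemma sum_gd {A' Y : Finset (EL Λ)} {r : ℕ} (h : ∀ e ∈ A', ∀ y ∈ Y, r ≤ sdist e.1.1 y.1.1) :
    ∑ e ∈ A', gd Y e ≤ A'.card * Real.exp (-(r : ℝ)) := by
  rw [← nsmul_eq_mul]
  refine Finset.sum_le_card_nsmul _ _ _ fun e he => ?_
  unfold gd
  split_ifs with hY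
  · refine Real.exp_le_exp.2 (neg_le_neg ?_)
    have : r ≤ Y.inf' hY fun y => sdist e.1.1 y.1.1 := Finset.le_inf' _ _ fun y hy => h e he y hy
    exact_mod_cast this
  · exact (Real.exp_pos _).le

end top

end Pool.Agent.Q295.YM
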