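import Mathlib
import Pool.Agent.Q295.YM.Mixing

/-!
# Random walks on compact groups: energy, Nash inequality
-/

namespace Pool.Agent.Q295.YM

open MeasureTheory Function
open Pool.Agent.H556R4.Dob

set_option linter.unusedSectionVars false

variable {G : Type} [Group G] [TopologicalSpace G] [IsTopologicalGroup G] [CompactSpace G]
  [SecondCountableTopology G] [MeasurableSpace G] [BorelSpace G]
variable (μ : Measure G) [IsProbabilityMeasure μ] [μ.IsMulLeftInvariant] [μ.IsMulRightInvariant]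
  [μ.IsInvInvariant]

/-- left convolution -/
noncomputable def conv (q f : G → ℝ) (x : G) : ℝ := ∫ y, q y * f (y⁻¹ * x) ∂μ

variable {μ}

lemma BM.meas2 {q f : G → ℝ} (hq : BM q) (hf : BM f) :
    BM fun p : G × G => q p.2 * f (p.2⁻¹ * p.1) := by
  refine (hq.comp measurable_snd).mul (hf.comp ?_)
  exact (measurable_snd.inv.mul measurable_fst)

lemma conv_bm {q f : G → ℝ} (hq : BM q) (hf : BM f) : BM (conv μ q f) :=
  BM.integral' μ (BM.meas2 hq hf)

lemma conv_nonneg {q f : G → ℝ} (hq : ∀ x, 0 ≤ q x) (hf : ∀ x, 0 ≤ f x) (x : G) :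
    0 ≤ conv μ q f x := integral_nonneg fun y => mul_nonneg (hq y) (hf _)

lemma integral_conv {q f : G → ℝ} (hq : BM q) (hf : BM f) :
    ∫ x, conv μ q f x ∂μ = (∫ y, q y ∂μ) * ∫ x, f x ∂μ := by
  have h := (BM.meas2 hq hf).integrable (μ.prod μ)
  have h1 := integral_integral_swap (f := fun x y => q y * f (y⁻¹ * x)) h
  show ∫ x, ∫ y, q y * f (y⁻¹ * x) ∂μ ∂μ = _
  rw [h1, ← integral_mul_const]
  refine integral_congr_ae (Filter.Eventually.of_forall fun y => ?_)
  simp only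
  rw [integral_const_mul, integral_mul_left_eq_self (μ := μ) f y⁻¹]

/-- the semigroup property -/
lemma conv_assoc {q f g : G → ℝ} (hq : BM q) (hf : BM f) (hg : BM g) (x : G) :
    conv μ (conv μ q f) g x = conv μ q (conv μ f g) x := by
  have hbm : BM fun p : G × G => q p.2 * f (p.2⁻¹ * p.1) * g (p.1⁻¹ * x) :=
    (BM.meas2 hq hf).mul (hg.comp (measurable_fst.inv.mul_const x))
  show ∫ y, (∫ z, q z * f (z⁻¹ * y) ∂μ) * g (y⁻¹ * x) ∂μ =
    ∫ z, q z * ∫ y, f y * g (y⁻¹ * (z⁻¹ * x)) ∂μ ∂μ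
  have e1 : ∀ y, (∫ z, q z * f (z⁻¹ * y) ∂μ) * g (y⁻¹ * x) =
      ∫ z, q z * f (z⁻¹ * y) * g (y⁻¹ * x) ∂μ := fun y => (integral_mul_const _ _).symm
  simp only [e1]
  rw [integral_integral_swap (f := fun y z => q z * f (z⁻¹ * y) * g (y⁻¹ * x))
    (hbm.integrable (μ.prod μ))]
  refine integral_congr_ae (Filter.Eventually.of_forall fun z => ?_)
  simp only
  rw [← integral_const_mul]
  rw [← integral_mul_left_eq_self (μ := μ) (fun y => q z * f (z⁻¹ * y) * g (y⁻¹ * x)) z]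
  refine integral_congr_ae (Filter.Eventually.of_forall fun y => ?_)
  simp only
  rw [inv_mul_cancel_left, mul_inv_rev, mul_assoc, mul_assoc]

/-- squared distance of a translate -/
noncomputable def Nf (μ : Measure G) (f : G → ℝ) (h : G) : ℝ := ∫ x, (f (h⁻¹ * x) - f x) ^ 2 ∂μ

lemma Nf_nonneg (f : G → ℝ) (h : G) : 0 ≤ Nf μ f h := integral_nonneg fun x => sq_nonneg _

lemma Nf_bm {f : G → ℝ} (hf : BM f) : BM (Nf μ f) := by
  have h : BM fun p : G × G => (f (p.1⁻¹ * p.2) - f p.2) ^ 2 := by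
    have h1 : BM fun p : G × G => f (p.1⁻¹ * p.2) - f p.2 :=
      BM.sub' (hf.comp (measurable_fst.inv.mul measurable_snd)) (hf.comp measurable_snd)
    simpa only [pow_two] using h1.mul h1
  exact BM.integral' μ h

/-- Minkowski's inequality for bounded functions -/
lemma mink {Ω : Type} [MeasurableSpace Ω] (P : Measure Ω) [IsProbabilityMeasure P] {a b : Ω → ℝ}
    (ha : BM a) (hb : BM b) : Real.sqrt (∫ x, (a x + b x) ^ 2 ∂P) ≤
      Real.sqrt (∫ x, a x ^ 2 ∂P) + Real.sqrt (∫ x, b x ^ 2 ∂P) := by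
  have ia : Integrable (fun x => a x ^ 2) P := by
    simpa only [pow_two] using (ha.mul ha).integrable P
  have ib : Integrable (fun x => b x ^ 2) P := by
    simpa only [pow_two] using (hb.mul hb).integrable P
  have iab : Integrable (fun x => a x * b x) P := (ha.mul hb).integrable P
  have e1 : ∫ x, (a x + b x) ^ 2 ∂P = ∫ x, a x ^ 2 ∂P + 2 * ∫ x, a x * b x ∂P +
      ∫ x, b x ^ 2 ∂P := by
    have i2 : Integrable (fun x => 2 * (a x * b x)) P := iab.const_mul 2
    have i3 : Integrable (fun x => a x ^ 2 + 2 * (a x * b x)) P := ia.add i2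
    rw [← integral_const_mul, ← integral_add ia i2, ← integral_add i3 ib]
    refine integral_congr_ae (Filter.Eventually.of_forall fun x => ?_)
    simp only; ring
  obtain ⟨A, hA⟩ : ∃ A, A = ∫ x, a x ^ 2 ∂P := ⟨_, rfl⟩
  obtain ⟨B, hB⟩ : ∃ B, B = ∫ x, b x ^ 2 ∂P := ⟨_, rfl⟩
  obtain ⟨C, hC⟩ : ∃ C, C = ∫ x, a x * b x ∂P := ⟨_, rfl⟩
  have hA0 : 0 ≤ A := by rw [hA]; exact integral_nonneg fun x => sq_nonneg _
  have hB0 : 0 ≤ B := by rw [hB]; exact integral_nonneg fun x => sq_nonneg _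
  have hq : ∀ t : ℝ, 0 ≤ A - 2 * t * C + t ^ 2 * B := by
    intro t
    have e2 : ∫ x, (a x - t * b x) ^ 2 ∂P = A - 2 * t * C + t ^ 2 * B := by
      have i2 : Integrable (fun x => (2 * t) * (a x * b x)) P := iab.const_mul _
      have i4 : Integrable (fun x => t ^ 2 * b x ^ 2) P := ib.const_mul _
      have i3 : Integrable (fun x => a x ^ 2 - (2 * t) * (a x * b x)) P := ia.sub i2
      rw [hA, hB, hC, ← integral_const_mul, ← integral_const_mul, ← integral_sub ia i2,
        ← integral_add i3 i4]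
      refine integral_congr_ae (Filter.Eventually.of_forall fun x => ?_)
      simp only; ring
    rw [← e2]
    exact integral_nonneg fun x => sq_nonneg _
  have hCS : C ≤ Real.sqrt A * Real.sqrt B := by
    rcases le_or_gt C 0 with h | h
    · exact h.trans (mul_nonneg (Real.sqrt_nonneg _) (Real.sqrt_nonneg _))
    have h1 : C ^ 2 ≤ A * B := by
      rcases hB0.eq_or_lt with h2 | h2
      · have h3 := hq ((A + 1) / C)
        rw [← h2] at h3 ⊢
        have h4 : 2 * ((A + 1) / C) * C = 2 * (A + 1) := by field_simp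
        rw [h4] at h3
        nlinarith
      · have h3 := hq (C / B)
        have h4 : A - 2 * (C / B) * C + (C / B) ^ 2 * B = A - C ^ 2 / B := by
          field_simp
          ring
        rw [h4, sub_nonneg, div_le_iff₀ h2] at h3
        exact h3
    rw [← Real.sqrt_mul hA0]
    exact Real.le_sqrt_of_sq_le h1
  rw [e1, ← hA, ← hB, ← hC]
  rw [Real.sqrt_le_left (add_nonneg (Real.sqrt_nonneg _) (Real.sqrt_nonneg _)), add_sq,
    Real.sq_sqrt hA0, Real.sq_sqrt hB0]
  linarith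

lemma Nf_mul {f : G → ℝ} (hf : BM f) (g h : G) :
    Real.sqrt (Nf μ f (g * h)) ≤ Real.sqrt (Nf μ f g) + Real.sqrt (Nf μ f h) := by
  have h1 : BM fun x => f ((g * h)⁻¹ * x) - f (g⁻¹ * x) :=
    BM.sub' (hf.comp (measurable_const_mul _)) (hf.comp (measurable_const_mul _))
  have h2 : BM fun x => f (g⁻¹ * x) - f x := BM.sub' (hf.comp (measurable_const_mul _)) hf
  have h3 := mink μ h1 h2
  have e1 : ∫ x, (f ((g * h)⁻¹ * x) - f (g⁻¹ * x) + (f (g⁻¹ * x) - f x)) ^ 2 ∂μ =
      Nf μ f (g * h) := by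
    refine integral_congr_ae (Filter.Eventually.of_forall fun x => ?_)
    simp only; ring
  have e2 : ∫ x, (f ((g * h)⁻¹ * x) - f (g⁻¹ * x)) ^ 2 ∂μ = Nf μ f h := by
    rw [← integral_mul_left_eq_self (μ := μ) (fun x => (f ((g * h)⁻¹ * x) - f (g⁻¹ * x)) ^ 2) g]
    refine integral_congr_ae (Filter.Eventually.of_forall fun x => ?_)
    simp only
    rw [mul_inv_rev, mul_assoc, inv_mul_cancel_left]
  rw [e1, e2] at h3
  rw [add_comm]
  exact h3

lemma Nf_one (f : G → ℝ) : Nf μ f 1 = 0 := by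
  simp [Nf]

lemma Nf_list {f : G → ℝ} (hf : BM f) {M : ℝ} (hM : 0 ≤ M) : ∀ l : List G,
    (∀ h ∈ l, Nf μ f h ≤ M) → Nf μ f l.prod ≤ (l.length : ℝ) ^ 2 * M := by
  have key : ∀ l : List G, (∀ h ∈ l, Nf μ f h ≤ M) →
      Real.sqrt (Nf μ f l.prod) ≤ l.length * Real.sqrt M := by
    intro l
    induction l with
    | nil => intro _; simp [Nf_one]
    | cons g l ih =>
      intro h
      have h1 := ih fun h' hh' => h h' (List.mem_cons_of_mem _ hh')
      have h2 := h g List.mem_cons_self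
      rw [List.prod_cons, List.length_cons, Nat.cast_succ, add_mul, one_mul]
      have h3 := Nf_mul (μ := μ) hf g l.prod
      have h4 := Real.sqrt_le_sqrt h2
      linarith
  intro l h
  have h1 := key l h
  have h2 : 0 ≤ Real.sqrt (Nf μ f l.prod) := Real.sqrt_nonneg _
  have h3 := mul_self_le_mul_self h2 h1
  rw [Real.mul_self_sqrt (Nf_nonneg _ _)] at h3
  refine h3.trans (le_of_eq ?_)
  rw [mul_mul_mul_comm, Real.mul_self_sqrt hM]
  ring

/-- averaging: a bound of the square of a mean -/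
lemma sq_mean_le {Ω : Type} [MeasurableSpace Ω] (P : Measure Ω) [IsProbabilityMeasure P]
    {w a : Ω → ℝ} (hw : BM w) (hw0 : ∀ x, 0 ≤ w x) (hw1 : ∫ x, w x ∂P = 1) (ha : BM a) :
    (∫ x, w x * a x ∂P) ^ 2 ≤ ∫ x, w x * a x ^ 2 ∂P := by
  obtain ⟨c, hc⟩ : ∃ c, c = ∫ x, w x * a x ∂P := ⟨_, rfl⟩
  have ia2 : BM fun x => a x ^ 2 := by simpa only [pow_two] using ha.mul ha
  have h0 : 0 ≤ ∫ x, w x * (a x - c) ^ 2 ∂P :=
    integral_nonneg fun x => mul_nonneg (hw0 x) (sq_nonneg _)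
  have e : ∫ x, w x * (a x - c) ^ 2 ∂P = ∫ x, w x * a x ^ 2 ∂P - c ^ 2 := by
    have i1 : Integrable (fun x => w x * a x ^ 2) P := (hw.mul ia2).integrable P
    have i2 : Integrable (fun x => (2 * c) * (w x * a x)) P :=
      ((hw.mul ha).integrable P).const_mul _
    have i3 : Integrable (fun x => c ^ 2 * w x) P := (hw.integrable P).const_mul _
    have i4 : Integrable (fun x => w x * a x ^ 2 - (2 * c) * (w x * a x)) P := i1.sub i2
    have e1 : ∫ x, w x * (a x - c) ^ 2 ∂P =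
        ∫ x, w x * a x ^ 2 ∂P - (2 * c) * ∫ x, w x * a x ∂P + c ^ 2 * ∫ x, w x ∂P := by
      rw [← integral_const_mul, ← integral_const_mul, ← integral_sub i1 i2, ← integral_add i4 i3]
      refine integral_congr_ae (Filter.Eventually.of_forall fun x => ?_)
      simp only; ring
    rw [e1, hw1, ← hc]; ring
  rw [e] at h0
  rw [← hc]; linarith

/-- **Energy identity** (as an inequality). -/
lemma energy {q f : G → ℝ} (hq : BM q) (hq0 : ∀ x, 0 ≤ q x) (hq1 : ∫ x, q x ∂μ = 1) (hf : BM f) :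
    1 / 2 * ∫ y', q y' * ∫ h, q (y' * h) * Nf μ f h ∂μ ∂μ =
      ∫ x, f x ^ 2 ∂μ - ∫ x, conv μ q f x ^ 2 ∂μ := by
  have hf2 : BM fun x => f x ^ 2 := by simpa only [pow_two] using hf.mul hf
  -- pointwise variance identity
  have key : ∀ x, 1 / 2 * ∫ y', ∫ y, q y' * q y * (f (y⁻¹ * x) - f (y'⁻¹ * x)) ^ 2 ∂μ ∂μ =
      ∫ y, q y * f (y⁻¹ * x) ^ 2 ∂μ - conv μ q f x ^ 2 := by
    intro x
    have hfx : BM fun y => f (y⁻¹ * x) := hf.comp (measurable_inv.mul_const x)
    have hfx2 : BM fun y => f (y⁻¹ * x) ^ 2 := hf2.comp (measurable_inv.mul_const x)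
    have i1 := (hq.mul hfx2).integrable μ
    have i2 := (hq.mul hfx).integrable μ
    have i0 := hq.integrable μ
    have e1 : ∀ y', ∫ y, q y' * q y * (f (y⁻¹ * x) - f (y'⁻¹ * x)) ^ 2 ∂μ =
        q y' * (∫ y, q y * f (y⁻¹ * x) ^ 2 ∂μ) - 2 * (q y' * f (y'⁻¹ * x)) * conv μ q f x +
          q y' * f (y'⁻¹ * x) ^ 2 := by
      intro y'
      have j1 : Integrable (fun y => q y' * (q y * f (y⁻¹ * x) ^ 2)) μ := i1.const_mul _
      have j2 : Integrable (fun y => 2 * (q y' * f (y'⁻¹ * x)) * (q y * f (y⁻¹ * x))) μ :=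
        i2.const_mul _
      have j3 : Integrable (fun y => q y' * f (y'⁻¹ * x) ^ 2 * q y) μ := i0.const_mul _
      have j4 : Integrable (fun y => q y' * (q y * f (y⁻¹ * x) ^ 2) -
        2 * (q y' * f (y'⁻¹ * x)) * (q y * f (y⁻¹ * x))) μ := j1.sub j2
      have : q y' * f (y'⁻¹ * x) ^ 2 = ∫ y, q y' * f (y'⁻¹ * x) ^ 2 * q y ∂μ := by
        rw [integral_const_mul, hq1, mul_one]
      rw [this]
      show _ = q y' * (∫ y, q y * f (y⁻¹ * x) ^ 2 ∂μ) -
        2 * (q y' * f (y'⁻¹ * x)) * (∫ y, q y * f (y⁻¹ * x) ∂μ) + _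
      rw [← integral_const_mul, ← integral_const_mul, ← integral_sub j1 j2, ← integral_add j4 j3]
      refine integral_congr_ae (Filter.Eventually.of_forall fun y => ?_)
      simp only; ring
    simp only [e1]
    have k1 : Integrable (fun y' => q y' * (∫ y, q y * f (y⁻¹ * x) ^ 2 ∂μ)) μ := i0.mul_const _
    have k2 : Integrable (fun y' => 2 * (q y' * f (y'⁻¹ * x)) * conv μ q f x) μ :=
      (i2.const_mul 2).mul_const _
    have k3 : Integrable (fun y' => q y' * (∫ y, q y * f (y⁻¹ * x) ^ 2 ∂μ) -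
      2 * (q y' * f (y'⁻¹ * x)) * conv μ q f x) μ := k1.sub k2
    rw [integral_add k3 i1, integral_sub k1 k2, integral_mul_const, integral_mul_const,
      integral_const_mul, hq1]
    have : ∫ y', q y' * f (y'⁻¹ * x) ∂μ = conv μ q f x := rfl
    rw [this]; ring
  -- integrate over `x`
  have e2 : ∫ x, ∫ y, q y * f (y⁻¹ * x) ^ 2 ∂μ ∂μ = ∫ x, f x ^ 2 ∂μ := by
    have := integral_conv (μ := μ) hq hf2
    rw [hq1, one_mul] at this
    exact this
  have hc2 : BM fun x => conv μ q f x ^ 2 := by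
    simpa only [pow_two] using (conv_bm (μ := μ) hq hf).mul (conv_bm hq hf)
  have e3 : ∫ x, f x ^ 2 ∂μ - ∫ x, conv μ q f x ^ 2 ∂μ =
      ∫ x, (1 / 2 * ∫ y', ∫ y, q y' * q y * (f (y⁻¹ * x) - f (y'⁻¹ * x)) ^ 2 ∂μ ∂μ) ∂μ := by
    have hi : Integrable (fun x => ∫ y, q y * f (y⁻¹ * x) ^ 2 ∂μ) μ :=
      (conv_bm (μ := μ) hq hf2).integrable μ
    rw [← e2, ← integral_sub hi (hc2.integrable μ)]
    refine integral_congr_ae (Filter.Eventually.of_forall fun x => ?_)
    simp only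
    rw [key]
  rw [e3, integral_const_mul]
  congr 1
  -- exchange the integrals
  have hbm : BM fun p : G × G × G => q p.2.1 * q p.2.2 *
      (f (p.2.2⁻¹ * p.1) - f (p.2.1⁻¹ * p.1)) ^ 2 := by
    have h1 : BM fun p : G × G × G => q p.2.1 := hq.comp (measurable_fst.comp measurable_snd)
    have h2 : BM fun p : G × G × G => q p.2.2 := hq.comp (measurable_snd.comp measurable_snd)
    have h3 : BM fun p : G × G × G => f (p.2.2⁻¹ * p.1) - f (p.2.1⁻¹ * p.1) :=
      BM.sub' (hf.comp ((measurable_snd.comp measurable_snd).inv.mul measurable_fst))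
        (hf.comp ((measurable_fst.comp measurable_snd).inv.mul measurable_fst))
    have h4 : BM fun p : G × G × G => (f (p.2.2⁻¹ * p.1) - f (p.2.1⁻¹ * p.1)) ^ 2 := by
      simpa only [pow_two] using h3.mul h3
    exact (h1.mul h2).mul h4
  have h5 : BM fun p : G × G => ∫ y, q p.2 * q y * (f (y⁻¹ * p.1) - f (p.2⁻¹ * p.1)) ^ 2 ∂μ := by
    refine BM.integral' μ (f := fun p : (G × G) × G => q p.1.2 * q p.2 *
      (f (p.2⁻¹ * p.1.1) - f (p.1.2⁻¹ * p.1.1)) ^ 2) ?_
    exact hbm.comp (g := fun p : (G × G) × G => (p.1.1, p.1.2, p.2))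
      ((measurable_fst.comp measurable_fst).prodMk
        ((measurable_snd.comp measurable_fst).prodMk measurable_snd))
  have h6 := integral_integral_swap (f := fun x y' => ∫ y, q y' * q y *
    (f (y⁻¹ * x) - f (y'⁻¹ * x)) ^ 2 ∂μ) (h5.integrable (μ.prod μ))
  rw [h6]
  refine integral_congr_ae (Filter.Eventually.of_forall fun y' => ?_)
  simp only
  have h7 : BM fun p : G × G => q y' * q p.2 * (f (p.2⁻¹ * p.1) - f (y'⁻¹ * p.1)) ^ 2 :=
    hbm.comp (g := fun p : G × G => (p.1, y', p.2))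
      (measurable_fst.prodMk (measurable_const.prodMk measurable_snd))
  rw [integral_integral_swap (f := fun x y => q y' * q y *
    (f (y⁻¹ * x) - f (y'⁻¹ * x)) ^ 2) (h7.integrable (μ.prod μ)), ← integral_const_mul]
  rw [← integral_mul_left_eq_self (μ := μ) (fun y => ∫ x, q y' * q y *
    (f (y⁻¹ * x) - f (y'⁻¹ * x)) ^ 2 ∂μ) y']
  refine integral_congr_ae (Filter.Eventually.of_forall fun h => ?_)
  simp only
  rw [integral_const_mul, ← mul_assoc]
  congr 1
  rw [Nf, ← integral_mul_left_eq_self (μ := μ) (fun x =>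
    (f ((y' * h)⁻¹ * x) - f (y'⁻¹ * x)) ^ 2) y']
  refine integral_congr_ae (Filter.Eventually.of_forall fun x => ?_)
  simp only
  rw [mul_inv_rev, mul_assoc, inv_mul_cancel_left]

end Pool.Agent.Q295.YM
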