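import Mathlib
import Pool.Agent.Q295.YM.Walk

/-!
# Random walks on compact groups: mixing in the diffusive time
-/

namespace Pool.Agent.Q295.YM

open MeasureTheory Function
open Pool.Agent.H556R4.Dob

set_option linter.unusedSectionVars false
set_option linter.unusedVariables false

variable {G : Type} [Group G] [TopologicalSpace G] [IsTopologicalGroup G] [CompactSpace G]
  [SecondCountableTopology G] [MeasurableSpace G] [BorelSpace G]
variable {μ : Measure G} [IsProbabilityMeasure μ] [μ.IsMulLeftInvariant] [μ.IsMulRightInvariant]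
  [μ.IsInvInvariant]

open Classical in
/-- indicator of a ball -/
noncomputable def ind (ℓ : G → ℝ) (r : ℝ) (g : G) : ℝ := if ℓ g ≤ r then 1 else 0

/-- volume of a ball -/
noncomputable def Vol (μ : Measure G) (ℓ : G → ℝ) (r : ℝ) : ℝ := ∫ g, ind ℓ r g ∂μ

/-- a length function with the doubling property and with chains -/
structure Len (μ : Measure G) (ℓ : G → ℝ) (R K A : ℝ) : Prop where
  cont : Continuous ℓ
  nonneg : ∀ g, 0 ≤ ℓ g
  one : ℓ 1 = 0
  inv : ∀ g, ℓ g⁻¹ = ℓ g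
  mul : ∀ g h, ℓ (g * h) ≤ ℓ g + ℓ h
  bdd : ∀ g, ℓ g ≤ R
  R1 : 1 ≤ R
  K1 : 1 ≤ K
  A1 : 1 ≤ A
  pos : ∀ r, 0 < r → 0 < Vol μ ℓ r
  dbl : ∀ r, 0 < r → Vol μ ℓ (2 * r) ≤ K * Vol μ ℓ r
  chain : ∀ r s g, 0 < r → r ≤ s → ℓ g ≤ s → ∃ l : List G, (l.length : ℝ) ≤ A * s / r ∧
    (∀ h ∈ l, ℓ h ≤ r / 2) ∧ l.prod = g

variable {ℓ : G → ℝ} {R K A : ℝ}

lemma ind_bm (hℓ : Continuous ℓ) (r : ℝ) : BM (ind ℓ r) := by
  refine ⟨?_, 1, fun g => ?_⟩
  · exact Measurable.ite (measurableSet_le hℓ.measurable measurable_const) measurable_const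
      measurable_const
  · unfold ind; split_ifs <;> simp

lemma ind_nonneg (r : ℝ) (g : G) : 0 ≤ ind ℓ r g := by
  unfold ind; split_ifs <;> simp

lemma ind_le_one (r : ℝ) (g : G) : ind ℓ r g ≤ 1 := by
  unfold ind; split_ifs <;> simp

lemma ind_mono {r s : ℝ} (h : r ≤ s) (g : G) : ind ℓ r g ≤ ind ℓ s g := by
  unfold ind
  by_cases h1 : ℓ g ≤ r
  · rw [if_pos h1, if_pos (h1.trans h)]
  · rw [if_neg h1]; split_ifs <;> simp

lemma Nf_inv {f : G → ℝ} (hf : BM f) (h : G) : Nf μ f h⁻¹ = Nf μ f h := by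
  rw [Nf, Nf, ← integral_mul_left_eq_self (μ := μ) (fun x => (f (h⁻¹⁻¹ * x) - f x) ^ 2) h⁻¹]
  refine integral_congr_ae (Filter.Eventually.of_forall fun x => ?_)
  simp only
  rw [inv_inv, mul_inv_cancel_left]; ring

lemma Nf_tri {f : G → ℝ} (hf : BM f) (h u : G) :
    Nf μ f h ≤ 2 * Nf μ f (h * u) + 2 * Nf μ f u := by
  have h1 := Nf_mul (μ := μ) hf (h * u) u⁻¹
  rw [mul_inv_cancel_right, Nf_inv hf] at h1
  have h2 := mul_self_le_mul_self (Real.sqrt_nonneg _) h1
  rw [Real.mul_self_sqrt (Nf_nonneg _ _)] at h2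
  have h3 := Real.mul_self_sqrt (Nf_nonneg (μ := μ) f (h * u))
  have h4 := Real.mul_self_sqrt (Nf_nonneg (μ := μ) f u)
  nlinarith [sq_nonneg (Real.sqrt (Nf μ f (h * u)) - Real.sqrt (Nf μ f u))]

/-- energy at the scale `r` -/
noncomputable def En (μ : Measure G) (ℓ : G → ℝ) (f : G → ℝ) (r : ℝ) : ℝ :=
  (∫ h, ind ℓ r h * Nf μ f h ∂μ) / Vol μ ℓ r

lemma En_nonneg (hL : Len μ ℓ R K A) (f : G → ℝ) {r : ℝ} (hr : 0 < r) : 0 ≤ En μ ℓ f r :=
  div_nonneg (integral_nonneg fun h => mul_nonneg (ind_nonneg _ _) (Nf_nonneg _ _)) (hL.pos r hr).le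

lemma Nf_small (hL : Len μ ℓ R K A) {f : G → ℝ} (hf : BM f) {r : ℝ} (hr : 0 < r) {h : G}
    (hh : ℓ h ≤ r / 2) : Nf μ f h ≤ 4 * K * En μ ℓ f r := by
  have hV2 := hL.pos (r / 2) (by linarith)
  have hV := hL.pos r hr
  have hN := Nf_bm (μ := μ) hf
  have b1 : BM (ind ℓ (r / 2)) := ind_bm hL.cont _
  have b2 : BM fun u => Nf μ f (h * u) := hN.comp (measurable_const_mul h)
  have h1 : Nf μ f h * Vol μ ℓ (r / 2) ≤ 4 * ∫ h, ind ℓ r h * Nf μ f h ∂μ := by
    have e1 : Nf μ f h * Vol μ ℓ (r / 2) = ∫ u, Nf μ f h * ind ℓ (r / 2) u ∂μ := by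
      rw [integral_const_mul]; rfl
    have i1 : Integrable (fun u => 2 * (ind ℓ (r / 2) u * Nf μ f (h * u))) μ :=
      ((b1.mul b2).integrable μ).const_mul 2
    have i2 : Integrable (fun u => 2 * (ind ℓ (r / 2) u * Nf μ f u)) μ :=
      ((b1.mul hN).integrable μ).const_mul 2
    have h2 : ∫ u, Nf μ f h * ind ℓ (r / 2) u ∂μ ≤
        ∫ u, (2 * (ind ℓ (r / 2) u * Nf μ f (h * u)) + 2 * (ind ℓ (r / 2) u * Nf μ f u)) ∂μ := by
      refine integral_mono ((b1.integrable μ).const_mul _) (i1.add i2) fun u => ?_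
      have := mul_le_mul_of_nonneg_right (Nf_tri (μ := μ) hf h u) (ind_nonneg (ℓ := ℓ) (r / 2) u)
      simp only
      linarith
    rw [integral_add i1 i2, integral_const_mul 2 (fun u => ind ℓ (r / 2) u * Nf μ f (h * u)),
      integral_const_mul 2 (fun u => ind ℓ (r / 2) u * Nf μ f u)] at h2
    have h3 : ∫ u, ind ℓ (r / 2) u * Nf μ f (h * u) ∂μ ≤ ∫ h, ind ℓ r h * Nf μ f h ∂μ := by
      rw [← integral_mul_left_eq_self (μ := μ) (fun v => ind ℓ r v * Nf μ f v) h]
      refine integral_mono ((b1.mul b2).integrable μ)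
        ((((ind_bm hL.cont r).mul hN).comp (measurable_const_mul h)).integrable μ) fun u => ?_
      refine mul_le_mul_of_nonneg_right ?_ (Nf_nonneg _ _)
      unfold ind
      by_cases h4 : ℓ u ≤ r / 2
      · rw [if_pos h4, if_pos ((hL.mul h u).trans (by linarith))]
      · rw [if_neg h4]; split_ifs <;> simp
    have h4 : ∫ u, ind ℓ (r / 2) u * Nf μ f u ∂μ ≤ ∫ h, ind ℓ r h * Nf μ f h ∂μ :=
      integral_mono ((b1.mul hN).integrable μ) (((ind_bm hL.cont r).mul hN).integrable μ)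
        fun u => mul_le_mul_of_nonneg_right (ind_mono (by linarith) u) (Nf_nonneg _ _)
    rw [e1]; linarith
  have hd := hL.dbl (r / 2) (by linarith)
  rw [show 2 * (r / 2) = r by ring] at hd
  have hI : 0 ≤ ∫ h, ind ℓ r h * Nf μ f h ∂μ :=
    integral_nonneg fun h => mul_nonneg (ind_nonneg _ _) (Nf_nonneg _ _)
  rw [En]
  calc Nf μ f h ≤ (4 * ∫ h, ind ℓ r h * Nf μ f h ∂μ) / Vol μ ℓ (r / 2) := by
        rwa [le_div_iff₀ hV2]
    _ ≤ (4 * ∫ h, ind ℓ r h * Nf μ f h ∂μ) / (Vol μ ℓ r / K) := by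
        refine div_le_div_of_nonneg_left (by positivity)
          (div_pos hV (by linarith [hL.K1])) ?_
        rw [div_le_iff₀ (by linarith [hL.K1])]
        linarith
    _ = _ := by
        field_simp

lemma Nf_large (hL : Len μ ℓ R K A) {f : G → ℝ} (hf : BM f) {r s : ℝ} (hr : 0 < r) (hrs : r ≤ s)
    {h : G} (hh : ℓ h ≤ s) : Nf μ f h ≤ (A * s / r) ^ 2 * (4 * K * En μ ℓ f r) := by
  obtain ⟨l, h1, h2, rfl⟩ := hL.chain r s h hr hrs hh
  have hE := En_nonneg hL f hr
  have hM : 0 ≤ 4 * K * En μ ℓ f r := by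
    have := hL.K1
    positivity
  have h3 := Nf_list (μ := μ) hf hM l fun g hg => Nf_small hL hf hr (h2 g hg)
  refine h3.trans (mul_le_mul_of_nonneg_right ?_ hM)
  exact pow_le_pow_left₀ (by positivity) h1 2

/-- Nash's inequality -/
lemma nash (hL : Len μ ℓ R K A) {f : G → ℝ} (hf : BM f) (hf0 : ∀ x, 0 ≤ f x)
    (hf1 : ∫ x, f x ∂μ = 1) {r s : ℝ} (hr : 0 < r) (hrs : r ≤ s) :
    ∫ x, f x ^ 2 ∂μ ≤ 2 * ((A * s / r) ^ 2 * (4 * K * En μ ℓ f r)) + 2 / Vol μ ℓ s := by
  have hs : 0 < s := hr.trans_le hrs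
  have hV := hL.pos s hs
  obtain ⟨q, hq⟩ : ∃ q : G → ℝ, q = fun h => ind ℓ s h / Vol μ ℓ s := ⟨_, rfl⟩
  have hqb : BM q := by
    rw [hq]
    simpa only [div_eq_mul_inv] using (ind_bm hL.cont s).mul (BM.const (Vol μ ℓ s)⁻¹)
  have hq0 : ∀ x, 0 ≤ q x := fun x => by rw [hq]; exact div_nonneg (ind_nonneg _ _) hV.le
  have hq1 : ∫ x, q x ∂μ = 1 := by
    rw [hq, integral_div]
    exact div_self hV.ne'
  have hcb := conv_bm (μ := μ) hqb hf
  have hN := Nf_bm (μ := μ) hf
  have hE := En_nonneg hL f hr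
  have hK0 : 0 ≤ 4 * K * En μ ℓ f r := by
    have := hL.K1
    positivity
  -- distance to the mean
  have d1 : ∫ x, (f x - conv μ q f x) ^ 2 ∂μ ≤ (A * s / r) ^ 2 * (4 * K * En μ ℓ f r) := by
    have hb2 : BM fun p : G × G => q p.2 * (f (p.2⁻¹ * p.1) - f p.1) ^ 2 := by
      have h1 : BM fun p : G × G => f (p.2⁻¹ * p.1) - f p.1 :=
        BM.sub' (hf.comp (measurable_snd.inv.mul measurable_fst)) (hf.comp measurable_fst)
      have h2 : BM fun p : G × G => (f (p.2⁻¹ * p.1) - f p.1) ^ 2 := by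
        simpa only [pow_two] using h1.mul h1
      exact (hqb.comp measurable_snd).mul h2
    have h1 : ∀ x, (f x - conv μ q f x) ^ 2 ≤ ∫ h, q h * (f (h⁻¹ * x) - f x) ^ 2 ∂μ := by
      intro x
      have hfx : BM fun y => f (y⁻¹ * x) := hf.comp (measurable_inv.mul_const x)
      have hfx' : BM fun y => f (y⁻¹ * x) - f x := BM.sub' hfx (BM.const _)
      have h2 := sq_mean_le μ hqb hq0 hq1 hfx'
      have e : ∫ y, q y * (f (y⁻¹ * x) - f x) ∂μ = conv μ q f x - f x := by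
        have i1 := (hqb.mul hfx).integrable μ
        have i2 : Integrable (fun y => q y * f x) μ := (hqb.integrable μ).mul_const _
        have e1 : ∫ y, q y * (f (y⁻¹ * x) - f x) ∂μ =
            ∫ y, (q y * f (y⁻¹ * x) - q y * f x) ∂μ := by
          refine integral_congr_ae (Filter.Eventually.of_forall fun y => ?_)
          simp only; ring
        rw [e1, integral_sub i1 i2, integral_mul_const, hq1, one_mul]
        rfl
      rw [e] at h2
      have : (f x - conv μ q f x) ^ 2 = (conv μ q f x - f x) ^ 2 := by ring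
      rw [this]; exact h2
    have hfc : BM fun x => f x - conv μ q f x := BM.sub' hf hcb
    have hfc2 : BM fun x => (f x - conv μ q f x) ^ 2 := by
      simpa only [pow_two] using hfc.mul hfc
    calc ∫ x, (f x - conv μ q f x) ^ 2 ∂μ ≤
        ∫ x, ∫ h, q h * (f (h⁻¹ * x) - f x) ^ 2 ∂μ ∂μ :=
          integral_mono (hfc2.integrable μ) ((BM.integral' μ hb2).integrable μ) h1
      _ = ∫ h, ∫ x, q h * (f (h⁻¹ * x) - f x) ^ 2 ∂μ ∂μ :=
          integral_integral_swap (f := fun x h => q h * (f (h⁻¹ * x) - f x) ^ 2)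
            (hb2.integrable (μ.prod μ))
      _ = ∫ h, q h * Nf μ f h ∂μ := by
          refine integral_congr_ae (Filter.Eventually.of_forall fun h => ?_)
          simp only
          rw [integral_const_mul]; rfl
      _ ≤ ∫ h, ((A * s / r) ^ 2 * (4 * K * En μ ℓ f r)) * q h ∂μ := by
          refine integral_mono ((hqb.mul hN).integrable μ) ((hqb.integrable μ).const_mul _)
            fun h => ?_
          simp only
          by_cases h4 : ℓ h ≤ s
          · rw [mul_comm]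
            exact mul_le_mul_of_nonneg_right (Nf_large hL hf hr hrs h4) (hq0 h)
          · have : q h = 0 := by rw [hq]; simp [ind, h4]
            rw [this]; simp
      _ = _ := by rw [integral_const_mul, hq1, mul_one]
  -- the mean
  have hcle : ∀ x, conv μ q f x ≤ (Vol μ ℓ s)⁻¹ := by
    intro x
    have hfx : BM fun y => f (y⁻¹ * x) := hf.comp (measurable_inv.mul_const x)
    calc conv μ q f x = ∫ y, q y * f (y⁻¹ * x) ∂μ := rfl
      _ ≤ ∫ y, (Vol μ ℓ s)⁻¹ * f (y⁻¹ * x) ∂μ := by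
          refine integral_mono ((hqb.mul hfx).integrable μ) ((hfx.integrable μ).const_mul _)
            fun y => ?_
          refine mul_le_mul_of_nonneg_right ?_ (hf0 _)
          rw [hq]
          simp only
          rw [div_eq_mul_inv]
          exact mul_le_of_le_one_left (inv_nonneg.2 hV.le) (ind_le_one _ _)
      _ = (Vol μ ℓ s)⁻¹ * ∫ y, f (y⁻¹ * x) ∂μ := integral_const_mul _ _
      _ = _ := by
          have : ∫ y, f (y⁻¹ * x) ∂μ = ∫ y, f y ∂μ := by
            rw [integral_inv_eq_self (μ := μ) (fun y => f (y * x)),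
              integral_mul_right_eq_self (μ := μ) f x]
          rw [this, hf1, mul_one]
  have hc0 := conv_nonneg (μ := μ) hq0 hf0
  have d2 : ∫ x, conv μ q f x ^ 2 ∂μ ≤ (Vol μ ℓ s)⁻¹ := by
    have hc2 : BM fun x => conv μ q f x ^ 2 := by
      simpa only [pow_two] using hcb.mul hcb
    calc ∫ x, conv μ q f x ^ 2 ∂μ ≤ ∫ x, (Vol μ ℓ s)⁻¹ * conv μ q f x ∂μ := by
          refine integral_mono (hc2.integrable μ) ((hcb.integrable μ).const_mul _) fun x => ?_
          simp only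
          rw [pow_two]
          exact mul_le_mul_of_nonneg_right (hcle x) (hc0 x)
      _ = _ := by rw [integral_const_mul, integral_conv hqb hf, hq1, hf1, one_mul, mul_one]
  have hfc : BM fun x => f x - conv μ q f x := BM.sub' hf hcb
  have hfc2 : BM fun x => (f x - conv μ q f x) ^ 2 := by
    simpa only [pow_two] using hfc.mul hfc
  have hc2 : BM fun x => conv μ q f x ^ 2 := by
    simpa only [pow_two] using hcb.mul hcb
  have hf2 : BM fun x => f x ^ 2 := by simpa only [pow_two] using hf.mul hf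
  have i1 : Integrable (fun x => 2 * (f x - conv μ q f x) ^ 2) μ := (hfc2.integrable μ).const_mul 2
  have i2 : Integrable (fun x => 2 * conv μ q f x ^ 2) μ := (hc2.integrable μ).const_mul 2
  have h5 : ∫ x, f x ^ 2 ∂μ ≤ ∫ x, (2 * (f x - conv μ q f x) ^ 2 + 2 * conv μ q f x ^ 2) ∂μ := by
    refine integral_mono (hf2.integrable μ) (i1.add i2) fun x => ?_
    simp only
    nlinarith [sq_nonneg (f x - 2 * conv μ q f x)]
  rw [integral_add i1 i2, integral_const_mul, integral_const_mul] at h5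
  have h6 : 2 / Vol μ ℓ s = 2 * (Vol μ ℓ s)⁻¹ := div_eq_mul_inv _ _
  rw [h6]
  linarith

/-- the total energy -/
lemma Nf_total {f : G → ℝ} (hf : BM f) (hf1 : ∫ x, f x ∂μ = 1) :
    ∫ h, Nf μ f h ∂μ = 2 * (∫ x, f x ^ 2 ∂μ - 1) := by
  have hf2 : BM fun x => f x ^ 2 := by simpa only [pow_two] using hf.mul hf
  have h1 : ∀ h, Nf μ f h = 2 * ∫ x, f x ^ 2 ∂μ - 2 * ∫ x, f x * f (h⁻¹ * x) ∂μ := by
    intro h
    have hfh : BM fun x => f (h⁻¹ * x) := hf.comp (measurable_const_mul _)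
    have hfh2 : BM fun x => f (h⁻¹ * x) ^ 2 := hf2.comp (measurable_const_mul _)
    have i1 := hf2.integrable μ
    have i2 := hfh2.integrable μ
    have i3 : Integrable (fun x => 2 * (f x * f (h⁻¹ * x))) μ :=
      ((hf.mul hfh).integrable μ).const_mul 2
    have i4 : Integrable (fun x => f (h⁻¹ * x) ^ 2 + f x ^ 2) μ := i2.add i1
    have e1 : ∫ x, f (h⁻¹ * x) ^ 2 ∂μ = ∫ x, f x ^ 2 ∂μ :=
      integral_mul_left_eq_self (μ := μ) (fun x => f x ^ 2) h⁻¹
    have e2 : Nf μ f h = ∫ x, (f (h⁻¹ * x) ^ 2 + f x ^ 2 - 2 * (f x * f (h⁻¹ * x))) ∂μ := by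
      refine integral_congr_ae (Filter.Eventually.of_forall fun x => ?_)
      simp only; ring
    rw [e2, integral_sub i4 i3, integral_add i2 i1, e1, integral_const_mul]
    ring
  simp only [h1]
  have hb : BM fun p : G × G => f p.2 * f (p.1⁻¹ * p.2) :=
    (hf.comp measurable_snd).mul (hf.comp (measurable_fst.inv.mul measurable_snd))
  have i5 := (BM.integral' μ hb).integrable μ
  rw [integral_sub (integrable_const _) (i5.const_mul 2),
    integral_const_mul 2 (fun h => ∫ x, f x * f (h⁻¹ * x) ∂μ)]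
  have e3 : ∫ h, ∫ x, f x * f (h⁻¹ * x) ∂μ ∂μ = 1 := by
    rw [integral_integral_swap (f := fun h x => f x * f (h⁻¹ * x)) (hb.integrable (μ.prod μ))]
    have e4 : ∀ x, ∫ h, f x * f (h⁻¹ * x) ∂μ = f x := by
      intro x
      rw [integral_const_mul, integral_inv_eq_self (μ := μ) (fun y => f (y * x)),
        integral_mul_right_eq_self (μ := μ) f x, hf1, mul_one]
    simp only [e4]
    exact hf1
  rw [e3]
  simp
  ring

/-- Poincaré's inequality -/
lemma poinc (hL : Len μ ℓ R K A) {f : G → ℝ} (hf : BM f)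
    (hf1 : ∫ x, f x ∂μ = 1) {r : ℝ} (hr : 0 < r) (hrR : r ≤ R) :
    2 * (∫ x, f x ^ 2 ∂μ - 1) ≤ (A * R / r) ^ 2 * (4 * K * En μ ℓ f r) := by
  rw [← Nf_total hf hf1]
  have := integral_mono ((Nf_bm (μ := μ) hf).integrable μ) (integrable_const
    ((A * R / r) ^ 2 * (4 * K * En μ ℓ f r))) fun h => Nf_large hL hf hr hrR (hL.bdd h)
  simpa using this

/-- lower bound of the dissipation -/
lemma dissip (hL : Len μ ℓ R K A) {q f : G → ℝ} (hq : BM q) (hq0 : ∀ x, 0 ≤ q x)
    (hq1 : ∫ x, q x ∂μ = 1) (hf : BM f) {r c : ℝ} (hr : 0 < r) (hc : 0 < c)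
    (hqc : ∀ g, ℓ g ≤ 2 * r → c / Vol μ ℓ r ≤ q g) :
    1 / 2 * (c ^ 2 * En μ ℓ f r) ≤ ∫ x, f x ^ 2 ∂μ - ∫ x, conv μ q f x ^ 2 ∂μ := by
  have hV := hL.pos r hr
  rw [← energy hq hq0 hq1 hf]
  refine mul_le_mul_of_nonneg_left ?_ (by norm_num)
  have hN := Nf_bm (μ := μ) hf
  have hi := ind_bm (G := G) hL.cont r
  have h1 : ∀ y', ind ℓ r y' * (c / Vol μ ℓ r) * (c * En μ ℓ f r) ≤
      q y' * ∫ h, q (y' * h) * Nf μ f h ∂μ := by
    intro y'
    by_cases hy : ℓ y' ≤ r
    · have h2 : ind ℓ r y' = 1 := by simp [ind, hy]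
      rw [h2, one_mul]
      refine mul_le_mul (hqc y' (by linarith)) ?_ (mul_nonneg hc.le (En_nonneg hL f hr)) (hq0 _)
      have e : c * En μ ℓ f r = ∫ h, (c / Vol μ ℓ r) * (ind ℓ r h * Nf μ f h) ∂μ := by
        rw [integral_const_mul, En]; ring
      rw [e]
      have hqy : BM fun h => q (y' * h) := hq.comp (measurable_const_mul _)
      refine integral_mono (((hi.mul hN).integrable μ).const_mul _) ((hqy.mul hN).integrable μ)
        fun h => ?_
      simp only
      rw [← mul_assoc]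
      refine mul_le_mul_of_nonneg_right ?_ (Nf_nonneg _ _)
      by_cases hh : ℓ h ≤ r
      · have h3 : ind ℓ r h = 1 := by simp [ind, hh]
        rw [h3, mul_one]
        exact hqc _ ((hL.mul _ _).trans (by linarith))
      · have h3 : ind ℓ r h = 0 := by simp [ind, hh]
        rw [h3, mul_zero]; exact hq0 _
    · have h2 : ind ℓ r y' = 0 := by simp [ind, hy]
      rw [h2, zero_mul, zero_mul]
      exact mul_nonneg (hq0 _) (integral_nonneg fun h => mul_nonneg (hq0 _) (Nf_nonneg _ _))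
  have e : c ^ 2 * En μ ℓ f r = ∫ y', ind ℓ r y' * (c / Vol μ ℓ r) * (c * En μ ℓ f r) ∂μ := by
    rw [integral_mul_const, integral_mul_const]
    have : ∫ y', ind ℓ r y' ∂μ = Vol μ ℓ r := rfl
    rw [this]
    field_simp
  rw [e]
  have hb : BM fun y' => q y' * ∫ h, q (y' * h) * Nf μ f h ∂μ := by
    refine hq.mul (BM.integral' μ (f := fun p : G × G => q (p.1 * p.2) * Nf μ f p.2) ?_)
    exact (hq.comp (measurable_fst.mul measurable_snd)).mul (hN.comp measurable_snd)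
  exact integral_mono (((hi.integrable μ).mul_const _).mul_const _) (hb.integrable μ) h1

end Pool.Agent.Q295.YM
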