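import Mathlib
import Pool.Agent.Q295.YM.Walk2

/-!
# Random walks on compact groups: mixing in the diffusive time, conclusion
-/

namespace Pool.Agent.Q295.YM

open MeasureTheory Function
open Pool.Agent.H556R4.Dob

set_option linter.unusedSectionVars false
set_option linter.unusedVariables false

section real

lemma step_iter {x : ℕ → ℝ} (hx : Antitone x) {T C M : ℝ} (hT : 0 < T) (hC : 0 < C) (hM : 1 ≤ M)
    (h : ∀ j, x j - T / 2 ≤ C * (x j - x (j + 1))) {j0 : ℕ} (h0 : x j0 ≤ M * T) {n : ℕ}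
    (hn : 2 * C * M ≤ n) : x (j0 + n) ≤ T := by
  have key : ∀ n : ℕ, x (j0 + n) ≤ T ∨ x (j0 + n) ≤ Real.exp (-(n / (2 * C))) * (M * T) := by
    intro n
    induction n with
    | zero => right; simpa using h0
    | succ n ih =>
      rcases le_or_gt (x (j0 + n)) T with h1 | h1
      · left; exact (hx (by omega)).trans h1
      · right
        rcases ih with h2 | h2
        · exact absurd h2 (not_le.2 h1)
        have h3 := h (j0 + n)
        have h4 : x (j0 + n) / 2 ≤ C * (x (j0 + n) - x (j0 + n + 1)) := by linarith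
        have h5 : x (j0 + n + 1) ≤ x (j0 + n) * (1 - 1 / (2 * C)) := by
          have h6 : x (j0 + n) / (2 * C) ≤ x (j0 + n) - x (j0 + n + 1) := by
            rw [div_le_iff₀ (by positivity)]
            linarith
          have : x (j0 + n) * (1 - 1 / (2 * C)) = x (j0 + n) - x (j0 + n) / (2 * C) := by ring
          linarith
        have h7 : 1 - 1 / (2 * C) ≤ Real.exp (-(1 / (2 * C))) := by
          have := Real.add_one_le_exp (-(1 / (2 * C)))
          linarith
        have h8 : 0 < x (j0 + n) := hT.trans h1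
        calc x (j0 + (n + 1)) = x (j0 + n + 1) := rfl
          _ ≤ x (j0 + n) * Real.exp (-(1 / (2 * C))) :=
              h5.trans (mul_le_mul_of_nonneg_left h7 h8.le)
          _ ≤ (Real.exp (-(n / (2 * C))) * (M * T)) * Real.exp (-(1 / (2 * C))) :=
              mul_le_mul_of_nonneg_right h2 (Real.exp_pos _).le
          _ = Real.exp (-(((n + 1 : ℕ) : ℝ) / (2 * C))) * (M * T) := by
              rw [mul_right_comm, ← Real.exp_add]
              congr 2
              push_cast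
              ring
  rcases key n with h1 | h1
  · exact h1
  · refine h1.trans ?_
    have h2 : Real.exp (-(n / (2 * C))) ≤ Real.exp (-M) := by
      rw [Real.exp_le_exp, neg_le_neg_iff, le_div_iff₀ (by positivity)]
      linarith
    have h3 : Real.exp (-M) * M ≤ 1 := by
      rw [Real.exp_neg, inv_mul_le_iff₀ (Real.exp_pos _), mul_one]
      have := Real.add_one_le_exp M
      linarith
    calc Real.exp (-(n / (2 * C))) * (M * T) ≤ Real.exp (-M) * (M * T) :=
          mul_le_mul_of_nonneg_right h2 (by positivity)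
      _ = (Real.exp (-M) * M) * T := by ring
      _ ≤ 1 * T := mul_le_mul_of_nonneg_right h3 hT.le
      _ = T := one_mul T

lemma scale_iter {x : ℕ → ℝ} (hx : Antitone x) {V : ℕ → ℝ} {K C M : ℝ} (hV : ∀ i, 0 < V i)
    (hK : ∀ i, V (i + 1) ≤ K * V i) (hC : 0 < C) (hM : 1 ≤ M) (hKM : K ≤ M)
    (h : ∀ i j, x j - 2 / V i ≤ C * 4 ^ i * (x j - x (j + 1))) (h0 : x 0 ≤ 4 * M / V 0) :
    ∀ i, ∃ j : ℕ, (j : ℝ) ≤ 2 * (2 * C * M + 1) * 4 ^ i ∧ x j ≤ 4 / V i := by
  have step : ∀ i j0, x j0 ≤ M * (4 / V i) →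
      ∃ n : ℕ, (n : ℝ) ≤ (2 * C * M + 1) * 4 ^ i ∧ x (j0 + n) ≤ 4 / V i := by
    intro i j0 hj
    have hVi := hV i
    refine ⟨⌈2 * (C * 4 ^ i) * M⌉₊, ?_, ?_⟩
    · have h1 : (⌈2 * (C * 4 ^ i) * M⌉₊ : ℝ) < 2 * (C * 4 ^ i) * M + 1 :=
        Nat.ceil_lt_add_one (by positivity)
      have h2 : (1 : ℝ) ≤ 4 ^ i := one_le_pow₀ (by norm_num)
      nlinarith
    · refine step_iter hx (T := 4 / V i) (C := C * 4 ^ i) (M := M) (by positivity) (by positivity)
        hM (fun j => ?_) hj (Nat.le_ceil _)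
      have := h i j
      have e : 4 / V i / 2 = 2 / V i := by ring
      rw [e]; exact this
  intro i
  induction i with
  | zero =>
    obtain ⟨n, h1, h2⟩ := step 0 0 (by
      refine h0.trans (le_of_eq ?_)
      ring)
    refine ⟨n, ?_, by simpa using h2⟩
    have : 0 ≤ 2 * C * M := by positivity
    simp only [pow_zero, mul_one] at h1 ⊢
    linarith
  | succ i ih =>
    obtain ⟨j, h1, h2⟩ := ih
    have hVi := hV i
    have hVi1 := hV (i + 1)
    obtain ⟨n, h3, h4⟩ := step (i + 1) j (by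
      refine h2.trans ?_
      rw [← mul_div_assoc, div_le_div_iff₀ hVi hVi1]
      have := hK i
      have h5 : K * V i ≤ M * V i := mul_le_mul_of_nonneg_right hKM hVi.le
      nlinarith)
    refine ⟨j + n, ?_, h4⟩
    push_cast
    have h6 : (4 : ℝ) ^ (i + 1) = 4 * 4 ^ i := by ring
    rw [h6] at h3 ⊢
    have h7 : (0 : ℝ) < 4 ^ i := by positivity
    have h8 : 0 < (2 * C * M + 1) * 4 ^ i := by positivity
    nlinarith

lemma gap_iter {y : ℕ → ℝ} {C : ℝ} (hC : 0 < C) (hy : ∀ j, 0 ≤ y j)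
    (h : ∀ j, 2 * y j ≤ C * (y j - y (j + 1))) (j0 n : ℕ) :
    y (j0 + n) ≤ Real.exp (-(2 * n / C)) * y j0 := by
  induction n with
  | zero => simp
  | succ n ih =>
    have h3 := h (j0 + n)
    have h5 : y (j0 + n + 1) ≤ y (j0 + n) * (1 - 2 / C) := by
      have h6 : 2 * y (j0 + n) / C ≤ y (j0 + n) - y (j0 + n + 1) := by
        rw [div_le_iff₀ hC]
        linarith
      have : y (j0 + n) * (1 - 2 / C) = y (j0 + n) - 2 * y (j0 + n) / C := by ring
      linarith
    have h7 : 1 - 2 / C ≤ Real.exp (-(2 / C)) := by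
      have := Real.add_one_le_exp (-(2 / C))
      linarith
    calc y (j0 + (n + 1)) = y (j0 + n + 1) := rfl
      _ ≤ y (j0 + n) * Real.exp (-(2 / C)) := h5.trans (mul_le_mul_of_nonneg_left h7 (hy _))
      _ ≤ (Real.exp (-(2 * n / C)) * y j0) * Real.exp (-(2 / C)) :=
          mul_le_mul_of_nonneg_right ih (Real.exp_pos _).le
      _ = Real.exp (-(2 * ((n + 1 : ℕ) : ℝ) / C)) * y j0 := by
          rw [mul_right_comm, ← Real.exp_add]
          congr 2
          push_cast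
          ring

end real

variable {G : Type} [Group G] [TopologicalSpace G] [IsTopologicalGroup G] [CompactSpace G]
  [SecondCountableTopology G] [MeasurableSpace G] [BorelSpace G]
variable {μ : Measure G} [IsProbabilityMeasure μ] [μ.IsMulLeftInvariant] [μ.IsMulRightInvariant]
  [μ.IsInvInvariant]
variable {ℓ : G → ℝ} {R K A : ℝ}

/-- convolution powers -/
noncomputable def cp (μ : Measure G) (q : G → ℝ) : ℕ → G → ℝ
  | 0 => q
  | n + 1 => conv μ q (cp μ q n)

lemma cp_bm {q : G → ℝ} (hq : BM q) : ∀ n, BM (cp μ q n)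
  | 0 => hq
  | n + 1 => conv_bm hq (cp_bm hq n)

lemma cp_nonneg {q : G → ℝ} (hq : ∀ x, 0 ≤ q x) : ∀ n x, 0 ≤ cp μ q n x
  | 0, x => hq x
  | n + 1, x => conv_nonneg hq (cp_nonneg hq n) x

lemma cp_int {q : G → ℝ} (hq : BM q) (hq1 : ∫ x, q x ∂μ = 1) : ∀ n, ∫ x, cp μ q n x ∂μ = 1
  | 0 => hq1
  | n + 1 => by
    show ∫ x, conv μ q (cp μ q n) x ∂μ = 1
    rw [integral_conv hq (cp_bm hq n), hq1, cp_int hq hq1 n, one_mul]

lemma cp_add {q : G → ℝ} (hq : BM q) (i j : ℕ) (x : G) :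
    conv μ (cp μ q i) (cp μ q j) x = cp μ q (i + j + 1) x := by
  induction i generalizing x with
  | zero => rw [Nat.zero_add]; rfl
  | succ i ih =>
    show conv μ (conv μ q (cp μ q i)) (cp μ q j) x = _
    rw [conv_assoc hq (cp_bm hq i) (cp_bm hq j)]
    have e : i + 1 + j + 1 = (i + j + 1) + 1 := by omega
    rw [e]
    show conv μ q (conv μ (cp μ q i) (cp μ q j)) x = conv μ q (cp μ q (i + j + 1)) x
    have : conv μ (cp μ q i) (cp μ q j) = cp μ q (i + j + 1) := funext ih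
    rw [this]

/-- a bound of the supremum by the `L²` norm -/
lemma conv_self_near {p : G → ℝ} (hp : BM p) (hp1 : ∫ x, p x ∂μ = 1) (x : G) :
    |conv μ p p x - 1| ≤ ∫ y, p y ^ 2 ∂μ - 1 := by
  have hp2 : BM fun y => p y ^ 2 := by simpa only [pow_two] using hp.mul hp
  have hpx : BM fun y => p (y⁻¹ * x) := hp.comp (measurable_inv.mul_const x)
  have hpx2 : BM fun y => p (y⁻¹ * x) ^ 2 := hp2.comp (measurable_inv.mul_const x)
  have e1 : ∫ y, p (y⁻¹ * x) ∂μ = 1 := by
    rw [integral_inv_eq_self (μ := μ) (fun y => p (y * x)),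
      integral_mul_right_eq_self (μ := μ) p x, hp1]
  have e2 : ∫ y, p (y⁻¹ * x) ^ 2 ∂μ = ∫ y, p y ^ 2 ∂μ := by
    rw [integral_inv_eq_self (μ := μ) (fun y => p (y * x) ^ 2),
      integral_mul_right_eq_self (μ := μ) (fun y => p y ^ 2) x]
  have i1 := hp2.integrable μ
  have i2 := hpx2.integrable μ
  have i3 := (hp.mul hpx).integrable μ
  have i4 := hp.integrable μ
  have i5 := hpx.integrable μ
  have j1 : Integrable (fun y => 1 / 2 * (p y ^ 2 + p (y⁻¹ * x) ^ 2)) μ := (i1.add i2).const_mul _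
  have up : conv μ p p x ≤ ∫ y, p y ^ 2 ∂μ := by
    calc conv μ p p x = ∫ y, p y * p (y⁻¹ * x) ∂μ := rfl
      _ ≤ ∫ y, 1 / 2 * (p y ^ 2 + p (y⁻¹ * x) ^ 2) ∂μ := by
          refine integral_mono i3 j1 fun y => ?_
          simp only
          nlinarith [sq_nonneg (p y - p (y⁻¹ * x))]
      _ = _ := by rw [integral_const_mul, integral_add i1 i2, e2]; ring
  have lo : 2 - ∫ y, p y ^ 2 ∂μ ≤ conv μ p p x := by
    have j2 : Integrable (fun y => 2 * (p y + p (y⁻¹ * x))) μ := (i4.add i5).const_mul _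
    have j3 : Integrable (fun y => 2 * (p y + p (y⁻¹ * x)) - 2) μ := j2.sub (integrable_const _)
    have j4 : Integrable (fun y => 2 * (p y + p (y⁻¹ * x)) - 2 -
      1 / 2 * (p y ^ 2 + p (y⁻¹ * x) ^ 2)) μ := j3.sub j1
    calc 2 - ∫ y, p y ^ 2 ∂μ = ∫ y, (2 * (p y + p (y⁻¹ * x)) - 2 -
          1 / 2 * (p y ^ 2 + p (y⁻¹ * x) ^ 2)) ∂μ := by
          rw [integral_sub j3 j1, integral_sub j2 (integrable_const _), integral_const_mul,
            integral_const_mul, integral_add i1 i2, integral_add i4 i5, e1, e2, hp1]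
          simp
          ring
      _ ≤ ∫ y, p y * p (y⁻¹ * x) ∂μ := by
          refine integral_mono j4 i3 fun y => ?_
          simp only
          nlinarith [sq_nonneg (p y + p (y⁻¹ * x) - 2)]
      _ = _ := rfl
  rw [abs_le]
  constructor <;> linarith

lemma Zf_cp {q : G → ℝ} (hq : BM q) {g : G → ℝ} (hg : BM g) : ∀ (n : ℕ) (a : G),
    Zf μ g (n + 1) (fun _ => fun a b => q (a⁻¹ * b)) a = ∫ b, cp μ q n (a⁻¹ * b) * g b ∂μ
  | 0, a => rfl
  | n + 1, a => by
    show ∫ y, q (a⁻¹ * y) * Zf μ g (n + 1) (fun _ => fun a b => q (a⁻¹ * b)) y ∂μ = _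
    have e1 : ∀ y, q (a⁻¹ * y) * Zf μ g (n + 1) (fun _ => fun a b => q (a⁻¹ * b)) y =
        ∫ b, q (a⁻¹ * y) * (cp μ q n (y⁻¹ * b) * g b) ∂μ := by
      intro y
      rw [Zf_cp hq hg n y, integral_const_mul]
    simp only [e1]
    have hc := cp_bm (μ := μ) hq n
    have hb : BM fun p : G × G => q (a⁻¹ * p.1) * (cp μ q n (p.1⁻¹ * p.2) * g p.2) :=
      (hq.comp (measurable_fst.const_mul a⁻¹)).mul
        ((hc.comp (measurable_fst.inv.mul measurable_snd)).mul (hg.comp measurable_snd))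
    rw [integral_integral_swap (f := fun y b => q (a⁻¹ * y) * (cp μ q n (y⁻¹ * b) * g b))
      (hb.integrable (μ.prod μ))]
    refine integral_congr_ae (Filter.Eventually.of_forall fun b => ?_)
    simp only
    show _ = (∫ y, q y * cp μ q n (y⁻¹ * (a⁻¹ * b)) ∂μ) * g b
    rw [← integral_mul_const, ← integral_mul_left_eq_self (μ := μ)
      (fun y => q (a⁻¹ * y) * (cp μ q n (y⁻¹ * b) * g b)) a]
    refine integral_congr_ae (Filter.Eventually.of_forall fun y => ?_)
    simp only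
    rw [inv_mul_cancel_left, mul_inv_rev, mul_assoc, mul_assoc]

/-- volumes of dyadic balls -/
lemma Vol_pow (hL : Len μ ℓ R K A) {r : ℝ} (hr : 0 < r) (i : ℕ) :
    Vol μ ℓ (2 ^ i * r) ≤ K ^ i * Vol μ ℓ r := by
  induction i with
  | zero => simp
  | succ i ih =>
    have h1 := hL.dbl (2 ^ i * r) (by positivity)
    rw [← mul_assoc, ← pow_succ'] at h1
    refine h1.trans ?_
    rw [pow_succ', mul_assoc]
    exact mul_le_mul_of_nonneg_left ih (by linarith [hL.K1])

lemma Vol_mono (hL : Len μ ℓ R K A) {r s : ℝ} (h : r ≤ s) : Vol μ ℓ r ≤ Vol μ ℓ s :=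
  integral_mono ((ind_bm hL.cont r).integrable μ) ((ind_bm hL.cont s).integrable μ)
    fun g => ind_mono h g

lemma Vol_full (hL : Len μ ℓ R K A) {r : ℝ} (h : R ≤ r) : Vol μ ℓ r = 1 := by
  have : ∀ g, ind ℓ r g = 1 := fun g => by simp [ind, (hL.bdd g).trans h]
  simp [Vol, this]

lemma Vol_le_one (hL : Len μ ℓ R K A) (r : ℝ) : Vol μ ℓ r ≤ 1 := by
  rcases le_total R r with h | h
  · exact (Vol_full hL h).le
  · exact (Vol_mono hL h).trans (Vol_full hL le_rfl).le

lemma summ (hK : 1 ≤ K) : Summable fun j : ℕ => K ^ (j + 1) * Real.exp (-(4 ^ j / 4)) := by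
  have hK0 : 0 < K := by linarith
  refine summable_of_ratio_test_tendsto_lt_one (l := 0) one_pos
    (Filter.Eventually.of_forall fun n => (by positivity)) ?_
  have e : ∀ n : ℕ, ‖K ^ (n + 1 + 1) * Real.exp (-(4 ^ (n + 1) / 4))‖ /
      ‖K ^ (n + 1) * Real.exp (-(4 ^ n / 4))‖ = K * Real.exp (-((3 / 4) * 4 ^ n)) := by
    intro n
    rw [Real.norm_of_nonneg (by positivity), Real.norm_of_nonneg (by positivity),
      div_eq_iff (by positivity)]
    have : K * Real.exp (-(3 / 4 * 4 ^ n)) * (K ^ (n + 1) * Real.exp (-(4 ^ n / 4))) =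
      K ^ (n + 1 + 1) * (Real.exp (-(3 / 4 * 4 ^ n)) * Real.exp (-(4 ^ n / 4))) := by ring
    rw [this, ← Real.exp_add]
    congr 2
    ring
  simp only [e]
  have h1 : Filter.Tendsto (fun n : ℕ => (3 / 4 : ℝ) * 4 ^ n) Filter.atTop Filter.atTop :=
    (tendsto_pow_atTop_atTop_of_one_lt (by norm_num)).const_mul_atTop (by norm_num)
  have h2 := Real.tendsto_exp_neg_atTop_nhds_zero.comp h1
  simpa using h2.const_mul K

/-- the heat kernel like density -/
noncomputable def qf (μ : Measure G) (ℓ : G → ℝ) (β : ℝ) (g : G) : ℝ :=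
  Real.exp (-(β / 2 * ℓ g ^ 2)) / ∫ h, Real.exp (-(β / 2 * ℓ h ^ 2)) ∂μ

lemma qe_pb (hL : Len μ ℓ R K A) (β : ℝ) (hβ : 0 ≤ β) :
    PB fun g => Real.exp (-(β / 2 * ℓ g ^ 2)) := by
  refine PB.exp ⟨((measurable_const.mul (hL.cont.measurable.pow_const 2)).neg), β / 2 * R ^ 2,
    fun g => ?_⟩
  rw [abs_neg, abs_of_nonneg (by positivity)]
  exact mul_le_mul_of_nonneg_left (pow_le_pow_left₀ (hL.nonneg g) (hL.bdd g) 2) (by positivity)

/-- the partition function is comparable with the volume of a ball -/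
lemma part_le (hL : Len μ ℓ R K A) : ∃ C, 1 ≤ C ∧ ∀ β, 0 ≤ β →
    ∫ h, Real.exp (-(β / 2 * ℓ h ^ 2)) ∂μ ≤ C * Vol μ ℓ (Real.sqrt (1 + β))⁻¹ := by
  obtain ⟨Sm, hSm⟩ : ∃ Sm, Sm = ∑' j : ℕ, K ^ (j + 1) * Real.exp (-(4 ^ j / 4)) := ⟨_, rfl⟩
  have hK := hL.K1
  have hK0 : 0 < K := by linarith
  have hR := hL.R1
  have hSm0 : 0 ≤ Sm := by rw [hSm]; exact tsum_nonneg fun j => by positivity
  obtain ⟨n, hn⟩ := pow_unbounded_of_one_lt (2 * R) (by norm_num : (1 : ℝ) < 2)
  refine ⟨1 + Sm + K ^ n, by have := pow_pos hK0 n; linarith, fun β hβ => ?_⟩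
  obtain ⟨r, hr⟩ : ∃ r, r = (Real.sqrt (1 + β))⁻¹ := ⟨_, rfl⟩
  have hs : 0 < Real.sqrt (1 + β) := Real.sqrt_pos.2 (by linarith)
  have hr0 : 0 < r := by rw [hr]; positivity
  have hr2 : r ^ 2 * (1 + β) = 1 := by
    rw [hr, inv_pow, Real.sq_sqrt (by linarith)]
    field_simp
  rw [← hr]
  have hV := hL.pos r hr0
  have hKn := pow_pos hK0 n
  have hq := qe_pb hL β hβ
  rcases le_or_gt 1 β with h1 | h1
  · -- large β
    obtain ⟨J, hJ⟩ := pow_unbounded_of_one_lt (R / r) (by norm_num : (1 : ℝ) < 2)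
    have hJ' : R ≤ 2 ^ J * r := by
      have := hJ.le
      rwa [div_le_iff₀ hr0] at this
    have hβr : 1 / 2 ≤ β * r ^ 2 := by
      have h2 : r ^ 2 * (1 + β) ≤ r ^ 2 * (2 * β) :=
        mul_le_mul_of_nonneg_left (by linarith) (by positivity)
      nlinarith
    have hpt : ∀ g, Real.exp (-(β / 2 * ℓ g ^ 2)) ≤ ind ℓ r g +
        ∑ j ∈ Finset.range J, Real.exp (-(4 ^ j / 4)) * ind ℓ (2 ^ (j + 1) * r) g := by
      intro g
      have hsum0 : 0 ≤ ∑ j ∈ Finset.range J,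
          Real.exp (-(4 ^ j / 4)) * ind ℓ (2 ^ (j + 1) * r) g :=
        Finset.sum_nonneg fun j _ => mul_nonneg (Real.exp_pos _).le (ind_nonneg _ _)
      by_cases h2 : ℓ g ≤ r
      · have h3 : ind ℓ r g = 1 := by simp [ind, h2]
        have h4 : Real.exp (-(β / 2 * ℓ g ^ 2)) ≤ 1 := by
          rw [Real.exp_le_one_iff]
          have : 0 ≤ β / 2 * ℓ g ^ 2 := by positivity
          linarith
        linarith
      · -- first scale
        have hex : ∃ j, ℓ g ≤ 2 ^ (j + 1) * r := ⟨J, (hL.bdd g).trans (hJ'.trans (by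
          rw [pow_succ]
          nlinarith [pow_pos (by norm_num : (0 : ℝ) < 2) J]))⟩
        classical
        obtain ⟨j, hj, hmin⟩ : ∃ j, ℓ g ≤ 2 ^ (j + 1) * r ∧ ∀ i, i < j → ¬ ℓ g ≤ 2 ^ (i + 1) * r :=
          ⟨Nat.find hex, Nat.find_spec hex, fun i hi => Nat.find_min hex hi⟩
        have hlow : 2 ^ j * r < ℓ g := by
          rcases Nat.eq_zero_or_pos j with h5 | h5
          · rw [h5]; push Not at h2; simpa using h2
          · have := hmin (j - 1) (by omega)
            push Not at this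
            rwa [show j - 1 + 1 = j by omega] at this
        have hjJ : j < J := by
          by_contra hcon
          push Not at hcon
          have h6 : (2 : ℝ) ^ J * r ≤ 2 ^ j * r :=
            mul_le_mul_of_nonneg_right (pow_le_pow_right₀ (by norm_num) hcon) hr0.le
          have := hL.bdd g
          linarith
        have h7 : Real.exp (-(β / 2 * ℓ g ^ 2)) ≤ Real.exp (-(4 ^ j / 4)) := by
          rw [Real.exp_le_exp, neg_le_neg_iff]
          have h8 : (2 ^ j * r) ^ 2 ≤ ℓ g ^ 2 := pow_le_pow_left₀ (by positivity) hlow.le 2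
          have h9 : (2 ^ j * r) ^ 2 = 4 ^ j * r ^ 2 := by
            rw [mul_pow, ← pow_mul, mul_comm j 2, pow_mul]; norm_num
          rw [h9] at h8
          have h10 : (0 : ℝ) < 4 ^ j := by positivity
          nlinarith
        have h8 : Real.exp (-(4 ^ j / 4)) = Real.exp (-(4 ^ j / 4)) * ind ℓ (2 ^ (j + 1) * r) g := by
          have : ind ℓ (2 ^ (j + 1) * r) g = 1 := by simp [ind, hj]
          rw [this, mul_one]
        have h9 : Real.exp (-(4 ^ j / 4)) * ind ℓ (2 ^ (j + 1) * r) g ≤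
            ∑ j ∈ Finset.range J, Real.exp (-(4 ^ j / 4)) * ind ℓ (2 ^ (j + 1) * r) g :=
          Finset.single_le_sum (f := fun j : ℕ =>
            Real.exp (-(4 ^ j / 4)) * ind ℓ (2 ^ (j + 1) * r) g)
            (fun i _ => mul_nonneg (Real.exp_pos _).le (ind_nonneg _ _))
            (Finset.mem_range.2 hjJ)
        have h10 := ind_nonneg (ℓ := ℓ) r g
        linarith
    have hbm : ∀ s, Integrable (ind ℓ s) μ := fun s => (ind_bm hL.cont s).integrable μ
    have h2 := integral_mono (hq.bm.integrable μ) ((hbm r).add (integrable_finset_sum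
      (Finset.range J) fun j _ => (hbm (2 ^ (j + 1) * r)).const_mul (Real.exp (-(4 ^ j / 4)))))
      (fun g => by simpa using hpt g)
    refine h2.trans ?_
    have e1 : ∫ a, ((ind ℓ r + fun a => ∑ j ∈ Finset.range J,
        Real.exp (-(4 ^ j / 4)) * ind ℓ (2 ^ (j + 1) * r) a) : G → ℝ) a ∂μ =
        Vol μ ℓ r + ∑ j ∈ Finset.range J, Real.exp (-(4 ^ j / 4)) * Vol μ ℓ (2 ^ (j + 1) * r) := by
      simp only [Pi.add_apply]
      rw [integral_add (hbm r) (integrable_finset_sum _ fun j _ =>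
        (hbm (2 ^ (j + 1) * r)).const_mul (Real.exp (-(4 ^ j / 4)))),
        integral_finset_sum _ fun j _ =>
          (hbm (2 ^ (j + 1) * r)).const_mul (Real.exp (-(4 ^ j / 4)))]
      simp only [integral_const_mul]
      rfl
    rw [e1]
    have h3 : ∑ j ∈ Finset.range J, Real.exp (-(4 ^ j / 4)) * Vol μ ℓ (2 ^ (j + 1) * r) ≤
        Sm * Vol μ ℓ r := by
      have h4 : ∑ j ∈ Finset.range J, K ^ (j + 1) * Real.exp (-(4 ^ j / 4)) ≤ Sm := by
        rw [hSm]
        exact (summ hK).sum_le_tsum _ fun j _ => by positivity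
      calc _ ≤ ∑ j ∈ Finset.range J, (K ^ (j + 1) * Real.exp (-(4 ^ j / 4))) * Vol μ ℓ r := by
            refine Finset.sum_le_sum fun j _ => ?_
            have := mul_le_mul_of_nonneg_left (Vol_pow hL hr0 (j + 1))
              (Real.exp_pos (-(4 ^ j / 4 : ℝ))).le
            linarith
        _ = (∑ j ∈ Finset.range J, K ^ (j + 1) * Real.exp (-(4 ^ j / 4))) * Vol μ ℓ r := by
            rw [Finset.sum_mul]
        _ ≤ _ := mul_le_mul_of_nonneg_right h4 hV.le
    have h5 : 0 ≤ K ^ n * Vol μ ℓ r := by positivity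
    nlinarith
  · -- small β
    have h2 : ∫ h, Real.exp (-(β / 2 * ℓ h ^ 2)) ∂μ ≤ 1 := by
      have := integral_mono (hq.bm.integrable μ) (integrable_const 1) fun g => by
        show Real.exp (-(β / 2 * ℓ g ^ 2)) ≤ 1
        rw [Real.exp_le_one_iff]
        have : 0 ≤ β / 2 * ℓ g ^ 2 := by positivity
        linarith
      simpa using this
    have h3 : R ≤ 2 ^ n * r := by
      have h4 : 1 / 2 ≤ r := by
        by_contra hcon
        push Not at hcon
        have : r ^ 2 * (1 + β) < 1 := by nlinarith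
        linarith
      nlinarith [pow_pos (by norm_num : (0 : ℝ) < 2) n]
    have h4 := Vol_pow hL hr0 n
    rw [Vol_full hL h3] at h4
    have h5 : 0 ≤ Sm * Vol μ ℓ r := by positivity
    nlinarith

/-- **The random walk mixes in the diffusive time.** -/
theorem exists_UM (hL : Len μ ℓ R K A) : ∃ C : ℝ, 0 < C ∧ ∀ β, 0 ≤ β → ∃ m : ℕ, 1 ≤ m ∧
    (m : ℝ) ≤ C * (1 + β) ∧ UM μ (fun a b => qf μ ℓ β (a⁻¹ * b)) m := by
  obtain ⟨CZ, hCZ1, hCZ⟩ := part_le hL
  have hK := hL.K1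
  have hA := hL.A1
  have hR := hL.R1
  obtain ⟨c, hc⟩ : ∃ c, c = Real.exp (-2) / CZ := ⟨_, rfl⟩
  have hc0 : 0 < c := by rw [hc]; positivity
  obtain ⟨C1, hC1⟩ : ∃ C1, C1 = 16 * A ^ 2 * K / c ^ 2 := ⟨_, rfl⟩
  have hC10 : 0 < C1 := by rw [hC1]; positivity
  obtain ⟨C2, hC2⟩ : ∃ C2, C2 = 8 * A ^ 2 * R ^ 2 * K / c ^ 2 := ⟨_, rfl⟩
  have hC20 : 0 < C2 := by rw [hC2]; positivity
  obtain ⟨M, hM⟩ : ∃ M, M = K + 1 := ⟨_, rfl⟩
  refine ⟨2 * (2 * (2 * C1 * M + 1) * (4 * R ^ 2) + C2 + 1) + 2, by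
    have : 0 ≤ M := by rw [hM]; linarith
    positivity, fun β hβ => ?_⟩
  obtain ⟨r, hr⟩ : ∃ r, r = (Real.sqrt (1 + β))⁻¹ := ⟨_, rfl⟩
  have hs : 0 < Real.sqrt (1 + β) := Real.sqrt_pos.2 (by linarith)
  have hr0 : 0 < r := by rw [hr]; positivity
  have hr2 : r ^ 2 * (1 + β) = 1 := by
    rw [hr, inv_pow, Real.sq_sqrt (by linarith)]
    field_simp
  have hr1 : r ≤ 1 := by
    by_contra hcon
    push Not at hcon
    have : 1 < r ^ 2 * (1 + β) := by nlinarith
    linarith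
  have hβr : β * r ^ 2 ≤ 1 := by nlinarith [sq_nonneg r]
  have hV := hL.pos r hr0
  have hq' := qe_pb hL β hβ
  obtain ⟨Z, hZ⟩ : ∃ Z, Z = ∫ h, Real.exp (-(β / 2 * ℓ h ^ 2)) ∂μ := ⟨_, rfl⟩
  have hZ0 : 0 < Z := by rw [hZ]; exact hq'.integral_pos μ
  have hZup : Z ≤ CZ * Vol μ ℓ r := by rw [hZ, hr]; exact hCZ β hβ
  have hZlo : Real.exp (-(1 / 2)) * Vol μ ℓ r ≤ Z := by
    rw [hZ, Vol, ← integral_const_mul]
    refine integral_mono (((ind_bm hL.cont r).integrable μ).const_mul _) (hq'.bm.integrable μ)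
      fun g => ?_
    simp only
    by_cases h : ℓ g ≤ r
    · have h1 : ind ℓ r g = 1 := by simp [ind, h]
      rw [h1, mul_one, Real.exp_le_exp, neg_le_neg_iff]
      have h2 : ℓ g ^ 2 ≤ r ^ 2 := pow_le_pow_left₀ (hL.nonneg g) h 2
      nlinarith
    · have h1 : ind ℓ r g = 0 := by simp [ind, h]
      rw [h1, mul_zero]; exact (Real.exp_pos _).le
  obtain ⟨q, hq⟩ : ∃ q, q = qf μ ℓ β := ⟨_, rfl⟩
  have hqe : ∀ g, q g = Real.exp (-(β / 2 * ℓ g ^ 2)) / Z := fun g => by rw [hq, hZ]; rfl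
  have hqb : BM q := by
    have : q = fun g => Real.exp (-(β / 2 * ℓ g ^ 2)) * Z⁻¹ := funext fun g => by
      rw [hqe, div_eq_mul_inv]
    rw [this]
    exact hq'.bm.mul (BM.const _)
  have hq0 : ∀ g, 0 ≤ q g := fun g => by rw [hqe]; positivity
  have hq1 : ∫ g, q g ∂μ = 1 := by
    simp only [hqe]
    rw [integral_div, ← hZ, div_self hZ0.ne']
  have hqc : ∀ g, ℓ g ≤ 2 * r → c / Vol μ ℓ r ≤ q g := by
    intro g hg
    rw [hqe, hc, div_div, div_le_div_iff₀ (by positivity) hZ0]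
    have h1 : Real.exp (-2) ≤ Real.exp (-(β / 2 * ℓ g ^ 2)) := by
      rw [Real.exp_le_exp, neg_le_neg_iff]
      have h2 : ℓ g ^ 2 ≤ (2 * r) ^ 2 := pow_le_pow_left₀ (hL.nonneg g) hg 2
      nlinarith
    exact mul_le_mul h1 hZup hZ0.le (Real.exp_pos _).le
  have hqsup : ∀ g, q g ≤ 2 / Vol μ ℓ r := by
    intro g
    rw [hqe, div_le_div_iff₀ hZ0 hV]
    have h1 : Real.exp (-(β / 2 * ℓ g ^ 2)) ≤ 1 := by
      rw [Real.exp_le_one_iff]
      have : 0 ≤ β / 2 * ℓ g ^ 2 := by positivity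
      linarith
    have h2 : (1 : ℝ) / 2 ≤ Real.exp (-(1 / 2)) := by
      have := Real.add_one_le_exp (-(1 / 2 : ℝ))
      linarith
    have h3 : 1 / 2 * Vol μ ℓ r ≤ Z := (mul_le_mul_of_nonneg_right h2 hV.le).trans hZlo
    calc Real.exp (-(β / 2 * ℓ g ^ 2)) * Vol μ ℓ r ≤ 1 * Vol μ ℓ r :=
          mul_le_mul_of_nonneg_right h1 hV.le
      _ ≤ 2 * Z := by linarith
  -- the sequence of squared norms
  obtain ⟨x, hx⟩ : ∃ x : ℕ → ℝ, x = fun j => ∫ g, cp μ q j g ^ 2 ∂μ := ⟨_, rfl⟩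
  have hcb := fun j => cp_bm (μ := μ) hqb j
  have hEn0 := fun j => En_nonneg hL (cp μ q j) hr0
  have hdis : ∀ j, 1 / 2 * (c ^ 2 * En μ ℓ (cp μ q j) r) ≤ x j - x (j + 1) := by
    intro j
    rw [hx]
    exact dissip hL hqb hq0 hq1 (hcb j) hr0 hc0 hqc
  have hanti : Antitone x := antitone_nat_of_succ_le fun j => by
    have := hdis j
    have := hEn0 j
    have : 0 ≤ 1 / 2 * (c ^ 2 * En μ ℓ (cp μ q j) r) := by positivity
    linarith
  have hEn : ∀ j, En μ ℓ (cp μ q j) r ≤ 2 / c ^ 2 * (x j - x (j + 1)) := by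
    intro j
    have := hdis j
    rw [div_mul_eq_mul_div, le_div_iff₀ (by positivity)]
    linarith
  have hnash : ∀ i j, x j - 2 / Vol μ ℓ (2 ^ i * r) ≤ C1 * 4 ^ i * (x j - x (j + 1)) := by
    intro i j
    have h1 : r ≤ 2 ^ i * r := by
      have : (1 : ℝ) ≤ 2 ^ i := one_le_pow₀ (by norm_num)
      nlinarith
    have h2 := nash hL (hcb j) (cp_nonneg hq0 j) (cp_int hqb hq1 j) hr0 h1
    have h3 : (A * (2 ^ i * r) / r) ^ 2 = A ^ 2 * 4 ^ i := by
      have : A * (2 ^ i * r) / r = A * 2 ^ i := by field_simp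
      rw [this, mul_pow, ← pow_mul, mul_comm i 2, pow_mul]; norm_num
    rw [h3] at h2
    have h4 : 2 * (A ^ 2 * 4 ^ i * (4 * K * En μ ℓ (cp μ q j) r)) ≤
        C1 * 4 ^ i * (x j - x (j + 1)) := by
      have h5 : C1 * 4 ^ i * (x j - x (j + 1)) = 8 * A ^ 2 * K * 4 ^ i *
          (2 / c ^ 2 * (x j - x (j + 1))) := by rw [hC1]; ring
      rw [h5]
      have h6 := mul_le_mul_of_nonneg_left (hEn j) (show 0 ≤ 8 * A ^ 2 * K * 4 ^ i by positivity)
      linarith
    have h7 : x j = ∫ g, cp μ q j g ^ 2 ∂μ := by rw [hx]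
    linarith
  have hx0 : x 0 ≤ 4 * M / Vol μ ℓ (2 ^ 0 * r) := by
    rw [pow_zero, one_mul]
    have h1 : x 0 ≤ 2 / Vol μ ℓ r := by
      have h2 : ∫ g, q g ^ 2 ∂μ ≤ ∫ g, (2 / Vol μ ℓ r) * q g ∂μ := by
        have hq2 : BM fun g => q g ^ 2 := by simpa only [pow_two] using hqb.mul hqb
        refine integral_mono (hq2.integrable μ) ((hqb.integrable μ).const_mul _) fun g => ?_
        simp only
        rw [pow_two]
        exact mul_le_mul_of_nonneg_right (hqsup g) (hq0 g)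
      rw [integral_const_mul, hq1, mul_one] at h2
      rw [hx]; exact h2
    refine h1.trans (div_le_div_of_nonneg_right ?_ hV.le)
    rw [hM]; linarith
  obtain ⟨I, hI⟩ : ∃ I : ℕ, R ≤ 2 ^ I * r ∧ (2 : ℝ) ^ I ≤ 2 * (R / r) := by
    have hRr : 1 ≤ R / r := by rw [le_div_iff₀ hr0]; linarith
    classical
    have hex : ∃ n : ℕ, R / r ≤ 2 ^ n := by
      obtain ⟨n, hn⟩ := pow_unbounded_of_one_lt (R / r) (by norm_num : (1 : ℝ) < 2)
      exact ⟨n, hn.le⟩
    refine ⟨Nat.find hex, ?_, ?_⟩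
    · have := Nat.find_spec hex
      rwa [div_le_iff₀ hr0] at this
    · rcases Nat.eq_zero_or_pos (Nat.find hex) with h | h
      · rw [h, pow_zero]; linarith
      · have h1 := Nat.find_min hex (m := Nat.find hex - 1) (by omega)
        push Not at h1
        have h2 : (2 : ℝ) ^ Nat.find hex = 2 * 2 ^ (Nat.find hex - 1) := by
          rw [← pow_succ']; congr 1; omega
        rw [h2]; linarith
  obtain ⟨j, hj1, hj2⟩ := scale_iter hanti (V := fun i => Vol μ ℓ (2 ^ i * r)) (K := K)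
    (fun i => hL.pos _ (by positivity)) (fun i => by
      have := hL.dbl (2 ^ i * r) (by positivity)
      rwa [← mul_assoc, ← pow_succ'] at this) hC10 (M := M) (by rw [hM]; linarith)
    (by rw [hM]; linarith) hnash hx0 I
  rw [Vol_full hL hI.1, div_one] at hj2
  -- the gap
  have hy0 : ∀ j, 0 ≤ x j - 1 := by
    intro j
    have h1 := poinc hL (hcb j) (cp_int hqb hq1 j) hr0 (hr1.trans hR)
    have h2 := Nf_total (μ := μ) (hcb j) (cp_int hqb hq1 j)
    have h3 : 0 ≤ ∫ h, Nf μ (cp μ q j) h ∂μ := integral_nonneg fun h => Nf_nonneg _ _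
    rw [h2] at h3
    rw [hx]; simp only; linarith
  have hgap : ∀ j, 2 * (x j - 1) ≤ (C2 * (1 + β)) * ((x j - 1) - (x (j + 1) - 1)) := by
    intro j
    have h1 := poinc hL (hcb j) (cp_int hqb hq1 j) hr0 (hr1.trans hR)
    have h2 : (A * R / r) ^ 2 * (4 * K * En μ ℓ (cp μ q j) r) ≤
        (C2 * (1 + β)) * ((x j - 1) - (x (j + 1) - 1)) := by
      have h3 : (A * R / r) ^ 2 = A ^ 2 * R ^ 2 * (1 + β) := by
        rw [div_pow, mul_pow, div_eq_iff (by positivity)]
        have : A ^ 2 * R ^ 2 * (1 + β) * r ^ 2 = A ^ 2 * R ^ 2 * (r ^ 2 * (1 + β)) := by ring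
        rw [this, hr2, mul_one]
      rw [h3]
      have h4 : (C2 * (1 + β)) * ((x j - 1) - (x (j + 1) - 1)) =
          (4 * A ^ 2 * R ^ 2 * K * (1 + β)) * (2 / c ^ 2 * (x j - x (j + 1))) := by
        rw [hC2]; ring
      rw [h4]
      have h5 := mul_le_mul_of_nonneg_left (hEn j)
        (show 0 ≤ 4 * A ^ 2 * R ^ 2 * K * (1 + β) by positivity)
      linarith
    have h6 : x j = ∫ g, cp μ q j g ^ 2 ∂μ := by rw [hx]
    rw [h6] at h2 ⊢
    linarith
  obtain ⟨n, hn⟩ : ∃ n : ℕ, n = ⌈C2 * (1 + β)⌉₊ := ⟨_, rfl⟩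
  have hn1 : C2 * (1 + β) ≤ n := by rw [hn]; exact Nat.le_ceil _
  have hn2 : (n : ℝ) < C2 * (1 + β) + 1 := by
    rw [hn]; exact Nat.ceil_lt_add_one (by positivity)
  have hg := gap_iter (y := fun j => x j - 1) (C := C2 * (1 + β)) (by positivity) hy0 hgap j n
  have hend : x (j + n) - 1 ≤ 1 / 2 := by
    refine hg.trans ?_
    have h1 : Real.exp (-(2 * n / (C2 * (1 + β)))) ≤ Real.exp (-2) := by
      rw [Real.exp_le_exp, neg_le_neg_iff, le_div_iff₀ (by positivity)]
      linarith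
    have h2 : Real.exp (-2) ≤ 1 / 6 := by
      have h3 : Real.exp (-2) = (Real.exp 1 * Real.exp 1)⁻¹ := by
        rw [← Real.exp_add, ← Real.exp_neg]; norm_num
      rw [h3]
      have h4 := Real.exp_one_gt_d9
      rw [inv_le_comm₀ (by positivity) (by norm_num)]
      nlinarith
    have h5 : x j - 1 ≤ 3 := by linarith
    calc Real.exp (-(2 * n / (C2 * (1 + β)))) * (x j - 1) ≤ (1 / 6) * 3 :=
          mul_le_mul (h1.trans h2) h5 (hy0 j) (by norm_num)
      _ = 1 / 2 := by norm_num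
  -- conclusion
  refine ⟨(j + n) + (j + n) + 1 + 1, by omega, ?_, ?_⟩
  · push_cast
    have h1 : (4 : ℝ) ^ I ≤ 4 * R ^ 2 * (1 + β) := by
      have h2 : (2 : ℝ) ^ I * 2 ^ I ≤ (2 * (R / r)) * (2 * (R / r)) :=
        mul_le_mul hI.2 hI.2 (by positivity) (by positivity)
      have h3 : (2 * (R / r)) * (2 * (R / r)) = 4 * R ^ 2 * (1 + β) := by
        have h4 : (R / r) ^ 2 = R ^ 2 * (1 + β) := by
          rw [div_pow, div_eq_iff (by positivity)]
          have : R ^ 2 * (1 + β) * r ^ 2 = R ^ 2 * (r ^ 2 * (1 + β)) := by ring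
          rw [this, hr2, mul_one]
        have : (2 * (R / r)) * (2 * (R / r)) = 4 * (R / r) ^ 2 := by ring
        rw [this, h4]; ring
      have h5 : (4 : ℝ) ^ I = 2 ^ I * 2 ^ I := by
        rw [← mul_pow]; norm_num
      rw [h5]; linarith
    have hM0 : 0 < M := by rw [hM]; linarith
    have h6 : (j : ℝ) ≤ 2 * (2 * C1 * M + 1) * (4 * R ^ 2) * (1 + β) := by
      refine hj1.trans ?_
      have := mul_le_mul_of_nonneg_left h1 (show 0 ≤ 2 * (2 * C1 * M + 1) by positivity)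
      linarith
    nlinarith
  · intro g hg hg0 a
    rw [← hq, Zf_cp hqb hg]
    have hnear : ∀ y, |cp μ q ((j + n) + (j + n) + 1) y - 1| ≤ 1 / 2 := by
      intro y
      rw [← cp_add hqb]
      refine (conv_self_near (hcb _) (cp_int hqb hq1 _) y).trans ?_
      have : x (j + n) = ∫ g, cp μ q (j + n) g ^ 2 ∂μ := by rw [hx]
      rw [← this]; exact hend
    have hb := (cp_bm (μ := μ) hqb ((j + n) + (j + n) + 1)).comp (measurable_const_mul a⁻¹)
    have i1 := (hb.mul hg).integrable μ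
    have i2 := hg.integrable μ
    constructor
    · rw [← integral_const_mul]
      refine integral_mono (i2.const_mul _) i1 fun y => ?_
      have := (abs_le.1 (hnear (a⁻¹ * y))).1
      exact mul_le_mul_of_nonneg_right (by linarith) (hg0 y)
    · rw [← integral_const_mul]
      refine integral_mono i1 (i2.const_mul _) fun y => ?_
      have := (abs_le.1 (hnear (a⁻¹ * y))).2
      exact mul_le_mul_of_nonneg_right (by linarith) (hg0 y)

end Pool.Agent.Q295.YM
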