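import Mathlib
import Pool.Agent.Q295.YM.Walk3

/-!
# Mixing for arbitrary compact groups
-/

namespace Pool.Agent.Q295.YM

open MeasureTheory Function
open Pool.Agent.H556R4.Dob

set_option linter.unusedSectionVars false
set_option linter.unusedVariables false

variable {X : Type} [MeasurableSpace X] {σ : Measure X} [IsProbabilityMeasure σ]

/-- Doeblin's condition gives mixing -/
lemma UM_of_lb {k : X → X → ℝ} (hk : PB fun p : X × X => k p.1 p.2) (hks : ∀ a b, k a b = k b a)
    (hk1 : ∀ a, ∫ y, k a y ∂σ = 1) {ε B : ℝ} (hε0 : 0 < ε) (hε1 : ε ≤ 1) (hlb : ∀ a b, ε ≤ k a b)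
    (hub : ∀ a b, k a b ≤ B) {n : ℕ} (hn : (1 - ε) ^ n * B ≤ 1 / 2) : UM σ k (n + 1) := by
  intro g hg hg0
  have hX : Nonempty X := nonempty_G σ
  have hK : Ker fun _ : ℕ => k := fun _ => hk
  obtain ⟨I, hI⟩ : ∃ I, I = ∫ y, g y ∂σ := ⟨_, rfl⟩
  have hI0 : 0 ≤ I := by rw [hI]; exact integral_nonneg hg0
  have hB0 : 0 ≤ B := by
    have x0 := Classical.arbitrary X
    exact hε0.le.trans ((hlb x0 x0).trans (hub x0 x0))
  obtain ⟨f, hf⟩ : ∃ f : ℕ → X → ℝ, f = fun j => Zf σ g j (fun _ => k) := ⟨_, rfl⟩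
  have hfb : ∀ j, BM (f j) := fun j => by rw [hf]; exact Zf_bm hg j _ hK
  have hfs : ∀ j a, f (j + 1) a = ∫ y, k a y * f j y ∂σ := fun j a => by rw [hf]; rfl
  have hkb : ∀ a, BM (k a) := fun a => hk.bm.comp measurable_prodMk_left
  have hfi : ∀ j, ∫ a, f j a ∂σ = I := by
    intro j
    induction j with
    | zero => rw [hf, hI]; rfl
    | succ j ih =>
      simp only [hfs]
      have hb : BM fun p : X × X => k p.1 p.2 * f j p.2 := hk.bm.mul ((hfb j).comp measurable_snd)
      rw [integral_integral_swap (f := fun a y => k a y * f j y) (hb.integrable _)]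
      rw [← ih]
      refine integral_congr_ae (Filter.Eventually.of_forall fun y => ?_)
      simp only
      rw [integral_mul_const]
      have : ∫ a, k a y ∂σ = 1 := by
        rw [← hk1 y]
        exact integral_congr_ae (Filter.Eventually.of_forall fun a => hks a y)
      rw [this, one_mul]
  have hosc : ∀ j, ∀ a a', |f (j + 1) a - f (j + 1) a'| ≤ (1 - ε) ^ j * (B * I) := by
    intro j
    induction j with
    | zero =>
      intro a a'
      have h1 : ∀ a, 0 ≤ f (0 + 1) a ∧ f (0 + 1) a ≤ B * I := by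
        intro a
        rw [hfs, hf, hI]
        have hb : BM fun y => k a y * g y := (hkb a).mul hg
        constructor
        · exact integral_nonneg fun y => mul_nonneg (hε0.le.trans (hlb a y)) (hg0 y)
        · rw [← integral_const_mul]
          exact integral_mono (hb.integrable σ) ((hg.integrable σ).const_mul B) fun y =>
            mul_le_mul_of_nonneg_right (hub a y) (hg0 y)
      rw [pow_zero, one_mul, abs_le]
      have := h1 a
      have := h1 a'
      constructor <;> linarith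
    | succ j ih =>
      intro a a'
      obtain ⟨c, hc⟩ := exists_mid ih
      obtain ⟨D, hD⟩ : ∃ D, D = (1 - ε) ^ j * (B * I) := ⟨_, rfl⟩
      rw [← hD] at hc
      obtain ⟨ψ, hψ⟩ : ∃ ψ : X → ℝ, ψ = fun y => f (j + 1) y - c := ⟨_, rfl⟩
      have hψb : BM ψ := by rw [hψ]; exact BM.sub' (hfb _) (BM.const _)
      have hψc : ∀ y, |ψ y| ≤ D / 2 := fun y => by rw [hψ]; exact hc y
      have e1 : ∀ a, f (j + 1 + 1) a = c + ε * (∫ y, ψ y ∂σ) + ∫ y, (k a y - ε) * ψ y ∂σ := by
        intro a
        rw [hfs]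
        have i1 : Integrable (k a) σ := (hkb a).integrable σ
        have i2 : Integrable (fun y => k a y * ψ y) σ := ((hkb a).mul hψb).integrable σ
        have i3 : Integrable ψ σ := hψb.integrable σ
        have e2 : ∀ y, k a y * f (j + 1) y = c * k a y + k a y * ψ y := fun y => by
          rw [hψ]; ring
        have e3 : ∀ y, (k a y - ε) * ψ y = k a y * ψ y - ε * ψ y := fun y => by ring
        simp only [e2, e3]
        rw [integral_add (i1.const_mul c) i2, integral_sub i2 (i3.const_mul ε),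
          integral_const_mul, integral_const_mul, hk1]
        ring
      have e4 : ∀ a, |∫ y, (k a y - ε) * ψ y ∂σ| ≤ (1 - ε) * (D / 2) := by
        intro a
        have i1 : Integrable (k a) σ := (hkb a).integrable σ
        have hb : BM fun y => (k a y - ε) * ψ y := (BM.sub' (hkb a) (BM.const ε)).mul hψb
        refine abs_integral_le_integral_abs.trans ?_
        have h2 : ∫ y, |(k a y - ε) * ψ y| ∂σ ≤ ∫ y, (k a y - ε) * (D / 2) ∂σ := by
          refine integral_mono (hb.integrable σ).abs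
            ((i1.sub (integrable_const ε)).mul_const (D / 2)) fun y => ?_
          simp only
          rw [abs_mul, abs_of_nonneg (sub_nonneg.2 (hlb a y))]
          exact mul_le_mul_of_nonneg_left (hψc y) (sub_nonneg.2 (hlb a y))
        refine h2.trans (le_of_eq ?_)
        rw [integral_mul_const, integral_sub i1 (integrable_const ε), hk1]
        simp
      rw [e1, e1]
      have h1 := e4 a
      have h2 := e4 a'
      rw [abs_le] at h1 h2 ⊢
      rw [pow_succ]
      have h3 : (1 - ε) ^ j * (1 - ε) * (B * I) = (1 - ε) * D := by rw [hD]; ring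
      rw [h3]
      constructor <;> linarith [h1.1, h1.2, h2.1, h2.2]
  intro a
  have h1 : |f (n + 1) a - I| ≤ 1 / 2 * I := by
    have e1 : f (n + 1) a - I = ∫ y, (f (n + 1) a - f (n + 1) y) ∂σ := by
      rw [integral_sub (integrable_const _) ((hfb _).integrable σ), hfi]
      simp
    rw [e1]
    refine abs_integral_le_integral_abs.trans ?_
    have hb : BM fun y => f (n + 1) a - f (n + 1) y := BM.sub' (BM.const _) (hfb _)
    have h2 : ∫ y, |f (n + 1) a - f (n + 1) y| ∂σ ≤ ∫ _y, (1 - ε) ^ n * (B * I) ∂σ :=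
      integral_mono (hb.integrable σ).abs (integrable_const _) fun y => hosc n a y
    refine h2.trans ?_
    simp only [integral_const, probReal_univ, one_smul]
    have := mul_le_mul_of_nonneg_right hn hI0
    linarith
  have e2 : Zf σ g (n + 1) (fun _ => k) a = f (n + 1) a := by rw [hf]
  rw [e2, ← hI]
  rw [abs_le] at h1
  constructor <;> linarith [h1.1, h1.2]

variable {G : Type} [Group G] [TopologicalSpace G] [IsTopologicalGroup G] [CompactSpace G]
  [SecondCountableTopology G] [MeasurableSpace G] [BorelSpace G]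
variable {μ : Measure G} [IsProbabilityMeasure μ] [μ.IsMulLeftInvariant]

/-- mixing in an exponential time -/
theorem exists_UM_gen {ℓ : G → ℝ} {R : ℝ} (hc : Continuous ℓ) (h0 : ∀ g, 0 ≤ ℓ g)
    (hinv : ∀ g, ℓ g⁻¹ = ℓ g) (hR : ∀ g, ℓ g ≤ R) (hR1 : 1 ≤ R) :
    ∃ C : ℝ, 0 < C ∧ ∀ β, 0 ≤ β → ∃ m : ℕ, 1 ≤ m ∧ (m : ℝ) ≤ Real.exp (C * (1 + β)) ∧
      UM μ (fun a b => qf μ ℓ β (a⁻¹ * b)) m := by
  refine ⟨2 + R ^ 2, by positivity, fun β hβ => ?_⟩
  obtain ⟨s, hs⟩ : ∃ s, s = β / 2 * R ^ 2 := ⟨_, rfl⟩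
  have hs0 : 0 ≤ s := by rw [hs]; positivity
  have hle : ∀ g, β / 2 * ℓ g ^ 2 ≤ s := fun g => by
    rw [hs]
    exact mul_le_mul_of_nonneg_left (pow_le_pow_left₀ (h0 g) (hR g) 2) (by positivity)
  have hm : Measurable fun g => -(β / 2 * ℓ g ^ 2) :=
    (measurable_const.mul (hc.measurable.pow_const 2)).neg
  have hpb : PB fun g => Real.exp (-(β / 2 * ℓ g ^ 2)) := by
    refine PB.exp ⟨hm, s, fun g => ?_⟩
    rw [abs_neg, abs_of_nonneg (by positivity)]
    exact hle g
  obtain ⟨Z, hZ⟩ : ∃ Z, Z = ∫ h, Real.exp (-(β / 2 * ℓ h ^ 2)) ∂μ := ⟨_, rfl⟩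
  have hup : ∀ g, Real.exp (-(β / 2 * ℓ g ^ 2)) ≤ 1 := fun g => by
    rw [Real.exp_le_one_iff]
    have : 0 ≤ β / 2 * ℓ g ^ 2 := by positivity
    linarith
  have hlo : ∀ g, Real.exp (-s) ≤ Real.exp (-(β / 2 * ℓ g ^ 2)) := fun g =>
    Real.exp_le_exp.2 (neg_le_neg (hle g))
  have hZ1 : Z ≤ 1 := by
    rw [hZ]
    have := integral_mono (hpb.bm.integrable μ) (integrable_const 1) hup
    simpa using this
  have hZ2 : Real.exp (-s) ≤ Z := by
    rw [hZ]
    have := integral_mono (integrable_const (Real.exp (-s))) (hpb.bm.integrable μ) hlo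
    simpa using this
  have hZ0 : 0 < Z := (Real.exp_pos _).trans_le hZ2
  have hq : ∀ g, qf μ ℓ β g = Real.exp (-(β / 2 * ℓ g ^ 2)) / Z := fun g => by rw [hZ]; rfl
  obtain ⟨n, hn⟩ : ∃ n : ℕ, n = ⌈Real.exp s * (1 + s)⌉₊ := ⟨_, rfl⟩
  have hn1 : Real.exp s * (1 + s) ≤ n := by rw [hn]; exact Nat.le_ceil _
  have hn2 : (n : ℝ) < Real.exp s * (1 + s) + 1 := by
    rw [hn]; exact Nat.ceil_lt_add_one (by positivity)
  refine ⟨n + 1, by omega, ?_, ?_⟩
  · push_cast
    have h1 : 1 + s ≤ Real.exp s := by have := Real.add_one_le_exp s; linarith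
    have h2 : 1 ≤ Real.exp s := Real.one_le_exp hs0
    have h3 : Real.exp s * (1 + s) ≤ Real.exp s * Real.exp s :=
      mul_le_mul_of_nonneg_left h1 (by positivity)
    have h4 : (n : ℝ) + 1 ≤ 3 * (Real.exp s * Real.exp s) := by nlinarith
    refine h4.trans ?_
    have h5 : (3 : ℝ) ≤ Real.exp 2 := by
      have := Real.add_one_le_exp (2 : ℝ)
      linarith
    have h6 : 3 * (Real.exp s * Real.exp s) ≤ Real.exp 2 * (Real.exp s * Real.exp s) :=
      mul_le_mul_of_nonneg_right h5 (by positivity)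
    refine h6.trans ?_
    rw [← Real.exp_add, ← Real.exp_add]
    refine Real.exp_le_exp.2 ?_
    rw [hs]
    nlinarith [sq_nonneg R]
  · have hcont : Continuous fun p : G × G => p.1⁻¹ * p.2 := continuous_fst.inv.mul continuous_snd
    have hkpb : PB fun p : G × G => qf μ ℓ β (p.1⁻¹ * p.2) := by
      have e1 : (fun p : G × G => qf μ ℓ β (p.1⁻¹ * p.2)) = fun p : G × G =>
          Real.exp (-(β / 2 * ℓ (p.1⁻¹ * p.2) ^ 2)) * Z⁻¹ := funext fun p => by
        rw [hq, div_eq_mul_inv]
      rw [e1]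
      exact (hpb.comp hcont.measurable).mul ⟨measurable_const, ⟨Z⁻¹, by positivity, fun _ => le_rfl⟩,
        ⟨Z⁻¹, fun _ => le_rfl⟩⟩
    refine UM_of_lb (ε := Real.exp (-s)) (B := Real.exp s) hkpb (fun a b => ?_) (fun a => ?_)
      (Real.exp_pos _) (by rw [Real.exp_le_one_iff]; linarith) (fun a b => ?_) (fun a b => ?_) ?_
    · rw [hq, hq]
      have : ℓ (b⁻¹ * a) = ℓ (a⁻¹ * b) := by
        rw [← hinv (a⁻¹ * b)]; congr 1; group
      rw [this]
    · rw [integral_mul_left_eq_self (μ := μ) (fun y => qf μ ℓ β y) a⁻¹]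
      simp only [hq]
      rw [integral_div, ← hZ, div_self hZ0.ne']
    · rw [hq, le_div_iff₀ hZ0]
      have h1 : Real.exp (-s) * Z ≤ Real.exp (-s) * 1 :=
        mul_le_mul_of_nonneg_left hZ1 (Real.exp_pos _).le
      rw [mul_one] at h1
      exact h1.trans (hlo _)
    · rw [hq, div_le_iff₀ hZ0]
      have h1 : 1 ≤ Real.exp s * Z := by
        have := mul_le_mul_of_nonneg_left hZ2 (Real.exp_pos s).le
        rwa [← Real.exp_add, add_neg_cancel, Real.exp_zero] at this
      exact (hup _).trans h1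
    · have h1 : (1 - Real.exp (-s)) ^ n ≤ Real.exp (-(n * Real.exp (-s))) := by
        have h2 : 1 - Real.exp (-s) ≤ Real.exp (-Real.exp (-s)) := by
          have := Real.add_one_le_exp (-Real.exp (-s))
          linarith
        have h3 : 0 ≤ 1 - Real.exp (-s) := by
          rw [sub_nonneg, Real.exp_le_one_iff]; linarith
        refine (pow_le_pow_left₀ h3 h2 n).trans (le_of_eq ?_)
        rw [← Real.exp_nat_mul]; congr 1; ring
      have h4 : 1 + s ≤ n * Real.exp (-s) := by
        have := mul_le_mul_of_nonneg_right hn1 (Real.exp_pos (-s)).le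
        have e1 : Real.exp s * (1 + s) * Real.exp (-s) = 1 + s := by
          rw [mul_right_comm, ← Real.exp_add, add_neg_cancel, Real.exp_zero, one_mul]
        linarith
      calc (1 - Real.exp (-s)) ^ n * Real.exp s ≤ Real.exp (-(1 + s)) * Real.exp s :=
            mul_le_mul_of_nonneg_right (h1.trans (Real.exp_le_exp.2 (neg_le_neg h4)))
              (Real.exp_pos _).le
        _ = Real.exp (-1) := by rw [← Real.exp_add]; congr 1; ring
        _ ≤ 1 / 2 := by
            have := Real.exp_neg_one_lt_d9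
            linarith

end Pool.Agent.Q295.YM
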