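import Mathlib
import Pool.Agent.Q295.YM.LatSys

/-!
# Expectations in regions: covariances and changes of the region
-/

namespace Pool.Agent.Q295.YM

open MeasureTheory Function
open Pool.Agent.H556R4.Dob

set_option linter.unusedSectionVars false
set_option linter.unusedVariables false

variable {D : ℕ}
variable {G : Type} [Group G] [TopologicalSpace G] [IsTopologicalGroup G]
  [SecondCountableTopology G] [MeasurableSpace G] [BorelSpace G]
variable {μ : Measure G} [IsProbabilityMeasure μ]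

/-- the expectation with the weight `w` -/
noncomputable def ExW (μ : Measure G) [IsProbabilityMeasure μ] (w F : (Lnk D → G) → ℝ) : ℝ :=
  (∫ U, F U * w U ∂(Pinf (Lnk D) μ)) / ∫ U, w U ∂(Pinf (Lnk D) μ)

/-- the expectation in the region -/
noncomputable def Ex (μ : Measure G) [IsProbabilityMeasure μ] (χ : G → ℝ) (βe βm : ℝ) (a b : ℤ)
    (Λ : Finset (Fin D → ℤ)) (F : (Lnk D → G) → ℝ) : ℝ :=
  ExW μ (fun U => Real.exp (act χ βe βm a b Λ U)) F

/-- observables -/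
structure Ob (F : (Lnk D → G) → ℝ) (A : Finset (Lnk D)) : Prop where
  meas : Measurable F
  le : ∀ U, |F U| ≤ 1
  inv : GInv F
  dep : ∀ U U', (∀ l ∈ A, U l = U' l) → F U = F U'

lemma Ob.bm {F : (Lnk D → G) → ℝ} {A : Finset (Lnk D)} (h : Ob F A) : BM F := ⟨h.meas, 1, h.le⟩

lemma Ob.depR {F : (Lnk D → G) → ℝ} {A : Finset (Lnk D)} (h : Ob F A) {a b : ℤ}
    {Λ : Finset (Fin D → ℤ)} (hA : ∀ l ∈ A, InR a b Λ l) : DepR a b Λ F :=
  fun U U' hU => h.dep U U' fun l hl => hU l (hA l hl)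

lemma InR.mono {a b a' b' : ℤ} {Λ Λ' : Finset (Fin D → ℤ)} (ha : a' ≤ a) (hb : b ≤ b')
    (hΛ : Λ ⊆ Λ') {l : Lnk D} (h : InR a b Λ l) : InR a' b' Λ' l := by
  obtain ⟨⟨⟨h1, h2⟩, h3⟩, ⟨h4, h5⟩, h6⟩ := h
  exact ⟨⟨⟨ha.trans h1, h2.trans hb⟩, hΛ h3⟩, ⟨ha.trans h4, h5.trans hb⟩, hΛ h6⟩

lemma DepR.mono {a b a' b' : ℤ} {Λ Λ' : Finset (Fin D → ℤ)} (ha : a' ≤ a) (hb : b ≤ b')
    (hΛ : Λ ⊆ Λ') {Φ : (Lnk D → G) → ℝ} (h : DepR a b Λ Φ) : DepR a' b' Λ' Φ :=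
  fun U U' hU => h U U' fun l hl => hU l (hl.mono ha hb hΛ)

lemma DepR.mul {a b : ℤ} {Λ : Finset (Fin D → ℤ)} {Φ Ψ : (Lnk D → G) → ℝ} (h : DepR a b Λ Φ)
    (h' : DepR a b Λ Ψ) : DepR a b Λ fun U => Φ U * Ψ U := fun U U' hU => by
  simp only; rw [h U U' hU, h' U U' hU]

lemma GInv.mul {Φ Ψ : (Lnk D → G) → ℝ} (h : GInv Φ) (h' : GInv Ψ) : GInv fun U => Φ U * Ψ U :=
  fun γ U => by simp only; rw [h, h']

lemma E1_scale {ι X : Type} [Fintype ι] [DecidableEq ι] [MeasurableSpace X] (ν : Measure X)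
    [IsProbabilityMeasure ν] {C : ℝ} (hC : C ≠ 0) (H f : (ι → X) → ℝ) :
    E1 ν (fun V => C * H V) f = E1 ν H f := by
  unfold E1
  have h1 : ∀ U, f U * (C * H U) = C * (f U * H U) := fun U => by ring
  simp only [h1]
  rw [integral_const_mul, integral_const_mul, mul_div_mul_left _ _ hC]

variable [μ.IsMulLeftInvariant] [μ.IsMulRightInvariant]

lemma ExW_temporal {a b : ℤ} {Λ : Finset (Fin D → ℤ)} {w F : (Lnk D → G) → ℝ} (hw : PB w)
    (hwg : GInv w) (hwd : DepR a b Λ w) (hF : BM F) (hFg : GInv F) (hFd : DepR a b Λ F) :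
    ExW μ w F = E1 (Pm μ) (fun V => w (emb a (b - a).toNat Λ V))
      (fun V => F (emb a (b - a).toNat Λ V)) := by
  unfold ExW E1
  rw [temporal (hF.mul hw.bm) (hFg.mul hwg) (hFd.mul hwd), temporal hw.bm hwg hwd]

variable {χ : G → ℝ} {k : G → G → ℝ} {βe βm M c : ℝ} {m : ℕ}

lemma w_pb (hχ : Cf χ M) (βe βm : ℝ) (a b : ℤ) (Λ : Finset (Fin D → ℤ)) :
    PB fun U : Lnk D → G => Real.exp (act χ βe βm a b Λ U) := PB.exp (act_bm hχ βe βm a b Λ)

lemma w_inv (hχ : Cf χ M) (βe βm : ℝ) (a b : ℤ) (Λ : Finset (Fin D → ℤ)) :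
    GInv fun U : Lnk D → G => Real.exp (act χ βe βm a b Λ U) := fun γ U => by
  simp only; rw [act_gtr hχ]

lemma w_dep (χ : G → ℝ) (βe βm : ℝ) (a b : ℤ) (Λ : Finset (Fin D → ℤ)) :
    DepR a b Λ fun U : Lnk D → G => Real.exp (act χ βe βm a b Λ U) := fun U U' hU => by
  simp only; rw [act_dep βe βm a b Λ U U' hU]

/-- the expectation in the region in terms of the system of columns -/
lemma Ex_eq (hP : Par μ D χ k βe βm M c m) {a b : ℤ} (hab : a ≤ b) {Λ : Finset (Fin D → ℤ)}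
    {F : (Lnk D → G) → ℝ} (hF : BM F) (hFg : GInv F) (hFd : DepR a b Λ F) :
    Ex μ χ βe βm a b Λ F = E1 (Pm μ) (LS χ k βm (b - a).toNat Λ).H
      (fun V => F (emb a (b - a).toNat Λ V)) := by
  unfold Ex
  rw [ExW_temporal (w_pb hP.cf βe βm a b Λ) (w_inv hP.cf βe βm a b Λ) (w_dep χ βe βm a b Λ) hF hFg
    hFd]
  have h1 : (LS χ k βm (b - a).toNat Λ).H = fun V : EL Λ → Fin ((b - a).toNat + 1) → G =>
      (c ^ (b - a).toNat) ^ (Fintype.card (EL Λ)) *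
        Real.exp (act χ βe βm a b Λ (emb a (b - a).toNat Λ V)) := by
    funext V
    exact H_emb hP.cf hP.hk hab V
  have hc : (c ^ (b - a).toNat) ^ (Fintype.card (EL Λ)) ≠ 0 := by
    have := hP.c0
    positivity
  have h2 := E1_scale (Pm μ : Measure (Fin ((b - a).toNat + 1) → G)) hc
    (fun V : EL Λ → Fin ((b - a).toNat + 1) → G =>
      Real.exp (act χ βe βm a b Λ (emb a (b - a).toNat Λ V)))
    (fun V => F (emb a (b - a).toNat Λ V))
  rw [← h2, ← h1]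
  rfl

/-- the columns which meet `A` -/
noncomputable def cols (Λ : Finset (Fin D → ℤ)) (A : Finset (Lnk D)) : Finset (EL Λ) :=
  Finset.univ.filter fun e => (e.1.1, some e.1.2) ∈ A.image fun l => (l.1.2, l.2)

lemma cols_card (Λ : Finset (Fin D → ℤ)) (A : Finset (Lnk D)) : (cols Λ A).card ≤ A.card := by
  refine le_trans ?_ (Finset.card_image_le (s := A) (f := fun l : Lnk D => (l.1.2, l.2)))
  refine Finset.card_le_card_of_injOn (fun e : EL Λ => (e.1.1, some e.1.2)) ?_ ?_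
  · intro e he
    unfold cols at he
    rw [Finset.mem_coe, Finset.mem_filter] at he
    exact he.2
  · intro e _ e' _ h
    simp only [Prod.mk.injEq, Option.some.injEq] at h
    exact Subtype.ext (Prod.ext h.1 h.2)

lemma mem_cols {Λ : Finset (Fin D → ℤ)} {A : Finset (Lnk D)} {e : EL Λ} :
    e ∈ cols Λ A ↔ ∃ l ∈ A, l.1.2 = e.1.1 ∧ l.2 = some e.1.2 := by
  unfold cols
  rw [Finset.mem_filter, Finset.mem_image]
  simp only [Finset.mem_univ, true_and, Prod.mk.injEq]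

lemma mem_cols' {Λ : Finset (Fin D → ℤ)} {A : Finset (Lnk D)} {x : Site D} {j : Fin D}
    (hl : (x, some j) ∈ A) (h : (x.2, j) ∈ EL Λ) : (⟨(x.2, j), h⟩ : EL Λ) ∈ cols Λ A :=
  mem_cols.2 ⟨_, hl, rfl, rfl⟩

/-- dependence of an observable on the columns -/
lemma emb_dep {F : (Lnk D → G) → ℝ} {A : Finset (Lnk D)} (hF : Ob F A) {a b : ℤ}
    {Λ : Finset (Fin D → ℤ)} (hA : ∀ l ∈ A, InR a b Λ l)
    {V V' : EL Λ → Fin ((b - a).toNat + 1) → G} (P : ℕ → Prop)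
    (hV : ∀ e ∈ cols Λ A, ∀ w : Fin ((b - a).toNat + 1), P w → V e w = V' e w)
    (hP : ∀ l ∈ A, l.2 ≠ none → P (l.1.1 - a).toNat) :
    F (emb a (b - a).toNat Λ V) = F (emb a (b - a).toNat Λ V') := by
  refine hF.dep _ _ fun l hl => ?_
  obtain ⟨x, i⟩ := l
  cases i with
  | none => rfl
  | some j =>
    rw [emb_some, emb_some]
    unfold ext
    split_ifs with h
    · refine hV _ (mem_cols' hl h) _ ?_
      have h1 := (hA _ hl).1.1
      simp only at h1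
      rw [cc_val (by omega)]
      exact hP _ hl (by simp)
    · rfl

/-- **Covariances in a region.** -/
theorem cov_region (hP : Par μ D χ k βe βm M c m) {a b : ℤ} (hab : a ≤ b)
    {Λ : Finset (Fin D → ℤ)} {F1 F2 : (Lnk D → G) → ℝ} {A1 A2 : Finset (Lnk D)} (h1 : Ob F1 A1)
    (h2 : Ob F2 A2) (hA1 : ∀ l ∈ A1, InR a b Λ l) (hA2 : ∀ l ∈ A2, InR a b Λ l) {p : ℤ}
    {h τ r : ℕ} (hap : a ≤ p) (hw : ∀ l ∈ A1, p ≤ l.1.1 ∧ l.1.1 ≤ p + h)
    (hτ : τ = 0 ∨ ∀ l ∈ A2, p + h + τ ≤ l.1.1)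
    (hr : ∀ l ∈ A1, ∀ l' ∈ A2, r ≤ sdist l.1.2 l'.1.2) :
    |Ex μ χ βe βm a b Λ (fun U => F1 U * F2 U) -
      Ex μ χ βe βm a b Λ F1 * Ex μ χ βe βm a b Λ F2| ≤
      12 * ((h + 1 + 100 * m) * qq m ^ τ) * (A1.card * Real.exp (-(r : ℝ))) := by
  rw [Ex_eq hP hab (h1.bm.mul h2.bm) (h1.inv.mul h2.inv) ((h1.depR hA1).mul (h2.depR hA2)),
    Ex_eq hP hab h1.bm h1.inv (h1.depR hA1), Ex_eq hP hab h2.bm h2.inv (h2.depR hA2)]
  have hem : Measurable (emb (G := G) a (b - a).toNat Λ) := (cont_emb a _ Λ).measurable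
  obtain ⟨t, ht1, ht2⟩ : ∃ t : ℕ, ((t = 0 ∧ τ = 0) ∨ t = (p - a).toNat + h + τ) ∧
      ∀ l ∈ A2, t ≤ (l.1.1 - a).toNat := by
    rcases hτ with hτ | hτ
    · exact ⟨0, Or.inl ⟨rfl, hτ⟩, fun _ _ => Nat.zero_le _⟩
    · refine ⟨_, Or.inr rfl, fun l hl => ?_⟩
      have := hτ l hl
      omega
  have h3 := (hP.weak (b - a).toNat Λ).decay (a := (p - a).toNat) (h := h) (τ := τ) t ht1
    (F := fun V => F2 (emb a (b - a).toNat Λ V)) (h2.bm.comp hem) (fun V => h2.le _) (cols Λ A2)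
    (fun V V' hV => emb_dep h2 hA2 (fun w => t ≤ w) hV fun l hl _ => ht2 l hl)
    (g := gd (cols Λ A2)) (gd_nonneg _) (fun e he => gd_mem he)
    (fun e y hey => gd_nb (χ := χ) (k := k) (βm := βm) (T := (b - a).toNat) _ e y hey)
    (f := fun V => F1 (emb a (b - a).toNat Λ V)) (h1.bm.comp hem) (fun V => h1.le _) (cols Λ A1)
    (fun V V' hV => emb_dep h1 hA1 (fun w => (p - a).toNat ≤ w ∧ w ≤ (p - a).toNat + h)
      (fun e he w hw => hV e he w hw.1 hw.2) fun l hl _ => by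
        have := hw l hl
        constructor <;> omega)
  refine h3.trans ?_
  have h4 : ∑ e ∈ cols Λ A1, gd (cols Λ A2) e ≤ A1.card * Real.exp (-(r : ℝ)) := by
    refine (sum_gd (r := r) fun e he y hy => ?_).trans ?_
    · obtain ⟨l, hl, h5, -⟩ := mem_cols.1 he
      obtain ⟨l', hl', h6, -⟩ := mem_cols.1 hy
      rw [← h5, ← h6]
      exact hr l hl l' hl'
    · exact mul_le_mul_of_nonneg_right (by exact_mod_cast cols_card Λ A1) (Real.exp_pos _).le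
  exact mul_le_mul_of_nonneg_left h4 (mul_nonneg (by norm_num)
    (mul_nonneg (by positivity) (pow_pos (qq_pos m) _).le))

end Pool.Agent.Q295.YM
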