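import Mathlib
import Pool.Agent.Q295.YM.Region

/-!
# Changes of the region
-/

namespace Pool.Agent.Q295.YM

open MeasureTheory Function
open Pool.Agent.H556R4.Dob

set_option linter.unusedSectionVars false
set_option linter.unusedVariables false

variable {D : ℕ}
variable {G : Type} [Group G] [TopologicalSpace G] [IsTopologicalGroup G]
  [SecondCountableTopology G] [MeasurableSpace G] [BorelSpace G]
variable {μ : Measure G} [IsProbabilityMeasure μ] [μ.IsMulLeftInvariant] [μ.IsMulRightInvariant]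
variable {χ : G → ℝ} {k : G → G → ℝ} {βe βm M c : ℝ} {m : ℕ}

/-- change of the weight -/
theorem change_gen (hP : Par μ D χ k βe βm M c m) {a b : ℤ} (hab : a ≤ b)
    {Λ : Finset (Fin D → ℤ)} {Fr : (Lnk D → G) → ℝ} (hFr : PB Fr) (hFrg : GInv Fr)
    (hFrd : DepR a b Λ Fr) {t : ℕ} (ht : t ≤ (b - a).toNat) (Y : Finset (EL Λ))
    (hdep : ∀ V V' : EL Λ → Fin ((b - a).toNat + 1) → G, (∀ e ∈ Y, ∀ w : Fin ((b - a).toNat + 1),
      t ≤ (w : ℕ) → V e w = V' e w) →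
        Fr (emb a (b - a).toNat Λ V) = Fr (emb a (b - a).toNat Λ V'))
    {F : (Lnk D → G) → ℝ} {A : Finset (Lnk D)} (hF : Ob F A) (hA : ∀ l ∈ A, InR a b Λ l)
    {p : ℤ} {h τ : ℕ} (hap : a ≤ p) (hw : ∀ l ∈ A, p ≤ l.1.1 ∧ l.1.1 ≤ p + h)
    (hc : (t = 0 ∧ τ = 0) ∨ t = (p - a).toNat + h + τ)
    {g : EL Λ → ℝ} (hg0 : ∀ e, 0 ≤ g e) (hgY : ∀ e ∈ Y, 1 ≤ g e)
    (hgn : ∀ e y : EL Λ, (∃ p : PL Λ, e.1 ∈ four p.1 ∧ y.1 ∈ four p.1) → g y ≤ 3 * g e) :
    |Ex μ χ βe βm a b Λ F - ExW μ (fun U => Real.exp (act χ βe βm a b Λ U) * Fr U) F| ≤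
      4 * ((h + 1 + 100 * m) * qq m ^ τ) * ∑ e ∈ cols Λ A, g e := by
  have hem : Measurable (emb (G := G) a (b - a).toNat Λ) := (cont_emb a _ Λ).measurable
  have hd := hF.depR hA
  rw [Ex_eq hP hab hF.bm hF.inv hd, ExW_temporal ((w_pb hP.cf βe βm a b Λ).mul hFr)
    ((w_inv hP.cf βe βm a b Λ).mul hFrg) ((w_dep χ βe βm a b Λ).mul hFrd) hF.bm hF.inv hd]
  have hcc : (c ^ (b - a).toNat) ^ (Fintype.card (EL Λ)) ≠ 0 := by
    have := hP.c0
    positivity
  have h2 := E1_scale (Pm μ : Measure (Fin ((b - a).toNat + 1) → G)) hcc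
    (fun V : EL Λ → Fin ((b - a).toNat + 1) → G =>
      Real.exp (act χ βe βm a b Λ (emb a (b - a).toNat Λ V)) * Fr (emb a (b - a).toNat Λ V))
    (fun V => F (emb a (b - a).toNat Λ V))
  rw [← h2]
  have h3 : (fun V : EL Λ → Fin ((b - a).toNat + 1) → G =>
      (c ^ (b - a).toNat) ^ (Fintype.card (EL Λ)) *
        (Real.exp (act χ βe βm a b Λ (emb a (b - a).toNat Λ V)) *
          Fr (emb a (b - a).toNat Λ V))) = fun V =>
      (LS χ k βm (b - a).toNat Λ).H V * Fr (emb a (b - a).toNat Λ V) := by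
    funext V
    rw [H_emb hP.cf hP.hk hab V]; ring
  rw [h3]
  exact (hP.weak (b - a).toNat Λ).change (a := (p - a).toNat) (h := h) (τ := τ) (t := t) ht hc
    (F := fun V => Fr (emb a (b - a).toNat Λ V)) (hFr.comp hem) Y hdep hg0 hgY
    (fun e y ⟨q, h4, h5⟩ => hgn e y ⟨q, mem_supp.1 h4, mem_supp.1 h5⟩)
    (f := fun V => F (emb a (b - a).toNat Λ V)) (hF.bm.comp hem) (fun V => hF.le _) (cols Λ A)
    (fun V V' hV => emb_dep hF hA (fun w => (p - a).toNat ≤ w ∧ w ≤ (p - a).toNat + h)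
      (fun e he w hw => hV e he w hw.1 hw.2) fun l hl _ => by
        have := hw l hl
        constructor <;> omega)

/-- the part of the action above the time `b` -/
noncomputable def xtr (χ : G → ℝ) (βe βm : ℝ) (b b' : ℤ) (Λ : Finset (Fin D → ℤ))
    (U : Lnk D → G) : ℝ :=
  βe * ∑ t ∈ Finset.Ico b b', ∑ e ∈ EL Λ, χ (plq U (t, e.1) none (some e.2)) +
    βm * ∑ t ∈ Finset.Ioc b b', ∑ p ∈ PL Λ, χ (plq U (t, p.1) (some p.2.1) (some p.2.2))

lemma act_xtr {a b b' : ℤ} (hab : a ≤ b) (hbb : b ≤ b') (Λ : Finset (Fin D → ℤ))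
    (U : Lnk D → G) : act χ βe βm a b' Λ U = act χ βe βm a b Λ U + xtr χ βe βm b b' Λ U := by
  unfold act xtr
  have h0 : Finset.Icc a b' = Finset.Icc a b ∪ Finset.Ioc b b' := by
    ext t
    rw [Finset.mem_union, Finset.mem_Icc, Finset.mem_Icc, Finset.mem_Ioc]
    omega
  rw [← Finset.Ico_union_Ico_eq_Ico hab hbb,
    Finset.sum_union (Finset.Ico_disjoint_Ico_consecutive a b b'), h0, Finset.sum_union]
  · ring
  · rw [Finset.disjoint_left]
    intro t ht ht'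
    rw [Finset.mem_Icc] at ht
    rw [Finset.mem_Ioc] at ht'
    omega

lemma xtr_dep (χ : G → ℝ) (βe βm : ℝ) (b b' : ℤ) (Λ : Finset (Fin D → ℤ)) :
    DepR b b' Λ (xtr (G := G) χ βe βm b b' Λ) := by
  intro U U' h
  unfold xtr
  congr 2
  · refine Finset.sum_congr rfl fun t ht => Finset.sum_congr rfl fun e he => ?_
    rw [Finset.mem_Ico] at ht
    rw [mem_EL] at he
    rw [plq_dep h]
    · exact ⟨⟨ht.1, ht.2.le⟩, he.1⟩
    · exact ⟨⟨by simp only [tip_none]; omega, by simp only [tip_none]; omega⟩, he.1⟩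
    · exact ⟨⟨ht.1, ht.2.le⟩, he.2⟩
    · exact ⟨⟨by simp only [tip_none, tip_some]; omega, by simp only [tip_none, tip_some]; omega⟩,
        he.2⟩
  · refine Finset.sum_congr rfl fun t ht => Finset.sum_congr rfl fun p hp => ?_
    rw [Finset.mem_Ioc] at ht
    rw [mem_PL] at hp
    have ht' : b ≤ t ∧ t ≤ b' := ⟨by omega, ht.2⟩
    rw [plq_dep h]
    · exact ⟨ht', hp.1⟩
    · exact ⟨ht', hp.2.2.1⟩
    · exact ⟨ht', hp.2.2.2.1⟩
    · exact ⟨ht', hp.2.2.2.2⟩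

lemma emb_agree {a b b' : ℤ} (hab : a ≤ b) (hbb : b ≤ b') {Λ : Finset (Fin D → ℤ)}
    {V V' : EL Λ → Fin ((b' - a).toNat + 1) → G}
    (hV : ∀ e, ∀ w : Fin ((b' - a).toNat + 1), (b - a).toNat ≤ (w : ℕ) → V e w = V' e w)
    (l : Lnk D) (hl : InR b b' Λ l) :
    emb a (b' - a).toNat Λ V l = emb a (b' - a).toNat Λ V' l := by
  obtain ⟨x, i⟩ := l
  cases i with
  | none => rfl
  | some j =>
    rw [emb_some, emb_some]
    unfold ext
    split_ifs with h
    · have h1 := hl.1.1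
      simp only at h1
      refine hV _ _ ?_
      rw [cc_val (by omega)]
      omega
    · rfl

/-- **Extension of the region in the time direction.** -/
theorem ext_top (hP : Par μ D χ k βe βm M c m) {a b b' : ℤ} (hab : a ≤ b) (hbb : b ≤ b')
    {Λ : Finset (Fin D → ℤ)} {F : (Lnk D → G) → ℝ} {A : Finset (Lnk D)} (hF : Ob F A)
    (hA : ∀ l ∈ A, InR a b Λ l) {p : ℤ} {h τ : ℕ} (hap : a ≤ p)
    (hw : ∀ l ∈ A, p ≤ l.1.1 ∧ l.1.1 ≤ p + h) (hτ : p + h + τ ≤ b) :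
    |Ex μ χ βe βm a b' Λ F - Ex μ χ βe βm a b Λ F| ≤
      4 * ((h + 1 + 100 * m) * qq m ^ τ) * A.card := by
  obtain ⟨τ', hτ'⟩ : ∃ τ', τ' = (b - a).toNat - (p - a).toNat - h := ⟨_, rfl⟩
  have hA' : ∀ l ∈ A, InR a b' Λ l := fun l hl => (hA l hl).mono le_rfl hbb (Finset.Subset.refl _)
  have e1 : ∀ U : Lnk D → G, Real.exp (act χ βe βm a b Λ U) =
      Real.exp (act χ βe βm a b' Λ U) * Real.exp (-xtr χ βe βm b b' Λ U) := fun U => by
    rw [← Real.exp_add, act_xtr hab hbb]; congr 1; ring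
  have e2 : ∀ U : Lnk D → G, xtr χ βe βm b b' Λ U =
      act χ βe βm a b' Λ U - act χ βe βm a b Λ U := fun U => by rw [act_xtr hab hbb]; ring
  have hxb : BM (xtr (G := G) χ βe βm b b' Λ) := by
    have : xtr (G := G) χ βe βm b b' Λ = fun U => act χ βe βm a b' Λ U - act χ βe βm a b Λ U :=
      funext e2
    rw [this]
    exact BM.sub' (act_bm hP.cf βe βm a b' Λ) (act_bm hP.cf βe βm a b Λ)
  have hxi : GInv (xtr (G := G) χ βe βm b b' Λ) := fun γ U => by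
    rw [e2, e2, act_gtr hP.cf, act_gtr hP.cf]
  have hFr : PB fun U : Lnk D → G => Real.exp (-xtr χ βe βm b b' Λ U) := by
    refine PB.exp ⟨hxb.meas.neg, ?_⟩
    obtain ⟨C, hC⟩ := hxb.bdd
    exact ⟨C, fun U => by rw [abs_neg]; exact hC U⟩
  have h1 := change_gen hP (hab.trans hbb) (Λ := Λ) hFr (fun γ U => by simp only; rw [hxi])
    (fun U U' hU => by
      simp only
      rw [xtr_dep χ βe βm b b' Λ U U' fun l hl => hU l (hl.mono hab le_rfl (Finset.Subset.refl _))])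
    (t := (b - a).toNat) (by omega) Finset.univ
    (fun V V' hV => by
      rw [xtr_dep χ βe βm b b' Λ _ _ (emb_agree hab hbb fun e w hw => hV e (Finset.mem_univ _) w hw)])
    hF hA' (p := p) (h := h) (τ := τ') hap hw (Or.inr (by omega))
    (g := fun _ => 1) (fun _ => zero_le_one) (fun _ _ => le_rfl) (fun _ _ _ => by norm_num)
  simp only [← e1] at h1
  refine h1.trans ?_
  have h2 : qq m ^ τ' ≤ qq m ^ τ := pow_le_pow_of_le_one (qq_pos m).le (qq_le_one m) (by omega)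
  have h3 : (∑ e ∈ cols Λ A, (1 : ℝ)) ≤ A.card := by
    rw [Finset.sum_const, nsmul_eq_mul, mul_one]
    exact_mod_cast cols_card Λ A
  have h4 : (0 : ℝ) ≤ h + 1 + 100 * m := by positivity
  refine mul_le_mul (mul_le_mul_of_nonneg_left (mul_le_mul_of_nonneg_left h2 h4) (by norm_num)) h3
    (by simp) (mul_nonneg (by norm_num) (mul_nonneg h4 (pow_pos (qq_pos m) _).le))

lemma EL_mono {Λ Λ' : Finset (Fin D → ℤ)} (h : Λ ⊆ Λ') : EL Λ ⊆ EL Λ' := fun e he => by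
  rw [mem_EL] at he ⊢
  exact ⟨h he.1, h he.2⟩

lemma PL_mono {Λ Λ' : Finset (Fin D → ℤ)} (h : Λ ⊆ Λ') : PL Λ ⊆ PL Λ' := fun e he => by
  rw [mem_PL] at he ⊢
  exact ⟨h he.1, he.2.1, h he.2.2.1, h he.2.2.2.1, h he.2.2.2.2⟩

open Classical in
/-- the columns near the boundary -/
noncomputable def bdY (Λ Λ' : Finset (Fin D → ℤ)) : Finset (EL Λ') :=
  Finset.univ.filter fun e => e.1 ∉ EL Λ ∨ ∃ p ∈ PL Λ' \ PL Λ, e.1 ∈ four p

lemma bdY_near {Λ Λ' : Finset (Fin D → ℤ)} {e : EL Λ'} (he : e ∈ bdY Λ Λ') :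
    ∃ z, z ∉ Λ ∧ sdist e.1.1 z ≤ 1 := by
  unfold bdY at he
  rw [Finset.mem_filter] at he
  rcases he.2 with h1 | ⟨p, hp, hep⟩
  · by_cases h2 : e.1.1 ∈ Λ
    · refine ⟨e.1.1 + Pi.single e.1.2 1, fun h3 => h1 (mem_EL.2 ⟨h2, h3⟩), sdist_le.2 fun i => ?_⟩
      simp only [Pi.add_apply, single_coord]
      split_ifs <;> omega
    · exact ⟨e.1.1, h2, by rw [sdist_self]; omega⟩
  · rw [Finset.mem_sdiff] at hp
    obtain ⟨hp1, hp2⟩ := hp
    rw [mem_PL] at hp1 hp2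
    have hne : p.2.1 ≠ p.2.2 := ne_of_lt hp1.2.1
    have hz : ∃ z, z ∉ Λ ∧ ∀ i, p.1 i ≤ z i ∧ z i ≤ p.1 i + 1 := by
      by_contra hcon
      push Not at hcon
      apply hp2
      have hk : ∀ z, (∀ i, p.1 i ≤ z i ∧ z i ≤ p.1 i + 1) → z ∈ Λ := by
        intro z hz
        by_contra h
        obtain ⟨i, hi⟩ := hcon z h
        have := hz i
        have := hi this.1
        omega
      refine ⟨hk _ fun i => ⟨le_rfl, by omega⟩, hp1.2.1, hk _ fun i => ?_, hk _ fun i => ?_,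
        hk _ fun i => ?_⟩
      · simp only [Pi.add_apply, single_coord]; split_ifs <;> omega
      · simp only [Pi.add_apply, single_coord]; split_ifs <;> omega
      · simp only [Pi.add_apply, single_coord]
        by_cases h3 : i = p.2.1
        · have h4 : i ≠ p.2.2 := by rw [h3]; exact hne
          rw [if_pos h3, if_neg h4]; omega
        · rw [if_neg h3]; split_ifs <;> omega
    obtain ⟨z, hz1, hz2⟩ := hz
    refine ⟨z, hz1, sdist_le.2 fun i => ?_⟩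
    have h3 := four_base hep i
    have h4 := hz2 i
    omega

/-- the part of the action outside the smaller region -/
noncomputable def ytr (χ : G → ℝ) (βe βm : ℝ) (a b : ℤ) (Λ Λ' : Finset (Fin D → ℤ))
    (U : Lnk D → G) : ℝ :=
  βe * ∑ t ∈ Finset.Ico a b, ∑ e ∈ EL Λ' \ EL Λ, χ (plq U (t, e.1) none (some e.2)) +
    βm * ∑ t ∈ Finset.Icc a b, ∑ p ∈ PL Λ' \ PL Λ, χ (plq U (t, p.1) (some p.2.1) (some p.2.2))

lemma act_ytr (a b : ℤ) {Λ Λ' : Finset (Fin D → ℤ)} (hΛ : Λ ⊆ Λ')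
    (U : Lnk D → G) : act χ βe βm a b Λ' U = act χ βe βm a b Λ U + ytr χ βe βm a b Λ Λ' U := by
  unfold act ytr
  have h1 : ∀ t : ℤ, ∑ e ∈ EL Λ', χ (plq U (t, e.1) none (some e.2)) =
      ∑ e ∈ EL Λ, χ (plq U (t, e.1) none (some e.2)) +
      ∑ e ∈ EL Λ' \ EL Λ, χ (plq U (t, e.1) none (some e.2)) := fun t => by
    rw [add_comm, Finset.sum_sdiff (EL_mono hΛ)]
  have h2 : ∀ t : ℤ, ∑ p ∈ PL Λ', χ (plq U (t, p.1) (some p.2.1) (some p.2.2)) =
      ∑ p ∈ PL Λ, χ (plq U (t, p.1) (some p.2.1) (some p.2.2)) +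
      ∑ p ∈ PL Λ' \ PL Λ, χ (plq U (t, p.1) (some p.2.1) (some p.2.2)) := fun t => by
    rw [add_comm, Finset.sum_sdiff (PL_mono hΛ)]
  simp only [h1, h2, Finset.sum_add_distrib]
  ring

/-- **Extension of the region in the space directions.** -/
theorem ext_space (hP : Par μ D χ k βe βm M c m) {a b : ℤ} (hab : a ≤ b)
    {Λ Λ' : Finset (Fin D → ℤ)} (hΛ : Λ ⊆ Λ') {F : (Lnk D → G) → ℝ} {A : Finset (Lnk D)}
    (hF : Ob F A) (hA : ∀ l ∈ A, InR a b Λ l) {p : ℤ} {h r : ℕ} (hap : a ≤ p)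
    (hw : ∀ l ∈ A, p ≤ l.1.1 ∧ l.1.1 ≤ p + h) (hr : ∀ l ∈ A, ∀ z, sdist l.1.2 z ≤ r → z ∈ Λ) :
    |Ex μ χ βe βm a b Λ' F - Ex μ χ βe βm a b Λ F| ≤
      4 * (h + 1 + 100 * m) * (A.card * Real.exp (-(r : ℝ))) := by
  have hA' : ∀ l ∈ A, InR a b Λ' l := fun l hl => (hA l hl).mono le_rfl le_rfl hΛ
  have e1 : ∀ U : Lnk D → G, Real.exp (act χ βe βm a b Λ U) =
      Real.exp (act χ βe βm a b Λ' U) * Real.exp (-ytr χ βe βm a b Λ Λ' U) := fun U => by
    rw [← Real.exp_add, act_ytr a b hΛ]; congr 1; ring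
  have e2 : ∀ U : Lnk D → G, ytr χ βe βm a b Λ Λ' U =
      act χ βe βm a b Λ' U - act χ βe βm a b Λ U := fun U => by rw [act_ytr a b hΛ]; ring
  have hxb : BM (ytr (G := G) χ βe βm a b Λ Λ') := by
    have : ytr (G := G) χ βe βm a b Λ Λ' = fun U => act χ βe βm a b Λ' U - act χ βe βm a b Λ U :=
      funext e2
    rw [this]
    exact BM.sub' (act_bm hP.cf βe βm a b Λ') (act_bm hP.cf βe βm a b Λ)
  have hxi : GInv (ytr (G := G) χ βe βm a b Λ Λ') := fun γ U => by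
    rw [e2, e2, act_gtr hP.cf, act_gtr hP.cf]
  have hFr : PB fun U : Lnk D → G => Real.exp (-ytr χ βe βm a b Λ Λ' U) := by
    refine PB.exp ⟨hxb.meas.neg, ?_⟩
    obtain ⟨C, hC⟩ := hxb.bdd
    exact ⟨C, fun U => by rw [abs_neg]; exact hC U⟩
  have h1 := change_gen hP hab (Λ := Λ') hFr (fun γ U => by simp only; rw [hxi])
    (fun U U' hU => by
      simp only
      rw [e2, e2, act_dep βe βm a b Λ' U U' hU, act_dep βe βm a b Λ U U' fun l hl =>
        hU l (hl.mono le_rfl le_rfl hΛ)])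
    (t := 0) (Nat.zero_le _) (bdY Λ Λ')
    (fun V V' hV => by
      have hcol : ∀ e : EL Λ', (e.1 ∉ EL Λ ∨ ∃ p ∈ PL Λ' \ PL Λ, e.1 ∈ four p) →
          ∀ w, V e w = V' e w := fun e he w => hV e (by
        unfold bdY
        rw [Finset.mem_filter]
        exact ⟨Finset.mem_univ _, he⟩) w (Nat.zero_le _)
      have hy : ytr χ βe βm a b Λ Λ' (emb a (b - a).toNat Λ' V) =
          ytr χ βe βm a b Λ Λ' (emb a (b - a).toNat Λ' V') := by
        unfold ytr
        congr 2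
        · refine Finset.sum_congr rfl fun t ht => Finset.sum_congr rfl fun e he => ?_
          rw [Finset.mem_sdiff] at he
          rw [plq_emb_time, plq_emb_time, ext_mem _ he.1, ext_mem _ he.1, ext_mem _ he.1,
            ext_mem _ he.1]
          rw [hcol ⟨e, he.1⟩ (Or.inl he.2), hcol ⟨e, he.1⟩ (Or.inl he.2)]
        · refine Finset.sum_congr rfl fun t ht => Finset.sum_congr rfl fun p hp => ?_
          rw [plq_emb_space, plq_emb_space]
          congr 1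
          refine sqv_congr fun e he => ?_
          have h5 : e ∈ EL Λ' := four_EL (Finset.mem_sdiff.1 hp).1 he
          rw [ext_mem _ h5, ext_mem _ h5]
          exact hcol ⟨e, h5⟩ (Or.inr ⟨p, hp, he⟩) _
      rw [hy])
    hF hA' (p := p) (h := h) (τ := 0) hap hw (Or.inl ⟨rfl, rfl⟩)
    (g := gd (bdY Λ Λ')) (gd_nonneg _) (fun e he => gd_mem he) (fun e y ⟨q, h4, h5⟩ =>
      gd_nb (χ := χ) (k := k) (βm := βm) (T := (b - a).toNat) _ e y
        ⟨q, mem_supp.2 h4, mem_supp.2 h5⟩)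
  simp only [← e1] at h1
  refine h1.trans ?_
  have h4 : ∑ e ∈ cols Λ' A, gd (bdY Λ Λ') e ≤ A.card * Real.exp (-(r : ℝ)) := by
    refine (sum_gd (r := r) fun e he y hy => ?_).trans ?_
    · obtain ⟨l, hl, h5, -⟩ := mem_cols.1 he
      obtain ⟨z, hz1, hz2⟩ := bdY_near hy
      rw [← h5]
      by_contra hcon
      push Not at hcon
      apply hz1
      refine hr l hl z ?_
      have := sdist_tri l.1.2 y.1.1 z
      omega
    · exact mul_le_mul_of_nonneg_right (by exact_mod_cast cols_card Λ' A) (Real.exp_pos _).le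
  rw [pow_zero, mul_one]
  exact mul_le_mul_of_nonneg_left h4 (by positivity)

end Pool.Agent.Q295.YM
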