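import Mathlib
import Pool.Agent.Q295.YM.Region2

/-!
# Reflections, translations; comparison of regions
-/

namespace Pool.Agent.Q295.YM

open MeasureTheory Function
open Pool.Agent.H556R4.Dob

set_option linter.unusedSectionVars false
set_option linter.unusedVariables false

variable {D : ℕ}

/-- reflection of a link -/
def rlk (l : Lnk D) : Lnk D :=
  if l.2 = none then ((-l.1.1 - 1, l.1.2), none) else ((-l.1.1, l.1.2), l.2)

lemma rlk_none (x : Site D) : rlk (x, none) = ((-x.1 - 1, x.2), none) := rfl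

lemma rlk_some (x : Site D) (j : Fin D) : rlk (x, some j) = ((-x.1, x.2), some j) := rfl

lemma rlk_rlk (l : Lnk D) : rlk (rlk l) = l := by
  obtain ⟨⟨t, x⟩, i⟩ := l
  cases i with
  | none => rw [rlk_none, rlk_none]; simp
  | some j => rw [rlk_some, rlk_some]; simp

/-- translation of a region -/
def trR (y : Fin D → ℤ) (Λ : Finset (Fin D → ℤ)) : Finset (Fin D → ℤ) :=
  Λ.map (addRightEmbedding y)

lemma mem_trR {y x : Fin D → ℤ} {Λ : Finset (Fin D → ℤ)} : x ∈ trR y Λ ↔ x - y ∈ Λ := by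
  unfold trR
  rw [Finset.mem_map]
  constructor
  · rintro ⟨z, hz, rfl⟩
    simpa using hz
  · intro h
    exact ⟨x - y, h, by simp⟩

section grp

variable {G : Type} [Group G]

/-- reflection of a configuration -/
def rfc (U : Lnk D → G) : Lnk D → G := fun l => if l.2 = none then (U (rlk l))⁻¹ else U (rlk l)

/-- translation of a configuration -/
def shf (v : Site D) (U : Lnk D → G) : Lnk D → G := fun l => U (l.1 + v, l.2)

lemma rfc_none (U : Lnk D → G) (x : Site D) : rfc U (x, none) = (U ((-x.1 - 1, x.2), none))⁻¹ := rfl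

lemma rfc_some (U : Lnk D → G) (x : Site D) (j : Fin D) :
    rfc U (x, some j) = U ((-x.1, x.2), some j) := rfl

lemma rfc_rfc (U : Lnk D → G) : rfc (rfc U) = U := by
  funext l
  obtain ⟨⟨t, x⟩, i⟩ := l
  cases i with
  | none => rw [rfc_none, rfc_none]; simp
  | some j => rw [rfc_some, rfc_some]; simp

lemma rfc_gtr (γ : Site D → G) (U : Lnk D → G) :
    rfc (gtr γ U) = gtr (fun x => γ (-x.1, x.2)) (rfc U) := by
  funext l
  obtain ⟨⟨t, x⟩, i⟩ := l
  cases i with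
  | none =>
    rw [rfc_none]
    unfold gtr
    simp only [tip_none, rfc_none]
    have h1 : -t - 1 + 1 = -t := by ring
    have h2 : -(t + 1) = -t - 1 := by ring
    rw [h1, h2]
    group
  | some j =>
    rw [rfc_some]
    unfold gtr
    simp only [tip_some, rfc_some]

lemma tip_add (x v : Site D) (i : Option (Fin D)) : tip (x + v) i = tip x i + v := by
  cases i with
  | none => simp only [tip_none, Prod.fst_add, Prod.snd_add]; ext1 <;> simp; ring
  | some j =>
    simp only [tip_some, Prod.fst_add, Prod.snd_add]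
    ext1
    · simp
    · simp only [Prod.snd_add]; rw [add_right_comm]

lemma shf_gtr (v : Site D) (γ : Site D → G) (U : Lnk D → G) :
    shf v (gtr γ U) = gtr (fun x => γ (x + v)) (shf v U) := by
  funext l
  unfold shf gtr
  simp only [tip_add]

lemma plq_shf (v : Site D) (U : Lnk D → G) (x : Site D) (i j : Option (Fin D)) :
    plq (shf v U) x i j = plq U (x + v) i j := by
  unfold plq shf
  simp only [tip_add]

lemma plq_rfc_space (U : Lnk D → G) (t : ℤ) (x : Fin D → ℤ) (i j : Fin D) :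
    plq (rfc U) (t, x) (some i) (some j) = plq U (-t, x) (some i) (some j) := rfl

lemma plq_rfc_time (U : Lnk D → G) (t : ℤ) (x : Fin D → ℤ) (j : Fin D) :
    plq (rfc U) (t, x) none (some j) =
      (U ((-t - 1, x), none))⁻¹ * (plq U (-t - 1, x) none (some j))⁻¹ *
        ((U ((-t - 1, x), none))⁻¹)⁻¹ := by
  unfold plq
  simp only [rfc_none, rfc_some, tip_none, tip_some]
  have h1 : -(t + 1) = -t - 1 := by ring
  have h2 : -t - 1 + 1 = -t := by ring
  rw [h1, h2]
  group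

variable {χ : G → ℝ} {βe βm M : ℝ}

lemma sum_refl_Ico (a b : ℤ) (f : ℤ → ℝ) :
    ∑ t ∈ Finset.Ico a b, f (-t - 1) = ∑ t ∈ Finset.Ico (-b) (-a), f t := by
  refine Finset.sum_nbij' (fun t => -t - 1) (fun t => -t - 1) ?_ ?_ ?_ ?_ ?_
  · intro t ht; rw [Finset.mem_Ico] at ht ⊢; omega
  · intro t ht; rw [Finset.mem_Ico] at ht ⊢; omega
  · intro t ht; ring
  · intro t ht; ring
  · intro t ht; rfl

lemma sum_refl_Icc (a b : ℤ) (f : ℤ → ℝ) :
    ∑ t ∈ Finset.Icc a b, f (-t) = ∑ t ∈ Finset.Icc (-b) (-a), f t := by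
  refine Finset.sum_nbij' (fun t => -t) (fun t => -t) ?_ ?_ ?_ ?_ ?_
  · intro t ht; rw [Finset.mem_Icc] at ht ⊢; omega
  · intro t ht; rw [Finset.mem_Icc] at ht ⊢; omega
  · intro t ht; ring
  · intro t ht; ring
  · intro t ht; rfl

lemma sum_shift_Ico (a b s : ℤ) (f : ℤ → ℝ) :
    ∑ t ∈ Finset.Ico a b, f (t + s) = ∑ t ∈ Finset.Ico (a + s) (b + s), f t := by
  refine Finset.sum_nbij' (fun t => t + s) (fun t => t - s) ?_ ?_ ?_ ?_ ?_
  · intro t ht; rw [Finset.mem_Ico] at ht ⊢; omega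
  · intro t ht; rw [Finset.mem_Ico] at ht ⊢; omega
  · intro t ht; ring
  · intro t ht; ring
  · intro t ht; rfl

lemma sum_shift_Icc (a b s : ℤ) (f : ℤ → ℝ) :
    ∑ t ∈ Finset.Icc a b, f (t + s) = ∑ t ∈ Finset.Icc (a + s) (b + s), f t := by
  refine Finset.sum_nbij' (fun t => t + s) (fun t => t - s) ?_ ?_ ?_ ?_ ?_
  · intro t ht; rw [Finset.mem_Icc] at ht ⊢; omega
  · intro t ht; rw [Finset.mem_Icc] at ht ⊢; omega
  · intro t ht; ring
  · intro t ht; ring
  · intro t ht; rfl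

lemma sum_shift_EL (Λ : Finset (Fin D → ℤ)) (y : Fin D → ℤ) (f : (Fin D → ℤ) × Fin D → ℝ) :
    ∑ e ∈ EL Λ, f (e.1 + y, e.2) = ∑ e ∈ EL (trR y Λ), f e := by
  refine Finset.sum_nbij' (fun e => (e.1 + y, e.2)) (fun e => (e.1 - y, e.2)) ?_ ?_ ?_ ?_ ?_
  · intro e he
    rw [mem_EL] at he ⊢
    rw [mem_trR, mem_trR]
    refine ⟨by simpa using he.1, ?_⟩
    have : e.1 + y + Pi.single e.2 1 - y = e.1 + Pi.single e.2 1 := by abel
    simp only [this]; exact he.2
  · intro e he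
    rw [mem_EL] at he ⊢
    rw [mem_trR, mem_trR] at he
    refine ⟨he.1, ?_⟩
    have : e.1 - y + Pi.single e.2 1 = e.1 + Pi.single e.2 1 - y := by abel
    simp only [this]; exact he.2
  · intro e he; simp
  · intro e he; simp
  · intro e he; rfl

lemma sum_shift_PL (Λ : Finset (Fin D → ℤ)) (y : Fin D → ℤ)
    (f : (Fin D → ℤ) × Fin D × Fin D → ℝ) :
    ∑ p ∈ PL Λ, f (p.1 + y, p.2) = ∑ p ∈ PL (trR y Λ), f p := by
  refine Finset.sum_nbij' (fun e => (e.1 + y, e.2)) (fun e => (e.1 - y, e.2)) ?_ ?_ ?_ ?_ ?_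
  · intro e he
    rw [mem_PL] at he ⊢
    simp only [mem_trR]
    have e1 : e.1 + y - y = e.1 := by abel
    have e2 : ∀ i : Fin D, e.1 + y + Pi.single i 1 - y = e.1 + Pi.single i 1 := fun i => by abel
    have e3 : ∀ i j : Fin D, e.1 + y + Pi.single i 1 + Pi.single j 1 - y =
        e.1 + Pi.single i 1 + Pi.single j 1 := fun i j => by abel
    rw [e1, e2, e2, e3]
    exact he
  · intro e he
    rw [mem_PL] at he ⊢
    simp only [mem_trR] at he ⊢
    have e2 : ∀ i : Fin D, e.1 - y + Pi.single i 1 = e.1 + Pi.single i 1 - y := fun i => by abel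
    have e3 : ∀ i j : Fin D, e.1 + Pi.single i 1 - y + Pi.single j 1 =
        e.1 + Pi.single i 1 + Pi.single j 1 - y := fun i j => by abel
    rw [e2, e2, e3]
    exact he
  · intro e he; simp
  · intro e he; simp
  · intro e he; rfl

end grp

section top

variable {G : Type} [Group G] [TopologicalSpace G] [IsTopologicalGroup G]
  [SecondCountableTopology G] [MeasurableSpace G] [BorelSpace G]
variable {μ : Measure G} [IsProbabilityMeasure μ]
variable {χ : G → ℝ} {k : G → G → ℝ} {βe βm M c : ℝ} {m : ℕ}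

lemma act_rfc (hχ : Cf χ M) (a b : ℤ) (Λ : Finset (Fin D → ℤ)) (U : Lnk D → G) :
    act χ βe βm a b Λ (rfc U) = act χ βe βm (-b) (-a) Λ U := by
  unfold act
  simp only [plq_rfc_space, plq_rfc_time, hχ.conj, hχ.inv]
  rw [← sum_refl_Ico a b, ← sum_refl_Icc a b]

lemma act_shf (v : Site D) (a b : ℤ) (Λ : Finset (Fin D → ℤ)) (U : Lnk D → G) :
    act χ βe βm a b Λ (shf v U) = act χ βe βm (a + v.1) (b + v.1) (trR v.2 Λ) U := by
  unfold act
  simp only [plq_shf]
  rw [← sum_shift_Ico, ← sum_shift_Icc]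
  simp only [← sum_shift_EL, ← sum_shift_PL]
  rfl

lemma cont_rfc : Continuous (rfc (D := D) (G := G)) := by
  refine continuous_pi fun l => ?_
  unfold rfc
  split_ifs
  · exact (continuous_apply _).inv
  · exact continuous_apply _

lemma cont_shf (v : Site D) : Continuous (shf (G := G) v) :=
  continuous_pi fun l => continuous_apply _

lemma mp_shf (v : Site D) : MeasurePreserving (shf (G := G) v) (Pinf (Lnk D) μ) (Pinf (Lnk D) μ) :=
  inf_map μ ((Equiv.addRight v).prodCongr (Equiv.refl (Option (Fin D)))) (s := fun _ => id)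
    fun _ => MeasurePreserving.id μ

lemma mp_rfc [μ.IsInvInvariant] :
    MeasurePreserving (rfc (D := D) (G := G)) (Pinf (Lnk D) μ) (Pinf (Lnk D) μ) := by
  have h := inf_map μ (⟨rlk, rlk, rlk_rlk, rlk_rlk⟩ : Lnk D ≃ Lnk D)
    (s := fun l => if l.2 = none then fun g : G => g⁻¹ else id) (fun l => by
      split_ifs
      · exact Measure.measurePreserving_inv μ
      · exact MeasurePreserving.id μ)
  convert h using 1
  funext U l
  unfold rfc
  simp only [Equiv.coe_fn_mk]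
  split_ifs <;> rfl

lemma Ex_shf (v : Site D) (a b : ℤ) (Λ : Finset (Fin D → ℤ)) {F : (Lnk D → G) → ℝ}
    (hχ : Cf χ M) (hF : Measurable F) :
    Ex μ χ βe βm a b Λ F = Ex μ χ βe βm (a + v.1) (b + v.1) (trR v.2 Λ) (fun U => F (shf v U)) := by
  unfold Ex ExW
  have h := mp_shf (μ := μ) (G := G) v
  have hw := (cont_act hχ βe βm a b Λ).measurable.exp
  have h1 : ∀ f : (Lnk D → G) → ℝ, Measurable f → ∫ U, f U ∂(Pinf (Lnk D) μ) =
      ∫ U, f (shf v U) ∂(Pinf (Lnk D) μ) := fun f hf => by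
    conv_lhs => rw [← h.map_eq]
    exact integral_map h.measurable.aemeasurable hf.aestronglyMeasurable
  have e1 := h1 (fun U => F U * Real.exp (act χ βe βm a b Λ U)) (hF.mul hw)
  have e2 := h1 (fun U => Real.exp (act χ βe βm a b Λ U)) hw
  simp only [act_shf] at e1 e2
  simp only
  rw [e1, e2]

lemma Ex_rfc [μ.IsInvInvariant] (a b : ℤ) (Λ : Finset (Fin D → ℤ)) {F : (Lnk D → G) → ℝ}
    (hχ : Cf χ M) (hF : Measurable F) :
    Ex μ χ βe βm a b Λ F = Ex μ χ βe βm (-b) (-a) Λ (fun U => F (rfc U)) := by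
  unfold Ex ExW
  have h := mp_rfc (μ := μ) (G := G) (D := D)
  have hw := (cont_act hχ βe βm a b Λ).measurable.exp
  have h1 : ∀ f : (Lnk D → G) → ℝ, Measurable f → ∫ U, f U ∂(Pinf (Lnk D) μ) =
      ∫ U, f (rfc U) ∂(Pinf (Lnk D) μ) := fun f hf => by
    conv_lhs => rw [← h.map_eq]
    exact integral_map h.measurable.aemeasurable hf.aestronglyMeasurable
  have e1 := h1 (fun U => F U * Real.exp (act χ βe βm a b Λ U)) (hF.mul hw)
  have e2 := h1 (fun U => Real.exp (act χ βe βm a b Λ U)) hw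
  simp only [act_rfc hχ] at e1 e2
  simp only
  rw [e1, e2]

/-- translation of a set of links -/
def shA (v : Site D) (A : Finset (Lnk D)) : Finset (Lnk D) := A.image fun l => (l.1 + v, l.2)

/-- reflection of a set of links -/
def rfA (A : Finset (Lnk D)) : Finset (Lnk D) := A.image rlk

lemma Ob.shf {F : (Lnk D → G) → ℝ} {A : Finset (Lnk D)} (h : Ob F A) (v : Site D) :
    Ob (fun U => F (shf v U)) (shA v A) :=
  ⟨h.meas.comp (cont_shf v).measurable, fun U => h.le _, fun γ U => by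
    rw [shf_gtr, h.inv], fun U U' hU => h.dep _ _ fun l hl =>
      hU _ (Finset.mem_image_of_mem _ hl)⟩

lemma Ob.rfc {F : (Lnk D → G) → ℝ} {A : Finset (Lnk D)} (h : Ob F A) :
    Ob (fun U => F (rfc U)) (rfA A) :=
  ⟨h.meas.comp cont_rfc.measurable, fun U => h.le _, fun γ U => by
    rw [rfc_gtr, h.inv], fun U U' hU => h.dep _ _ fun l hl => by
      unfold YM.rfc
      rw [hU _ (Finset.mem_image_of_mem _ hl)]⟩

lemma shA_card (v : Site D) (A : Finset (Lnk D)) : (shA v A).card ≤ A.card := Finset.card_image_le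

lemma rfA_card (A : Finset (Lnk D)) : (rfA A).card ≤ A.card := Finset.card_image_le

/-- the links of `A` are in the time interval `[p, q]` -/
def Win (p q : ℤ) (A : Finset (Lnk D)) : Prop := ∀ l ∈ A, p ≤ l.1.1 ∧ (tip l.1 l.2).1 ≤ q

lemma tip_ge (l : Lnk D) : l.1.1 ≤ (tip l.1 l.2).1 := by
  obtain ⟨x, i⟩ := l
  cases i with
  | none => simp only [tip_none]; omega
  | some j => simp only [tip_some]; omega

lemma Win.le {p q : ℤ} {A : Finset (Lnk D)} (h : Win p q A) : ∀ l ∈ A, p ≤ l.1.1 ∧ l.1.1 ≤ q :=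
  fun l hl => ⟨(h l hl).1, (tip_ge l).trans (h l hl).2⟩

lemma Win.rfA {p q : ℤ} {A : Finset (Lnk D)} (h : Win p q A) : Win (-q) (-p) (rfA A) := by
  intro l hl
  unfold YM.rfA at hl
  rw [Finset.mem_image] at hl
  obtain ⟨⟨x, i⟩, hl', rfl⟩ := hl
  have h1 := h _ hl'
  cases i with
  | none => simp only [rlk_none, tip_none] at h1 ⊢; omega
  | some j => simp only [rlk_some, tip_some] at h1 ⊢; omega

lemma Win.shA {p q : ℤ} {A : Finset (Lnk D)} (h : Win p q A) (v : Site D) :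
    Win (p + v.1) (q + v.1) (shA v A) := by
  intro l hl
  unfold YM.shA at hl
  rw [Finset.mem_image] at hl
  obtain ⟨⟨x, i⟩, hl', rfl⟩ := hl
  have h1 := h _ hl'
  simp only [tip_add, Prod.fst_add] at h1 ⊢
  omega

/-- the links of `A` have the distance at least `r` from the complement of `Λ` -/
def Mar (r : ℕ) (Λ : Finset (Fin D → ℤ)) (A : Finset (Lnk D)) : Prop :=
  ∀ l ∈ A, (∀ z, sdist l.1.2 z ≤ r → z ∈ Λ) ∧ (∀ z, sdist (tip l.1 l.2).2 z ≤ r → z ∈ Λ)

lemma InR_of {p q a b : ℤ} {r : ℕ} {Λ : Finset (Fin D → ℤ)} {A : Finset (Lnk D)}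
    (hw : Win p q A) (hm : Mar r Λ A) (ha : a ≤ p) (hb : q ≤ b) : ∀ l ∈ A, InR a b Λ l := by
  intro l hl
  have h1 := hw l hl
  have h2 := hm l hl
  have h3 := tip_ge l
  exact ⟨⟨⟨by omega, by omega⟩, h2.1 _ (by rw [sdist_self]; omega)⟩, ⟨by omega, by omega⟩,
    h2.2 _ (by rw [sdist_self]; omega)⟩

lemma Mar.mono {r : ℕ} {Λ Λ' : Finset (Fin D → ℤ)} {A : Finset (Lnk D)} (h : Mar r Λ A)
    (hΛ : Λ ⊆ Λ') : Mar r Λ' A := fun l hl =>
  ⟨fun z hz => hΛ ((h l hl).1 z hz), fun z hz => hΛ ((h l hl).2 z hz)⟩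

lemma Mar.rfA {r : ℕ} {Λ : Finset (Fin D → ℤ)} {A : Finset (Lnk D)} (h : Mar r Λ A) :
    Mar r Λ (rfA A) := by
  intro l hl
  unfold YM.rfA at hl
  rw [Finset.mem_image] at hl
  obtain ⟨⟨x, i⟩, hl', rfl⟩ := hl
  have h1 := h _ hl'
  cases i with
  | none => exact h1
  | some j => exact h1

lemma sdist_add (x y z : Fin D → ℤ) : sdist (x + y) (z + y) = sdist x z := by
  unfold sdist
  congr 1
  funext i
  simp only [Pi.add_apply]
  congr 1; ring

lemma Mar.shA {r : ℕ} {Λ : Finset (Fin D → ℤ)} {A : Finset (Lnk D)} (h : Mar r Λ A) (v : Site D) :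
    Mar r (trR v.2 Λ) (shA v A) := by
  intro l hl
  unfold YM.shA at hl
  rw [Finset.mem_image] at hl
  obtain ⟨⟨x, i⟩, hl', rfl⟩ := hl
  have h1 := h _ hl'
  simp only [tip_add] at h1 ⊢
  have key : ∀ y z : Fin D → ℤ, sdist (y + v.2) z ≤ r → sdist y (z - v.2) ≤ r := fun y z hz => by
    have := sdist_add y v.2 (z - v.2)
    rw [sub_add_cancel] at this
    rw [← this]; exact hz
  exact ⟨fun z hz => mem_trR.2 (h1.1 _ (key _ _ hz)), fun z hz => mem_trR.2 (h1.2 _ (key _ _ hz))⟩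

variable [μ.IsMulLeftInvariant] [μ.IsMulRightInvariant] [μ.IsInvInvariant]

/-- extension to the past -/
theorem ext_bot (hP : Par μ D χ k βe βm M c m) {a a' b : ℤ} (hab : a ≤ b) (haa : a' ≤ a)
    {Λ : Finset (Fin D → ℤ)} {F : (Lnk D → G) → ℝ} {A : Finset (Lnk D)} (hF : Ob F A)
    {p : ℤ} {h τ r : ℕ} (hw : Win p (p + h) A) (hm : Mar r Λ A) (hap : a + τ ≤ p)
    (hpb : p + h ≤ b) :
    |Ex μ χ βe βm a' b Λ F - Ex μ χ βe βm a b Λ F| ≤
      4 * ((h + 1 + 100 * m) * qq m ^ τ) * A.card := by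
  rw [Ex_rfc a' b Λ hP.cf hF.meas, Ex_rfc a b Λ hP.cf hF.meas]
  have hw' : Win (-(p + h)) (-(p + h) + h) (rfA A) := by
    have := hw.rfA
    have e1 : -(p + h) + (h : ℤ) = -p := by ring
    rw [e1]; exact this
  have h1 := ext_top hP (a := -b) (b := -a) (b' := -a') (by omega) (by omega) hF.rfc
    (A := rfA A) (InR_of hw' hm.rfA (by omega) (by omega)) (p := -(p + h)) (h := h) (τ := τ)
    (by omega) hw'.le (by omega)
  refine h1.trans ?_
  refine mul_le_mul_of_nonneg_left (by exact_mod_cast rfA_card A)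
    (mul_nonneg (by norm_num) (mul_nonneg (by positivity) (pow_pos (qq_pos m) _).le))

/-- the error of a region -/
noncomputable def err (m h τ r : ℕ) (A : Finset (Lnk D)) : ℝ :=
  A.card * (h + 1 + 100 * m) * (8 * qq m ^ τ + 4 * Real.exp (-(r : ℝ)))

/-- **Comparison of a region with a larger region.** -/
theorem compare (hP : Par μ D χ k βe βm M c m) {a a' b b' : ℤ} (haa : a' ≤ a)
    (hbb : b ≤ b') {Λ Λ' : Finset (Fin D → ℤ)} (hΛ : Λ ⊆ Λ') {F : (Lnk D → G) → ℝ}
    {A : Finset (Lnk D)} (hF : Ob F A) {p : ℤ} {h τ r : ℕ} (hw : Win p (p + h) A)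
    (hm : Mar r Λ A) (hap : a + τ ≤ p) (hpb : p + h + τ ≤ b) :
    |Ex μ χ βe βm a' b' Λ' F - Ex μ χ βe βm a b Λ F| ≤ err m h τ r A := by
  have hab : a ≤ b := by omega
  have h1 := ext_top hP hab hbb hF (InR_of hw hm (by omega) (by omega)) (p := p) (h := h)
    (τ := τ) (by omega) hw.le hpb
  have h2 := ext_bot hP (hab.trans hbb) haa hF hw hm hap (by omega) (b := b')
  have h3 := ext_space hP (a := a') (b := b') (by omega) hΛ hF
    (InR_of hw hm (by omega) (by omega)) (p := p) (h := h) (r := r) (by omega) hw.le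
    (fun l hl z hz => (hm l hl).1 z hz)
  have e1 : Ex μ χ βe βm a' b' Λ' F - Ex μ χ βe βm a b Λ F =
      (Ex μ χ βe βm a' b' Λ' F - Ex μ χ βe βm a' b' Λ F) +
      (Ex μ χ βe βm a' b' Λ F - Ex μ χ βe βm a b' Λ F) +
      (Ex μ χ βe βm a b' Λ F - Ex μ χ βe βm a b Λ F) := by ring
  rw [e1]
  refine (abs_add_three _ _ _).trans ((add_le_add (add_le_add h3 h2) h1).trans (le_of_eq ?_))
  unfold err; ring

/-- **Comparison of two regions.** -/
theorem compare2 (hP : Par μ D χ k βe βm M c m) {a1 b1 a2 b2 : ℤ}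
    {Λ1 Λ2 : Finset (Fin D → ℤ)} {F : (Lnk D → G) → ℝ}
    {A : Finset (Lnk D)} (hF : Ob F A) {p : ℤ} {h τ1 r1 τ2 r2 : ℕ} (hw : Win p (p + h) A)
    (hm1 : Mar r1 Λ1 A) (hap1 : a1 + τ1 ≤ p) (hpb1 : p + h + τ1 ≤ b1)
    (hm2 : Mar r2 Λ2 A) (hap2 : a2 + τ2 ≤ p) (hpb2 : p + h + τ2 ≤ b2) :
    |Ex μ χ βe βm a1 b1 Λ1 F - Ex μ χ βe βm a2 b2 Λ2 F| ≤ err m h τ1 r1 A + err m h τ2 r2 A := by
  have h1 := compare hP (min_le_left a1 a2) (le_max_left b1 b2)
    (Finset.subset_union_left (s₁ := Λ1) (s₂ := Λ2)) hF hw hm1 hap1 hpb1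
  have h2 := compare hP (min_le_right a1 a2) (le_max_right b1 b2)
    (Finset.subset_union_right (s₁ := Λ1) (s₂ := Λ2)) hF hw hm2 hap2 hpb2
  rw [abs_le] at h1 h2 ⊢
  constructor <;> linarith [h1.1, h1.2, h2.1, h2.2]

end top

end Pool.Agent.Q295.YM
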