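import Mathlib
import Pool.Agent.Q295.YM.Sym

/-!
# Reflection positivity
-/

namespace Pool.Agent.Q295.YM

open MeasureTheory Function
open Pool.Agent.H556R4.Dob

set_option linter.unusedSectionVars false
set_option linter.unusedVariables false

section cols

variable {X E W : Type} [MeasurableSpace X] [Fintype E] [DecidableEq E] [Fintype W] [DecidableEq W]
variable (μ : Measure X) [IsProbabilityMeasure μ]

/-- mixture of two configurations -/
def mxB (B : W → Prop) [DecidablePred B] (V V' : E → W → X) : E → W → X :=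
  fun e w => if B w then V' e w else V e w

lemma meas_mxB (B : W → Prop) [DecidablePred B] :
    Measurable fun p : (E → W → X) × (E → W → X) => mxB B p.1 p.2 := by
  refine measurable_pi_lambda _ fun e => measurable_pi_lambda _ fun w => ?_
  unfold mxB
  split_ifs
  · exact (measurable_pi_apply w).comp ((measurable_pi_apply e).comp measurable_snd)
  · exact (measurable_pi_apply w).comp ((measurable_pi_apply e).comp measurable_fst)

lemma mxB_law (B : W → Prop) [DecidablePred B] {φ : (E → W → X) → ℝ} (hφ : BM φ) :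
    ∫ V, φ V ∂(Pm (Pm μ)) =
      ∫ V, ∫ V', φ (mxB B V V') ∂(Pm (Pm μ)) ∂(Pm (Pm μ) : Measure (E → W → X)) := by
  have hm := meas_mxB (X := X) (E := E) B
  have hpr : IsProbabilityMeasure (((Pm (Pm μ) : Measure (E → W → X)).prod
      (Pm (Pm μ) : Measure (E → W → X))).map fun p => mxB B p.1 p.2) :=
    Measure.isProbabilityMeasure_map hm.aemeasurable
  have hR : Rs μ (((Pm (Pm μ) : Measure (E → W → X)).prod
      (Pm (Pm μ) : Measure (E → W → X))).map fun p => mxB B p.1 p.2) := by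
    intro e w ψ hψ
    have h1 : BM (av μ e w ψ) := av_bm μ e w hψ
    rw [integral_map hm.aemeasurable h1.meas.aestronglyMeasurable,
      integral_map hm.aemeasurable hψ.meas.aestronglyMeasurable]
    by_cases hB : B w
    · rw [integral_prod _ ((h1.comp hm).integrable _), integral_prod _ ((hψ.comp hm).integrable _)]
      refine integral_congr_ae (Filter.Eventually.of_forall fun V => ?_)
      simp only
      have h2 : BM fun V' => ψ (mxB B V V') := (hψ.comp hm).comp measurable_prodMk_left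
      rw [← Rs_Pm μ e w (fun V' => ψ (mxB B V V')) h2]
      refine integral_congr_ae (Filter.Eventually.of_forall fun V' => ?_)
      unfold av
      refine integral_congr_ae (Filter.Eventually.of_forall fun g => ?_)
      simp only
      congr 1
      funext a b
      unfold mxB
      simp only [up_apply]
      by_cases hab : a = e ∧ b = w
      · obtain ⟨rfl, rfl⟩ := hab; simp [hB]
      · simp [hab]
    · rw [integral_prod_symm _ ((h1.comp hm).integrable _),
        integral_prod_symm _ ((hψ.comp hm).integrable _)]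
      refine integral_congr_ae (Filter.Eventually.of_forall fun V' => ?_)
      simp only
      have h2 : BM fun V => ψ (mxB B V V') := (hψ.comp hm).comp measurable_prodMk_right
      rw [← Rs_Pm μ e w (fun V => ψ (mxB B V V')) h2]
      refine integral_congr_ae (Filter.Eventually.of_forall fun V => ?_)
      unfold av
      refine integral_congr_ae (Filter.Eventually.of_forall fun g => ?_)
      simp only
      congr 1
      funext a b
      unfold mxB
      simp only [up_apply]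
      by_cases hab : a = e ∧ b = w
      · obtain ⟨rfl, rfl⟩ := hab; simp [hB]
      · simp [hab]
  rw [Rs_unique μ (Rs_Pm μ) hR hφ, integral_map hm.aemeasurable hφ.meas.aestronglyMeasurable,
    integral_prod _ ((hφ.comp hm).integrable _)]

end cols

section rev

variable {X E : Type} [MeasurableSpace X] [Fintype E] [DecidableEq E] {T : ℕ}
variable (μ : Measure X) [IsProbabilityMeasure μ]

/-- reversal of the time -/
def rv (V : E → Fin (T + 1) → X) : E → Fin (T + 1) → X := fun e w => V e (Fin.rev w)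

lemma meas_rv : Measurable (rv (X := X) (E := E) (T := T)) :=
  measurable_pi_lambda _ fun e => measurable_pi_lambda _ fun w =>
    (measurable_pi_apply _).comp (measurable_pi_apply e)

lemma rv_law {φ : (E → Fin (T + 1) → X) → ℝ} (hφ : BM φ) :
    ∫ V, φ (rv V) ∂(Pm (Pm μ)) = ∫ V, φ V ∂(Pm (Pm μ) : Measure (E → Fin (T + 1) → X)) := by
  have hm := meas_rv (X := X) (E := E) (T := T)
  have hpr : IsProbabilityMeasure ((Pm (Pm μ) : Measure (E → Fin (T + 1) → X)).map rv) :=
    Measure.isProbabilityMeasure_map hm.aemeasurable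
  have hR : Rs μ ((Pm (Pm μ) : Measure (E → Fin (T + 1) → X)).map rv) := by
    intro e w ψ hψ
    have h1 : BM (av μ e w ψ) := av_bm μ e w hψ
    rw [integral_map hm.aemeasurable h1.meas.aestronglyMeasurable,
      integral_map hm.aemeasurable hψ.meas.aestronglyMeasurable,
      ← Rs_Pm μ e (Fin.rev w) (fun V => ψ (rv V)) (hψ.comp hm)]
    refine integral_congr_ae (Filter.Eventually.of_forall fun V => ?_)
    unfold av
    refine integral_congr_ae (Filter.Eventually.of_forall fun g => ?_)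
    simp only
    congr 1
    funext a b
    unfold rv
    simp only [up_apply]
    by_cases hab : a = e ∧ b = w
    · obtain ⟨rfl, rfl⟩ := hab; simp
    · rw [if_neg hab, if_neg]
      rintro ⟨h2, h3⟩
      exact hab ⟨h2, Fin.rev_injective h3⟩
  rw [Rs_unique μ (Rs_Pm μ) hR hφ, integral_map hm.aemeasurable hφ.meas.aestronglyMeasurable]

/-- **Reflection positivity**, abstract form. -/
theorem rp_abs {n : ℕ} (hT : T = 2 * n) {Φ w0 : (E → Fin (T + 1) → X) → ℝ} (hΦ : BM Φ) (hw : BM w0)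
    (hw0 : ∀ V, 0 ≤ w0 V)
    (hΦd : ∀ V V' : E → Fin (T + 1) → X, (∀ e, ∀ w : Fin (T + 1), n ≤ (w : ℕ) → V e w = V' e w) →
      Φ V = Φ V')
    (hwd : ∀ V V' : E → Fin (T + 1) → X, (∀ e, ∀ w : Fin (T + 1), (w : ℕ) = n → V e w = V' e w) →
      w0 V = w0 V') :
    0 ≤ ∫ V, Φ V * Φ (rv V) * w0 V ∂(Pm (Pm μ)) := by
  have hm := meas_rv (X := X) (E := E) (T := T)
  have m1 := meas_mxB (X := X) (E := E) (fun w : Fin (T + 1) => n < (w : ℕ))
  have m2 := meas_mxB (X := X) (E := E) (fun w : Fin (T + 1) => (w : ℕ) < n)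
  have hφ : BM fun V => Φ V * Φ (rv V) * w0 V := (hΦ.mul (hΦ.comp hm)).mul hw
  rw [mxB_law μ (fun w : Fin (T + 1) => n < (w : ℕ)) hφ]
  have hφ1 : BM fun V => ∫ V', (fun V => Φ V * Φ (rv V) * w0 V)
      (mxB (fun w : Fin (T + 1) => n < (w : ℕ)) V V') ∂(Pm (Pm μ)) :=
    BM.integral' (Pm (Pm μ)) (f := fun p : (E → Fin (T + 1) → X) × (E → Fin (T + 1) → X) =>
      (fun V => Φ V * Φ (rv V) * w0 V) (mxB (fun w : Fin (T + 1) => n < (w : ℕ)) p.1 p.2))
      (hφ.comp m1)
  rw [mxB_law μ (fun w : Fin (T + 1) => (w : ℕ) < n) hφ1]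
  obtain ⟨A, hA⟩ : ∃ A : (E → Fin (T + 1) → X) → (E → Fin (T + 1) → X) → ℝ, A = fun V V' =>
    Φ (mxB (fun w : Fin (T + 1) => n < (w : ℕ)) V V') := ⟨_, rfl⟩
  have hAb : BM fun p : (E → Fin (T + 1) → X) × (E → Fin (T + 1) → X) => A p.1 p.2 := by
    rw [hA]; exact hΦ.comp m1
  obtain ⟨J, hJ⟩ : ∃ J : (E → Fin (T + 1) → X) → ℝ, J = fun V => ∫ V', A V V' ∂(Pm (Pm μ)) :=
    ⟨_, rfl⟩
  have key : ∀ V Z : E → Fin (T + 1) → X, ∫ V', (fun V => Φ V * Φ (rv V) * w0 V)
      (mxB (fun w : Fin (T + 1) => n < (w : ℕ)) (mxB (fun w : Fin (T + 1) => (w : ℕ) < n) V Z) V')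
        ∂(Pm (Pm μ)) = J V * (A V (rv Z) * w0 V) := by
    intro V Z
    rw [hJ]
    simp only
    rw [← integral_mul_const]
    refine integral_congr_ae (Filter.Eventually.of_forall fun V' => ?_)
    simp only
    have e1 : Φ (mxB (fun w : Fin (T + 1) => n < (w : ℕ))
        (mxB (fun w : Fin (T + 1) => (w : ℕ) < n) V Z) V') = A V V' := by
      rw [hA]
      refine hΦd _ _ fun e w hw => ?_
      unfold mxB
      by_cases h1 : n < (w : ℕ)
      · simp [h1]
      · have h2 : ¬ (w : ℕ) < n := by omega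
        simp [h1, h2]
    have e2 : Φ (rv (mxB (fun w : Fin (T + 1) => n < (w : ℕ))
        (mxB (fun w : Fin (T + 1) => (w : ℕ) < n) V Z) V')) = A V (rv Z) := by
      rw [hA]
      refine hΦd _ _ fun e w hw => ?_
      unfold rv mxB
      have h0 : ((Fin.rev w : Fin (T + 1)) : ℕ) = T - w := by rw [Fin.val_rev]; omega
      have hwT := w.2
      by_cases h1 : n < (w : ℕ)
      · have h2 : ¬ n < ((Fin.rev w : Fin (T + 1)) : ℕ) := by omega
        have h3 : ((Fin.rev w : Fin (T + 1)) : ℕ) < n := by omega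
        simp only [h1, h2, h3, if_true, if_false]
      · have h2 : ¬ n < ((Fin.rev w : Fin (T + 1)) : ℕ) := by omega
        have h3 : ¬ ((Fin.rev w : Fin (T + 1)) : ℕ) < n := by omega
        have h4 : Fin.rev w = w := Fin.ext (by omega)
        rw [h4] at h2 h3
        simp only [h4, h2, h3, if_false]
    have e3 : w0 (mxB (fun w : Fin (T + 1) => n < (w : ℕ))
        (mxB (fun w : Fin (T + 1) => (w : ℕ) < n) V Z) V') = w0 V := by
      refine hwd _ _ fun e w hw => ?_
      unfold mxB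
      have h1 : ¬ n < (w : ℕ) := by omega
      have h2 : ¬ (w : ℕ) < n := by omega
      simp only [h1, h2, if_false]
    rw [e1, e2, e3]
    ring
  simp only at key
  simp only [key]
  have hJ2 : ∀ V, ∫ Z, J V * (A V (rv Z) * w0 V) ∂(Pm (Pm μ)) = J V ^ 2 * w0 V := by
    intro V
    rw [integral_const_mul, integral_mul_const]
    have h1 : ∫ Z, A V (rv Z) ∂(Pm (Pm μ)) = J V := by
      rw [hJ]
      exact rv_law μ (φ := fun Z => A V Z) (hAb.comp measurable_prodMk_left)
    rw [h1]; ring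
  simp only [hJ2]
  exact integral_nonneg fun V => mul_nonneg (sq_nonneg _) (hw0 V)

end rev


section lat

variable {D : ℕ}
variable {G : Type} [Group G] [TopologicalSpace G] [IsTopologicalGroup G]
  [SecondCountableTopology G] [MeasurableSpace G] [BorelSpace G]
variable {μ : Measure G} [IsProbabilityMeasure μ] [μ.IsMulLeftInvariant] [μ.IsMulRightInvariant]
variable {χ : G → ℝ} {k : G → G → ℝ} {βe βm M c : ℝ} {m : ℕ}

lemma rev_cc {T i : ℕ} (h : i ≤ T) : Fin.rev (cc T i) = cc T (T - i) := by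
  refine Fin.ext ?_
  rw [Fin.val_rev, cc_val h, cc_val (by omega)]; omega

/-- the upper half of the weight -/
noncomputable def hup (χ : G → ℝ) (k : G → G → ℝ) (βm : ℝ) (T n : ℕ) (Λ : Finset (Fin D → ℤ))
    (V : EL Λ → Fin (T + 1) → G) : ℝ :=
  (∏ e, ∏ i ∈ Finset.range n, k (V e (cc T (n + i))) (V e (cc T (n + i + 1)))) *
    Real.exp (∑ i ∈ Finset.range n, ∑ p : PL Λ,
      (LS χ k βm T Λ).u p ((LS χ k βm T Λ).sl (n + 1 + i) V))

/-- the weight at the time zero -/
noncomputable def hze (χ : G → ℝ) (k : G → G → ℝ) (βm : ℝ) (T n : ℕ) (Λ : Finset (Fin D → ℤ))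
    (V : EL Λ → Fin (T + 1) → G) : ℝ :=
  Real.exp (∑ p : PL Λ, (LS χ k βm T Λ).u p ((LS χ k βm T Λ).sl n V))

lemma sl_rv {T i : ℕ} (h : i ≤ T) (Λ : Finset (Fin D → ℤ)) (V : EL Λ → Fin (T + 1) → G) :
    (LS χ k βm T Λ).sl i (rv V) = (LS χ k βm T Λ).sl (T - i) V := by
  funext e
  show V e (Fin.rev (cc T i)) = V e (cc T (T - i))
  rw [rev_cc h]

lemma H_split (hks : ∀ x y, k x y = k y x) {T n : ℕ} (hT : T = 2 * n) (Λ : Finset (Fin D → ℤ))
    (V : EL Λ → Fin (T + 1) → G) :
    (LS χ k βm T Λ).H V = hup χ k βm T n Λ V * hup χ k βm T n Λ (rv V) * hze χ k βm T n Λ V := by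
  have h1 : ∀ e : EL Λ, ∏ i ∈ Finset.range T, k (V e (cc T i)) (V e (cc T (i + 1))) =
      (∏ i ∈ Finset.range n, k (V e (cc T (n + i))) (V e (cc T (n + i + 1)))) *
      ∏ i ∈ Finset.range n, k (rv V e (cc T (n + i))) (rv V e (cc T (n + i + 1))) := by
    intro e
    have e1 : T = n + n := by omega
    have e2 : Finset.range T = Finset.range (n + n) := by rw [e1]
    rw [e2, Finset.prod_range_add, mul_comm]
    congr 1
    rw [← Finset.prod_range_reflect]
    refine Finset.prod_congr rfl fun i hi => ?_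
    rw [Finset.mem_range] at hi
    have e3 : rv V e (cc T (n + i)) = V e (cc T (n - 1 - i + 1)) := by
      show V e (Fin.rev (cc T (n + i))) = _
      rw [rev_cc (by omega)]
      congr 2; omega
    have e4 : rv V e (cc T (n + i + 1)) = V e (cc T (n - 1 - i)) := by
      show V e (Fin.rev (cc T (n + i + 1))) = _
      rw [rev_cc (by omega)]
      congr 2; omega
    rw [e3, e4, hks]
  have h2 : ∑ i ∈ Finset.range (T + 1), ∑ p : PL Λ, (LS χ k βm T Λ).u p ((LS χ k βm T Λ).sl i V) =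
      (∑ i ∈ Finset.range n, ∑ p : PL Λ,
        (LS χ k βm T Λ).u p ((LS χ k βm T Λ).sl (n + 1 + i) V)) +
      (∑ i ∈ Finset.range n, ∑ p : PL Λ,
        (LS χ k βm T Λ).u p ((LS χ k βm T Λ).sl (n + 1 + i) (rv V))) +
      ∑ p : PL Λ, (LS χ k βm T Λ).u p ((LS χ k βm T Λ).sl n V) := by
    have e1 : T + 1 = (n + 1) + n := by omega
    rw [e1, Finset.sum_range_add, Finset.sum_range_succ]
    have e2 : ∑ i ∈ Finset.range n, ∑ p : PL Λ, (LS χ k βm T Λ).u p ((LS χ k βm T Λ).sl i V) =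
        ∑ i ∈ Finset.range n, ∑ p : PL Λ,
          (LS χ k βm T Λ).u p ((LS χ k βm T Λ).sl (n + 1 + i) (rv V)) := by
      rw [← Finset.sum_range_reflect]
      refine Finset.sum_congr rfl fun i hi => ?_
      rw [Finset.mem_range] at hi
      rw [sl_rv (by omega)]
      have e3 : T - (n + 1 + i) = n - 1 - i := by omega
      rw [e3]
    rw [e2]
    ring
  have h3 : (LS χ k βm T Λ).H V = (∏ e, ∏ i ∈ Finset.range T, k (V e (cc T i)) (V e (cc T (i + 1)))) *
      Real.exp (∑ i ∈ Finset.range (T + 1), ∑ p : PL Λ,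
        (LS χ k βm T Λ).u p ((LS χ k βm T Λ).sl i V)) := rfl
  obtain ⟨P1, hP1⟩ : ∃ P1, P1 = ∏ e : EL Λ, ∏ i ∈ Finset.range n,
    k (V e (cc T (n + i))) (V e (cc T (n + i + 1))) := ⟨_, rfl⟩
  obtain ⟨P2, hP2⟩ : ∃ P2, P2 = ∏ e : EL Λ, ∏ i ∈ Finset.range n,
    k (rv V e (cc T (n + i))) (rv V e (cc T (n + i + 1))) := ⟨_, rfl⟩
  obtain ⟨S1, hS1⟩ : ∃ S1, S1 = ∑ i ∈ Finset.range n, ∑ p : PL Λ,
    (LS χ k βm T Λ).u p ((LS χ k βm T Λ).sl (n + 1 + i) V) := ⟨_, rfl⟩
  obtain ⟨S2, hS2⟩ : ∃ S2, S2 = ∑ i ∈ Finset.range n, ∑ p : PL Λ,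
    (LS χ k βm T Λ).u p ((LS χ k βm T Λ).sl (n + 1 + i) (rv V)) := ⟨_, rfl⟩
  obtain ⟨S3, hS3⟩ : ∃ S3, S3 = ∑ p : PL Λ,
    (LS χ k βm T Λ).u p ((LS χ k βm T Λ).sl n V) := ⟨_, rfl⟩
  have e5 : hup χ k βm T n Λ V = P1 * Real.exp S1 := by rw [hP1, hS1]; rfl
  have e6 : hup χ k βm T n Λ (rv V) = P2 * Real.exp S2 := by rw [hP2, hS2]; rfl
  have e7 : hze χ k βm T n Λ V = Real.exp S3 := by rw [hS3]; rfl
  rw [← hS1, ← hS2, ← hS3] at h2
  rw [h3, h2, Real.exp_add, Real.exp_add, Finset.prod_congr rfl fun e _ => h1 e,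
    Finset.prod_mul_distrib, ← hP1, ← hP2, e5, e6, e7]
  ring

lemma hup_bm (hχ : Cf χ M) (hc : 0 < c) (hk : ∀ x y, k x y = c * Real.exp (βe * χ (x⁻¹ * y)))
    (T n : ℕ) (Λ : Finset (Fin D → ℤ)) : BM (hup χ k βm T n Λ) := by
  have hR := LS_reg (βm := βm) (T := T) (Λ := Λ) hχ hc hk
  refine (PB.mul (PB.prod _ fun e _ => PB.prod _ fun i _ => ?_) (PB.exp ?_)).bm
  · exact PB.comp hR.k_pb (g := fun V : EL Λ → Fin (T + 1) → G =>
      (V e (cc T (n + i)), V e (cc T (n + i + 1))))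
      (((measurable_pi_apply _).comp (measurable_pi_apply e)).prodMk
        ((measurable_pi_apply _).comp (measurable_pi_apply e)))
  · have h1 : ∀ i, Measurable fun V : EL Λ → Fin (T + 1) → G => (LS χ k βm T Λ).sl i V := fun i =>
      measurable_pi_lambda _ fun e => (measurable_pi_apply (cc T i)).comp (measurable_pi_apply e)
    refine ⟨Finset.measurable_sum _ fun i _ => Finset.measurable_sum _ fun p _ =>
      (hR.u_bm p).meas.comp (h1 _), ∑ i ∈ Finset.range n, ∑ p : PL Λ, |βm| * M, fun V => ?_⟩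
    refine (Finset.abs_sum_le_sum_abs _ _).trans (Finset.sum_le_sum fun i _ => ?_)
    exact (Finset.abs_sum_le_sum_abs _ _).trans (Finset.sum_le_sum fun p _ => hR.u_le p _)

lemma hze_bm (hχ : Cf χ M) (hc : 0 < c) (hk : ∀ x y, k x y = c * Real.exp (βe * χ (x⁻¹ * y)))
    (T n : ℕ) (Λ : Finset (Fin D → ℤ)) : BM (hze χ k βm T n Λ) := by
  have hR := LS_reg (βm := βm) (T := T) (Λ := Λ) hχ hc hk
  refine (PB.exp ?_).bm
  have h1 : ∀ i, Measurable fun V : EL Λ → Fin (T + 1) → G => (LS χ k βm T Λ).sl i V := fun i =>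
    measurable_pi_lambda _ fun e => (measurable_pi_apply (cc T i)).comp (measurable_pi_apply e)
  refine ⟨Finset.measurable_sum _ fun p _ => (hR.u_bm p).meas.comp (h1 _),
    ∑ p : PL Λ, |βm| * M, fun V => ?_⟩
  exact (Finset.abs_sum_le_sum_abs _ _).trans (Finset.sum_le_sum fun p _ => hR.u_le p _)

/-- the reflection in the temporal gauge -/
lemma rfc_emb {n : ℕ} {Λ : Finset (Fin D → ℤ)} {T : ℕ} (hT : T = 2 * n)
    (V : EL Λ → Fin (T + 1) → G) (l : Lnk D) (hl : InR (-(n : ℤ)) n Λ l) :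
    rfc (emb (-(n : ℤ)) T Λ V) l = emb (-(n : ℤ)) T Λ (rv V) l := by
  obtain ⟨x, i⟩ := l
  cases i with
  | none => rw [rfc_none, emb_none, emb_none, inv_one]
  | some j =>
    rw [rfc_some, emb_some, emb_some]
    have h1 := hl.1.1
    simp only at h1
    congr 1
    funext e
    show _ = V e (Fin.rev (cc T (x.1 - -(n : ℤ)).toNat))
    rw [rev_cc (by omega)]
    congr 2
    omega

/-- **Reflection positivity in a region.** -/
theorem rp_region (hP : Par μ D χ k βe βm M c m) {n : ℕ} {Λ : Finset (Fin D → ℤ)}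
    {F : (Lnk D → G) → ℝ} {A : Finset (Lnk D)} (hF : Ob F A) (hA : ∀ l ∈ A, InR 0 n Λ l) :
    0 ≤ Ex μ χ βe βm (-(n : ℤ)) n Λ (fun U => F (rfc U) * F U) := by
  have hA' : ∀ l ∈ A, InR (-(n : ℤ)) n Λ l := fun l hl =>
    (hA l hl).mono (by omega) le_rfl (Finset.Subset.refl _)
  have hd := hF.depR hA'
  have hrd : DepR (-(n : ℤ)) n Λ fun U : Lnk D → G => F (rfc U) := by
    intro U U' h
    refine hF.dep _ _ fun l hl => ?_
    unfold rfc
    have h1 : InR (-(n : ℤ)) n Λ (rlk l) := by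
      have h2 := hA' l hl
      obtain ⟨x, i⟩ := l
      cases i with
      | none =>
        obtain ⟨⟨⟨h3, h4⟩, h5⟩, ⟨h6, h7⟩, h8⟩ := h2
        simp only [tip_none] at h3 h4 h5 h6 h7 h8
        rw [rlk_none]
        exact ⟨⟨⟨by simp only; omega, by simp only; omega⟩, h5⟩,
          ⟨by simp only [tip_none]; omega, by simp only [tip_none]; omega⟩, h5⟩
      | some j =>
        obtain ⟨⟨⟨h3, h4⟩, h5⟩, ⟨h6, h7⟩, h8⟩ := h2
        simp only [tip_some] at h3 h4 h5 h6 h7 h8
        rw [rlk_some]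
        exact ⟨⟨⟨by simp only; omega, by simp only; omega⟩, h5⟩,
          ⟨by simp only [tip_some]; omega, by simp only [tip_some]; omega⟩, h8⟩
    rw [h _ h1]
  have hFr : BM fun U : Lnk D → G => F (rfc U) := hF.bm.comp cont_rfc.measurable
  have hFi : GInv fun U : Lnk D → G => F (rfc U) := hF.rfc.inv
  rw [Ex_eq hP (by omega) (hFr.mul hF.bm) (hFi.mul hF.inv) (hrd.mul hd)]
  obtain ⟨T, hT⟩ : ∃ T, T = ((n : ℤ) - (-(n : ℤ))).toNat := ⟨_, rfl⟩
  have hT2 : T = 2 * n := by omega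
  rw [← hT]
  have hR := (hP.weak T Λ).reg
  have hH := Sys.H_pb hR
  have hem : Measurable (emb (G := G) (-(n : ℤ)) T Λ) := (cont_emb _ _ Λ).measurable
  unfold E1
  refine div_nonneg ?_ (hH.integral_pos _).le
  obtain ⟨Φ, hΦ⟩ : ∃ Φ : (EL Λ → Fin (T + 1) → G) → ℝ, Φ = fun V =>
    F (emb (-(n : ℤ)) T Λ V) * hup χ k βm T n Λ V := ⟨_, rfl⟩
  have e1 : ∀ V : EL Λ → Fin (T + 1) → G, F (rfc (emb (-(n : ℤ)) T Λ V)) *
      F (emb (-(n : ℤ)) T Λ V) * (LS χ k βm T Λ).H V = Φ V * Φ (rv V) * hze χ k βm T n Λ V := by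
    intro V
    have e2 : F (rfc (emb (-(n : ℤ)) T Λ V)) = F (emb (-(n : ℤ)) T Λ (rv V)) :=
      hd _ _ fun l hl => rfc_emb hT2 V l hl
    have e8 := H_split (χ := χ) (βm := βm) (k := k) (fun x y => hR.k_symm x y) hT2 Λ V
    rw [e2, e8, hΦ]
    ring
  have e3 : (∫ V, F (rfc (emb (-(n : ℤ)) T Λ V)) * F (emb (-(n : ℤ)) T Λ V) *
      (LS χ k βm T Λ).H V ∂(Pm (Pm μ) : Measure (EL Λ → Fin (T + 1) → G))) =
      ∫ V, Φ V * Φ (rv V) * hze χ k βm T n Λ V ∂(Pm (Pm μ)) :=
    integral_congr_ae (Filter.Eventually.of_forall e1)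
  refine le_of_le_of_eq ?_ e3.symm
  refine rp_abs μ hT2 ?_ (hze_bm hP.cf hP.c0 hP.hk T n Λ) (fun V => (Real.exp_pos _).le)
    (fun V V' hV => ?_) (fun V V' hV => ?_)
  · rw [hΦ]
    exact (hF.bm.comp hem).mul (hup_bm hP.cf hP.c0 hP.hk T n Λ)
  · rw [hΦ]
    have h1 : F (emb (-(n : ℤ)) T Λ V) = F (emb (-(n : ℤ)) T Λ V') := by
      subst hT
      exact emb_dep hF hA' (fun w => n ≤ w) (fun e _ w hw => hV e w hw) fun l hl _ => by
        have := (hA l hl).1.1.1
        omega
    have h2 : hup χ k βm T n Λ V = hup χ k βm T n Λ V' := by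
      have h3 : ∀ e, ∀ i, n ≤ i → i ≤ T → V e (cc T i) = V' e (cc T i) := fun e i hi hi' =>
        hV e _ (by rw [cc_val hi']; exact hi)
      unfold hup
      congr 1
      · refine Finset.prod_congr rfl fun e _ => Finset.prod_congr rfl fun i hi => ?_
        rw [Finset.mem_range] at hi
        rw [h3 e _ (by omega) (by omega), h3 e _ (by omega) (by omega)]
      · congr 1
        refine Finset.sum_congr rfl fun i hi => Finset.sum_congr rfl fun p _ => ?_
        rw [Finset.mem_range] at hi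
        congr 1
        funext e
        exact h3 e _ (by omega) (by omega)
    simp only [h1, h2]
  · unfold hze
    congr 1
    refine Finset.sum_congr rfl fun p _ => ?_
    congr 1
    funext e
    have h5 : ((cc T n : Fin (T + 1)) : ℕ) = n := cc_val (by omega)
    exact hV e _ h5

end lat

end Pool.Agent.Q295.YM
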