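import Mathlib
import Pool.Agent.Q295.YM.Rp

/-!
# The infinite volume
-/

namespace Pool.Agent.Q295.YM

open MeasureTheory Function Filter
open Pool.Agent.H556R4.Dob
open scoped Topology

set_option linter.unusedSectionVars false
set_option linter.unusedVariables false

variable {D : ℕ}

/-- a cube -/
noncomputable def ballF (x : Fin D → ℤ) (n : ℕ) : Finset (Fin D → ℤ) :=
  Fintype.piFinset fun i => Finset.Icc (x i - n) (x i + n)

lemma mem_ballF {x z : Fin D → ℤ} {n : ℕ} : z ∈ ballF x n ↔ sdist x z ≤ n := by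
  unfold ballF
  rw [Fintype.mem_piFinset, sdist_le]
  refine forall_congr' fun i => ?_
  rw [Finset.mem_Icc]
  omega

/-- the neighbourhood of a set of links -/
noncomputable def nbA (A : Finset (Lnk D)) (n : ℕ) : Finset (Fin D → ℤ) :=
  A.biUnion fun l => ballF l.1.2 n ∪ ballF (tip l.1 l.2).2 n

lemma Mar_nbA (A : Finset (Lnk D)) (n : ℕ) : Mar n (nbA A n) A := by
  intro l hl
  unfold nbA
  refine ⟨fun z hz => ?_, fun z hz => ?_⟩
  · exact Finset.mem_biUnion.2 ⟨l, hl, Finset.mem_union_left _ (mem_ballF.2 hz)⟩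
  · exact Finset.mem_biUnion.2 ⟨l, hl, Finset.mem_union_right _ (mem_ballF.2 hz)⟩

lemma exists_Win (A : Finset (Lnk D)) : ∃ q : ℕ, Win (-(q : ℤ)) q A := by
  refine ⟨∑ l ∈ A, (l.1.1.natAbs + (tip l.1 l.2).1.natAbs), fun l hl => ?_⟩
  have h1 : l.1.1.natAbs + (tip l.1 l.2).1.natAbs ≤
      ∑ l ∈ A, (l.1.1.natAbs + (tip l.1 l.2).1.natAbs) :=
    Finset.single_le_sum (f := fun l : Lnk D => l.1.1.natAbs + (tip l.1 l.2).1.natAbs)
      (fun _ _ => Nat.zero_le _) hl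
  have h2 : ((l.1.1.natAbs + (tip l.1 l.2).1.natAbs : ℕ) : ℤ) ≤
      ((∑ l ∈ A, (l.1.1.natAbs + (tip l.1 l.2).1.natAbs) : ℕ) : ℤ) := by exact_mod_cast h1
  omega

lemma Win.mono {p q p' q' : ℤ} {A : Finset (Lnk D)} (h : Win p q A) (hp : p' ≤ p) (hq : q ≤ q') :
    Win p' q' A := fun l hl => ⟨hp.trans (h l hl).1, (h l hl).2.trans hq⟩

lemma Win.sub {p q : ℤ} {A A' : Finset (Lnk D)} (h : Win p q A) (hA : A' ⊆ A) : Win p q A' :=
  fun l hl => h l (hA hl)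

lemma Mar.sub {r : ℕ} {Λ : Finset (Fin D → ℤ)} {A A' : Finset (Lnk D)} (h : Mar r Λ A)
    (hA : A' ⊆ A) : Mar r Λ A' := fun l hl => h l (hA hl)

section top

variable {G : Type} [Group G] [TopologicalSpace G] [IsTopologicalGroup G]
  [SecondCountableTopology G] [MeasurableSpace G] [BorelSpace G]
variable {μ : Measure G} [IsProbabilityMeasure μ]
variable {χ : G → ℝ} {k : G → G → ℝ} {βe βm M c : ℝ} {m : ℕ}

lemma err_tendsto (m h : ℕ) (hm : 1 ≤ m) (A : Finset (Lnk D)) :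
    Tendsto (fun n : ℕ => err m h n n A) atTop (𝓝 0) := by
  have hq1 : qq m < 1 := by
    unfold qq
    rw [Real.exp_lt_one_iff, neg_lt_zero]
    have : (0 : ℝ) < m := by exact_mod_cast hm
    positivity
  have h1 := tendsto_pow_atTop_nhds_zero_of_lt_one (qq_pos m).le hq1
  have h2 : Tendsto (fun n : ℕ => Real.exp (-(n : ℝ))) atTop (𝓝 0) :=
    Real.tendsto_exp_neg_atTop_nhds_zero.comp tendsto_natCast_atTop_atTop
  have h3 := ((h1.const_mul 8).add (h2.const_mul 4)).const_mul ((A.card : ℝ) * (h + 1 + 100 * m))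
  simp only [mul_zero, add_zero] at h3
  exact h3

lemma Ob.mono {F : (Lnk D → G) → ℝ} {A A' : Finset (Lnk D)} (h : Ob F A) (hA : A ⊆ A') : Ob F A' :=
  ⟨h.meas, h.le, h.inv, fun U U' hU => h.dep U U' fun l hl => hU l (hA hl)⟩

lemma Ob.mul {F F' : (Lnk D → G) → ℝ} {A A' : Finset (Lnk D)} (h : Ob F A) (h' : Ob F' A') :
    Ob (fun U => F U * F' U) (A ∪ A') :=
  ⟨h.meas.mul h'.meas, fun U => by
    rw [abs_mul]
    exact mul_le_one₀ (h.le U) (abs_nonneg _) (h'.le U), h.inv.mul h'.inv, fun U U' hU => by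
    rw [h.dep U U' fun l hl => hU l (Finset.mem_union_left _ hl),
      h'.dep U U' fun l hl => hU l (Finset.mem_union_right _ hl)]⟩

/-- the infinite volume state -/
structure Inf (μ : Measure G) [IsProbabilityMeasure μ] (χ : G → ℝ) (βe βm : ℝ) (m : ℕ)
    (ν : Measure (Lnk D → G)) : Prop where
  prob : IsProbabilityMeasure ν
  conv : ∀ (F : (Lnk D → G) → ℝ) (A : Finset (Lnk D)), Ob F A → Continuous F →
    ∀ (p : ℤ) (h τ r : ℕ) (a b : ℤ) (Λ : Finset (Fin D → ℤ)), Win p (p + h) A → Mar r Λ A →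
      a + τ ≤ p → p + h + τ ≤ b → |Ex μ χ βe βm a b Λ F - ∫ U, F U ∂ν| ≤ err m h τ r A

section exist

variable [CompactSpace G] [μ.IsMulLeftInvariant] [μ.IsMulRightInvariant] [μ.IsInvInvariant]

lemma exists_P (hχ : Cf χ M) (βe βm : ℝ) (a b : ℤ) (Λ : Finset (Fin D → ℤ)) :
    ∃ P : ProbabilityMeasure (Lnk D → G), ∀ F : (Lnk D → G) → ℝ, Continuous F →
      ∫ U, F U ∂(P : Measure (Lnk D → G)) = Ex μ χ βe βm a b Λ F := by
  have hint : Integrable (fun U : Lnk D → G => Real.exp (act χ βe βm a b Λ U))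
      (Pinf (Lnk D) μ) := (w_pb hχ βe βm a b Λ).bm.integrable _
  have h1 := isProbabilityMeasure_tilted (f := act (G := G) χ βe βm a b Λ) hint
  refine ⟨⟨(Pinf (Lnk D) μ).tilted (act χ βe βm a b Λ), h1⟩, fun F hF => ?_⟩
  show ∫ U, F U ∂((Pinf (Lnk D) μ).tilted (act χ βe βm a b Λ)) = _
  rw [integral_tilted]
  unfold Ex ExW
  rw [← integral_div]
  refine integral_congr_ae (Filter.Eventually.of_forall fun U => ?_)
  simp only [smul_eq_mul]
  ring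

/-- **The infinite volume state exists.** -/
theorem exists_Inf [T2Space G] (hP : Par μ D χ k βe βm M c m) : ∃ ν : Measure (Lnk D → G),
    Inf μ χ βe βm m ν := by
  have : TopologicalSpace.PseudoMetrizableSpace G := inferInstance
  have : TopologicalSpace.MetrizableSpace (Lnk D → G) := inferInstance
  choose P hPP using fun n : ℕ => exists_P (D := D) (μ := μ) hP.cf βe βm (-(n : ℤ)) n
    (ballF (0 : Fin D → ℤ) n)
  obtain ⟨ν, s, hs, hlim⟩ := CompactSpace.tendsto_subseq P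
  refine ⟨ν, ⟨inferInstance, fun F A hF hFc p h τ r a b Λ hw hm ha hb => ?_⟩⟩
  have h1 := (ProbabilityMeasure.tendsto_iff_forall_integral_tendsto.1 hlim)
    (BoundedContinuousFunction.mkOfCompact ⟨F, hFc⟩)
  simp only [Function.comp_apply, BoundedContinuousFunction.mkOfCompact_apply,
    ContinuousMap.coe_mk] at h1
  simp only [hPP _ F hFc] at h1
  rw [abs_sub_comm]
  refine le_of_tendsto (h1.sub_const (Ex μ χ βe βm a b Λ F)).abs ?_
  obtain ⟨N, hN⟩ : ∃ N : ℕ, N = a.natAbs + b.natAbs + ∑ z ∈ Λ, sdist (0 : Fin D → ℤ) z := ⟨_, rfl⟩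
  have h2 : ∀ᶠ j in atTop, N ≤ s j := hs.tendsto_atTop.eventually_ge_atTop N
  refine h2.mono fun j hj => ?_
  refine compare hP (by omega) (by omega) (fun z hz => ?_) hF hw hm ha hb
  refine mem_ballF.2 ?_
  have h3 : sdist (0 : Fin D → ℤ) z ≤ ∑ z ∈ Λ, sdist (0 : Fin D → ℤ) z :=
    Finset.single_le_sum (f := fun z => sdist (0 : Fin D → ℤ) z) (fun _ _ => Nat.zero_le _) hz
  omega

end exist

namespace Inf

variable {ν : Measure (Lnk D → G)}

/-- the expectations in large regions converge -/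
lemma tend (hν : Inf μ χ βe βm m ν) (hm : 1 ≤ m) {F : (Lnk D → G) → ℝ} {A : Finset (Lnk D)}
    (hF : Ob F A) (hFc : Continuous F) {p : ℤ} {h : ℕ} (hw : Win p (p + h) A)
    {Λ : ℕ → Finset (Fin D → ℤ)} (hΛ : ∀ n, Mar n (Λ n) A) :
    Tendsto (fun n : ℕ => Ex μ χ βe βm (p - n) (p + h + n) (Λ n) F) atTop (𝓝 (∫ U, F U ∂ν)) := by
  have h1 : ∀ n : ℕ, |Ex μ χ βe βm (p - n) (p + h + n) (Λ n) F - ∫ U, F U ∂ν| ≤ err m h n n A :=
    fun n => hν.conv F A hF hFc p h n n _ _ _ hw (hΛ n) (by omega) le_rfl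
  rw [tendsto_iff_norm_sub_tendsto_zero]
  exact squeeze_zero (fun n => norm_nonneg _) h1 (err_tendsto m h hm A)

lemma uniq (hν : Inf μ χ βe βm m ν) {ν' : Measure (Lnk D → G)} (hν' : Inf μ χ βe βm m ν')
    (hm : 1 ≤ m) {F : (Lnk D → G) → ℝ} {A : Finset (Lnk D)} (hF : Ob F A) (hFc : Continuous F) :
    ∫ U, F U ∂ν = ∫ U, F U ∂ν' := by
  obtain ⟨q, hq⟩ := exists_Win A
  have hw : Win (-(q : ℤ)) (-(q : ℤ) + ((2 * q : ℕ) : ℤ)) A := hq.mono le_rfl (by push_cast; omega)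
  exact tendsto_nhds_unique (hν.tend hm hF hFc hw (Λ := nbA A) (Mar_nbA A))
    (hν'.tend hm hF hFc hw (Λ := nbA A) (Mar_nbA A))

lemma shift (hν : Inf μ χ βe βm m ν) (hm : 1 ≤ m) (hχ : Cf χ M) {F : (Lnk D → G) → ℝ}
    {A : Finset (Lnk D)} (hF : Ob F A) (hFc : Continuous F) (v : Site D) :
    ∫ U, F (shf v U) ∂ν = ∫ U, F U ∂ν := by
  obtain ⟨q, hq⟩ := exists_Win A
  have hw : Win (-(q : ℤ)) (-(q : ℤ) + ((2 * q : ℕ) : ℤ)) A := hq.mono le_rfl (by push_cast; omega)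
  have h1 := hν.tend hm hF hFc hw (Λ := nbA A) (Mar_nbA A)
  have hw' : Win (-(q : ℤ) + v.1) ((-(q : ℤ) + v.1) + ((2 * q : ℕ) : ℤ)) (shA v A) :=
    (hw.shA v).mono le_rfl (by omega)
  have h2 := hν.tend hm (hF.shf v) (hFc.comp (cont_shf v)) hw' (Λ := fun n => trR v.2 (nbA A n))
    (fun n => (Mar_nbA A n).shA v)
  refine tendsto_nhds_unique h2 ?_
  refine h1.congr fun n => ?_
  rw [Ex_shf v _ _ _ hχ hF.meas]
  congr 1 <;> ring

lemma refl [μ.IsInvInvariant] (hν : Inf μ χ βe βm m ν) (hm : 1 ≤ m) (hχ : Cf χ M)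
    {F : (Lnk D → G) → ℝ} {A : Finset (Lnk D)} (hF : Ob F A) (hFc : Continuous F) :
    ∫ U, F (rfc U) ∂ν = ∫ U, F U ∂ν := by
  obtain ⟨q, hq⟩ := exists_Win A
  have hw : Win (-(q : ℤ)) (-(q : ℤ) + ((2 * q : ℕ) : ℤ)) A := hq.mono le_rfl (by push_cast; omega)
  have h1 := hν.tend hm hF hFc hw (Λ := nbA A) (Mar_nbA A)
  have hw' : Win (-(q : ℤ)) (-(q : ℤ) + ((2 * q : ℕ) : ℤ)) (rfA A) :=
    hq.rfA.mono le_rfl (by push_cast; omega)
  have h2 := hν.tend hm hF.rfc (hFc.comp cont_rfc) hw' (Λ := nbA A)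
    (fun n => (Mar_nbA A n).rfA)
  refine tendsto_nhds_unique h2 ?_
  refine h1.congr fun n => ?_
  rw [Ex_rfc _ _ _ hχ hF.meas]
  congr 1 <;> (push_cast; ring)

variable [μ.IsMulLeftInvariant] [μ.IsMulRightInvariant]

/-- **Covariances in the infinite volume.** -/
theorem cov (hν : Inf μ χ βe βm m ν) (hP : Par μ D χ k βe βm M c m)
    {F1 F2 : (Lnk D → G) → ℝ} {A1 A2 : Finset (Lnk D)} (h1 : Ob F1 A1)
    (h2 : Ob F2 A2) (hc1 : Continuous F1) (hc2 : Continuous F2) {p : ℤ}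
    {h τ r : ℕ} (hw : ∀ l ∈ A1, p ≤ l.1.1 ∧ l.1.1 ≤ p + h)
    (hτ : τ = 0 ∨ ∀ l ∈ A2, p + h + τ ≤ l.1.1)
    (hr : ∀ l ∈ A1, ∀ l' ∈ A2, r ≤ sdist l.1.2 l'.1.2) :
    |∫ U, F1 U * F2 U ∂ν - (∫ U, F1 U ∂ν) * ∫ U, F2 U ∂ν| ≤
      12 * ((h + 1 + 100 * m) * qq m ^ τ) * (A1.card * Real.exp (-(r : ℝ))) := by
  obtain ⟨q, hq⟩ := exists_Win (A1 ∪ A2)
  have hw' : Win (-(q : ℤ)) (-(q : ℤ) + ((2 * q : ℕ) : ℤ)) (A1 ∪ A2) :=
    hq.mono le_rfl (by push_cast; omega)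
  have hM := Mar_nbA (A1 ∪ A2)
  have t1 := hν.tend hP.m1 (h1.mul h2) (hc1.mul hc2) hw' hM
  have t2 := hν.tend hP.m1 (h1.mono Finset.subset_union_left) hc1 hw' hM
  have t3 := hν.tend hP.m1 (h2.mono Finset.subset_union_right) hc2 hw' hM
  refine le_of_tendsto (t1.sub (t2.mul t3)).abs ?_
  have h3 : ∀ᶠ n : ℕ in atTop, (p.natAbs + q : ℕ) ≤ n := eventually_ge_atTop _
  refine h3.mono fun n hn => ?_
  have hin : ∀ l ∈ A1 ∪ A2, InR (-(q : ℤ) - n) (-(q : ℤ) + ((2 * q : ℕ) : ℤ) + n)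
      (nbA (A1 ∪ A2) n) l := InR_of hw' (hM n) (by omega) (by omega)
  exact cov_region hP (by push_cast; omega) h1 h2 (fun l hl => hin l (Finset.mem_union_left _ hl))
    (fun l hl => hin l (Finset.mem_union_right _ hl)) (by omega) hw hτ hr

/-- **Reflection positivity in the infinite volume.** -/
theorem rp (hν : Inf μ χ βe βm m ν) (hP : Par μ D χ k βe βm M c m) {F : (Lnk D → G) → ℝ}
    {A : Finset (Lnk D)} (hF : Ob F A) (hFc : Continuous F) (hA : ∀ l ∈ A, 0 ≤ l.1.1) :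
    0 ≤ ∫ U, F (rfc U) * F U ∂ν := by
  obtain ⟨q, hq⟩ := exists_Win (rfA A ∪ A)
  have hw' : Win (-(q : ℤ)) (-(q : ℤ) + ((2 * q : ℕ) : ℤ)) (rfA A ∪ A) :=
    hq.mono le_rfl (by push_cast; omega)
  have hM : ∀ n, Mar n (nbA A n) (rfA A ∪ A) := fun n l hl => by
    rcases Finset.mem_union.1 hl with h | h
    · exact (Mar_nbA A n).rfA l h
    · exact Mar_nbA A n l h
  have t1 := hν.tend hP.m1 (hF.rfc.mul hF) ((hFc.comp cont_rfc).mul hFc) hw' hM
  refine ge_of_tendsto t1 (Filter.Eventually.of_forall fun n => ?_)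
  have hin : ∀ l ∈ A, InR (0 : ℤ) ((q + n : ℕ) : ℤ) (nbA A n) l := fun l hl => by
    have h1 := InR_of hw' (hM n) (a := -(q : ℤ)) (b := ((q + n : ℕ) : ℤ)) le_rfl
      (by push_cast; omega) l (Finset.mem_union_right _ hl)
    obtain ⟨⟨⟨h2, h3⟩, h4⟩, ⟨h5, h6⟩, h7⟩ := h1
    exact ⟨⟨⟨hA l hl, h3⟩, h4⟩, ⟨(hA l hl).trans (tip_ge l), h6⟩, h7⟩
  have h1 := rp_region hP hF hin
  have e1 : (-(q : ℤ) - n) = -((q + n : ℕ) : ℤ) := by push_cast; ring
  have e2 : (-(q : ℤ) + ((2 * q : ℕ) : ℤ) + n) = ((q + n : ℕ) : ℤ) := by push_cast; ring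
  rw [e1, e2]
  exact h1

end Inf

end top

end Pool.Agent.Q295.YM
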