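import Mathlib
import Pool.Agent.Q295.YM.InfVol

/-!
# The gap of the transfer matrix
-/

namespace Pool.Agent.Q295.YM

open MeasureTheory Function Filter
open Pool.Agent.H556R4.Dob
open scoped Topology

set_option linter.unusedSectionVars false
set_option linter.unusedVariables false

/-- log-convexity and decay -/
lemma gap_seq {g : ℕ → ℝ} {q K : ℝ} (hq : 0 < q) (h0 : 0 ≤ g 0)
    (hcs : ∀ t, g t ^ 2 ≤ g 0 * g (2 * t)) (hK : ∀ t, |g t| ≤ K * q ^ t) (t : ℕ) :
    |g t| ≤ q ^ t * g 0 := by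
  rcases h0.eq_or_lt with h | h
  · have h1 := hcs t
    rw [← h, zero_mul] at h1
    have h2 : g t = 0 := by nlinarith [sq_nonneg (g t)]
    rw [h2, ← h]; simp
  by_contra hcon
  push Not at hcon
  have hq0 : 0 < q ^ t := pow_pos hq t
  obtain ⟨x, hx⟩ : ∃ x, x = |g t| / (q ^ t * g 0) := ⟨_, rfl⟩
  have hx1 : 1 < x := by rw [hx, one_lt_div (by positivity)]; exact hcon
  have key : ∀ k : ℕ, g 0 * (q ^ (2 ^ k * t) * x ^ (2 ^ k)) ≤ |g (2 ^ k * t)| := by
    intro k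
    induction k with
    | zero =>
      rw [pow_zero, one_mul, pow_one, hx]
      have : g 0 * (q ^ t * (|g t| / (q ^ t * g 0))) = |g t| := by field_simp
      rw [this]
    | succ k ih =>
      have h1 := hcs (2 ^ k * t)
      have e1 : 2 * (2 ^ k * t) = 2 ^ (k + 1) * t := by rw [pow_succ]; ring
      rw [e1] at h1
      have h2 : g 0 * g (2 ^ (k + 1) * t) ≤ g 0 * |g (2 ^ (k + 1) * t)| :=
        mul_le_mul_of_nonneg_left (le_abs_self _) h.le
      have h3 : (g 0 * (q ^ (2 ^ k * t) * x ^ (2 ^ k))) ^ 2 ≤ g (2 ^ k * t) ^ 2 := by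
        rw [← sq_abs (g (2 ^ k * t))]
        refine pow_le_pow_left₀ ?_ ih 2
        have : 0 < x := by linarith
        positivity
      have h4 : g 0 * (g 0 * (q ^ (2 ^ (k + 1) * t) * x ^ (2 ^ (k + 1)))) ≤
          g 0 * |g (2 ^ (k + 1) * t)| := by
        refine le_trans (le_of_eq ?_) (h3.trans (h1.trans h2))
        rw [mul_pow, mul_pow, ← pow_mul, ← pow_mul]
        have e2 : 2 ^ (k + 1) * t = 2 ^ k * t * 2 := by rw [pow_succ]; ring
        have e3 : 2 ^ (k + 1) = 2 ^ k * 2 := pow_succ 2 k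
        rw [e2, e3]; ring
      exact le_of_mul_le_mul_left h4 h
  have h1 : ∀ k : ℕ, x ^ (2 ^ k) ≤ K / g 0 := by
    intro k
    have h2 := (key k).trans (hK _)
    have h3 : 0 < q ^ (2 ^ k * t) := pow_pos hq _
    rw [le_div_iff₀ h]
    have h4 : q ^ (2 ^ k * t) * (x ^ (2 ^ k) * g 0) ≤ q ^ (2 ^ k * t) * K := by linarith
    exact le_of_mul_le_mul_left h4 h3
  obtain ⟨n, hn⟩ := pow_unbounded_of_one_lt (K / g 0) hx1
  have h2 := h1 n
  have h3 : x ^ n ≤ x ^ (2 ^ n) := pow_le_pow_right₀ hx1.le (Nat.lt_two_pow_self).le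
  linarith

variable {D : ℕ}
variable {G : Type} [Group G] [TopologicalSpace G] [IsTopologicalGroup G]
  [SecondCountableTopology G] [MeasurableSpace G] [BorelSpace G] [CompactSpace G]
variable {μ : Measure G} [IsProbabilityMeasure μ]
variable {χ : G → ℝ} {k : G → G → ℝ} {βe βm M c : ℝ} {m : ℕ}

/-- continuous local gauge invariant functions -/
structure Lo (F : (Lnk D → G) → ℝ) (A : Finset (Lnk D)) : Prop where
  cont : Continuous F
  inv : GInv F
  dep : ∀ U U', (∀ l ∈ A, U l = U' l) → F U = F U'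

lemma Lo.bdd {F : (Lnk D → G) → ℝ} {A : Finset (Lnk D)} (h : Lo F A) : ∃ C, 0 < C ∧ ∀ U, |F U| ≤ C := by
  have h1 : IsCompact (Set.range fun U => |F U|) := isCompact_range h.cont.abs
  obtain ⟨C, hC⟩ := h1.bddAbove
  refine ⟨|C| + 1, by positivity, fun U => ?_⟩
  have h2 : |F U| ≤ C := hC ⟨U, rfl⟩
  linarith [le_abs_self C]

lemma Lo.bm {F : (Lnk D → G) → ℝ} {A : Finset (Lnk D)} (h : Lo F A) : BM F := by
  obtain ⟨C, -, hC⟩ := h.bdd
  exact ⟨h.cont.measurable, C, hC⟩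

lemma Lo.scale {F : (Lnk D → G) → ℝ} {A : Finset (Lnk D)} (h : Lo F A) :
    ∃ C, 0 < C ∧ Ob (fun U => C * F U) A := by
  obtain ⟨C, hC0, hC⟩ := h.bdd
  refine ⟨C⁻¹, by positivity, (continuous_const.mul h.cont).measurable, fun U => ?_, fun γ U => ?_,
    fun U U' hU => ?_⟩
  · rw [abs_mul, abs_of_pos (by positivity), inv_mul_le_iff₀ hC0, mul_one]
    exact hC U
  · rw [h.inv]
  · rw [h.dep U U' hU]

lemma Lo.add {F F' : (Lnk D → G) → ℝ} {A A' : Finset (Lnk D)} (h : Lo F A) (h' : Lo F' A') :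
    Lo (fun U => F U + F' U) (A ∪ A') :=
  ⟨h.cont.add h'.cont, fun γ U => by rw [h.inv, h'.inv], fun U U' hU => by
    rw [h.dep U U' fun l hl => hU l (Finset.mem_union_left _ hl),
      h'.dep U U' fun l hl => hU l (Finset.mem_union_right _ hl)]⟩

lemma Lo.mul {F F' : (Lnk D → G) → ℝ} {A A' : Finset (Lnk D)} (h : Lo F A) (h' : Lo F' A') :
    Lo (fun U => F U * F' U) (A ∪ A') :=
  ⟨h.cont.mul h'.cont, fun γ U => by rw [h.inv, h'.inv], fun U U' hU => by
    rw [h.dep U U' fun l hl => hU l (Finset.mem_union_left _ hl),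
      h'.dep U U' fun l hl => hU l (Finset.mem_union_right _ hl)]⟩

lemma Lo.cmul {F : (Lnk D → G) → ℝ} {A : Finset (Lnk D)} (h : Lo F A) (C : ℝ) :
    Lo (fun U => C * F U) A :=
  ⟨continuous_const.mul h.cont, fun γ U => by rw [h.inv], fun U U' hU => by rw [h.dep U U' hU]⟩

lemma Lo.subc {F : (Lnk D → G) → ℝ} {A : Finset (Lnk D)} (h : Lo F A) (C : ℝ) :
    Lo (fun U => F U - C) A :=
  ⟨h.cont.sub continuous_const, fun γ U => by rw [h.inv], fun U U' hU => by rw [h.dep U U' hU]⟩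

lemma Lo.rfc {F : (Lnk D → G) → ℝ} {A : Finset (Lnk D)} (h : Lo F A) :
    Lo (fun U => F (rfc U)) (rfA A) :=
  ⟨h.cont.comp cont_rfc, fun γ U => by
    rw [rfc_gtr, h.inv], fun U U' hU => h.dep _ _ fun l hl => by
      unfold YM.rfc
      rw [hU _ (Finset.mem_image_of_mem _ hl)]⟩

lemma Lo.shf {F : (Lnk D → G) → ℝ} {A : Finset (Lnk D)} (h : Lo F A) (v : Site D) :
    Lo (fun U => F (shf v U)) (shA v A) :=
  ⟨h.cont.comp (cont_shf v), fun γ U => by rw [shf_gtr, h.inv], fun U U' hU =>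
    h.dep _ _ fun l hl => hU _ (Finset.mem_image_of_mem _ hl)⟩

lemma shf_shf (v w : Site D) (U : Lnk D → G) : shf v (shf w U) = shf (v + w) U := by
  funext l
  unfold shf
  rw [add_assoc]

lemma shf_zero (U : Lnk D → G) : shf (0 : Site D) U = U := by
  funext l
  unfold shf
  simp

lemma shf_rfc (t : ℤ) (U : Lnk D → G) : shf (t, (0 : Fin D → ℤ)) (rfc U) =
    rfc (shf (-t, (0 : Fin D → ℤ)) U) := by
  funext l
  obtain ⟨x, i⟩ := l
  cases i with
  | none =>
    rw [rfc_none]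
    unfold shf
    rw [rfc_none]
    congr 2
    ext1
    · ext1
      · simp; ring
      · simp
    · rfl
  | some j =>
    rw [rfc_some]
    unfold shf
    rw [rfc_some]
    congr 1
    ext1
    · ext1
      · simp; ring
      · simp
    · rfl

variable [μ.IsMulLeftInvariant] [μ.IsMulRightInvariant] [μ.IsInvInvariant]

namespace Inf

variable {ν : Measure (Lnk D → G)}

lemma shiftL (hν : Inf μ χ βe βm m ν) (hP : Par μ D χ k βe βm M c m) {F : (Lnk D → G) → ℝ}
    {A : Finset (Lnk D)} (hF : Lo F A) (v : Site D) : ∫ U, F (shf v U) ∂ν = ∫ U, F U ∂ν := by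
  obtain ⟨C, hC, hO⟩ := hF.scale
  have h := hν.shift hP.m1 hP.cf hO (continuous_const.mul hF.cont) v
  rw [integral_const_mul, integral_const_mul] at h
  exact mul_left_cancel₀ hC.ne' h

lemma reflL (hν : Inf μ χ βe βm m ν) (hP : Par μ D χ k βe βm M c m) {F : (Lnk D → G) → ℝ}
    {A : Finset (Lnk D)} (hF : Lo F A) : ∫ U, F (rfc U) ∂ν = ∫ U, F U ∂ν := by
  obtain ⟨C, hC, hO⟩ := hF.scale
  have h := hν.refl hP.m1 hP.cf hO (continuous_const.mul hF.cont)
  rw [integral_const_mul, integral_const_mul] at h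
  exact mul_left_cancel₀ hC.ne' h

lemma rpL (hν : Inf μ χ βe βm m ν) (hP : Par μ D χ k βe βm M c m) {F : (Lnk D → G) → ℝ}
    {A : Finset (Lnk D)} (hF : Lo F A) (hA : ∀ l ∈ A, 0 ≤ l.1.1) :
    0 ≤ ∫ U, F (rfc U) * F U ∂ν := by
  obtain ⟨C, hC, hO⟩ := hF.scale
  have h := hν.rp hP hO (continuous_const.mul hF.cont) hA
  have e1 : ∀ U : Lnk D → G, C * F (rfc U) * (C * F U) = C ^ 2 * (F (rfc U) * F U) := fun U => by
    ring
  simp only [e1] at h
  rw [integral_const_mul] at h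
  have hC2 : 0 < C ^ 2 := by positivity
  exact nonneg_of_mul_nonneg_right h hC2

/-- the truncated form -/
noncomputable def Bf (ν : Measure (Lnk D → G)) (F H : (Lnk D → G) → ℝ) : ℝ :=
  ∫ U, F (rfc U) * H U ∂ν - (∫ U, F U ∂ν) * ∫ U, H U ∂ν

lemma Bf_nonneg (hν : Inf μ χ βe βm m ν) (hP : Par μ D χ k βe βm M c m) {F : (Lnk D → G) → ℝ}
    {A : Finset (Lnk D)} (hF : Lo F A) (hA : ∀ l ∈ A, 0 ≤ l.1.1) : 0 ≤ Bf ν F F := by
  have := hν.prob
  obtain ⟨c0, hc0⟩ : ∃ c0, c0 = ∫ U, F U ∂ν := ⟨_, rfl⟩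
  have h := hν.rpL hP (hF.subc c0) hA
  have hi1 : Integrable (fun U => F (YM.rfc U) * F U) ν := ((hF.rfc.bm.mul hF.bm)).integrable ν
  have hi2 : Integrable (fun U => F (YM.rfc U)) ν := hF.rfc.bm.integrable ν
  have hi3 : Integrable F ν := hF.bm.integrable ν
  have e1 : ∫ U, (F (YM.rfc U) - c0) * (F U - c0) ∂ν = Bf ν F F := by
    have e2 : ∀ U, (F (YM.rfc U) - c0) * (F U - c0) =
        F (YM.rfc U) * F U - c0 * F (YM.rfc U) - c0 * F U + c0 * c0 := fun U => by ring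
    simp only [e2]
    have hi4 : Integrable (fun U => c0 * F (YM.rfc U)) ν := hi2.const_mul c0
    have hi5 : Integrable (fun U => c0 * F U) ν := hi3.const_mul c0
    have hi6 : Integrable (fun U => F (YM.rfc U) * F U - c0 * F (YM.rfc U)) ν := hi1.sub hi4
    have hi7 : Integrable (fun U => F (YM.rfc U) * F U - c0 * F (YM.rfc U) - c0 * F U) ν :=
      hi6.sub hi5
    rw [integral_add hi7 (integrable_const _), integral_sub hi6 hi5,
      integral_sub hi1 hi4, integral_const_mul, integral_const_mul,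
      hν.reflL hP hF, ← hc0]
    unfold Bf
    rw [← hc0]
    simp only [integral_const, probReal_univ, one_smul]
    ring
  rw [← e1]
  exact h

lemma Bf_symm (hν : Inf μ χ βe βm m ν) (hP : Par μ D χ k βe βm M c m) {F H : (Lnk D → G) → ℝ}
    {A A' : Finset (Lnk D)} (hF : Lo F A) (hH : Lo H A') : Bf ν F H = Bf ν H F := by
  unfold Bf
  have h := hν.reflL hP (hF.rfc.mul hH)
  simp only [rfc_rfc] at h
  have e1 : ∀ U : Lnk D → G, H (YM.rfc U) * F U = F U * H (YM.rfc U) := fun U => mul_comm _ _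
  simp only [e1]
  rw [h]; ring

lemma Bf_add (hν : Inf μ χ βe βm m ν) {F F' H : (Lnk D → G) → ℝ} {A A' A'' : Finset (Lnk D)}
    (hF : Lo F A) (hF' : Lo F' A') (hH : Lo H A'') (x : ℝ) :
    Bf ν H (fun U => F U + x * F' U) = Bf ν H F + x * Bf ν H F' := by
  have := hν.prob
  have hi1 : Integrable (fun U => H (YM.rfc U) * F U) ν := ((hH.rfc.bm.mul hF.bm)).integrable ν
  have hi2 : Integrable (fun U => H (YM.rfc U) * F' U) ν := ((hH.rfc.bm.mul hF'.bm)).integrable ν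
  unfold Bf
  have e1 : ∀ U, H (YM.rfc U) * (F U + x * F' U) =
      H (YM.rfc U) * F U + x * (H (YM.rfc U) * F' U) := fun U => by ring
  simp only [e1]
  rw [integral_add hi1 (hi2.const_mul x), integral_const_mul,
    integral_add (hF.bm.integrable ν) ((hF'.bm.integrable ν).const_mul x), integral_const_mul]
  ring

/-- Cauchy–Schwarz -/
lemma Bf_cs (hν : Inf μ χ βe βm m ν) (hP : Par μ D χ k βe βm M c m) {F H : (Lnk D → G) → ℝ}
    {A A' : Finset (Lnk D)} (hF : Lo F A) (hH : Lo H A') (hA : ∀ l ∈ A, 0 ≤ l.1.1)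
    (hA' : ∀ l ∈ A', 0 ≤ l.1.1) : Bf ν F H ^ 2 ≤ Bf ν F F * Bf ν H H := by
  have h1 : ∀ x : ℝ, 0 ≤ Bf ν H H * (x * x) + 2 * Bf ν F H * x + Bf ν F F := by
    intro x
    have hs : Lo (fun U => F U + x * H U) (A ∪ A') := hF.add (hH.cmul x)
    have h2 := hν.Bf_nonneg hP hs fun l hl => by
      rcases Finset.mem_union.1 hl with h | h
      · exact hA l h
      · exact hA' l h
    rw [hν.Bf_add hF hH hs, hν.Bf_symm hP hs hF, hν.Bf_symm hP hs hH, hν.Bf_add hF hH hF,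
      hν.Bf_add hF hH hH, hν.Bf_symm hP hH hF] at h2
    linarith
  have h2 := discrim_le_zero h1
  unfold discrim at h2
  linarith

/-- **The gap of the transfer matrix.** -/
theorem gap (hν : Inf μ χ βe βm m ν) (hP : Par μ D χ k βe βm M c m) {F : (Lnk D → G) → ℝ}
    {A : Finset (Lnk D)} (hF : Lo F A) (hA : ∀ l ∈ A, 0 ≤ l.1.1) (t : ℕ) :
    |∫ U, F (YM.rfc U) * F (YM.shf ((t : ℤ), (0 : Fin D → ℤ)) U) ∂ν - (∫ U, F U ∂ν) ^ 2| ≤
      qq m ^ t * (∫ U, F (YM.rfc U) * F U ∂ν - (∫ U, F U ∂ν) ^ 2) := by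
  obtain ⟨g, hg⟩ : ∃ g : ℕ → ℝ, g = fun t : ℕ =>
    Bf ν F (fun U => F (YM.shf ((t : ℤ), (0 : Fin D → ℤ)) U)) := ⟨_, rfl⟩
  have hgt : ∀ t : ℕ, g t = ∫ U, F (YM.rfc U) * F (YM.shf ((t : ℤ), (0 : Fin D → ℤ)) U) ∂ν -
      (∫ U, F U ∂ν) ^ 2 := fun t => by
    rw [hg]
    simp only [Bf]
    rw [hν.shiftL hP hF]; ring
  have hg0 : g 0 = Bf ν F F := by
    rw [hg]
    simp only [Nat.cast_zero]
    congr 1
    funext U
    exact congrArg F (shf_zero U)
  have hpos : ∀ t : ℕ, ∀ l ∈ shA ((t : ℤ), (0 : Fin D → ℤ)) A, (t : ℤ) ≤ l.1.1 := by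
    intro t l hl
    unfold shA at hl
    rw [Finset.mem_image] at hl
    obtain ⟨l', hl', rfl⟩ := hl
    have := hA l' hl'
    simp only [Prod.fst_add]
    omega
  have hcs : ∀ t, g t ^ 2 ≤ g 0 * g (2 * t) := by
    intro t
    have h1 := hν.Bf_cs hP hF (hF.shf ((t : ℤ), (0 : Fin D → ℤ))) hA
      (fun l hl => (Int.natCast_nonneg t).trans (hpos t l hl))
    have h2 : Bf ν (fun U => F (YM.shf ((t : ℤ), (0 : Fin D → ℤ)) U))
        (fun U => F (YM.shf ((t : ℤ), (0 : Fin D → ℤ)) U)) = g (2 * t) := by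
      rw [hgt]
      unfold Bf
      rw [hν.shiftL hP hF]
      have h3 : Lo (fun U => F (YM.rfc (YM.shf (-(t : ℤ), (0 : Fin D → ℤ)) U)) *
          F (YM.shf ((t : ℤ), (0 : Fin D → ℤ)) U)) _ :=
        (hF.rfc.shf (-(t : ℤ), (0 : Fin D → ℤ))).mul (hF.shf ((t : ℤ), (0 : Fin D → ℤ)))
      have h4 := hν.shiftL hP h3 ((t : ℤ), (0 : Fin D → ℤ))
      simp only [shf_shf] at h4
      have e1 : ((-(t : ℤ), (0 : Fin D → ℤ)) + ((t : ℤ), (0 : Fin D → ℤ)) : Site D) = 0 := by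
        ext1 <;> simp
      have e2 : (((t : ℤ), (0 : Fin D → ℤ)) + ((t : ℤ), (0 : Fin D → ℤ)) : Site D) =
          (((2 * t : ℕ) : ℤ), (0 : Fin D → ℤ)) := by
        ext1
        · simp; ring
        · simp
      rw [e1, e2] at h4
      simp only [shf_zero] at h4
      have e3 : ∀ U : Lnk D → G, F (YM.shf ((t : ℤ), (0 : Fin D → ℤ)) (YM.rfc U)) =
          F (YM.rfc (YM.shf (-(t : ℤ), (0 : Fin D → ℤ)) U)) := fun U => by rw [shf_rfc]
      simp only [e3]
      rw [← h4]; ring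
    rw [h2, ← hg0] at h1
    rw [hg] at h1 ⊢
    exact h1
  obtain ⟨C, hC, hO⟩ := hF.scale
  obtain ⟨q0, hq0⟩ := exists_Win A
  have hK : ∀ t, |g t| ≤ (C⁻¹ ^ 2 * (12 * (q0 + 1 + 100 * m) * (rfA A).card)) * qq m ^ t := by
    intro t
    have hcF : Continuous fun U => C * F U := continuous_const.mul hF.cont
    have h1 := hν.cov hP (F1 := fun U => C * F (YM.rfc U))
      (F2 := fun U => C * F (YM.shf ((t : ℤ), (0 : Fin D → ℤ)) U)) hO.rfc
      (hO.shf ((t : ℤ), (0 : Fin D → ℤ))) (hcF.comp cont_rfc) (hcF.comp (cont_shf _))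
      (p := -(q0 : ℤ)) (h := q0) (τ := t) (r := 0) (fun l hl => by
        have h2 := hq0.rfA.le l hl
        have h3 : l.1.1 ≤ 0 := by
          unfold rfA at hl
          rw [Finset.mem_image] at hl
          obtain ⟨⟨x, i⟩, hl', rfl⟩ := hl
          have h4 := hA _ hl'
          simp only at h4
          cases i with
          | none => rw [rlk_none]; simp only; omega
          | some j => rw [rlk_some]; simp only; omega
        constructor <;> omega)
      (Or.inr fun l hl => by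
        have := hpos t l hl
        omega) (fun _ _ _ _ => Nat.zero_le _)
    have e1 : ∀ U : Lnk D → G, C * F (YM.rfc U) * (C * F (YM.shf ((t : ℤ), (0 : Fin D → ℤ)) U)) =
        C ^ 2 * (F (YM.rfc U) * F (YM.shf ((t : ℤ), (0 : Fin D → ℤ)) U)) := fun U => by ring
    simp only [e1] at h1
    rw [integral_const_mul, integral_const_mul, integral_const_mul, hν.reflL hP hF,
      hν.shiftL hP hF] at h1
    have e2 : C ^ 2 * ∫ U, F (YM.rfc U) * F (YM.shf ((t : ℤ), (0 : Fin D → ℤ)) U) ∂ν -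
        C * (∫ U, F U ∂ν) * (C * ∫ U, F U ∂ν) = C ^ 2 * g t := by rw [hgt]; ring
    rw [e2, abs_mul, abs_of_pos (by positivity)] at h1
    have e3 : |g t| = C⁻¹ ^ 2 * (C ^ 2 * |g t|) := by field_simp
    rw [e3]
    refine (mul_le_mul_of_nonneg_left h1 (by positivity)).trans (le_of_eq ?_)
    simp only [Nat.cast_zero, neg_zero, Real.exp_zero, mul_one]
    ring
  have h := gap_seq (qq_pos m) (by rw [hg0]; exact hν.Bf_nonneg hP hF hA) hcs hK t
  rw [hgt t, hg0] at h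
  refine h.trans (le_of_eq ?_)
  unfold Bf
  ring

end Inf

end Pool.Agent.Q295.YM
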