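import Mathlib
import Pool.Agent.TH618.YM.Cartan
import Pool.Agent.Q295.YM.Walk3

/-!
# Closed connected subgroups of the unitary group: the length function `‖g - 1‖`
-/

namespace Pool.Agent.Q295.YM

open MeasureTheory Matrix Filter Function
open scoped Matrix.Norms.Frobenius Topology
open Pool.Agent.H906R3.YM Pool.Agent.W793.YM Pool.Agent.TH618.YM

set_option linter.unusedSectionVars false
set_option linter.unusedVariables false

variable {N n : ℕ} {G : Subgroup (UN N)}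

/-- the distance to the identity -/
noncomputable def dl (g : G) : ℝ := ‖mt g - 1‖

lemma dl_nonneg (g : G) : 0 ≤ dl g := norm_nonneg _

lemma dl_one : dl (1 : G) = 0 := by
  unfold dl; rw [mt_one, sub_self, norm_zero]

lemma dl_diff (g h : G) : dl (g⁻¹ * h) = ‖mt g - mt h‖ := by
  unfold dl
  have h1 : mt (g⁻¹ * h) - 1 = mt g⁻¹ * (mt h - mt g) := by
    rw [mul_sub, ← mt_mul, ← mt_mul, inv_mul_cancel, mt_one]
  rw [h1, norm_mt_mul, norm_sub_rev]

lemma dl_inv (g : G) : dl g⁻¹ = dl g := by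
  have h1 := dl_diff g 1
  rw [mul_one, mt_one] at h1
  exact h1

lemma dl_mul (g h : G) : dl (g * h) ≤ dl g + dl h := by
  have h1 := dl_diff g⁻¹ h
  rw [inv_inv] at h1
  rw [h1]
  have h2 : mt g⁻¹ - mt h = (mt g⁻¹ - 1) - (mt h - 1) := by abel
  rw [h2, ← dl_inv g]
  exact norm_sub_le _ _

lemma dl_cont : Continuous (dl : G → ℝ) := (mt_cont.sub continuous_const).norm

lemma dl_bdd (g : G) : dl g ≤ 2 * ‖(1 : Mat N)‖ + 1 := by
  unfold dl
  have h1 := norm_sub_le (mt g) 1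
  have h2 := norm_mt_mul g (1 : Mat N)
  rw [mul_one] at h2
  linarith

section frame

variable [CompactSpace G] [SecondCountableTopology G] [MeasurableSpace G] [BorelSpace G]
  (B : Frame G n)

/-- the projection to the Lie algebra -/
noncomputable def prj (A : Mat N) : Mat N := ∑ a, ip (B.X a) A • B.X a

lemma ip_prj (a : Fin n) (A : Mat N) : ip (B.X a) (prj B A) = ip (B.X a) A := by
  unfold prj
  rw [map_sum]
  have h4 : ∀ b, ip (B.X a) (ip (B.X b) A • B.X b) = if a = b then ip (B.X b) A else 0 := fun b => by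
    rw [map_smul, smul_eq_mul]
    have h5 : ip (B.X a) (B.X b) = if a = b then 1 else 0 := B.orth a b
    rw [h5]
    split_ifs <;> ring
  rw [Finset.sum_congr rfl fun b _ => h4 b, Finset.sum_ite_eq]
  simp

lemma norm_prj_sq (A : Mat N) : ‖prj B A‖ ^ 2 = ∑ a, ip (B.X a) A ^ 2 := by
  have h1 := norm_perp (X := B.X) B.orth (prj B A)
  simp only [ip_prj] at h1
  have h2 : prj B A - ∑ a, ip (B.X a) A • B.X a = 0 := sub_self _
  rw [h2, norm_zero] at h1
  linarith

lemma norm_prj_le (A : Mat N) : ‖prj B A‖ ≤ ‖A‖ := by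
  have h1 := norm_perp (X := B.X) B.orth A
  have h2 := norm_prj_sq B A
  have h3 : ‖prj B A‖ ^ 2 ≤ ‖A‖ ^ 2 := by
    have := sq_nonneg ‖A - ∑ a, ip (B.X a) A • B.X a‖
    linarith
  exact (abs_le_of_sq_le_sq' h3 (norm_nonneg _)).2

lemma abs_ip_X (a : Fin n) (A : Mat N) : |ip (B.X a) A| ≤ ‖A‖ := by
  have h := abs_ip_le (B.X a) A
  rwa [norm_XB, one_mul] at h

/-- the distance to the Lie algebra, near the identity -/
lemma perp_le {C : ℝ} (hC0 : 0 ≤ C)
    (hC : ∀ g : G, ‖mt g - 1‖ ^ 2 ≤ ∑ a, ip (B.X a) (mt g - 1) ^ 2 + C * ‖mt g - 1‖ ^ 4) (g : G) :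
    ‖(mt g - 1) - prj B (mt g - 1)‖ ≤ Real.sqrt C * dl g ^ 2 := by
  have h1 := norm_perp (X := B.X) B.orth (mt g - 1)
  have h2 := hC g
  have h3 : ‖(mt g - 1) - prj B (mt g - 1)‖ ^ 2 ≤ (Real.sqrt C * dl g ^ 2) ^ 2 := by
    rw [mul_pow, Real.sq_sqrt hC0]
    unfold prj dl
    rw [h1]
    have : (‖mt g - 1‖ ^ 2) ^ 2 = ‖mt g - 1‖ ^ 4 := by ring
    rw [this]
    linarith
  exact (abs_le_of_sq_le_sq' h3 (by positivity)).2

include B in
/-- **Halving**: an element near the identity is the product of two elements of half the size. -/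
lemma halving (hG : IsClosed (G : Set (UN N))) : ∃ C : ℝ, 0 < C ∧ ∀ g : G, ∃ h : G,
    dl h ≤ dl g / 2 + C * dl g ^ 2 ∧ dl (h⁻¹ * g) ≤ dl g / 2 + C * dl g ^ 2 := by
  obtain ⟨C, hC0, hC⟩ := cartan B hG
  refine ⟨Real.sqrt C + ((n : ℝ) ^ 2 + n) + 1, by positivity, fun g => ?_⟩
  obtain ⟨A, hA⟩ : ∃ A, A = mt g - 1 := ⟨_, rfl⟩
  have hp := perp_le B hC0.le hC g
  have hd : dl g = ‖A‖ := by rw [hA]; rfl
  rw [← hA] at hp
  have h1 := Ph0_dev B (fun a => ip (B.X a) A / 2) (ε := ‖A‖) (fun a => by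
    rw [abs_div]
    have h2 := abs_ip_X B a A
    have h3 : |(2 : ℝ)| = 2 := abs_two
    rw [h3]
    have h4 := norm_nonneg A
    linarith)
  have h2 : ∑ a, (ip (B.X a) A / 2) • B.X a = (1 / 2 : ℝ) • prj B A := by
    unfold prj
    rw [Finset.smul_sum]
    refine Finset.sum_congr rfl fun a _ => ?_
    rw [smul_smul]; congr 1; ring
  rw [h2] at h1
  obtain ⟨h, hh⟩ : ∃ h, h = Ph0 B (fun a => ip (B.X a) A / 2) := ⟨_, rfl⟩
  rw [← hh] at h1
  have h3 := norm_prj_le B A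
  have h4 : ‖(1 / 2 : ℝ) • prj B A‖ ≤ ‖A‖ / 2 := by
    rw [norm_smul, Real.norm_of_nonneg (by norm_num)]
    linarith
  have hs : 0 ≤ Real.sqrt C := Real.sqrt_nonneg _
  have hA2 : 0 ≤ ‖A‖ ^ 2 := sq_nonneg _
  refine ⟨h, ?_, ?_⟩
  · have e1 : dl h = ‖(mt h - 1 - (1 / 2 : ℝ) • prj B A) + (1 / 2 : ℝ) • prj B A‖ := by
      rw [sub_add_cancel]; rfl
    rw [e1, hd]
    refine (norm_add_le _ _).trans ?_
    nlinarith
  · rw [dl_diff, hd]
    have e1 : mt h - mt g = (mt h - 1 - (1 / 2 : ℝ) • prj B A) - (A - prj B A) -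
        (1 / 2 : ℝ) • prj B A := by
      have e2 : prj B A = (1 / 2 : ℝ) • prj B A + (1 / 2 : ℝ) • prj B A := by
        rw [← add_smul]; norm_num
      have e3 : A - prj B A = A - ((1 / 2 : ℝ) • prj B A + (1 / 2 : ℝ) • prj B A) := by rw [← e2]
      rw [e3, hA]; abel
    rw [e1]
    refine (norm_sub_le _ _).trans ((add_le_add (norm_sub_le _ _) le_rfl).trans ?_)
    rw [hd] at hp
    nlinarith

end frame

/-- iterated halving -/
lemma chain_small {C : ℝ} (hC0 : 0 < C) (hC : ∀ g : G, ∃ h : G,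
    dl h ≤ dl g / 2 + C * dl g ^ 2 ∧ dl (h⁻¹ * g) ≤ dl g / 2 + C * dl g ^ 2) (j : ℕ) :
    ∀ s : ℝ, 0 ≤ s → 8 * C * s ≤ 1 → ∀ g : G, dl g ≤ s → ∃ l : List G, l.length = 2 ^ j ∧
      (∀ h ∈ l, dl h ≤ s / (1 - 4 * C * s) / 2 ^ j) ∧ l.prod = g := by
  induction j with
  | zero =>
    intro s hs0 hs g hg
    refine ⟨[g], by simp, fun h hh => ?_, by simp⟩
    rw [List.mem_singleton] at hh
    subst hh
    rw [pow_zero, div_one]
    have h1 : 0 < 1 - 4 * C * s := by linarith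
    refine hg.trans ?_
    rw [le_div_iff₀ h1]
    have : 0 ≤ 4 * C * s * s := by positivity
    linarith
  | succ j ih =>
    intro s hs0 hs g hg
    obtain ⟨h, h1, h2⟩ := hC g
    obtain ⟨f, hf⟩ : ∃ f, f = s / 2 + C * s ^ 2 := ⟨_, rfl⟩
    have hg0 := dl_nonneg g
    have h3 : dl g / 2 + C * dl g ^ 2 ≤ f := by
      have : dl g ^ 2 ≤ s ^ 2 := pow_le_pow_left₀ hg0 hg 2
      rw [hf]
      have := mul_le_mul_of_nonneg_left this hC0.le
      linarith
    have hf0 : 0 ≤ f := by rw [hf]; positivity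
    have hfs : f ≤ s := by rw [hf]; nlinarith
    have hf8 : 8 * C * f ≤ 1 := by nlinarith
    obtain ⟨l1, a1, a2, a3⟩ := ih f hf0 hf8 h (h1.trans h3)
    obtain ⟨l2, b1, b2, b3⟩ := ih f hf0 hf8 (h⁻¹ * g) (h2.trans h3)
    have hD : 0 < 1 - 4 * C * s := by linarith
    have hD' : 0 < 1 - 4 * C * f := by linarith
    have hkey : f / (1 - 4 * C * f) / 2 ^ j ≤ s / (1 - 4 * C * s) / 2 ^ (j + 1) := by
      have e1 : s / (1 - 4 * C * s) / 2 ^ (j + 1) = s / 2 / (1 - 4 * C * s) / 2 ^ j := by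
        rw [pow_succ]; field_simp
      rw [e1]
      refine div_le_div_of_nonneg_right ?_ (by positivity)
      rw [div_le_div_iff₀ hD' hD]
      have e2 : f * (1 - 4 * C * s) - s / 2 * (1 - 4 * C * f) = C * s ^ 2 - 2 * C * s * f := by
        rw [hf]; ring
      have e3 : 2 * C * s * f = C * s ^ 2 + 2 * C ^ 2 * s ^ 3 := by rw [hf]; ring
      have e4 : 0 ≤ 2 * C ^ 2 * s ^ 3 := by positivity
      linarith
    refine ⟨l1 ++ l2, ?_, fun x hx => ?_, ?_⟩
    · rw [List.length_append, a1, b1, pow_succ]; ring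
    · rcases List.mem_append.1 hx with hx | hx
      · exact (a2 x hx).trans hkey
      · exact (b2 x hx).trans hkey
    · rw [List.prod_append, a3, b3, mul_inv_cancel_left]

/-- a compact connected group is a finite power of each neighbourhood of the identity -/
lemma gen_finite [CompactSpace G] [ConnectedSpace G] {ρ : ℝ} (hρ : 0 < ρ) :
    ∃ M : ℕ, ∀ g : G, ∃ l : List G, l.length ≤ M ∧ (∀ h ∈ l, dl h ≤ ρ) ∧ l.prod = g := by
  obtain ⟨U, hU⟩ : ∃ U : Set G, U = {g | dl g < ρ} := ⟨_, rfl⟩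
  have hUo : IsOpen U := by rw [hU]; exact isOpen_lt dl_cont continuous_const
  have hU1 : (1 : G) ∈ U := by rw [hU]; show dl (1 : G) < ρ; rw [dl_one]; exact hρ
  have hUi : ∀ g ∈ U, g⁻¹ ∈ U := by
    intro g hg
    rw [hU] at hg ⊢
    show dl g⁻¹ < ρ
    rw [dl_inv]; exact hg
  have h1 : IsOpen ((Subgroup.closure U : Subgroup G) : Set G) := by
    refine Subgroup.isOpen_of_mem_nhds _ (g := 1) ?_
    exact Filter.mem_of_superset (hUo.mem_nhds hU1) Subgroup.subset_closure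
  have h2 : IsClosed ((Subgroup.closure U : Subgroup G) : Set G) := Subgroup.isClosed_of_isOpen _ h1
  have h3 : ((Subgroup.closure U : Subgroup G) : Set G) = Set.univ :=
    IsClopen.eq_univ ⟨h2, h1⟩ ⟨1, Subgroup.one_mem _⟩
  have h4 : ∀ g : G, ∃ l : List G, (∀ h ∈ l, dl h ≤ ρ) ∧ l.prod = g := by
    intro g
    have h5 : g ∈ Subgroup.closure U := by
      have : g ∈ ((Subgroup.closure U : Subgroup G) : Set G) := by rw [h3]; trivial
      exact this
    have h50 : g ∈ Submonoid.closure (U ∪ U⁻¹) := by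
      rw [← Subgroup.closure_toSubmonoid]; exact h5
    obtain ⟨l, hl, hp⟩ := Submonoid.exists_list_of_mem_closure h50
    refine ⟨l, fun h hh => ?_, hp⟩
    rcases hl h hh with h6 | h6
    · rw [hU] at h6; exact le_of_lt h6
    · rw [hU] at h6
      have h7 : dl h⁻¹ < ρ := h6
      rw [dl_inv] at h7
      exact h7.le
  obtain ⟨t, ht⟩ := isCompact_univ.elim_finite_subcover (fun g : G => (fun x => g⁻¹ * x) ⁻¹' U)
    (fun g => hUo.preimage (continuous_const.mul continuous_id)) (fun x _ => by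
      refine Set.mem_iUnion.2 ⟨x, ?_⟩
      show x⁻¹ * x ∈ U
      rw [inv_mul_cancel]; exact hU1)
  choose l hl1 hl2 using h4
  refine ⟨t.sup (fun g => (l g).length) + 1, fun g => ?_⟩
  have h6 := ht (Set.mem_univ g)
  rw [Set.mem_iUnion₂] at h6
  obtain ⟨x, hx, hxg⟩ := h6
  refine ⟨l x ++ [x⁻¹ * g], ?_, fun h hh => ?_, ?_⟩
  · rw [List.length_append, List.length_singleton]
    exact Nat.add_le_add_right (Finset.le_sup (f := fun g => (l g).length) hx) 1
  · rcases List.mem_append.1 hh with h7 | h7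
    · exact hl1 x h h7
    · rw [List.mem_singleton] at h7
      have h8 : x⁻¹ * g ∈ U := hxg
      rw [h7]
      rw [hU] at h8
      exact le_of_lt h8
  · rw [List.prod_append, List.prod_singleton, hl2, mul_inv_cancel_left]

/-- concatenation of chains -/
lemma chain_concat {P : G → Prop} {k : ℕ} (l : List G)
    (h : ∀ x ∈ l, ∃ l' : List G, l'.length ≤ k ∧ (∀ y ∈ l', P y) ∧ l'.prod = x) :
    ∃ l' : List G, l'.length ≤ l.length * k ∧ (∀ y ∈ l', P y) ∧ l'.prod = l.prod := by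
  induction l with
  | nil => exact ⟨[], by simp, by simp, rfl⟩
  | cons a l ih =>
    obtain ⟨l1, a1, a2, a3⟩ := h a List.mem_cons_self
    obtain ⟨l2, b1, b2, b3⟩ := ih fun x hx => h x (List.mem_cons_of_mem _ hx)
    refine ⟨l1 ++ l2, ?_, fun y hy => ?_, ?_⟩
    · rw [List.length_append, List.length_cons, Nat.succ_mul]
      omega
    · rcases List.mem_append.1 hy with hy | hy
      · exact a2 y hy
      · exact b2 y hy
    · rw [List.prod_append, a3, b3, List.prod_cons]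

/-- small chains with the right number of elements -/
lemma chain_local {C : ℝ} (hC0 : 0 < C) (hC : ∀ g : G, ∃ h : G,
    dl h ≤ dl g / 2 + C * dl g ^ 2 ∧ dl (h⁻¹ * g) ≤ dl g / 2 + C * dl g ^ 2) {r s : ℝ}
    (hr : 0 < r) (hrs : r ≤ s) (hs : 8 * C * s ≤ 1) (g : G) (hg : dl g ≤ s) :
    ∃ l : List G, (l.length : ℝ) ≤ 8 * s / r ∧ (∀ h ∈ l, dl h ≤ r / 2) ∧ l.prod = g := by
  have hs0 : 0 < s := lt_of_lt_of_le hr hrs
  have hx : 1 ≤ s / r := by rwa [one_le_div hr]
  obtain ⟨j, hj1, hj2⟩ : ∃ j : ℕ, 4 * s / r ≤ 2 ^ j ∧ (2 : ℝ) ^ j ≤ 8 * s / r := by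
    have hex : ∃ j : ℕ, 4 * s / r ≤ (2 : ℝ) ^ j := by
      obtain ⟨j, hj⟩ := pow_unbounded_of_one_lt (4 * s / r) (one_lt_two)
      exact ⟨j, hj.le⟩
    classical
    refine ⟨Nat.find hex, Nat.find_spec hex, ?_⟩
    rcases Nat.eq_zero_or_pos (Nat.find hex) with h0 | h0
    · rw [h0, pow_zero]
      have : 8 * s / r = 8 * (s / r) := by ring
      rw [this]; linarith
    · obtain ⟨k, hk⟩ : ∃ k, Nat.find hex = k + 1 := ⟨Nat.find hex - 1, by omega⟩
      have h1 := Nat.find_min hex (m := k) (by omega)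
      push Not at h1
      rw [hk, pow_succ]
      have : 8 * s / r = 4 * s / r * 2 := by ring
      rw [this]; linarith
  obtain ⟨l, h1, h2, h3⟩ := chain_small hC0 hC j s hs0.le hs g hg
  refine ⟨l, ?_, fun h hh => (h2 h hh).trans ?_, h3⟩
  · rw [h1]; push_cast; exact hj2
  · have h4 : s / (1 - 4 * C * s) ≤ 2 * s := by
      rw [div_le_iff₀ (by linarith)]
      nlinarith
    calc s / (1 - 4 * C * s) / 2 ^ j ≤ 2 * s / 2 ^ j :=
          div_le_div_of_nonneg_right h4 (by positivity)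
      _ ≤ r / 2 := by
          rw [div_le_div_iff₀ (by positivity) (by norm_num)]
          rw [div_le_iff₀ hr] at hj1
          nlinarith

/-- **Chains.** -/
lemma chain_exists [CompactSpace G] [SecondCountableTopology G] [MeasurableSpace G] [BorelSpace G]
    [ConnectedSpace G] (hG : IsClosed (G : Set (UN N))) : ∃ A : ℝ, 1 ≤ A ∧
    ∀ r s (g : G), 0 < r → r ≤ s → dl g ≤ s → ∃ l : List G, (l.length : ℝ) ≤ A * s / r ∧
      (∀ h ∈ l, dl h ≤ r / 2) ∧ l.prod = g := by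
  obtain ⟨n, ⟨B⟩⟩ := exists_frame hG
  obtain ⟨C, hC0, hC⟩ := halving B hG
  obtain ⟨ρ, hρ⟩ : ∃ ρ, ρ = 1 / (8 * C) := ⟨_, rfl⟩
  have hρ0 : 0 < ρ := by rw [hρ]; positivity
  have hρC : 8 * C * ρ ≤ 1 := by rw [hρ]; field_simp; rfl
  obtain ⟨M, hM⟩ := gen_finite (G := G) hρ0
  refine ⟨16 * (M + 1), by have : (0 : ℝ) ≤ M := by positivity
                           linarith, fun r s g hr hrs hg => ?_⟩
  have hs0 : 0 < s := lt_of_lt_of_le hr hrs
  have hM0 : (0 : ℝ) ≤ M := by positivity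
  have hx : 1 ≤ s / r := by rwa [one_le_div hr]
  by_cases h1 : s ≤ ρ
  · obtain ⟨l, a1, a2, a3⟩ := chain_local hC0 hC hr hrs (by nlinarith) g hg
    refine ⟨l, a1.trans ?_, a2, a3⟩
    refine div_le_div_of_nonneg_right ?_ hr.le
    nlinarith
  · push Not at h1
    obtain ⟨l, a1, a2, a3⟩ := hM g
    obtain ⟨r', hr'⟩ : ∃ r', r' = min r ρ := ⟨_, rfl⟩
    have hr'0 : 0 < r' := by rw [hr']; exact lt_min hr hρ0
    have hr'r : r' ≤ r := by rw [hr']; exact min_le_left _ _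
    have hr'ρ : r' ≤ ρ := by rw [hr']; exact min_le_right _ _
    obtain ⟨k, hk⟩ : ∃ k : ℕ, k = ⌊8 * ρ / r'⌋₊ := ⟨_, rfl⟩
    have h2 : ∀ x ∈ l, ∃ l' : List G, l'.length ≤ k ∧ (∀ y ∈ l', dl y ≤ r / 2) ∧ l'.prod = x := by
      intro x hx
      obtain ⟨l', b1, b2, b3⟩ := chain_local hC0 hC hr'0 hr'ρ hρC x (a2 x hx)
      refine ⟨l', ?_, fun y hy => (b2 y hy).trans (by linarith), b3⟩
      rw [hk]
      exact Nat.le_floor b1
    obtain ⟨l', b1, b2, b3⟩ := chain_concat l h2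
    refine ⟨l', ?_, b2, b3.trans a3⟩
    have h3 : (k : ℝ) ≤ 8 * ρ / r' := by rw [hk]; exact Nat.floor_le (by positivity)
    have h4 : (l'.length : ℝ) ≤ M * k := by
      calc (l'.length : ℝ) ≤ ((l.length * k : ℕ) : ℝ) := by exact_mod_cast b1
        _ = l.length * k := by push_cast; ring
        _ ≤ M * k := mul_le_mul_of_nonneg_right (by exact_mod_cast a1) (by positivity)
    have h5 : 8 * ρ / r' ≤ 8 * (s / r) := by
      rcases le_total r ρ with h | h
      · have : r' = r := by rw [hr']; exact min_eq_left h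
        rw [this]
        have : 8 * ρ / r = 8 * (ρ / r) := by ring
        rw [this]
        have := div_le_div_of_nonneg_right h1.le hr.le
        linarith
      · have : r' = ρ := by rw [hr']; exact min_eq_right h
        rw [this]
        have : 8 * ρ / ρ = 8 := by field_simp
        rw [this]; linarith
    calc (l'.length : ℝ) ≤ M * k := h4
      _ ≤ M * (8 * (s / r)) := mul_le_mul_of_nonneg_left (h3.trans h5) hM0
      _ ≤ 16 * (M + 1) * s / r := by
          have : 16 * (M + 1 : ℝ) * s / r = 16 * (M + 1) * (s / r) := by ring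
          rw [this]; nlinarith

section vol

open Pool.Agent.H556R4.Dob

variable [IsTopologicalGroup G] [CompactSpace G] [SecondCountableTopology G] [MeasurableSpace G]
  [BorelSpace G] {μ : Measure G} [IsProbabilityMeasure μ] [μ.IsMulLeftInvariant]
  [μ.IsOpenPosMeasure]

/-- balls have positive volume -/
lemma vol_pos {r : ℝ} (hr : 0 < r) : 0 < Vol μ (dl : G → ℝ) r := by
  unfold Vol
  rw [integral_pos_iff_support_of_nonneg (fun g => ind_nonneg r g)
    ((ind_bm dl_cont r).integrable μ)]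
  have h1 : {g : G | dl g < r} ⊆ Function.support fun g => ind dl r g := by
    intro g hg
    rw [Function.mem_support]
    unfold ind
    rw [if_pos (le_of_lt hg)]
    exact one_ne_zero
  have h2 : IsOpen {g : G | dl g < r} := isOpen_lt dl_cont continuous_const
  refine lt_of_lt_of_le (h2.measure_pos μ ⟨1, ?_⟩) (measure_mono h1)
  show dl (1 : G) < r
  rw [dl_one]; exact hr

lemma vol_le_one (r : ℝ) : Vol μ (dl : G → ℝ) r ≤ 1 := by
  unfold Vol
  have h1 : ∫ g, ind (dl : G → ℝ) r g ∂μ ≤ ∫ _g : G, (1 : ℝ) ∂μ :=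
    integral_mono ((ind_bm dl_cont r).integrable μ) (integrable_const _) fun g => ind_le_one r g
  simpa using h1

lemma vol_mono {r s : ℝ} (h : r ≤ s) : Vol μ (dl : G → ℝ) r ≤ Vol μ dl s :=
  integral_mono ((ind_bm dl_cont r).integrable μ) ((ind_bm dl_cont s).integrable μ)
    fun g => ind_mono h g

/-- points of a small ball in the same cell are near -/
lemma near_cell (B : Frame G n) {C : ℝ} (hC0 : 0 ≤ C)
    (hC : ∀ g : G, ‖mt g - 1‖ ^ 2 ≤ ∑ a, ip (B.X a) (mt g - 1) ^ 2 + C * ‖mt g - 1‖ ^ 4)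
    {r : ℝ} (hr : 0 < r) (hrC : 128 * C * r ^ 2 ≤ 1) {x y : G} (hx : dl x ≤ 2 * r)
    (hy : dl y ≤ 2 * r)
    (hxy : ∀ a, |ip (B.X a) (mt x - 1) - ip (B.X a) (mt y - 1)| ≤ r / (n + 1)) :
    dl (y⁻¹ * x) ≤ r := by
  rw [dl_diff, norm_sub_rev]
  obtain ⟨A, hA⟩ : ∃ A, A = mt x - mt y := ⟨_, rfl⟩
  rw [← hA]
  have hAA : A = (mt x - 1) - (mt y - 1) := by rw [hA]; abel
  have h1 := norm_perp (X := B.X) B.orth A
  have h2 : A - ∑ a, ip (B.X a) A • B.X a =
      ((mt x - 1) - prj B (mt x - 1)) - ((mt y - 1) - prj B (mt y - 1)) := by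
    have e1 : ∑ a, ip (B.X a) A • B.X a = prj B (mt x - 1) - prj B (mt y - 1) := by
      unfold prj
      rw [← Finset.sum_sub_distrib]
      refine Finset.sum_congr rfl fun a _ => ?_
      rw [hAA, map_sub, sub_smul]
    rw [e1]
    nth_rewrite 1 [hAA]
    abel
  have h3 : ‖A - ∑ a, ip (B.X a) A • B.X a‖ ≤ 8 * Real.sqrt C * r ^ 2 := by
    rw [h2]
    refine (norm_sub_le _ _).trans ((add_le_add (perp_le B hC0 hC x) (perp_le B hC0 hC y)).trans ?_)
    have hs := Real.sqrt_nonneg C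
    have e1 : dl x ^ 2 ≤ (2 * r) ^ 2 := pow_le_pow_left₀ (dl_nonneg _) hx 2
    have e2 : dl y ^ 2 ≤ (2 * r) ^ 2 := pow_le_pow_left₀ (dl_nonneg _) hy 2
    have e3 := mul_le_mul_of_nonneg_left e1 hs
    have e4 := mul_le_mul_of_nonneg_left e2 hs
    nlinarith
  have h4 : ‖A - ∑ a, ip (B.X a) A • B.X a‖ ^ 2 ≤ 64 * C * r ^ 4 := by
    refine (pow_le_pow_left₀ (norm_nonneg _) h3 2).trans ?_
    rw [mul_pow, mul_pow, Real.sq_sqrt hC0]
    ring_nf
    rfl
  have h5 : ∑ a, ip (B.X a) A ^ 2 ≤ r ^ 2 / 4 := by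
    have hn : (0 : ℝ) ≤ n := Nat.cast_nonneg n
    calc ∑ a, ip (B.X a) A ^ 2 ≤ ∑ _a : Fin n, (r / (n + 1)) ^ 2 := by
          refine Finset.sum_le_sum fun a _ => ?_
          rw [hAA, map_sub, ← sq_abs]
          exact pow_le_pow_left₀ (abs_nonneg _) (hxy a) 2
      _ = n * (r / (n + 1)) ^ 2 := by simp
      _ ≤ r ^ 2 / 4 := by
          rw [div_pow, mul_div_assoc', div_le_div_iff₀ (by positivity) (by norm_num)]
          have h6 : 0 ≤ r ^ 2 * ((n : ℝ) - 1) ^ 2 := by positivity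
          nlinarith
  have h7 : ‖A‖ ^ 2 ≤ r ^ 2 := by
    have h8 : 64 * C * r ^ 4 ≤ r ^ 2 / 2 := by
      have : 64 * C * r ^ 4 = (128 * C * r ^ 2) * (r ^ 2 / 2) := by ring
      rw [this]
      have h9 : 0 ≤ r ^ 2 / 2 := by positivity
      nlinarith
    nlinarith
  exact (abs_le_of_sq_le_sq' h7 hr.le).2

/-- **Doubling.** -/
lemma doubling (hG : IsClosed (G : Set (UN N))) : ∃ K : ℝ, 1 ≤ K ∧
    ∀ r, 0 < r → Vol μ (dl : G → ℝ) (2 * r) ≤ K * Vol μ dl r := by
  classical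
  obtain ⟨n, ⟨B⟩⟩ := exists_frame hG
  obtain ⟨C, hC0, hC⟩ := cartan B hG
  obtain ⟨r0, hr0⟩ : ∃ r0, r0 = 1 / (128 * (C + 1)) := ⟨_, rfl⟩
  have hr00 : 0 < r0 := by rw [hr0]; positivity
  have hr0C : 128 * C * r0 ^ 2 ≤ 1 := by
    rw [hr0, div_pow, one_pow, mul_one_div, div_le_one (by positivity)]
    nlinarith
  obtain ⟨M, hM⟩ : ∃ M : ℤ, M = 2 * (n + 1) + 1 := ⟨_, rfl⟩
  obtain ⟨Z, hZ⟩ : ∃ Z : Finset (Fin n → ℤ), Z = Fintype.piFinset fun _ : Fin n =>
    Finset.Icc (-M) M := ⟨_, rfl⟩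
  have hV0 := vol_pos (μ := μ) (G := G) hr00
  refine ⟨max (Z.card + 1) (1 / Vol μ (dl : G → ℝ) r0), le_max_of_le_left (by simp),
    fun r hr => ?_⟩
  have hVr := vol_pos (μ := μ) (G := G) hr
  by_cases hrr : r0 ≤ r
  · calc Vol μ (dl : G → ℝ) (2 * r) ≤ 1 := vol_le_one _
      _ = 1 / Vol μ (dl : G → ℝ) r0 * Vol μ dl r0 := by field_simp
      _ ≤ 1 / Vol μ (dl : G → ℝ) r0 * Vol μ dl r :=
          mul_le_mul_of_nonneg_left (vol_mono hrr) (by positivity)
      _ ≤ _ := mul_le_mul_of_nonneg_right (le_max_right _ _) hVr.le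
  push Not at hrr
  have hrC : 128 * C * r ^ 2 ≤ 1 := by
    refine le_trans ?_ hr0C
    have := pow_le_pow_left₀ hr.le hrr.le 2
    exact mul_le_mul_of_nonneg_left this (by positivity)
  obtain ⟨ix, hix⟩ : ∃ ix : G → Fin n → ℤ, ix = fun x a =>
    ⌊ip (B.X a) ((mt x : Mat N) - 1) / (r / (n + 1))⌋ := ⟨_, rfl⟩
  have hs : 0 < r / ((n : ℝ) + 1) := by positivity
  have hmem : ∀ x : G, dl x ≤ 2 * r → ix x ∈ Z := by
    intro x hx
    rw [hZ, Fintype.mem_piFinset]
    intro a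
    have h1 : |ip (B.X a) (mt x - 1)| ≤ 2 * r := (abs_ip_X B a _).trans hx
    have h2 : |ip (B.X a) (mt x - 1) / (r / (n + 1))| ≤ 2 * (n + 1) := by
      rw [abs_div, abs_of_pos hs, div_le_iff₀ hs]
      have : 2 * ((n : ℝ) + 1) * (r / (n + 1)) = 2 * r := by field_simp
      rw [this]; exact h1
    rw [abs_le] at h2
    rw [Finset.mem_Icc, hix]
    refine ⟨?_, ?_⟩
    · refine Int.le_floor.2 ?_
      refine le_trans ?_ h2.1
      rw [hM]; push_cast; linarith
    · have h3 : (⌊ip (B.X a) (mt x - 1) / (r / (n + 1))⌋ : ℝ) ≤ 2 * (n + 1) :=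
        (Int.floor_le _).trans h2.2
      have h4 : ⌊ip (B.X a) (mt x - 1) / (r / (n + 1))⌋ ≤ 2 * ((n : ℤ) + 1) := by
        exact_mod_cast h3
      show ⌊ip (B.X a) (mt x - 1) / (r / (n + 1))⌋ ≤ M
      rw [hM]; omega
  obtain ⟨rep, hrep⟩ : ∃ rep : (Fin n → ℤ) → G, ∀ x : G, dl x ≤ 2 * r →
      dl (rep (ix x)) ≤ 2 * r ∧ ix (rep (ix x)) = ix x := by
    refine ⟨fun z => if h : ∃ x : G, dl x ≤ 2 * r ∧ ix x = z then h.choose else 1, fun x hx => ?_⟩
    have h : ∃ y : G, dl y ≤ 2 * r ∧ ix y = ix x := ⟨x, hx, rfl⟩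
    simp only [dif_pos h]
    exact h.choose_spec
  have hpt : ∀ x : G, ind dl (2 * r) x ≤ ∑ z ∈ Z, ind dl r ((rep z)⁻¹ * x) := by
    intro x
    by_cases hx : dl x ≤ 2 * r
    · have h1 : ind dl r ((rep (ix x))⁻¹ * x) = 1 := by
        unfold ind
        rw [if_pos]
        obtain ⟨h2, h3⟩ := hrep x hx
        refine near_cell B hC0.le hC hr hrC hx h2 fun a => ?_
        have h4 := congrFun h3 a
        rw [hix] at h4 ⊢
        have h5 := Int.abs_sub_lt_one_of_floor_eq_floor h4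
        rw [← sub_div, abs_div, abs_of_pos hs, div_lt_one hs, abs_sub_comm] at h5
        exact h5.le
      have h2 : ind dl (2 * r) x = 1 := by unfold ind; rw [if_pos hx]
      rw [h2, ← h1]
      exact Finset.single_le_sum (f := fun z => ind dl r ((rep z)⁻¹ * x))
        (fun z _ => ind_nonneg r _) (hmem x hx)
    · have h2 : ind dl (2 * r) x = 0 := by unfold ind; rw [if_neg hx]
      rw [h2]
      exact Finset.sum_nonneg fun z _ => ind_nonneg r _
  have hb : ∀ z, BM fun x : G => ind dl r ((rep z)⁻¹ * x) := fun z =>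
    (ind_bm dl_cont r).comp (measurable_const.mul measurable_id)
  have h1 : Vol μ (dl : G → ℝ) (2 * r) ≤ ∫ x, ∑ z ∈ Z, ind dl r ((rep z)⁻¹ * x) ∂μ :=
    integral_mono ((ind_bm dl_cont _).integrable μ)
      (integrable_finset_sum _ fun z _ => (hb z).integrable μ) hpt
  rw [integral_finset_sum _ fun z _ => (hb z).integrable μ] at h1
  have h2 : ∀ z, ∫ x, ind dl r ((rep z)⁻¹ * x) ∂μ = Vol μ dl r := fun z =>
    integral_mul_left_eq_self (fun x => ind (dl : G → ℝ) r x) _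
  rw [Finset.sum_congr rfl fun z _ => h2 z, Finset.sum_const, nsmul_eq_mul] at h1
  refine h1.trans ?_
  refine mul_le_mul_of_nonneg_right (le_max_of_le_left ?_) hVr.le
  linarith

/-- **The length function of a closed connected subgroup of the unitary group.** -/
theorem exists_Len [ConnectedSpace G] (hG : IsClosed (G : Set (UN N))) :
    ∃ R K A : ℝ, Len μ (dl : G → ℝ) R K A := by
  obtain ⟨K, hK1, hK⟩ := doubling (μ := μ) hG
  obtain ⟨A, hA1, hA⟩ := chain_exists hG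
  refine ⟨2 * ‖(1 : Mat N)‖ + 1, K, A, ?_⟩
  exact {
    cont := dl_cont
    nonneg := dl_nonneg
    one := dl_one
    inv := dl_inv
    mul := dl_mul
    bdd := dl_bdd
    R1 := by have := norm_nonneg (1 : Mat N); linarith
    K1 := hK1
    A1 := hA1
    pos := fun r hr => vol_pos hr
    dbl := hK
    chain := hA }

end vol

end Pool.Agent.Q295.YM
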