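import Mathlib
import Pool.Agent.Q295.YM.Group
import Pool.Agent.Q295.YM.Doeblin
import Pool.Agent.Q295.YM.Gap

/-!
# Closed subgroups of the unitary group: the parameters
-/

namespace Pool.Agent.Q295.YM

open MeasureTheory Matrix Filter Function
open scoped Matrix.Norms.Frobenius Topology
open Pool.Agent.H906R3.YM Pool.Agent.W793.YM Pool.Agent.TH618.YM Pool.Agent.H556R4.Dob

set_option linter.unusedSectionVars false
set_option linter.unusedVariables false

variable {N D : ℕ} {G : Subgroup (UN N)}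

/-- the real part of the trace -/
noncomputable def chi (g : G) : ℝ := (trace (mt g)).re

lemma mt_inv (g : G) : mt g⁻¹ = (mt g)ᴴ := by
  have h1 : mt g * mt g⁻¹ = 1 := by rw [← mt_mul, mul_inv_cancel, mt_one]
  have h2 : (mt g)ᴴ * mt g = 1 := rhoG_unit' g
  calc mt g⁻¹ = ((mt g)ᴴ * mt g) * mt g⁻¹ := by rw [h2, one_mul]
    _ = (mt g)ᴴ := by rw [mul_assoc, h1, mul_one]

lemma chi_inv (g : G) : chi g⁻¹ = chi g := by
  unfold chi
  rw [mt_inv, trace_conjTranspose]
  simp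

lemma chi_conj (g h : G) : chi (h * g * h⁻¹) = chi g := by
  unfold chi
  rw [mt_mul, mt_mul, trace_mul_comm, ← mul_assoc, ← mt_mul, inv_mul_cancel, mt_one, one_mul]

lemma dl_sq (g : G) : dl g ^ 2 = 2 * N - 2 * chi g := by
  unfold dl
  rw [norm_sq_ip, ip_apply, conjTranspose_sub, conjTranspose_one]
  have h2 : (mt g)ᴴ * mt g = 1 := rhoG_unit' g
  have h3 : ((mt g)ᴴ - 1) * (mt g - 1) = 1 + 1 - mt g - (mt g)ᴴ := by
    rw [sub_mul, mul_sub, mul_sub, h2, mul_one, one_mul, mul_one]; abel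
  rw [h3, trace_sub, trace_sub, trace_add, trace_one, trace_conjTranspose]
  unfold chi
  simp only [Fintype.card_fin, Complex.sub_re, Complex.add_re, Complex.natCast_re,
    Complex.star_def, Complex.conj_re]
  ring

lemma norm_one_sq : ‖(1 : Mat N)‖ ^ 2 = N := by
  rw [norm_sq_ip, ip_apply, conjTranspose_one, mul_one, trace_one]
  simp

lemma chi_cf : Cf (chi : G → ℝ) N := by
  refine ⟨?_, fun g h => chi_conj g h, chi_inv, fun g => ?_⟩
  · exact Complex.continuous_re.comp (Continuous.matrix_trace mt_cont)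
  · have h1 := dl_sq g
    have h2 := dl_nonneg g
    have h3 : dl g ≤ 2 * ‖(1 : Mat N)‖ := by
      have h4 := norm_sub_le (mt g) 1
      have h5 := norm_mt_mul g (1 : Mat N)
      rw [mul_one] at h5
      unfold dl
      linarith
    have h4 : dl g ^ 2 ≤ 4 * N := by
      have h5 := pow_le_pow_left₀ h2 h3 2
      rw [mul_pow, norm_one_sq] at h5
      linarith
    have h5 := sq_nonneg (dl g)
    rw [abs_le]
    constructor <;> linarith

variable [CompactSpace G] [SecondCountableTopology G] [MeasurableSpace G] [BorelSpace G]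
  {μ : Measure G} [IsProbabilityMeasure μ] [μ.IsMulLeftInvariant] [μ.IsMulRightInvariant]
  [μ.IsInvInvariant] [μ.IsOpenPosMeasure]

/-- the mixing times -/
theorem exists_kappa (hG : IsClosed (G : Set (UN N))) : ∃ (κ : ℝ → ℝ) (C : ℝ), 0 < C ∧
    (∀ β, 0 ≤ β → 1 ≤ κ β ∧ κ β ≤ Real.exp (C * (1 + β))) ∧
    (ConnectedSpace G → ∀ β, 0 ≤ β → κ β = 1 + β) ∧
    ∀ β, 0 ≤ β → ∃ m : ℕ, 1 ≤ m ∧ (m : ℝ) ≤ C * κ β ∧
      UM μ (fun a b => qf μ (dl : G → ℝ) β (a⁻¹ * b)) m := by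
  classical
  by_cases hc : ConnectedSpace G
  · obtain ⟨R, K, A, hL⟩ := exists_Len (μ := μ) hG
    obtain ⟨C, hC, h⟩ := exists_UM hL
    refine ⟨fun β => 1 + β, C + 1, by linarith, fun β hβ => ⟨by simpa using hβ, ?_⟩,
      fun _ β _ => rfl, fun β hβ => ?_⟩
    · have h1 := Real.add_one_le_exp ((C + 1) * (1 + β))
      nlinarith
    · obtain ⟨m, hm1, hm2, hm3⟩ := h β hβ
      refine ⟨m, hm1, hm2.trans ?_, hm3⟩
      nlinarith
  · obtain ⟨C, hC, h⟩ := exists_UM_gen (μ := μ) (ℓ := (dl : G → ℝ)) (R := 2 * ‖(1 : Mat N)‖ + 1)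
      dl_cont dl_nonneg dl_inv dl_bdd (by have := norm_nonneg (1 : Mat N); linarith)
    refine ⟨fun β => Real.exp (C * (1 + β)), C + 1, by linarith, fun β hβ => ⟨?_, ?_⟩,
      fun h => absurd h hc, fun β hβ => ?_⟩
    · exact Real.one_le_exp (by positivity)
    · exact Real.exp_le_exp.2 (by nlinarith)
    · obtain ⟨m, hm1, hm2, hm3⟩ := h β hβ
      refine ⟨m, hm1, hm2.trans ?_, hm3⟩
      have := Real.exp_pos (C * (1 + β))
      nlinarith

/-- the parameters are admissible -/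
lemma mk_par (D : ℕ) {βe βm : ℝ} {m : ℕ} (hm1 : 1 ≤ m)
    (hum : UM μ (fun a b => qf μ (dl : G → ℝ) βe (a⁻¹ * b)) m)
    (hsm : 128000 * D * N * (|βm| * m) ≤ 1) :
    ∃ c, Par μ D (chi : G → ℝ) (fun a b => qf μ (dl : G → ℝ) βe (a⁻¹ * b)) βe βm N c m := by
  have hpb : PB fun g : G => Real.exp (-(βe / 2 * dl g ^ 2)) := by
    refine PB.exp ⟨(measurable_const.mul (dl_cont.measurable.pow_const 2)).neg,
      |βe| / 2 * (2 * ‖(1 : Mat N)‖ + 1) ^ 2, fun g => ?_⟩
    rw [abs_neg, abs_mul, abs_div, abs_two, abs_of_nonneg (sq_nonneg (dl g))]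
    exact mul_le_mul_of_nonneg_left (pow_le_pow_left₀ (dl_nonneg g) (dl_bdd g) 2) (by positivity)
  have hZ := hpb.integral_pos μ
  refine ⟨Real.exp (-(βe * N)) / ∫ h, Real.exp (-(βe / 2 * dl h ^ 2)) ∂μ, chi_cf, by positivity,
    fun x y => ?_, hum, hm1, ?_⟩
  · unfold qf
    rw [dl_sq]
    have e1 : Real.exp (-(βe / 2 * (2 * N - 2 * chi (x⁻¹ * y)))) =
        Real.exp (-(βe * N)) * Real.exp (βe * chi (x⁻¹ * y)) := by
      rw [← Real.exp_add]; congr 1; ring
    rw [e1]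
    ring
  · calc (32000 : ℝ) * (4 * D) * m * (|βm| * N) = 128000 * D * N * (|βm| * m) := by ring
      _ ≤ 1 := hsm

end Pool.Agent.Q295.YM
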